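import Pool.Agent.Helper6.FR.Defs
import Pool.Agent.Helper6.DG.S0Defs

/-!
# Project ISO (MP_e0aac0_nt): the law along progressions of prime difference

Goal: for almost all primes `p` the law of `(Ω(n), Ω(n + p), ..., Ω(n + (k-1) p))`, tested by arbitrary
bounded functions in windows of scales, agrees with the law of `(Ω(n), Ω(n + 1), ..., Ω(n + k - 1))`.
-/

set_option autoImplicit false

namespace DG

open Finset Filter Topology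

/-! ## Entropy decrement, improved form, uniform constant -/

/-- Entropy decrement, improved: the bad scales `j` satisfy `∑ 1 / (j + 1) ≤ C` with `C` depending on
`k` and `ε` only. -/
def EntP : Prop := ∀ (k : ℕ) (ε : ℝ), 0 < ε → ∃ C : ℝ, ∀ (X : Sys) (pos : X.S → ℤ),
  (∀ x, pos (X.T x) = pos x + 1) → ∀ f : ℕ → X.S → ℝ, (∀ i x, f i x = 0 ∨ f i x = 1) →
  ∀ B : Finset ℕ, (∀ j ∈ B, ∃ Cw : X.S → ℂ, (∀ x, ‖Cw x‖ ≤ 1) ∧ TInv X Cw ∧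
    ε < (1 / ((dy j).card : ℝ)) * ∑ p ∈ dy j, ‖X.μ.E (fun x => Cw x *
      ((if (p : ℤ) ∣ pos x then (p : ℂ) else 0) - 1) *
        ∏ i ∈ range (k + 1), ((f i ((X.T ^ ((i : ℤ) * p)) x) : ℝ) : ℂ))‖) →
  ∑ j ∈ B, 1 / ((j : ℝ) + 1) ≤ C

/-! ## The product system -/

/-- The triples `(M, n, n')` with `a < M ≤ b` and `1 ≤ n, n' ≤ M`. -/
def wset2 (a b : ℕ) : Finset (Σ _ : ℕ, ℕ × ℕ) :=
  (Ioc a b).sigma (fun M => Icc 1 M ×ˢ Icc 1 M)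

theorem wset2_sumR (a b : ℕ) (f : ℕ → ℕ × ℕ → ℝ) :
    ∑ p ∈ wset2 a b, f p.1 p.2 = ∑ M ∈ Ioc a b, ∑ q ∈ Icc 1 M ×ˢ Icc 1 M, f M q :=
  Finset.sum_sigma _ _ _

theorem wset2_mass (a b : ℕ) :
    ∑ p ∈ wset2 a b, 1 / (p.1 : ℝ) ^ 3 = ∑ M ∈ Ioc a b, 1 / (M : ℝ) := by
  rw [wset2_sumR a b (fun M _ => 1 / (M : ℝ) ^ 3)]
  refine Finset.sum_congr rfl fun M hM => ?_
  have hM0 : (M : ℝ) ≠ 0 := by
    have := (Finset.mem_Ioc.1 hM).1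
    have h2 : 0 < M := lt_of_le_of_lt (Nat.zero_le _) this
    positivity
  rw [Finset.sum_const, Finset.card_product, Nat.card_Icc, Nat.add_sub_cancel, nsmul_eq_mul]
  push_cast
  field_simp

/-- The mean of the window `j`, two positions. -/
noncomputable def wmean2 (w : Win) (j : ℕ) : Mean (ℕ × ℕ × ℤ × ℤ) :=
  Mean.fin (wset2 (w.a j) (w.b j)) (fun p => 1 / (p.1 : ℝ) ^ 3)
    (fun p => (j, p.1, (p.2.1 : ℤ), (p.2.2 : ℤ)))
    (fun p _ => by positivity) (by rw [wset2_mass]; exact mass_pos (w.lt j))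

/-- The mean of the product system. -/
noncomputable def appμ2 (w : Win) : Mean (ℕ × ℕ × ℤ × ℤ) := ulim (hyperfilter ℕ) (wmean2 w)

/-- The shift of both positions. -/
def shT2 : Equiv.Perm (ℕ × ℕ × ℤ × ℤ) :=
  (Equiv.refl ℕ).prodCongr ((Equiv.refl ℕ).prodCongr
    ((Equiv.addRight (1 : ℤ)).prodCongr (Equiv.addRight (1 : ℤ))))

/-! ## Means along progressions -/

/-- `E_{n ≤ M} F (Ω(n), Ω(n + p), ..., Ω(n + (k-1) p))` -/
noncomputable def Ecp (k p M : ℕ) (F : (Fin k → ℕ) → ℝ) : ℝ :=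
  1 / (M : ℝ) * ∑ n ∈ Icc 1 M, F (fun i => ArithmeticFunction.cardFactors (n + i * p))

/-- the primes `p ≤ Y` -/
def prY (Y : ℕ) : Finset ℕ := (Icc 1 Y).filter Nat.Prime

/-- Product sets. -/
def IsoProd (k : ℕ) : Prop := ∀ ε : ℝ, 0 < ε → ∃ Y0 : ℕ, ∀ Y : ℕ, Y0 ≤ Y → ∃ K0 N0 : ℕ,
  ∀ N K : ℕ, N0 ≤ N → K0 ≤ K → K ≤ N → ∀ A : Fin k → Finset ℕ,
    ∑ p ∈ prY Y, (1 / (p : ℝ)) * ∑ M ∈ Ioc (N / K) N, (1 / (M : ℝ)) *
      |Ec k M (fun l => if ∀ i, l i ∈ A i then 1 else 0) -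
        Ecp k p M (fun l => if ∀ i, l i ∈ A i then 1 else 0)| ≤
      ε * Real.log (Real.log Y) * Real.log K

/-- All bounded functions. -/
def IsoAll (k : ℕ) : Prop := ∀ ε : ℝ, 0 < ε → ∃ Y0 : ℕ, ∀ Y : ℕ, Y0 ≤ Y → ∃ K0 N0 : ℕ,
  ∀ N K : ℕ, N0 ≤ N → K0 ≤ K → K ≤ N → ∀ F : (Fin k → ℕ) → ℝ, (∀ l, |F l| ≤ 1) →
    ∑ p ∈ prY Y, (1 / (p : ℝ)) * ∑ M ∈ Ioc (N / K) N, (1 / (M : ℝ)) *
      |Ec k M F - Ecp k p M F| ≤ ε * Real.log (Real.log Y) * Real.log K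

end DG

namespace FR

open Finset Helper13.Om Helper11.QR AS

/-- The lines of the grid `{0..k-1}^t` parallel to an axis: `(j, x)` with `x j = 0`. -/
def linG (k t : ℕ) [NeZero k] : Finset (Fin t × (Fin t → Fin k)) := univ.filter (fun e => e.2 e.1 = 0)

/-- The site of a vertex of the grid. -/
def posG {k t : ℕ} (d : Fin t → ℕ) (v : Fin t → Fin k) : ℕ := ∑ j, (v j : ℕ) * d j

end FR
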