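import Pool.Agent.Helper6.IS.JDefs
import Pool.Agent.Helper31.DG.Main

/-!
# ISO-9: entropy decrement, bounded sum over the bad primes

PROOF. As I1Ent.lean (`entP`), with the average over the dyadic block `dyP (2^j)` replaced by the average over the subset
`S = B ∩ dyP (2^j)` of the bad primes (nonempty). Three lemmas have to be restated for a subset `S ⊆ dyP P`:
* `point` (Helper31/DG/Point.lean) with `(1 / |S|) ∑_{p ∈ S}` on the left and `2 t² / |S|` on the right, the residue still modulo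
 `MP P` (same proof: signs `σ p = 0` for `p ∉ S`; the number of nonzero terms in the Hoeffding exponent is `|S|`);
* `real_bd` (Helper31/DG/Main.lean) with the average over `S` (it uses `R_abs_Psi` for the error `2 / m`), and `exists_J` of I1Ent.
For `S` with `|S| ≥ 16 log 2 / ε'²` (`ε' = ε / 12`) take `t = ε' |S| / 4`: `ε'² |S| / 16 ≤ II j`, so `∑_{p ∈ S} 1/p ≤ |S| / 2^j ≤ (16 (2k+1) / ε'²) II j / ((2k+1) 2^j)`,
and `∑_j II j / ((2k+1) 2^j) ≤ GG 0 ≤ (k+1) log 2` (telescoping, `GG_step`, as in I1Ent). For smaller `S`: `∑_{p ∈ S} 1/p ≤ (16 log 2 / ε'²) / 2^j`,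
sum over `j` at most `32 log 2 / ε'²`. Every prime lies in exactly one block `dyP (2^j)` (`2^j < p ≤ 2^(j+1)`, `j ≥ 0`). No Chebyshev bound is needed.
-/

set_option autoImplicit false

namespace DGES

open Finset DG DGE MRP

/-- The product of the primes up to `2^j`. -/
private def PQ (j : ℕ) : ℕ := ∏ p ∈ (Ioc 0 (2 ^ j)).filter Nat.Prime, p

private theorem PQ_ne (j : ℕ) : PQ j ≠ 0 :=
  Finset.prod_ne_zero_iff.2 fun _ hp => (Finset.mem_filter.1 hp).2.ne_zero

private instance instPQ (j : ℕ) : NeZero (PQ j) := ⟨PQ_ne j⟩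

private theorem PQ_succ (j : ℕ) : PQ (j + 1) = PQ j * MP (2 ^ j) := by
  unfold PQ MP dyP
  rw [← Finset.prod_union]
  · congr 1
    ext p
    simp only [Finset.mem_filter, Finset.mem_Ioc, Finset.mem_union, pow_succ']
    have h : 0 < 2 ^ j := by positivity
    constructor
    · rintro ⟨⟨h1, h2⟩, h3⟩
      by_cases h4 : p ≤ 2 ^ j
      · exact Or.inl ⟨⟨h1, h4⟩, h3⟩
      · exact Or.inr ⟨⟨not_le.1 h4, h2⟩, h3⟩
    · rintro (⟨⟨h1, h2⟩, h3⟩ | ⟨⟨h1, h2⟩, h3⟩)
      · exact ⟨⟨h1, by omega⟩, h3⟩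
      · exact ⟨⟨by omega, h2⟩, h3⟩
  · rw [Finset.disjoint_left]
    intro p hp hp2
    have h1 := (Finset.mem_Ioc.1 (Finset.mem_filter.1 hp).1).2
    have h2 := (Finset.mem_Ioc.1 (Finset.mem_filter.1 hp2).1).1
    omega

private theorem PQ_cop (j : ℕ) : Nat.Coprime (PQ j) (MP (2 ^ j)) := by
  unfold PQ MP dyP
  refine Nat.Coprime.prod_left fun p hp => Nat.Coprime.prod_right fun q hq => ?_
  have h1 := Finset.mem_filter.1 hp
  have h2 := Finset.mem_filter.1 hq
  rw [Nat.coprime_primes h1.2 h2.2]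
  have h3 := (Finset.mem_Ioc.1 h1.1).2
  have h4 := (Finset.mem_Ioc.1 h2.1).1
  omega

private theorem res_eq_iff {S : Type} (pos : S → ℤ) (M : ℕ) [NeZero M] (x x' : S) :
    res pos M x = res pos M x' ↔ pos x ≡ pos x' [ZMOD (M : ℤ)] := by
  have h0 : (0 : ℤ) < M := by exact_mod_cast NeZero.pos M
  have e1 := Int.emod_nonneg (pos x) h0.ne'
  have e2 := Int.emod_nonneg (pos x') h0.ne'
  rw [Fin.ext_iff]
  simp only [res]
  unfold Int.ModEq
  omega

private theorem res_mul {S : Type} (pos : S → ℤ) (M N K : ℕ) [NeZero M] [NeZero N] [NeZero K]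
    (hK : K = M * N) (hc : Nat.Coprime M N) (x x' : S) (h1 : res pos M x = res pos M x')
    (h2 : res pos N x = res pos N x') : res pos K x = res pos K x' := by
  rw [res_eq_iff] at h1 h2 ⊢
  rw [hK]
  push_cast
  exact (Int.modEq_and_modEq_iff_modEq_mul (by simpa using hc)).1 ⟨h1, h2⟩

private theorem word_chain2 (X : Sys) {A β : Type} [Fintype A] [DecidableEq A] [Nonempty A]
    [Fintype β] [DecidableEq β] [Nonempty β] (c : X.S → A) (y : X.S → β) (a m L : ℕ)
    (hy : ∀ (n : ℤ) (x x' : X.S), y ((X.T ^ n) x) = y ((X.T ^ n) x') → y x = y x') :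
    ent X.μ (fun x => (word X c a (m * L) x, y x)) ≤
      ent X.μ y + m * (ent X.μ (fun x => (word X c a L x, y x)) - ent X.μ y) := by
  have h1 : ent X.μ (fun x => (word X c a (m * L) x, y x)) ≤
      ent X.μ (fun x => ((fun i : Fin m =>
        word X c a L ((X.T ^ ((a : ℤ) * (((i : ℕ) : ℤ) * L))) x)), y x)) := by
    refine ent_factor X.μ _ _ ?_
    intro x x' h
    have ha := congrArg Prod.fst h
    have hb := congrArg Prod.snd h
    simp only at ha hb
    refine Prod.ext (funext fun j => ?_) hb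
    have hj := j.2
    have hL : 0 < L := by
      rcases Nat.eq_zero_or_pos L with h0 | h0
      · have : m * L = 0 := by rw [h0, Nat.mul_zero]
        omega
      · exact h0
    have hi : (j : ℕ) / L < m := Nat.div_lt_of_lt_mul (lt_of_lt_of_eq hj (Nat.mul_comm m L))
    have hr : (j : ℕ) % L < L := Nat.mod_lt _ hL
    have h1 := congrFun (congrFun ha ⟨(j : ℕ) / L, hi⟩) ⟨(j : ℕ) % L, hr⟩
    simp only [word] at h1 ⊢
    have h2 : ∀ z : X.S, (X.T ^ ((a : ℤ) * (((j : ℕ) % L : ℕ) : ℤ)))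
        ((X.T ^ ((a : ℤ) * ((((j : ℕ) / L : ℕ) : ℤ) * L))) z) =
        (X.T ^ ((a : ℤ) * ((j : ℕ) : ℤ))) z := by
      intro z
      rw [← Equiv.Perm.mul_apply, ← zpow_add]
      congr 2
      have h3 := Nat.div_add_mod' (j : ℕ) L
      have h4 : (((j : ℕ) / L : ℕ) : ℤ) * L + (((j : ℕ) % L : ℕ) : ℤ) = ((j : ℕ) : ℤ) := by
        exact_mod_cast h3
      rw [← mul_add, add_comm, h4]
    rw [h2, h2] at h1
    exact h1
  have h2 := chain X.μ (fun i x => word X c a L ((X.T ^ ((a : ℤ) * ((i : ℤ) * L))) x)) y m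
  have h3 : ∀ i ∈ range m,
      ent X.μ (fun x => (word X c a L ((X.T ^ ((a : ℤ) * ((i : ℤ) * L))) x), y x)) - ent X.μ y ≤
        ent X.μ (fun x => (word X c a L x, y x)) - ent X.μ y := by
    intro i _
    have h4 : ent X.μ (fun x => (word X c a L ((X.T ^ ((a : ℤ) * ((i : ℤ) * L))) x), y x)) ≤
        ent X.μ (fun x => (word X c a L ((X.T ^ ((a : ℤ) * ((i : ℤ) * L))) x),
          y ((X.T ^ ((a : ℤ) * ((i : ℤ) * L))) x))) := by
      refine ent_factor X.μ _ _ ?_
      intro x x' h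
      have h5 := congrArg Prod.fst h
      have h6 := congrArg Prod.snd h
      simp only at h5 h6
      exact Prod.ext h5 (hy _ _ _ h6)
    rw [ent_shift X (fun x => (word X c a L x, y x))] at h4
    linarith
  have h4 := Finset.sum_le_sum h3
  rw [Finset.sum_const, card_range, nsmul_eq_mul] at h4
  linarith

/-- Normalised conditional entropy at the scale `2^j`. -/
private noncomputable def GG (X : Sys) (pos : X.S → ℤ) (k : ℕ) (f : ℕ → X.S → ℝ) (j : ℕ) : ℝ :=
  (ent X.μ (fun x => (word X (lett k f) 1 ((2 * k + 1) * 2 ^ j) x, res pos (PQ j) x)) -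
    Real.log (PQ j)) / ((2 * (k : ℝ) + 1) * 2 ^ j)

/-- The mutual information of the word and the residue. -/
private noncomputable def II (X : Sys) (pos : X.S → ℤ) (k : ℕ) (f : ℕ → X.S → ℝ) (j : ℕ) : ℝ :=
  ent X.μ (word X (lett k f) 1 ((2 * k + 1) * 2 ^ j)) + Real.log (MP (2 ^ j)) -
    ent X.μ (fun x => (word X (lett k f) 1 ((2 * k + 1) * 2 ^ j) x, res pos (MP (2 ^ j)) x))

private theorem II_nonneg (X : Sys) (pos : X.S → ℤ) (hpos : ∀ x, pos (X.T x) = pos x + 1) (k : ℕ)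
    (f : ℕ → X.S → ℝ) (j : ℕ) : 0 ≤ II X pos k f j := by
  have h := ent_pair_le X.μ (word X (lett k f) 1 ((2 * k + 1) * 2 ^ j)) (res pos (MP (2 ^ j)))
  rw [ent_res X pos hpos] at h
  unfold II
  linarith

private theorem GG_nonneg (X : Sys) (pos : X.S → ℤ) (hpos : ∀ x, pos (X.T x) = pos x + 1) (k : ℕ)
    (f : ℕ → X.S → ℝ) (j : ℕ) : 0 ≤ GG X pos k f j := by
  refine div_nonneg ?_ (by positivity)
  have h : ent X.μ (res pos (PQ j)) ≤
      ent X.μ (fun x => (word X (lett k f) 1 ((2 * k + 1) * 2 ^ j) x, res pos (PQ j) x)) :=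
    ent_factor X.μ _ _ fun x x' h => congrArg Prod.snd h
  rw [ent_res X pos hpos] at h
  linarith

private theorem GG_zero (X : Sys) (pos : X.S → ℤ) (hpos : ∀ x, pos (X.T x) = pos x + 1) (k : ℕ)
    (f : ℕ → X.S → ℝ) : GG X pos k f 0 ≤ Real.log (Fintype.card (Fin (k + 1) → Bool)) := by
  have h := ent_pair_le X.μ (word X (lett k f) 1 ((2 * k + 1) * 2 ^ 0)) (res pos (PQ 0))
  rw [ent_res X pos hpos] at h
  have h2 := ent_word_le X (lett k f) 1 ((2 * k + 1) * 2 ^ 0)
  unfold GG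
  rw [div_le_iff₀ (by positivity)]
  have h3 : (((2 * k + 1) * 2 ^ 0 : ℕ) : ℝ) = (2 * (k : ℝ) + 1) * 2 ^ 0 := by
    push_cast
    ring
  rw [h3] at h2
  linarith

private theorem GG_step (X : Sys) (pos : X.S → ℤ) (hpos : ∀ x, pos (X.T x) = pos x + 1) (k : ℕ)
    (f : ℕ → X.S → ℝ) (j : ℕ) :
    II X pos k f j / ((2 * (k : ℝ) + 1) * 2 ^ j) ≤ GG X pos k f j - GG X pos k f (j + 1) := by
  have h1 := word_chain2 X (lett k f) (res pos (PQ (j + 1))) 1 2 ((2 * k + 1) * 2 ^ j)
    (fun n x x' => res_shift X pos hpos (PQ (j + 1)) n x x')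
  rw [ent_res X pos hpos] at h1
  have e : 2 * ((2 * k + 1) * 2 ^ j) = (2 * k + 1) * 2 ^ (j + 1) := by ring
  rw [e] at h1
  have h2 : ent X.μ (fun x => (word X (lett k f) 1 ((2 * k + 1) * 2 ^ j) x,
      res pos (PQ (j + 1)) x)) ≤
      ent X.μ (fun x => (res pos (PQ j) x, res pos (MP (2 ^ j)) x,
        word X (lett k f) 1 ((2 * k + 1) * 2 ^ j) x)) := by
    refine ent_factor X.μ _ _ fun x x' h => ?_
    have ha := congrArg Prod.fst h
    have hb := congrArg (fun z => z.2.1) h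
    have hc := congrArg (fun z => z.2.2) h
    simp only at ha hb hc
    exact Prod.ext hc (res_mul pos (PQ j) (MP (2 ^ j)) (PQ (j + 1)) (PQ_succ j) (PQ_cop j) x x'
      ha hb)
  have h3 := submod X.μ (res pos (PQ j)) (res pos (MP (2 ^ j)))
    (word X (lett k f) 1 ((2 * k + 1) * 2 ^ j))
  have h4 : ent X.μ (fun x => (res pos (PQ j) x, word X (lett k f) 1 ((2 * k + 1) * 2 ^ j) x)) ≤
      ent X.μ (fun x => (word X (lett k f) 1 ((2 * k + 1) * 2 ^ j) x, res pos (PQ j) x)) :=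
    ent_factor X.μ _ _ fun x x' h => Prod.ext (congrArg Prod.snd h) (congrArg Prod.fst h)
  have h5 : ent X.μ (fun x => (res pos (MP (2 ^ j)) x,
      word X (lett k f) 1 ((2 * k + 1) * 2 ^ j) x)) ≤
      ent X.μ (fun x => (word X (lett k f) 1 ((2 * k + 1) * 2 ^ j) x,
        res pos (MP (2 ^ j)) x)) :=
    ent_factor X.μ _ _ fun x x' h => Prod.ext (congrArg Prod.snd h) (congrArg Prod.fst h)
  have hlog : Real.log (PQ (j + 1)) = Real.log (PQ j) + Real.log (MP (2 ^ j)) := by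
    rw [PQ_succ]
    push_cast
    rw [Real.log_mul (by exact_mod_cast PQ_ne j) (by exact_mod_cast MP_ne (2 ^ j))]
  unfold II GG
  set E0 := ent X.μ (word X (lett k f) 1 ((2 * k + 1) * 2 ^ j))
  set E1 := ent X.μ (fun x => (word X (lett k f) 1 ((2 * k + 1) * 2 ^ j) x, res pos (PQ j) x))
  set E2 := ent X.μ (fun x => (word X (lett k f) 1 ((2 * k + 1) * 2 ^ j) x,
    res pos (MP (2 ^ j)) x))
  set E3 := ent X.μ (fun x => (word X (lett k f) 1 ((2 * k + 1) * 2 ^ (j + 1)) x,
    res pos (PQ (j + 1)) x))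
  set E4 := ent X.μ (fun x => (word X (lett k f) 1 ((2 * k + 1) * 2 ^ j) x,
      res pos (PQ (j + 1)) x))
  have hd : (0 : ℝ) < (2 * (k : ℝ) + 1) * 2 ^ j := by positivity
  have hd2 : (2 * (k : ℝ) + 1) * 2 ^ (j + 1) = 2 * ((2 * (k : ℝ) + 1) * 2 ^ j) := by
    rw [pow_succ]; ring
  rw [hd2, ← sub_nonneg]
  have h6 : (E1 - Real.log (PQ j)) / ((2 * (k : ℝ) + 1) * 2 ^ j) -
      (E3 - Real.log (PQ (j + 1))) / (2 * ((2 * (k : ℝ) + 1) * 2 ^ j)) -
      (E0 + Real.log (MP (2 ^ j)) - E2) / ((2 * (k : ℝ) + 1) * 2 ^ j) =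
      (2 * (E1 - Real.log (PQ j)) - (E3 - Real.log (PQ (j + 1))) -
        2 * (E0 + Real.log (MP (2 ^ j)) - E2)) / (2 * ((2 * (k : ℝ) + 1) * 2 ^ j)) := by
    field_simp
  rw [h6]
  refine div_nonneg ?_ (by positivity)
  push_cast at h1
  rw [hlog] at h1 ⊢
  linarith

/-- Exponential moments, subset of the primes of the block. -/
private theorem hoeffS (P a : ℕ) (ha : ∀ p ∈ dyP P, ¬ p ∣ a) (S : Finset ℕ) (hS : S ⊆ dyP P)
    (σ : ℕ → ℝ) (hσ : ∀ p, |σ p| ≤ 1)
    (φ : ℕ → ℕ → ℝ) (h0 : ∀ p j, 0 ≤ φ p j) (h1 : ∀ p j, φ p j ≤ 1) (s : ℝ) :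
    ∑ r ∈ range (MP P), Real.exp (s * ∑ p ∈ S, σ p * fp P p a (φ p) r) ≤
      (MP P : ℝ) * Real.exp (2 * s ^ 2 * (S.card : ℝ)) := by
  classical
  set τ : ℕ → ℝ := fun p => if p ∈ S then σ p else 0 with hτ
  have hsum : ∀ r : ℕ, ∑ p ∈ S, σ p * fp P p a (φ p) r =
      ∑ p ∈ dyP P, τ p * fp P p a (φ p) (r % p) := by
    intro r
    rw [← Finset.sum_subset hS]
    · refine Finset.sum_congr rfl fun p hp => ?_
      simp only [hτ, if_pos hp]
      rw [← fp_mod P p a (φ p) r]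
    · intro p _ hp
      simp only [hτ, if_neg hp, zero_mul]
  have hexp : ∀ r : ℕ, Real.exp (s * ∑ p ∈ S, σ p * fp P p a (φ p) r) =
      ∏ p ∈ dyP P, Real.exp ((s * τ p) * fp P p a (φ p) (r % p)) := by
    intro r
    rw [← Real.exp_sum, hsum r, Finset.mul_sum]
    congr 1
    refine Finset.sum_congr rfl fun p _ => ?_
    ring
  have hprime : ∀ p ∈ dyP P, Nat.Prime p := fun p hp => (Finset.mem_filter.1 hp).2
  have h2 : ∑ r ∈ range (MP P), Real.exp (s * ∑ p ∈ S, σ p * fp P p a (φ p) r) =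
      ∏ p ∈ dyP P, ∑ q ∈ range p, Real.exp ((s * τ p) * fp P p a (φ p) q) := by
    rw [Finset.sum_congr rfl fun r _ => hexp r]
    exact MRA.crt (dyP P) hprime (fun p q => Real.exp ((s * τ p) * fp P p a (φ p) q))
  rw [h2]
  have h3 : ∏ p ∈ dyP P, ∑ q ∈ range p, Real.exp ((s * τ p) * fp P p a (φ p) q) ≤
      ∏ p ∈ dyP P, ((p : ℝ) * Real.exp (if p ∈ S then 2 * s ^ 2 else 0)) := by
    refine Finset.prod_le_prod ?_ ?_
    · intro p _
      exact Finset.sum_nonneg fun s _ => (Real.exp_pos _).le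
    · intro p hp
      refine (fp_exp hp (ha p hp) (φ p) (h0 p) (h1 p) (s * τ p)).trans ?_
      refine mul_le_mul_of_nonneg_left (Real.exp_le_exp.2 ?_) (Nat.cast_nonneg _)
      by_cases hpS : p ∈ S
      · simp only [hτ, if_pos hpS]
        have h4 : σ p ^ 2 ≤ 1 := by
          have := hσ p
          rw [abs_le] at this
          nlinarith [this.1, this.2]
        have h5 : 0 ≤ s ^ 2 := sq_nonneg _
        have h6 : (s * σ p) ^ 2 = s ^ 2 * σ p ^ 2 := by ring
        rw [h6]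
        nlinarith
      · simp only [hτ, if_neg hpS, mul_zero]
        norm_num
  refine h3.trans (le_of_eq ?_)
  have h4 : (MP P : ℝ) = ∏ p ∈ dyP P, (p : ℝ) := by
    unfold MP
    push_cast
    rfl
  rw [Finset.prod_mul_distrib, ← Real.exp_sum, h4]
  congr 2
  rw [Finset.sum_ite_mem, Finset.inter_eq_right.2 hS, Finset.sum_const, nsmul_eq_mul]
  ring

private theorem hoeffS_fin (P a : ℕ) (ha : ∀ p ∈ dyP P, ¬ p ∣ a) (S : Finset ℕ)
    (hS : S ⊆ dyP P) (σ : ℕ → ℝ) (hσ : ∀ p, |σ p| ≤ 1)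
    (φ : ℕ → ℕ → ℝ) (h0 : ∀ p j, 0 ≤ φ p j) (h1 : ∀ p j, φ p j ≤ 1) (s : ℝ) :
    ∑ r : Fin (MP P), Real.exp (s * ∑ p ∈ S, σ p * fp P p a (φ p) (r : ℕ)) ≤
      Real.exp (2 * s ^ 2 * (S.card : ℝ)) * (Fintype.card (Fin (MP P)) : ℝ) := by
  rw [Fintype.card_fin, mul_comm]
  rw [Fin.sum_univ_eq_sum_range (fun r => Real.exp (s * ∑ p ∈ S, σ p * fp P p a (φ p) r)) (MP P)]
  exact hoeffS P a ha S hS σ hσ φ h0 h1 s

/-- The estimate at one scale, subset of the primes of the block. -/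
private theorem pointS (X : Sys) (pos : X.S → ℤ) (hpos : ∀ x, pos (X.T x) = pos x + 1) (k : ℕ)
    (f : ℕ → X.S → ℝ) (hf : ∀ i x, f i x = 0 ∨ f i x = 1) (a P : ℕ)
    (ha : ∀ p ∈ dyP P, ¬ p ∣ a) (S : Finset ℕ) (hS : S ⊆ dyP P)
    (J : X.S → Bool) (hJ : ∀ x, J (X.T x) = J x) (s : ℝ) (hs : 0 < s) :
    s * ∑ p ∈ S,
      |X.μ.R (fun x => (if J x = true then (1 : ℝ) else 0) * Psi X pos k f a p x)| ≤
      ent X.μ (word X (lett k f) a ((2 * k + 1) * P)) + Real.log (MP P) -
        ent X.μ (fun x => (word X (lett k f) a ((2 * k + 1) * P) x, res pos (MP P) x)) +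
        Real.log 2 + 2 * s ^ 2 * (S.card : ℝ) := by
  classical
  set L : ℕ := (2 * k + 1) * P with hL
  set w : X.S → (Fin L → Fin (k + 1) → Bool) := word X (lett k f) a L with hw
  set y : X.S → Fin (MP P) := res pos (MP P) with hy
  set σ : ℕ → ℝ := fun p => if 0 ≤ X.μ.R (fun x => (if J x = true then (1 : ℝ) else 0) *
    Psi X pos k f a p x) then 1 else -1 with hσ
  have hσ1 : ∀ p, |σ p| ≤ 1 := by
    intro p
    simp only [hσ]
    split_ifs <;> simp
  have hσ2 : ∀ p, σ p * X.μ.R (fun x => (if J x = true then (1 : ℝ) else 0) *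
      Psi X pos k f a p x) = |X.μ.R (fun x => (if J x = true then (1 : ℝ) else 0) *
      Psi X pos k f a p x)| := by
    intro p
    simp only [hσ]
    split_ifs with h
    · rw [one_mul, abs_of_nonneg h]
    · rw [abs_of_neg (not_le.1 h)]
      ring
  set F : (Bool × (Fin L → Fin (k + 1) → Bool)) → Fin (MP P) → ℝ := fun v r =>
    (if v.1 = true then s * ∑ p ∈ S, σ p * fp P p a (phi k v.2 p) (r : ℕ) else 0) with hF
  have h1 := dv X.μ (fun x => (J x, w x)) y F (Real.exp (2 * s ^ 2 * (S.card : ℝ)))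
    (Real.exp_pos _) (by
    intro v
    simp only [hF]
    by_cases hv : v.1 = true
    · simp only [hv, if_true]
      exact hoeffS_fin P a ha S hS σ hσ1 (phi k v.2) (phi_nonneg k v.2) (phi_le_one k v.2) s
    · have hv' : v.1 = false := by simpa using hv
      simp only [hv', Bool.false_eq_true, if_false, Real.exp_zero, Finset.sum_const,
        Finset.card_univ, nsmul_eq_mul, mul_one]
      have h2 : (1 : ℝ) ≤ Real.exp (2 * s ^ 2 * (S.card : ℝ)) := by
        apply Real.one_le_exp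
        positivity
      nlinarith [(Nat.cast_nonneg (Fintype.card (Fin (MP P))) : (0 : ℝ) ≤ _)])
  rw [Real.log_exp, Fintype.card_fin] at h1
  have h2 : X.μ.R (fun x => F (J x, w x) (y x)) = s * ∑ p ∈ S,
      |X.μ.R (fun x => (if J x = true then (1 : ℝ) else 0) * Psi X pos k f a p x)| := by
    have h3 : (fun x => F (J x, w x) (y x)) = fun x => s * ∑ p ∈ S,
        σ p * ((if J x = true then (1 : ℝ) else 0) *
          fp P p a (phi k (w x) p) (y x : ℕ)) := by
      funext x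
      simp only [hF]
      by_cases hx : J x = true
      · simp only [hx, if_true, one_mul]
      · simp only [hx, Bool.false_eq_true, if_false, zero_mul, mul_zero, Finset.sum_const_zero]
    rw [h3, X.μ.R_const_mul, X.μ.R_sum]
    congr 1
    refine Finset.sum_congr rfl fun p hp => ?_
    rw [X.μ.R_const_mul, ← hσ2 p, R_Psi X pos hpos k f hf a P p (hS hp) J hJ]
  rw [h2] at h1
  have h3 : ent X.μ (fun x => (J x, w x)) ≤ Real.log 2 + ent X.μ w := by
    have h4 := ent_pair_le X.μ J w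
    have h5 : ent X.μ J ≤ Real.log 2 := by
      have := ent_le_card X.μ J
      simpa using this
    linarith
  have h4 : ent X.μ (fun x => (w x, y x)) ≤ ent X.μ (fun x => ((J x, w x), y x)) :=
    ent_factor X.μ _ _ fun x x' h => by
      have h5 := congrArg (fun z => z.1.2) h
      have h6 := congrArg Prod.snd h
      simp only at h5 h6
      exact Prod.ext h5 h6
  linarith

/-- real invariant weights, subset of the primes -/
private theorem real_bdS (X : Sys) (pos : X.S → ℤ) (hpos : ∀ x, pos (X.T x) = pos x + 1) (k : ℕ)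
    (f : ℕ → X.S → ℝ) (hf : ∀ i x, f i x = 0 ∨ f i x = 1) (a : ℕ) (S : Finset ℕ)
    (hS : ∀ p ∈ S, 0 < p) (ε : ℝ) (m : ℕ) (hm : 1 ≤ m)
    (hJ : ∀ J : X.S → Bool, (∀ x, J (X.T x) = J x) →
      ∑ p ∈ S, |X.μ.R (fun x => (if J x = true then (1 : ℝ) else 0) * Psi X pos k f a p x)| ≤ ε)
    (c : X.S → ℝ) (hc : ∀ x, c (X.T x) = c x) (hc1 : ∀ x, -1 ≤ c x) (hc2 : ∀ x, c x ≤ 1) :
    ∑ p ∈ S, |X.μ.R (fun x => c x * Psi X pos k f a p x)| ≤ 3 * ε + 2 / m * S.card := by
  classical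
  have hmr : (0 : ℝ) < m := by exact_mod_cast hm
  set Ji : ℕ → X.S → Bool := fun i x => decide ((-1 + (i : ℝ) / m) < c x) with hJi
  have hJiT : ∀ i x, Ji i (X.T x) = Ji i x := fun i x => by simp only [hJi, hc]
  set Q : (X.S → Bool) → ℕ → ℝ := fun J p =>
    X.μ.R (fun x => (if J x = true then (1 : ℝ) else 0) * Psi X pos k f a p x) with hQ
  have hterm : ∀ p ∈ S, |X.μ.R (fun x => c x * Psi X pos k f a p x)| ≤
      |Q (fun _ => true) p| + (1 / (m : ℝ)) * ∑ i ∈ range (2 * m), |Q (Ji i) p| + 2 / m := by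
    intro p hp
    have hp0 : 0 < p := hS p hp
    set q : X.S → ℝ := fun x => -1 + (1 / (m : ℝ)) *
      ∑ i ∈ range (2 * m), (if (-1 + (i : ℝ) / m) < c x then (1 : ℝ) else 0) with hq
    have hqc : ∀ x, |c x - q x| ≤ 1 / m := fun x => quant m hm (c x) (hc1 x) (hc2 x)
    have e1 : (fun x => c x * Psi X pos k f a p x) = fun x =>
        (c x - q x) * Psi X pos k f a p x + q x * Psi X pos k f a p x := by
      funext x
      ring
    have e2 : X.μ.R (fun x => q x * Psi X pos k f a p x) =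
        -Q (fun _ => true) p + (1 / (m : ℝ)) * ∑ i ∈ range (2 * m), Q (Ji i) p := by
      have e3 : (fun x => q x * Psi X pos k f a p x) = fun x =>
          (-1) * ((if (fun _ : X.S => true) x = true then (1 : ℝ) else 0) * Psi X pos k f a p x) +
          (1 / (m : ℝ)) * ∑ i ∈ range (2 * m),
            ((if Ji i x = true then (1 : ℝ) else 0) * Psi X pos k f a p x) := by
        funext x
        simp only [hq, hJi, decide_eq_true_eq, if_true]
        rw [← Finset.sum_mul]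
        ring
      rw [e3, X.μ.R_add,
        X.μ.R_const_mul (-1) (fun x => (if (fun _ : X.S => true) x = true then (1 : ℝ) else 0) *
          Psi X pos k f a p x),
        X.μ.R_const_mul (1 / (m : ℝ)) (fun x => ∑ i ∈ range (2 * m),
            ((if Ji i x = true then (1 : ℝ) else 0) * Psi X pos k f a p x)), X.μ.R_sum]
      simp only [hQ]
      ring
    have hPs := Psi_abs X pos k f hf a p
    have e4 : |X.μ.R (fun x => (c x - q x) * Psi X pos k f a p x)| ≤ 2 / m := by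
      have h1 : X.μ.R (fun x => (c x - q x) * Psi X pos k f a p x) ≤
          X.μ.R (fun x => (1 / (m : ℝ)) * |Psi X pos k f a p x|) := by
        refine X.μ.R_mono _ _ (fun x => ?_) (C := (1 / (m : ℝ)) * (p + 1)) (fun x => ?_)
          (fun x => ?_)
        · refine (le_abs_self _).trans ?_
          rw [abs_mul]
          exact mul_le_mul_of_nonneg_right (hqc x) (abs_nonneg _)
        · rw [abs_mul]
          exact mul_le_mul (hqc x) (hPs x) (abs_nonneg _) (by positivity)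
        · rw [abs_mul, abs_abs, abs_of_nonneg (by positivity : (0 : ℝ) ≤ 1 / (m : ℝ))]
          exact mul_le_mul_of_nonneg_left (hPs x) (by positivity)
      have h2 : X.μ.R (fun x => (-1) * ((c x - q x) * Psi X pos k f a p x)) ≤
          X.μ.R (fun x => (1 / (m : ℝ)) * |Psi X pos k f a p x|) := by
        refine X.μ.R_mono _ _ (fun x => ?_) (C := (1 / (m : ℝ)) * (p + 1)) (fun x => ?_)
          (fun x => ?_)
        · refine (le_abs_self _).trans ?_
          rw [abs_mul, abs_neg, abs_one, one_mul, abs_mul]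
          exact mul_le_mul_of_nonneg_right (hqc x) (abs_nonneg _)
        · rw [abs_mul, abs_neg, abs_one, one_mul, abs_mul]
          exact mul_le_mul (hqc x) (hPs x) (abs_nonneg _) (by positivity)
        · rw [abs_mul, abs_abs, abs_of_nonneg (by positivity : (0 : ℝ) ≤ 1 / (m : ℝ))]
          exact mul_le_mul_of_nonneg_left (hPs x) (by positivity)
      rw [X.μ.R_const_mul] at h1 h2
      rw [X.μ.R_const_mul] at h2
      have h3 := R_abs_Psi X pos hpos k f hf a p hp0
      have h4 : (1 / (m : ℝ)) * X.μ.R (fun x => |Psi X pos k f a p x|) ≤ (1 / (m : ℝ)) * 2 :=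
        mul_le_mul_of_nonneg_left h3 (by positivity)
      have h5 : (1 / (m : ℝ)) * 2 = 2 / m := by ring
      rw [abs_le]
      constructor <;> linarith
    rw [e1, X.μ.R_add, e2]
    refine (abs_add_le _ _).trans ?_
    have e5 : |-Q (fun _ => true) p + (1 / (m : ℝ)) * ∑ i ∈ range (2 * m), Q (Ji i) p| ≤
        |Q (fun _ => true) p| + (1 / (m : ℝ)) * ∑ i ∈ range (2 * m), |Q (Ji i) p| := by
      refine (abs_add_le _ _).trans ?_
      rw [abs_neg, abs_mul, abs_of_nonneg (by positivity : (0 : ℝ) ≤ 1 / (m : ℝ))]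
      have := Finset.abs_sum_le_sum_abs (fun i => Q (Ji i) p) (range (2 * m))
      have h2 := mul_le_mul_of_nonneg_left this (by positivity : (0 : ℝ) ≤ 1 / (m : ℝ))
      linarith
    linarith
  have h1 := Finset.sum_le_sum hterm
  refine h1.trans ?_
  rw [Finset.sum_add_distrib, Finset.sum_add_distrib, Finset.sum_const, nsmul_eq_mul,
    ← Finset.mul_sum, Finset.sum_comm]
  have a1 := hJ (fun _ => true) (fun _ => rfl)
  have a2 : (1 / (m : ℝ)) * ∑ i ∈ range (2 * m), ∑ p ∈ S, |Q (Ji i) p| ≤ 2 * ε := by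
    have e2 : ∑ i ∈ range (2 * m), ∑ p ∈ S, |Q (Ji i) p| ≤
        ∑ _i ∈ range (2 * m), ε := Finset.sum_le_sum fun i _ => hJ (Ji i) (hJiT i)
    rw [Finset.sum_const, card_range, nsmul_eq_mul] at e2
    calc (1 / (m : ℝ)) * ∑ i ∈ range (2 * m), ∑ p ∈ S, |Q (Ji i) p|
        ≤ (1 / (m : ℝ)) * (((2 * m : ℕ) : ℝ) * ε) :=
          mul_le_mul_of_nonneg_left e2 (by positivity)
      _ = 2 * ε := by
          push_cast
          field_simp
  have a1' : ∑ p ∈ S, |Q (fun _ => true) p| ≤ ε := a1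
  have a3 : (S.card : ℝ) * (2 / m) = 2 / m * S.card := mul_comm _ _
  linarith

/-- From invariant sets to invariant complex weights. -/
private theorem exists_JS (X : Sys) (pos : X.S → ℤ) (hpos : ∀ x, pos (X.T x) = pos x + 1) (k : ℕ)
    (f : ℕ → X.S → ℝ) (hf : ∀ i x, f i x = 0 ∨ f i x = 1) (ε : ℝ) (hε : 0 < ε)
    (S : Finset ℕ) (hS0 : ∀ p ∈ S, 0 < p) (hSne : S.Nonempty)
    (C : X.S → ℂ) (hC : ∀ x, ‖C x‖ ≤ 1) (hCT : TInv X C)
    (hbad : ∀ p ∈ S, ε < ‖X.μ.E (fun x => C x *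
      ((if (p : ℤ) ∣ pos x then (p : ℂ) else 0) - 1) *
        ∏ i ∈ range (k + 1), ((f i ((X.T ^ ((i : ℤ) * p)) x) : ℝ) : ℂ))‖) :
    ∃ J : X.S → Bool, (∀ x, J (X.T x) = J x) ∧
      ε / 12 * S.card < ∑ p ∈ S,
        |X.μ.R (fun x => (if J x = true then (1 : ℝ) else 0) * Psi X pos k f 1 p x)| := by
  by_contra hno
  push Not at hno
  obtain ⟨m, hm⟩ := exists_nat_ge (8 / ε)
  have hm1 : 1 ≤ m + 1 := Nat.succ_le_succ (Nat.zero_le m)
  have hmr : (0 : ℝ) < ((m + 1 : ℕ) : ℝ) := by positivity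
  have hcard : (0 : ℝ) < (S.card : ℝ) := by exact_mod_cast hSne.card_pos
  have hre := real_bdS X pos hpos k f hf 1 S hS0 (ε / 12 * S.card) (m + 1) hm1 hno
    (fun x => (C x).re)
    (fun x => by rw [hCT x]) (fun x => (abs_le.1 ((Complex.abs_re_le_norm _).trans (hC x))).1)
    (fun x => (abs_le.1 ((Complex.abs_re_le_norm _).trans (hC x))).2)
  have him := real_bdS X pos hpos k f hf 1 S hS0 (ε / 12 * S.card) (m + 1) hm1 hno
    (fun x => (C x).im)
    (fun x => by rw [hCT x]) (fun x => (abs_le.1 ((Complex.abs_im_le_norm _).trans (hC x))).1)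
    (fun x => (abs_le.1 ((Complex.abs_im_le_norm _).trans (hC x))).2)
  have hp : ∀ p ∈ S, ε ≤
      |X.μ.R (fun x => (C x).re * Psi X pos k f 1 p x)| +
        |X.μ.R (fun x => (C x).im * Psi X pos k f 1 p x)| := by
    intro p hpS
    refine (hbad p hpS).le.trans ?_
    have e1 : (fun x => C x * ((if (p : ℤ) ∣ pos x then (p : ℂ) else 0) - 1) *
        ∏ i ∈ range (k + 1), ((f i ((X.T ^ ((i : ℤ) * p)) x) : ℝ) : ℂ)) =
        fun x => C x * ((Psi X pos k f 1 p x : ℝ) : ℂ) := by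
      funext x
      unfold Psi
      rw [mul_assoc]
      congr 1
      push_cast
      congr 1
      · congr 1
        split_ifs <;> simp
      · refine Finset.prod_congr rfl fun i _ => ?_
        rw [one_mul]
    rw [e1]
    have hbd : Bd (fun x => C x * ((Psi X pos k f 1 p x : ℝ) : ℂ)) :=
      Bd.mul ⟨1, hC⟩ (Bd.ofReal_of_bdd (Psi_abs X pos k f hf 1 p))
    have e2 : (X.μ.E (fun x => C x * ((Psi X pos k f 1 p x : ℝ) : ℂ))).re =
        X.μ.R (fun x => (C x).re * Psi X pos k f 1 p x) := by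
      rw [X.μ.re_E _ hbd]
      congr 1
      funext x
      rw [Complex.re_mul_ofReal]
    have e3 : (X.μ.E (fun x => C x * ((Psi X pos k f 1 p x : ℝ) : ℂ))).im =
        X.μ.R (fun x => (C x).im * Psi X pos k f 1 p x) := by
      rw [X.μ.im_E _ hbd]
      congr 1
      funext x
      rw [Complex.im_mul_ofReal]
    rw [← e2, ← e3]
    exact Complex.norm_le_abs_re_add_abs_im _
  have hsum := Finset.sum_le_sum hp
  rw [Finset.sum_add_distrib, Finset.sum_const, nsmul_eq_mul] at hsum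
  have h2m : 2 / (((m + 1 : ℕ)) : ℝ) < ε / 4 := by
    rw [div_lt_div_iff₀ hmr (by norm_num)]
    have : 8 / ε < ((m + 1 : ℕ) : ℝ) := by
      push_cast
      linarith
    rw [div_lt_iff₀ hε] at this
    linarith
  have h3 := mul_lt_mul_of_pos_right h2m hcard
  nlinarith

/-- Each prime lies in a dyadic block. -/
private theorem mem_block {p : ℕ} (hp : p.Prime) : ∃ j < p, p ∈ dyP (2 ^ j) := by
  have h1 : 1 < p := hp.one_lt
  have hc : 0 < Nat.clog 2 p := Nat.clog_pos (by norm_num) h1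
  refine ⟨Nat.clog 2 p - 1, ?_, ?_⟩
  · have h2 : 2 ^ (Nat.clog 2 p - 1) < p := by
      have := Nat.pow_pred_clog_lt_self (b := 2) (by norm_num) h1
      simpa using this
    exact lt_trans Nat.lt_two_pow_self h2
  · unfold dyP
    rw [Finset.mem_filter, Finset.mem_Ioc]
    refine ⟨⟨?_, ?_⟩, hp⟩
    · have := Nat.pow_pred_clog_lt_self (b := 2) (by norm_num) h1
      simpa using this
    · have h2 := Nat.le_pow_clog (b := 2) (by norm_num) p
      have h3 : 2 * 2 ^ (Nat.clog 2 p - 1) = 2 ^ (Nat.clog 2 p) := by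
        rw [← pow_succ']
        congr 1
        omega
      rw [h3]
      exact h2

private theorem main (k : ℕ) (ε : ℝ) (hε : 0 < ε) : ∃ C : ℝ, ∀ (X : Sys) (pos : X.S → ℤ),
    (∀ x, pos (X.T x) = pos x + 1) → ∀ f : ℕ → X.S → ℝ, (∀ i x, f i x = 0 ∨ f i x = 1) →
    ∀ Cw : X.S → ℂ, (∀ x, ‖Cw x‖ ≤ 1) → TInv X Cw →
    ∀ B : Finset ℕ, (∀ p ∈ B, p.Prime ∧ ε < ‖X.μ.E (fun x => Cw x *
        ((if (p : ℤ) ∣ pos x then (p : ℂ) else 0) - 1) *
          ∏ i ∈ range (k + 1), ((f i ((X.T ^ ((i : ℤ) * p)) x) : ℝ) : ℂ))‖) →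
    ∑ p ∈ B, 1 / (p : ℝ) ≤ C := by
  classical
  set e : ℝ := ε / 12 with he
  have he0 : 0 < e := by positivity
  have hlog2 : 0 < Real.log 2 := Real.log_pos (by norm_num)
  set M0 : ℝ := 16 * Real.log 2 / e ^ 2 with hM0
  have hM0p : 0 < M0 := by positivity
  set c1 : ℝ := 16 * (2 * (k : ℝ) + 1) / e ^ 2 with hc1
  have hc1p : 0 < c1 := by positivity
  refine ⟨c1 * Real.log (Fintype.card (Fin (k + 1) → Bool)) + 2 * M0, ?_⟩
  intro X pos hpos f hf Cw hC hCT B hB
  have hanti : ∀ j, 0 ≤ GG X pos k f j - GG X pos k f (j + 1) := fun j =>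
    le_trans (div_nonneg (II_nonneg X pos hpos k f j) (by positivity)) (GG_step X pos hpos k f j)
  -- one block
  have hblock : ∀ j : ℕ, ∑ p ∈ B ∩ dyP (2 ^ j), 1 / (p : ℝ) ≤
      c1 * (GG X pos k f j - GG X pos k f (j + 1)) + M0 * (1 / 2) ^ j := by
    intro j
    set S : Finset ℕ := B ∩ dyP (2 ^ j) with hSd
    have hSB : S ⊆ B := Finset.inter_subset_left
    have hSD : S ⊆ dyP (2 ^ j) := Finset.inter_subset_right
    have h2j : (0 : ℝ) < 2 ^ j := by positivity
    have hle : ∑ p ∈ S, 1 / (p : ℝ) ≤ (S.card : ℝ) / 2 ^ j := by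
      have h1 : ∀ p ∈ S, 1 / (p : ℝ) ≤ 1 / 2 ^ j := by
        intro p hp
        have h2 := (Finset.mem_Ioc.1 (Finset.mem_filter.1 (hSD hp)).1).1
        have h3 : (2 : ℝ) ^ j ≤ p := by exact_mod_cast h2.le
        exact one_div_le_one_div_of_le h2j h3
      refine (Finset.sum_le_sum h1).trans (le_of_eq ?_)
      rw [Finset.sum_const, nsmul_eq_mul]
      ring
    have hA : 0 ≤ c1 * (GG X pos k f j - GG X pos k f (j + 1)) := mul_nonneg hc1p.le (hanti j)
    have hpow : ((1 : ℝ) / 2) ^ j = 1 / 2 ^ j := by rw [div_pow, one_pow]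
    have hBn : 0 ≤ M0 * (1 / 2) ^ j := by positivity
    by_cases hsm : (S.card : ℝ) ≤ M0
    · refine hle.trans ?_
      have : (S.card : ℝ) / 2 ^ j ≤ M0 * (1 / 2) ^ j := by
        rw [hpow, mul_one_div]
        exact div_le_div_of_nonneg_right hsm h2j.le
      linarith
    · rw [not_le] at hsm
      have hSne : S.Nonempty := by
        rw [← Finset.card_pos]
        have : (0 : ℝ) < (S.card : ℝ) := hM0p.trans hsm
        exact_mod_cast this
      have hnd : ∀ p ∈ dyP (2 ^ j), ¬ p ∣ 1 := by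
        intro p hp hpa
        exact (Finset.mem_filter.1 hp).2.one_lt.ne' (Nat.dvd_one.1 hpa)
      obtain ⟨J, hJ, hbad⟩ := exists_JS X pos hpos k f hf ε hε S
        (fun p hp => (hB p (hSB hp)).1.pos) hSne Cw hC hCT (fun p hp => (hB p (hSB hp)).2)
      have hpt := pointS X pos hpos k f hf 1 (2 ^ j) hnd S hSD J hJ (e / 4) (by positivity)
      have hIdef : II X pos k f j =
          ent X.μ (word X (lett k f) 1 ((2 * k + 1) * 2 ^ j)) + Real.log (MP (2 ^ j)) -
          ent X.μ (fun x => (word X (lett k f) 1 ((2 * k + 1) * 2 ^ j) x,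
            res pos (MP (2 ^ j)) x)) := rfl
      rw [← hIdef] at hpt
      rw [← he] at hbad
      have h5 : e / 4 * (e * S.card) ≤ e / 4 * ∑ p ∈ S,
          |X.μ.R (fun x => (if J x = true then (1 : ℝ) else 0) * Psi X pos k f 1 p x)| :=
        mul_le_mul_of_nonneg_left hbad.le (by positivity)
      have h6 : Real.log 2 ≤ e ^ 2 * S.card / 16 := by
        have h7 : M0 ≤ S.card := hsm.le
        rw [hM0, div_le_iff₀ (by positivity)] at h7
        linarith
      have h7 : e ^ 2 * S.card / 16 ≤ II X pos k f j := by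
        have e1 : e / 4 * (e * S.card) = e ^ 2 * S.card / 4 := by ring
        have e2 : 2 * (e / 4) ^ 2 * (S.card : ℝ) = e ^ 2 * S.card / 8 := by ring
        rw [e2] at hpt
        linarith
      have h8 := GG_step X pos hpos k f j
      have h9 : (S.card : ℝ) / 2 ^ j ≤ c1 * (II X pos k f j / ((2 * (k : ℝ) + 1) * 2 ^ j)) := by
        have e3 : c1 * (II X pos k f j / ((2 * (k : ℝ) + 1) * 2 ^ j)) =
            (16 / e ^ 2 * II X pos k f j) / 2 ^ j := by
          rw [hc1]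
          field_simp
        rw [e3]
        refine div_le_div_of_nonneg_right ?_ h2j.le
        have e4 : (S.card : ℝ) = 16 / e ^ 2 * (e ^ 2 * S.card / 16) := by
          field_simp
        rw [e4]
        exact mul_le_mul_of_nonneg_left h7 (by positivity)
      have h10 := mul_le_mul_of_nonneg_left h8 hc1p.le
      linarith
  -- summation
  set N : ℕ := B.sup id + 1 with hN
  have hcov : ∑ p ∈ B, 1 / (p : ℝ) ≤ ∑ j ∈ range N, ∑ p ∈ B ∩ dyP (2 ^ j), 1 / (p : ℝ) := by
    have h1 : ∀ j ∈ range N, ∑ p ∈ B ∩ dyP (2 ^ j), 1 / (p : ℝ) =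
        ∑ p ∈ B, (if p ∈ dyP (2 ^ j) then 1 / (p : ℝ) else 0) := by
      intro j _
      rw [Finset.sum_ite_mem]
    rw [Finset.sum_congr rfl h1, Finset.sum_comm]
    refine Finset.sum_le_sum fun p hp => ?_
    obtain ⟨j, hj, hpj⟩ := mem_block (hB p hp).1
    have hjN : j ∈ range N := by
      rw [Finset.mem_range, hN]
      have := Finset.le_sup (f := id) hp
      simp only [id] at this
      omega
    have h2 := Finset.single_le_sum (f := fun j => if p ∈ dyP (2 ^ j) then 1 / (p : ℝ) else 0)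
      (fun i _ => by
        show (0 : ℝ) ≤ if p ∈ dyP (2 ^ i) then 1 / (p : ℝ) else 0
        split_ifs <;> positivity) hjN
    simp only [if_pos hpj] at h2
    exact h2
  refine hcov.trans ((Finset.sum_le_sum fun j _ => hblock j).trans ?_)
  rw [Finset.sum_add_distrib, ← Finset.mul_sum, ← Finset.mul_sum, Finset.sum_range_sub']
  have h7 := GG_nonneg X pos hpos k f N
  have h8 := GG_zero X pos hpos k f
  have h9 : ∑ i ∈ range N, ((1 : ℝ) / 2) ^ i ≤ 2 := by
    have h10 := geom_sum_eq (by norm_num : (1 / 2 : ℝ) ≠ 1) N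
    rw [h10]
    have h11 : (0 : ℝ) ≤ (1 / 2) ^ N := by positivity
    have h12 : ((1 / 2 : ℝ) ^ N - 1) / (1 / 2 - 1) = 2 - 2 * (1 / 2) ^ N := by
      field_simp
      ring
    rw [h12]
    linarith
  have h10 : c1 * (GG X pos k f 0 - GG X pos k f N) ≤
      c1 * Real.log (Fintype.card (Fin (k + 1) → Bool)) :=
    mul_le_mul_of_nonneg_left (by linarith) hc1p.le
  have h11 : M0 * ∑ i ∈ range N, ((1 : ℝ) / 2) ^ i ≤ M0 * 2 :=
    mul_le_mul_of_nonneg_left h9 hM0p.le
  linarith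

end DGES

namespace DG

open Finset Filter Topology

theorem entS : EntS := fun k ε hε => DGES.main k ε hε

end DG
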