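import Pool.Agent.Helper6.IS.I3Lim
import Pool.Agent.Helper6.DG.S7Scale
import Pool.Agent.Helper6.DG.E7Prod

/-!
# ISO-4: scale invariance in the limit, for windows `(N/K, N]`

PROOF. `SymGoal (k+1) 0 t` with `s = 0` applied twice (`t = 1` and `t`): for `F_j l = ∏ f j i (l i + 1)` (a function of
`l : Fin (k+1) → ℕ` with values in `[0, 1]`), `∑_{M ∈ Ioc (N/K) N} (1/M) |Ec (k+1) M F_j - Ec (k+1) (t M) F_j| ≤ ε log K` for
`N, K` large; `Ec (k+1) M F_j = cpf f 1 k 1 j M`. Since `N j, K j → ∞` and the mass of the window is `≥ log (K j) - 1` (`e7_le_mass`), the window mean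
of `|cpf (t M) - cpf (M)|` tends to `0`: `(appμ w).R (fun s => |cpf f 1 k 1 s.1 (t * s.2.1) - cpf f 1 k 1 s.1 s.2.1|) = 0` (`app_tendsto`).
Then `app_scale` / `app_scale_mul`: `R |cpf (M / t) - cpf M| = R |cpf (M) - cpf (t M)|`: the function `g j M = |cpf j M - cpf j (t M)|` satisfies
`g j (M / t) = |cpf j (M / t) - cpf j (t (M / t))|`, which is within `2 t / M` of `|cpf j (M / t) - cpf j M|` (means of a bounded function at
`M` and at `t (M / t)`), and `app_scale` gives `R (g (M / t)) = R (g M)`; the error has mean `0` (`app_eq_of_close`: `∑ 2 t / M²` is bounded).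
-/

set_option autoImplicit false

namespace DG

open Finset Filter Topology

private theorem cp4_prod (f : ℕ → ℕ → ℕ → ℝ) (hf : ∀ j i x, f j i x = 0 ∨ f j i x = 1)
    (r k p j n : ℕ) :
    0 ≤ (∏ i ∈ range (k + 1), f j i (ArithmeticFunction.cardFactors (n + i * p) + r)) ∧
      (∏ i ∈ range (k + 1), f j i (ArithmeticFunction.cardFactors (n + i * p) + r)) ≤ 1 := by
  have h : ∀ j i x, 0 ≤ f j i x ∧ f j i x ≤ 1 := by
    intro j i x
    rcases hf j i x with h | h <;> rw [h] <;> norm_num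
  exact ⟨Finset.prod_nonneg fun i _ => (h _ _ _).1,
    Finset.prod_le_one (fun i _ => (h _ _ _).1) (fun i _ => (h _ _ _).2)⟩

private theorem cp4_bd (f : ℕ → ℕ → ℕ → ℝ) (hf : ∀ j i x, f j i x = 0 ∨ f j i x = 1)
    (r k p j M : ℕ) : 0 ≤ cpf f r k p j M ∧ cpf f r k p j M ≤ 1 := by
  have h1 := cp4_prod f hf r k p j
  unfold cpf
  constructor
  · exact mul_nonneg (by positivity) (Finset.sum_nonneg fun n _ => (h1 n).1)
  · have h2 : ∑ n ∈ Icc 1 M, ∏ i ∈ range (k + 1),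
        f j i (ArithmeticFunction.cardFactors (n + i * p) + r) ≤ M := by
      refine (Finset.sum_le_sum fun n _ => (h1 n).2).trans ?_
      simp
    rcases Nat.eq_zero_or_pos M with rfl | hM
    · simp
    · have hM0 : (0 : ℝ) < M := by exact_mod_cast hM
      rw [one_div, inv_mul_le_iff₀ hM0, mul_one]
      exact h2

private theorem cp4_slow (f : ℕ → ℕ → ℕ → ℝ) (hf : ∀ j i x, f j i x = 0 ∨ f j i x = 1)
    (r k p j M M' : ℕ) (h1 : 1 ≤ M') (h2 : M' ≤ M) :
    |cpf f r k p j M - cpf f r k p j M'| ≤ ((M : ℝ) - M') / M := by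
  have hu := cp4_prod f hf r k p j
  unfold cpf
  set u : ℕ → ℝ := fun n => ∏ i ∈ range (k + 1),
      f j i (ArithmeticFunction.cardFactors (n + i * p) + r) with hudef
  have hb : 0 ≤ (∑ n ∈ Icc 1 M', u n) ∧ (∑ n ∈ Icc 1 M', u n) ≤ M' := by
    constructor
    · exact Finset.sum_nonneg fun n _ => (hu n).1
    · refine (Finset.sum_le_sum fun n _ => (hu n).2).trans ?_
      simp
  have hi : 0 ≤ (∑ n ∈ Icc 1 M, u n) - (∑ n ∈ Icc 1 M', u n) ∧
      (∑ n ∈ Icc 1 M, u n) - (∑ n ∈ Icc 1 M', u n) ≤ (M : ℝ) - M' := by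
    have h3 : ∀ m : ℕ, ∑ n ∈ Icc 1 m, u n = ∑ n ∈ Ioc 0 m, u n := by
      intro m
      rfl
    have h4 : ∑ n ∈ Icc 1 M, u n = (∑ n ∈ Icc 1 M', u n) + ∑ n ∈ Ioc M' M, u n := by
      rw [h3, h3]
      exact (Finset.sum_Ioc_consecutive u (Nat.zero_le _) h2).symm
    rw [h4, add_sub_cancel_left]
    constructor
    · exact Finset.sum_nonneg fun n _ => (hu n).1
    · refine (Finset.sum_le_sum fun n _ => (hu n).2).trans ?_
      rw [Finset.sum_const, Nat.card_Ioc, nsmul_eq_mul, mul_one, Nat.cast_sub h2]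
  set S := ∑ n ∈ Icc 1 M, u n with hS
  set S' := ∑ n ∈ Icc 1 M', u n with hS'
  have hM' : (0 : ℝ) < M' := by exact_mod_cast (by omega : 0 < M')
  have hM : (0 : ℝ) < M := by exact_mod_cast (by omega : 0 < M)
  have hle : (M' : ℝ) ≤ M := by exact_mod_cast h2
  have hq : 0 ≤ S' / M' ∧ S' / M' ≤ 1 := by
    constructor
    · exact div_nonneg hb.1 hM'.le
    · rw [div_le_one hM']; exact hb.2
  have e : 1 / (M : ℝ) * S - 1 / (M' : ℝ) * S' =
      ((S - S') - (S' / M') * ((M : ℝ) - M')) / M := by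
    field_simp
    ring
  rw [e, abs_div, abs_of_pos hM]
  apply div_le_div_of_nonneg_right _ hM.le
  have h3 : 0 ≤ (S' / M') * ((M : ℝ) - M') := mul_nonneg hq.1 (by linarith)
  have h4 : (S' / M') * ((M : ℝ) - M') ≤ (M : ℝ) - M' := by
    have := mul_le_mul_of_nonneg_right hq.2 (by linarith : (0 : ℝ) ≤ (M : ℝ) - M')
    linarith
  rw [abs_le]
  constructor <;> linarith [hi.1, hi.2]

private theorem cp4_slow2 (f : ℕ → ℕ → ℕ → ℝ) (hf : ∀ j i x, f j i x = 0 ∨ f j i x = 1)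
    (r k p j t M : ℕ) (ht : 1 ≤ t) (hM : 1 ≤ M) :
    |cpf f r k p j M - cpf f r k p j (t * (M / t))| ≤ t / M := by
  have hM0 : (0 : ℝ) < M := by exact_mod_cast hM
  rcases Nat.lt_or_ge M t with h | h
  · rw [Nat.div_eq_of_lt h, mul_zero]
    have h3 := cp4_bd f hf r k p j M
    have h4 := cp4_bd f hf r k p j 0
    have h7 : (1 : ℝ) ≤ t / M := by
      rw [le_div_iff₀ hM0, one_mul]
      exact_mod_cast h.le
    have h8 : |cpf f r k p j M - cpf f r k p j 0| ≤ 1 := by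
      rw [abs_le]
      constructor <;> linarith [h3.1, h3.2, h4.1, h4.2]
    exact h8.trans h7
  · have h3 : 1 ≤ M / t := Nat.div_pos h (by omega)
    have h4 : 1 ≤ t * (M / t) := Nat.mul_pos (by omega) h3
    have h5 : t * (M / t) ≤ M := Nat.mul_div_le M t
    refine (cp4_slow f hf r k p j M (t * (M / t)) h4 h5).trans ?_
    apply div_le_div_of_nonneg_right _ hM0.le
    have h6 : M < t * (M / t) + t := Nat.lt_mul_div_succ M (by omega)
    have h7 : (M : ℝ) ≤ ((t * (M / t) : ℕ) : ℝ) + t := by exact_mod_cast h6.le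
    linarith

private theorem cp4_Ec (f : ℕ → ℕ → ℕ → ℝ) (k j M : ℕ) :
    Ec (k + 1) M (fun l => ∏ i : Fin (k + 1), f j i (l i + 1)) = cpf f 1 k 1 j M := by
  unfold Ec cpf
  congr 1
  refine Finset.sum_congr rfl fun n _ => ?_
  rw [Finset.prod_range]
  simp only [mul_one]

/-- the window sums -/
private theorem cp4_window (hS : ∀ k t : ℕ, 1 ≤ t → SymGoal k 0 t)
    (f : ℕ → ℕ → ℕ → ℝ) (hf : ∀ j i x, f j i x = 0 ∨ f j i x = 1) (k t : ℕ) (ht : 1 ≤ t)
    (ε : ℝ) (hε : 0 < ε) : ∃ K0 N0 : ℕ, ∀ N K : ℕ, N0 ≤ N → K0 ≤ K → K ≤ N → ∀ j : ℕ,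
    ∑ M ∈ Ioc (N / K) N, (1 / (M : ℝ)) * |cpf f 1 k 1 j M - cpf f 1 k 1 j (t * M)| ≤
      ε * Real.log K := by
  obtain ⟨K1, N1, h1⟩ := hS (k + 1) t ht (ε / 2) (by positivity)
  obtain ⟨K2, N2, h2⟩ := hS (k + 1) 1 le_rfl (ε / 2) (by positivity)
  refine ⟨max K1 K2, max N1 N2, fun N K hN hK hKN j => ?_⟩
  set F : (Fin (k + 1) → ℕ) → ℝ := fun l => ∏ i : Fin (k + 1), f j i (l i + 1) with hF
  have hFb : ∀ l, |F l| ≤ 1 := by
    intro l
    have h : ∀ j i x, 0 ≤ f j i x ∧ f j i x ≤ 1 := by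
      intro j i x
      rcases hf j i x with h | h <;> rw [h] <;> norm_num
    rw [abs_of_nonneg (Finset.prod_nonneg fun i _ => (h _ _ _).1)]
    exact Finset.prod_le_one (fun i _ => (h _ _ _).1) (fun i _ => (h _ _ _).2)
  have h3 := h1 N K (le_trans (le_max_left _ _) hN) (le_trans (le_max_left _ _) hK) hKN
    (fun l => F (fun i => l (Fin.rev i))) (fun l => hFb _)
  have h4 := h2 N K (le_trans (le_max_right _ _) hN) (le_trans (le_max_right _ _) hK) hKN
    F hFb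
  simp only [Fin.rev_rev, add_zero, one_mul] at h3 h4
  have h5 : ∀ M : ℕ, (1 / (M : ℝ)) * |cpf f 1 k 1 j M - cpf f 1 k 1 j (t * M)| ≤
      (1 / (M : ℝ)) * |Ec (k + 1) M F - Ec (k + 1) M (fun l => F (fun i => l (Fin.rev i)))| +
      (1 / (M : ℝ)) * |Ec (k + 1) M (fun l => F (fun i => l (Fin.rev i))) -
        Ec (k + 1) (t * M) F| := by
    intro M
    rw [← mul_add, ← cp4_Ec f k j M, ← cp4_Ec f k j (t * M)]
    exact mul_le_mul_of_nonneg_left (abs_sub_le _ _ _) (by positivity)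
  refine (Finset.sum_le_sum fun M _ => h5 M).trans ?_
  rw [Finset.sum_add_distrib]
  have h6 : ε * Real.log K = ε / 2 * Real.log K + ε / 2 * Real.log K := by ring
  rw [h6]
  exact add_le_add h4 h3

/-- window mean of a function of `(j, M)` -/
private theorem cp4_wmean (w : Win) (g : ℕ → ℕ → ℝ) (j : ℕ) :
    (wmean w j).E (fun s => ((g s.1 s.2.1 : ℝ) : ℂ)) =
      (((∑ M ∈ Ioc (w.a j) (w.b j), (1 / (M : ℝ)) * g j M) /
        ∑ M ∈ Ioc (w.a j) (w.b j), 1 / (M : ℝ) : ℝ) : ℂ) := by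
  rw [wmean_E, Complex.ofReal_div]
  congr 1
  rw [Complex.ofReal_sum]
  refine Finset.sum_congr rfl fun M hM => ?_
  have hM0 : 0 < M := lt_of_le_of_lt (Nat.zero_le _) (Finset.mem_Ioc.1 hM).1
  have hMc : (M : ℂ) ≠ 0 := by exact_mod_cast hM0.ne'
  change (1 / (M : ℂ)) * ((1 / (M : ℂ)) * ∑ n ∈ Icc 1 M, ((g j M : ℝ) : ℂ)) = _
  rw [Finset.sum_const, Nat.card_Icc, Nat.add_sub_cancel, nsmul_eq_mul, ← mul_assoc (1 / (M : ℂ))
    (M : ℂ), one_div_mul_cancel hMc, one_mul]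
  push_cast
  rfl

theorem lim_scale (hS : ∀ k t : ℕ, 1 ≤ t → SymGoal k 0 t) (w : Win) (N K : ℕ → ℕ)
    (hw : ∀ j, w.a j = N j / K j ∧ w.b j = N j ∧ K j ≤ N j ∧ j ≤ K j ∧ 1 ≤ K j)
    (f : ℕ → ℕ → ℕ → ℝ) (hf : ∀ j i x, f j i x = 0 ∨ f j i x = 1) (k t : ℕ) (ht : 1 ≤ t) :
    (appμ w).R (fun s => |cpf f 1 k 1 s.1 (s.2.1 / t) - cpf f 1 k 1 s.1 s.2.1|) = 0 := by
  have hb := cp4_bd f hf 1 k 1
  have hd : ∀ j M M', |cpf f 1 k 1 j M - cpf f 1 k 1 j M'| ≤ 1 := by
    intro j M M'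
    rw [abs_le]
    constructor <;> linarith [(hb j M).1, (hb j M).2, (hb j M').1, (hb j M').2]
  set g : ℕ → ℕ → ℝ := fun j M => |cpf f 1 k 1 j M - cpf f 1 k 1 j (t * M)| with hg
  have hg1 : ∀ j M, |g j M| ≤ 1 := fun j M => by
    simp only [hg, abs_abs]
    exact hd _ _ _
  -- the mean of `g` is zero
  have hA : (appμ w).E (fun s => ((g s.1 s.2.1 : ℝ) : ℂ)) = 0 := by
    have h1 := app_tendsto w (fun s => ((g s.1 s.2.1 : ℝ) : ℂ)) ⟨1, fun s => by
      rw [Complex.norm_real, Real.norm_eq_abs]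
      exact hg1 _ _⟩
    refine tendsto_nhds_unique h1 ?_
    refine Tendsto.mono_left ?_ Nat.hyperfilter_le_atTop
    rw [tendsto_zero_iff_norm_tendsto_zero]
    rw [Metric.tendsto_atTop]
    intro ε hε
    obtain ⟨K0, N0, h2⟩ := cp4_window hS f hf k t ht (ε / 4) (by positivity)
    refine ⟨max (max K0 N0) 8, fun j hj => ?_⟩
    obtain ⟨ha, hbj, hKN, hjK, hK1⟩ := hw j
    have hj1 : K0 ≤ j := le_trans (le_trans (le_max_left _ _) (le_max_left _ _)) hj
    have hj2 : N0 ≤ j := le_trans (le_trans (le_max_right _ _) (le_max_left _ _)) hj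
    have hj3 : 8 ≤ j := le_trans (le_max_right _ _) hj
    have h3 := h2 (N j) (K j) (by omega) (by omega) hKN j
    have hm := mass_pos (w.lt j)
    have hlog2 : 2 ≤ Real.log (K j) := by
      rw [Real.le_log_iff_exp_le (by exact_mod_cast (by omega : 0 < K j))]
      have h4 : Real.exp 2 = Real.exp 1 * Real.exp 1 := by
        rw [← Real.exp_add]; norm_num
      have h5 := Real.exp_one_lt_d9
      have h6 := Real.exp_pos 1
      have h7 : (8 : ℝ) ≤ K j := by exact_mod_cast (by omega : 8 ≤ K j)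
      rw [h4]
      nlinarith
    have hmass := e7_le_mass (N j) (K j) hK1 hKN
    rw [dist_zero_right, norm_norm, cp4_wmean, Complex.norm_real, Real.norm_eq_abs]
    have h0 : 0 ≤ (∑ M ∈ Ioc (w.a j) (w.b j), (1 / (M : ℝ)) * g j M) := by
      refine Finset.sum_nonneg fun M _ => mul_nonneg (by positivity) ?_
      exact abs_nonneg _
    rw [abs_of_nonneg (div_nonneg h0 hm.le), div_lt_iff₀ hm]
    rw [ha, hbj] at hm ⊢
    calc ∑ M ∈ Ioc (N j / K j) (N j), (1 / (M : ℝ)) * g j M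
        ≤ ε / 4 * Real.log (K j) := h3
      _ ≤ ε / 4 * (2 * ∑ M ∈ Ioc (N j / K j) (N j), 1 / (M : ℝ)) := by
          refine mul_le_mul_of_nonneg_left ?_ (by positivity)
          linarith
      _ < ε * ∑ M ∈ Ioc (N j / K j) (N j), 1 / (M : ℝ) := by
          nlinarith
  have hB := app_scale w t ht g hg1
  rw [hA] at hB
  have hC : (appμ w).E (fun s => ((|cpf f 1 k 1 s.1 (s.2.1 / t) - cpf f 1 k 1 s.1 s.2.1| : ℝ) :
      ℂ)) = (appμ w).E (fun s => ((g s.1 (s.2.1 / t) : ℝ) : ℂ)) := by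
    refine app_eq_of_close w _ _ ⟨1, fun s => ?_⟩ ⟨1, fun s => ?_⟩ (2 * t) fun j => ?_
    · rw [Complex.norm_real, Real.norm_eq_abs, abs_abs]
      exact hd _ _ _
    · rw [Complex.norm_real, Real.norm_eq_abs]
      exact hg1 _ _
    · have hm := mass_pos (w.lt j)
      rw [cp4_wmean w (fun j M => |cpf f 1 k 1 j (M / t) - cpf f 1 k 1 j M|),
        cp4_wmean w (fun j M => g j (M / t)), ← Complex.ofReal_sub, Complex.norm_real,
        Real.norm_eq_abs, ← sub_div, abs_div, abs_of_pos hm]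
      refine div_le_div_of_nonneg_right ?_ hm.le
      rw [← Finset.sum_sub_distrib]
      have h2 : ∀ M ∈ Ioc (w.a j) (w.b j),
          |(1 / (M : ℝ)) * |cpf f 1 k 1 j (M / t) - cpf f 1 k 1 j M| -
            (1 / (M : ℝ)) * g j (M / t)| ≤ t * (1 / (M : ℝ) ^ 2) := by
        intro M hM
        have hM1 : 1 ≤ M := by
          have := (Finset.mem_Ioc.1 hM).1
          omega
        have hMr : (0 : ℝ) < M := by exact_mod_cast hM1
        rw [← mul_sub, abs_mul, abs_of_pos (by positivity : (0 : ℝ) < 1 / M)]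
        have h3 := cp4_slow2 f hf 1 k 1 j t M ht hM1
        have h4 : |(|cpf f 1 k 1 j (M / t) - cpf f 1 k 1 j M|) - g j (M / t)| ≤
            |cpf f 1 k 1 j M - cpf f 1 k 1 j (t * (M / t))| := by
          simp only [hg]
          refine (abs_abs_sub_abs_le_abs_sub _ _).trans (le_of_eq ?_)
          rw [← abs_neg]
          congr 1
          ring
        calc 1 / (M : ℝ) * |(|cpf f 1 k 1 j (M / t) - cpf f 1 k 1 j M|) - g j (M / t)|
            ≤ 1 / (M : ℝ) * (t / M) :=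
              mul_le_mul_of_nonneg_left (h4.trans h3) (by positivity)
          _ = t * (1 / (M : ℝ) ^ 2) := by
              field_simp
      refine (Finset.abs_sum_le_sum_abs _ _).trans ((Finset.sum_le_sum h2).trans ?_)
      rw [← Finset.mul_sum]
      have h3 := sum_inv_sq_le (w.a j) (w.b j)
      have ht0 : (0 : ℝ) ≤ t := Nat.cast_nonneg t
      nlinarith
  unfold Mean.R
  rw [hC, hB, Complex.zero_re]

end DG
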