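import Pool.Agent.Helper6.IS.J1Ent
import Pool.Agent.Helper6.IS.I4Scale
import Pool.Agent.Helper6.DG.E5Chain
import Pool.Agent.Helper6.DG.E7Prod

/-!
# ISO-10: product sets, strong form

PROOF. As I5Prod.lean (the private lemmas `io_cpf_*`, `io_lim`, `io_R_abs`, `io_cpf_eq` there can be copied or made public). `k = 0`: both means are `1`
(`M ≥ 1`), `E = ∅`. Number of coordinates `k + 1`. Given `ε`: `C = 2 C₁` with `C₁` from `entS k (ε² / 9)` (max of the two constants).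
Suppose the claim fails for `Y`: for each `j` there are `N_j, K_j ≥ j + 3` and `A_j` for which no `E` works; let `E_j ⊆ prY Y` be the set of the
primes `p ∈ prY Y` with window sum `> ε log K_j`; so `∑_{p ∈ E_j} 1/p > C`. Finitely many subsets of `prY Y`: along the hyperfilter `E_j = E` is constant
(`Ultrafilter.eventually_exists_mem_iff` / finite partition). For `p ∈ E`: in the limit `ε / 2 ≤ R |cpf f 0 k p - cpf f 1 k 1|`
(diagonal invariance `hD (k+1)` replaces `Ec` by `cpf f 1 k 1`; mass `≤ log K + 1`), so by Cauchy-Schwarz and `sec_mom` with `lim_scale`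
`ε² / 4 ≤ e1_p + e2_p`, so `e1_p > ε² / 9` or `e2_p > ε² / 9`: `E = E1 ∪ E2`, and `entS` for `app w` (weight `cpf f 1 k 1`) and for `app2 w`
(weight `1`) gives `∑_{p ∈ E} 1/p ≤ 2 C₁`, a contradiction.
-/

set_option autoImplicit false

namespace DG

open Finset Filter Topology

/-! ### means of functions of the window and the scale -/

private theorem io_cpf_nonneg (f : ℕ → ℕ → ℕ → ℝ) (hf : ∀ j i x, f j i x = 0 ∨ f j i x = 1)
    (r k p j M : ℕ) : 0 ≤ cpf f r k p j M := by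
  unfold cpf
  refine mul_nonneg (by positivity) (Finset.sum_nonneg fun n _ => Finset.prod_nonneg fun i _ => ?_)
  rcases hf j i (ArithmeticFunction.cardFactors (n + i * p) + r) with h | h <;> rw [h]
  norm_num

private theorem io_cpf_le (f : ℕ → ℕ → ℕ → ℝ) (hf : ∀ j i x, f j i x = 0 ∨ f j i x = 1)
    (r k p j M : ℕ) : cpf f r k p j M ≤ 1 := by
  unfold cpf
  have h1 : ∑ n ∈ Icc 1 M, ∏ i ∈ range (k + 1),
      f j i (ArithmeticFunction.cardFactors (n + i * p) + r) ≤ M := by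
    have h2 : ∑ n ∈ Icc 1 M, ∏ i ∈ range (k + 1),
        f j i (ArithmeticFunction.cardFactors (n + i * p) + r) ≤ ∑ n ∈ Icc 1 M, (1 : ℝ) := by
      refine Finset.sum_le_sum fun n _ => Finset.prod_le_one (fun i _ => ?_) (fun i _ => ?_)
      · rcases hf j i (ArithmeticFunction.cardFactors (n + i * p) + r) with h | h <;> rw [h]
        norm_num
      · rcases hf j i (ArithmeticFunction.cardFactors (n + i * p) + r) with h | h <;> rw [h]
        norm_num
    refine h2.trans ?_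
    simp
  rcases Nat.eq_zero_or_pos M with rfl | hM
  · simp
  · have hM0 : (0 : ℝ) < M := by exact_mod_cast hM
    rw [one_div, inv_mul_le_iff₀ hM0, mul_one]
    exact h1

private theorem io_cpf_sub (f : ℕ → ℕ → ℕ → ℝ) (hf : ∀ j i x, f j i x = 0 ∨ f j i x = 1)
    (r k p r' p' j M : ℕ) : |cpf f r k p j M - cpf f r' k p' j M| ≤ 1 := by
  have h1 := io_cpf_nonneg f hf r k p j M
  have h2 := io_cpf_nonneg f hf r' k p' j M
  have h3 := io_cpf_le f hf r k p j M
  have h4 := io_cpf_le f hf r' k p' j M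
  rw [abs_le]
  constructor <;> linarith

private theorem io_lim (w : Win) (u : ℕ → ℕ → ℝ) (hu : ∀ j M, |u j M| ≤ 1) :
    Tendsto (fun j => (∑ M ∈ Ioc (w.a j) (w.b j), (1 / (M : ℝ)) * u j M) /
      ∑ M ∈ Ioc (w.a j) (w.b j), 1 / (M : ℝ)) (hyperfilter ℕ : Filter ℕ)
      (𝓝 ((appμ w).R (fun s => u s.1 s.2.1))) := by
  have hB : Bd (fun s : ℕ × ℕ × ℤ => ((u s.1 s.2.1 : ℝ) : ℂ)) := by
    refine ⟨1, fun s => ?_⟩
    rw [Complex.norm_real, Real.norm_eq_abs]
    exact hu _ _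
  have h4 := app_tendsto w _ hB
  have h5 := (Complex.continuous_re.tendsto _).comp h4
  refine h5.congr fun j => ?_
  simp only [Function.comp_apply]
  have h6 : (wmean w j).E (fun s => ((u s.1 s.2.1 : ℝ) : ℂ)) =
      (((∑ M ∈ Ioc (w.a j) (w.b j), (1 / (M : ℝ)) * u j M) /
        ∑ M ∈ Ioc (w.a j) (w.b j), 1 / (M : ℝ) : ℝ) : ℂ) := by
    rw [wmean_E, Complex.ofReal_div]
    congr 1
    rw [Complex.ofReal_sum]
    refine Finset.sum_congr rfl fun M hM => ?_
    have hM0 : 0 < M := lt_of_le_of_lt (Nat.zero_le _) (Finset.mem_Ioc.1 hM).1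
    have hMc : (M : ℂ) ≠ 0 := by exact_mod_cast hM0.ne'
    have h2 : ∑ n ∈ Icc 1 M, ((u j M : ℝ) : ℂ) = (M : ℂ) * ((u j M : ℝ) : ℂ) := by
      rw [Finset.sum_const, Nat.card_Icc, Nat.add_sub_cancel, nsmul_eq_mul]
    change 1 / (M : ℂ) * (1 / (M : ℂ) * ∑ n ∈ Icc 1 M, ((u j M : ℝ) : ℂ)) = _
    rw [h2]
    push_cast
    field_simp
  rw [h6, Complex.ofReal_re]

private theorem io_R_abs (w : Win) (u : ℕ → ℕ → ℝ) (hu : ∀ j M, |u j M| ≤ 1) :
    (appμ w).R (fun s => |u s.1 s.2.1|) ^ 2 ≤ (appμ w).R (fun s => (u s.1 s.2.1) ^ 2) := by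
  have hB : Bd (fun s : ℕ × ℕ × ℤ => ((|u s.1 s.2.1| : ℝ) : ℂ)) := by
    refine ⟨1, fun s => ?_⟩
    rw [Complex.norm_real, Real.norm_eq_abs, abs_abs]
    exact hu _ _
  have h1 := (appμ w).sq_norm_E_le _ hB
  have h2 : (appμ w).N2 (fun s : ℕ × ℕ × ℤ => ((|u s.1 s.2.1| : ℝ) : ℂ)) =
      (appμ w).R (fun s => (u s.1 s.2.1) ^ 2) := by
    unfold Mean.N2
    congr 1
    funext s
    rw [Complex.norm_real, Real.norm_eq_abs, abs_abs, sq_abs]
  rw [h2] at h1
  refine le_trans ?_ h1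
  have h3 : 0 ≤ (appμ w).R (fun s => |u s.1 s.2.1|) :=
    (appμ w).R_nonneg _ (fun s => abs_nonneg _) (C := 1) (fun s => hu _ _)
  have h4 : (appμ w).R (fun s => |u s.1 s.2.1|) ≤
      ‖(appμ w).E (fun s : ℕ × ℕ × ℤ => ((|u s.1 s.2.1| : ℝ) : ℂ))‖ := Complex.re_le_norm _
  exact pow_le_pow_left₀ h3 h4 2

/-- first error term -/
private noncomputable def ioe1 (w : Win) (f : ℕ → ℕ → ℕ → ℝ) (k p : ℕ) : ℝ :=
  ‖(appμ w).E (fun s => ((cpf f 1 k 1 s.1 s.2.1 : ℝ) : ℂ) *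
    ((if (p : ℤ) ∣ s.2.2 then (p : ℂ) else 0) - 1) * patf f 0 k (p : ℤ) s)‖

/-- second error term -/
private noncomputable def ioe2 (w : Win) (f : ℕ → ℕ → ℕ → ℝ) (k p : ℕ) : ℝ :=
  ‖(appμ2 w).E (fun s => ((if (p : ℤ) ∣ s.2.2.1 then (p : ℂ) else 0) - 1) *
    (patf f 0 k (p : ℤ) (s.1, s.2.1, s.2.2.1) * patf f 0 k (p : ℤ) (s.1, s.2.1, s.2.2.2)))‖

private theorem io_ent1 (w : Win) (f : ℕ → ℕ → ℕ → ℝ)
    (hf : ∀ j i x, f j i x = 0 ∨ f j i x = 1) (k : ℕ) (ε C : ℝ)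
    (hC : ∀ (X : Sys) (pos : X.S → ℤ),
      (∀ x, pos (X.T x) = pos x + 1) → ∀ f : ℕ → X.S → ℝ, (∀ i x, f i x = 0 ∨ f i x = 1) →
      ∀ Cw : X.S → ℂ, (∀ x, ‖Cw x‖ ≤ 1) → TInv X Cw →
      ∀ B : Finset ℕ, (∀ p ∈ B, p.Prime ∧ ε < ‖X.μ.E (fun x => Cw x *
          ((if (p : ℤ) ∣ pos x then (p : ℂ) else 0) - 1) *
            ∏ i ∈ range (k + 1), ((f i ((X.T ^ ((i : ℤ) * p)) x) : ℝ) : ℂ))‖) →
      ∑ p ∈ B, 1 / (p : ℝ) ≤ C) (B : Finset ℕ) (hB : ∀ p ∈ B, p.Prime ∧ ε < ioe1 w f k p) :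
    ∑ p ∈ B, 1 / (p : ℝ) ≤ C := by
  refine hC (app w) (fun s => s.2.2) (fun _ => rfl) (fun i s => f s.1 i (OmZ s.2.2))
    (fun i s => hf _ _ _) (fun s => ((cpf f 1 k 1 s.1 s.2.1 : ℝ) : ℂ)) (fun s => ?_)
    (fun _ => rfl) B fun p hp => ⟨(hB p hp).1, ?_⟩
  · rw [Complex.norm_real, Real.norm_eq_abs, abs_of_nonneg (io_cpf_nonneg f hf _ _ _ _ _)]
    exact io_cpf_le f hf _ _ _ _ _
  · refine lt_of_lt_of_eq (hB p hp).2 ?_
    unfold ioe1
    have h1 : (fun s : ℕ × ℕ × ℤ => ((cpf f 1 k 1 s.1 s.2.1 : ℝ) : ℂ) *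
        ((if (p : ℤ) ∣ s.2.2 then (p : ℂ) else 0) - 1) * patf f 0 k (p : ℤ) s) =
        (fun x : (app w).S => (fun s : (app w).S => ((cpf f 1 k 1 s.1 s.2.1 : ℝ) : ℂ)) x *
          ((if (p : ℤ) ∣ (fun s : (app w).S => s.2.2) x then (p : ℂ) else 0) - 1) *
            ∏ i ∈ range (k + 1), (((fun (i : ℕ) (s : (app w).S) => f s.1 i (OmZ s.2.2)) i
              (((app w).T ^ ((i : ℤ) * p)) x) : ℝ) : ℂ)) := by
      funext s
      obtain ⟨j, M, n⟩ := s
      have h2 : (∏ i ∈ range (k + 1), (((fun (i : ℕ) (s : (app w).S) => f s.1 i (OmZ s.2.2)) i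
              (((app w).T ^ ((i : ℤ) * p)) (j, M, n)) : ℝ) : ℂ)) =
          patf f 0 k (p : ℤ) (j, M, n) := by
        unfold patf
        refine Finset.prod_congr rfl fun i _ => ?_
        have h3 : ((app w).T ^ ((i : ℤ) * p)) (j, M, n) = (j, M, n + (i : ℤ) * p) :=
          shT_zpow _ j M n
        rw [h3]
        rfl
      rw [h2]
    rw [h1]
    rfl

private theorem io_ent2 (w : Win) (f : ℕ → ℕ → ℕ → ℝ)
    (hf : ∀ j i x, f j i x = 0 ∨ f j i x = 1) (k : ℕ) (ε C : ℝ)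
    (hC : ∀ (X : Sys) (pos : X.S → ℤ),
      (∀ x, pos (X.T x) = pos x + 1) → ∀ f : ℕ → X.S → ℝ, (∀ i x, f i x = 0 ∨ f i x = 1) →
      ∀ Cw : X.S → ℂ, (∀ x, ‖Cw x‖ ≤ 1) → TInv X Cw →
      ∀ B : Finset ℕ, (∀ p ∈ B, p.Prime ∧ ε < ‖X.μ.E (fun x => Cw x *
          ((if (p : ℤ) ∣ pos x then (p : ℂ) else 0) - 1) *
            ∏ i ∈ range (k + 1), ((f i ((X.T ^ ((i : ℤ) * p)) x) : ℝ) : ℂ))‖) →
      ∑ p ∈ B, 1 / (p : ℝ) ≤ C) (B : Finset ℕ) (hB : ∀ p ∈ B, p.Prime ∧ ε < ioe2 w f k p) :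
    ∑ p ∈ B, 1 / (p : ℝ) ≤ C := by
  refine hC (app2 w) (fun s => s.2.2.1) (fun _ => rfl)
    (fun i s => f s.1 i (OmZ s.2.2.1) * f s.1 i (OmZ s.2.2.2))
    (fun i s => ?_) (fun _ => 1) (fun s => by rw [norm_one]) (fun _ => rfl) B
    fun p hp => ⟨(hB p hp).1, ?_⟩
  · rcases hf s.1 i (OmZ s.2.2.1) with h | h <;> rcases hf s.1 i (OmZ s.2.2.2) with h' | h' <;>
      simp [h, h']
  refine lt_of_lt_of_eq (hB p hp).2 ?_
  unfold ioe2
  have h1 : (fun s : ℕ × ℕ × ℤ × ℤ => ((if (p : ℤ) ∣ s.2.2.1 then (p : ℂ) else 0) - 1) *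
      (patf f 0 k (p : ℤ) (s.1, s.2.1, s.2.2.1) * patf f 0 k (p : ℤ) (s.1, s.2.1, s.2.2.2))) =
      (fun x : (app2 w).S => (fun _ : (app2 w).S => (1 : ℂ)) x *
        ((if (p : ℤ) ∣ (fun s : (app2 w).S => s.2.2.1) x then (p : ℂ) else 0) - 1) *
          ∏ i ∈ range (k + 1), (((fun (i : ℕ) (s : (app2 w).S) =>
            f s.1 i (OmZ s.2.2.1) * f s.1 i (OmZ s.2.2.2)) i
            (((app2 w).T ^ ((i : ℤ) * p)) x) : ℝ) : ℂ)) := by
    funext s
    obtain ⟨j, M, n, n'⟩ := s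
    have h2 : (∏ i ∈ range (k + 1), (((fun (i : ℕ) (s : (app2 w).S) =>
            f s.1 i (OmZ s.2.2.1) * f s.1 i (OmZ s.2.2.2)) i
            (((app2 w).T ^ ((i : ℤ) * p)) (j, M, n, n')) : ℝ) : ℂ)) =
        patf f 0 k (p : ℤ) (j, M, n) * patf f 0 k (p : ℤ) (j, M, n') := by
      unfold patf
      rw [← Finset.prod_mul_distrib]
      refine Finset.prod_congr rfl fun i _ => ?_
      have h3 : ((app2 w).T ^ ((i : ℤ) * p)) (j, M, n, n') =
          (j, M, n + (i : ℤ) * p, n' + (i : ℤ) * p) := shT2_zpow _ j M n n'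
      rw [h3, ← Complex.ofReal_mul]
      rfl
    rw [h2]
    show _ = 1 * _ * _
    rw [one_mul]
  rw [h1]
  rfl

private theorem io_cpf_eq (f : ℕ → ℕ → ℕ → ℝ) (k j : ℕ) (B : Fin (k + 1) → Finset ℕ)
    (hf : ∀ (i : Fin (k + 1)) (x : ℕ), f j i x = if x ∈ B i then 1 else 0) (r p M : ℕ) :
    cpf f r k p j M = (1 / (M : ℝ)) * ∑ n ∈ Icc 1 M,
      (if ∀ i : Fin (k + 1), ArithmeticFunction.cardFactors (n + i * p) + r ∈ B i then
        (1 : ℝ) else 0) := by
  unfold cpf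
  congr 1
  refine Finset.sum_congr rfl fun n _ => ?_
  rw [Finset.prod_range]
  simp only [hf]
  rw [Finset.prod_ite_zero]
  simp

/-- the window sum of one prime -/
private noncomputable def ioW (k p N K : ℕ) (A : Fin k → Finset ℕ) : ℝ :=
  ∑ M ∈ Ioc (N / K) N, (1 / (M : ℝ)) *
    |Ec k M (fun l => if ∀ i, l i ∈ A i then 1 else 0) -
      Ecp k p M (fun l => if ∀ i, l i ∈ A i then 1 else 0)|

theorem isoProdC (hE : EntS) (hD : ∀ k, ProdSt k) (hS : ∀ k t : ℕ, 1 ≤ t → SymGoal k 0 t) (k : ℕ) :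
    IsoProdC k := by
  classical
  rcases k with _ | k
  · intro ε hε
    refine ⟨0, fun Y => ⟨1, 1, fun N K _ hK _ A => ⟨∅, Finset.empty_subset _, by simp,
      fun p _ _ => ?_⟩⟩⟩
    have h1 : 0 ≤ Real.log K := Real.log_nonneg (by exact_mod_cast hK)
    have h3 : ∀ M ∈ Ioc (N / K) N, (1 / (M : ℝ)) *
        |Ec 0 M (fun l => if ∀ i, l i ∈ A i then 1 else 0) -
          Ecp 0 p M (fun l => if ∀ i, l i ∈ A i then 1 else 0)| = 0 := by
      intro M _
      have h4 : Ec 0 M (fun l => if ∀ i, l i ∈ A i then 1 else 0) =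
          Ecp 0 p M (fun l => if ∀ i, l i ∈ A i then 1 else 0) := by
        unfold Ec Ecp
        simp only [IsEmpty.forall_iff, if_true]
      rw [h4, sub_self, abs_zero, mul_zero]
    rw [Finset.sum_congr rfl h3, Finset.sum_const_zero]
    positivity
  intro ε hε
  obtain ⟨C, hC⟩ := hE k (ε ^ 2 / 9) (by positivity)
  refine ⟨2 * C, fun Y => ?_⟩
  by_contra hcon
  push Not at hcon
  choose N K hN hK hKN B hB using fun j : ℕ => hcon (j + 3) (j + 3)
  have hK1 : ∀ j, 1 ≤ K j := fun j => by have := hK j; omega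
  have hlogK : ∀ j : ℕ, Real.log ((j : ℝ) + 3) ≤ Real.log (K j) := by
    intro j
    refine Real.log_le_log (by positivity) ?_
    exact_mod_cast hK j
  let w : Win :=
    { a := fun j => N j / K j
      b := N
      lt := fun j => Nat.div_lt_self (by have := hN j; omega) (by have := hK j; omega)
      div := by
        refine tendsto_atTop_mono (fun j => e7_le_mass (N j) (K j) (hK1 j) (hKN j)) ?_
        have h1 : Tendsto (fun j : ℕ => Real.log ((j : ℝ) + 3) - 1) atTop atTop := by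
          refine tendsto_atTop_add_const_right _ _ ?_
          exact Real.tendsto_log_atTop.comp
            (tendsto_atTop_add_const_right _ _ tendsto_natCast_atTop_atTop)
        refine tendsto_atTop_mono (fun j => ?_) h1
        have h2 := hlogK j
        linarith }
  have hw : ∀ j, w.a j = N j / K j ∧ w.b j = N j ∧ K j ≤ N j ∧ j ≤ K j ∧ 1 ≤ K j := fun j =>
    ⟨rfl, rfl, hKN j, by have := hK j; omega, hK1 j⟩
  let f : ℕ → ℕ → ℕ → ℝ := fun j i x =>
    if h : i < k + 1 then (if x ∈ B j ⟨i, h⟩ then 1 else 0) else 0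
  have hf : ∀ j i x, f j i x = 0 ∨ f j i x = 1 := by
    intro j i x
    simp only [f]
    split_ifs
    · exact Or.inr rfl
    · exact Or.inl rfl
    · exact Or.inl rfl
  have hfB : ∀ j (i : Fin (k + 1)) (x : ℕ), f j i x = if x ∈ B j i then 1 else 0 := by
    intro j i x
    simp only [f, i.2, dif_pos, Fin.eta]
  have hEE : ∀ j r p M, cpf f r k p j M = (1 / (M : ℝ)) * ∑ n ∈ Icc 1 M,
      (if ∀ i : Fin (k + 1), ArithmeticFunction.cardFactors (n + i * p) + r ∈ B j i then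
        (1 : ℝ) else 0) := fun j r p M => io_cpf_eq f k j (B j) (hfB j) r p M
  have hEp : ∀ j p M, cpf f 0 k p j M =
      Ecp (k + 1) p M (fun l => if ∀ i, l i ∈ B j i then 1 else 0) := by
    intro j p M
    rw [hEE]
    rfl
  have hE0 : ∀ j M, cpf f 0 k 1 j M =
      Ec (k + 1) M (fun l => if ∀ i, l i ∈ B j i then 1 else 0) := by
    intro j M
    rw [hEE]
    unfold Ec
    simp only [mul_one, add_zero]
  have hE1 : ∀ j M, cpf f 1 k 1 j M =
      Ec (k + 1) M (fun l => if ∀ i, l i + 1 ∈ B j i then 1 else 0) := by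
    intro j M
    rw [hEE]
    unfold Ec
    simp only [mul_one]
  -- the diagonal invariance in the limit
  set V : ℕ → ℝ := fun j =>
    (∑ M ∈ Ioc (w.a j) (w.b j), (1 / (M : ℝ)) * |cpf f 0 k 1 j M - cpf f 1 k 1 j M|) /
      ∑ M ∈ Ioc (w.a j) (w.b j), 1 / (M : ℝ) with hVdef
  have hV0 : ∀ j, 0 ≤ V j := fun j =>
    div_nonneg (Finset.sum_nonneg fun M _ => mul_nonneg (by positivity) (abs_nonneg _))
      (Finset.sum_nonneg fun M _ => by positivity)
  have hVlim : Tendsto V (hyperfilter ℕ : Filter ℕ) (𝓝 0) := by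
    refine Tendsto.mono_left ?_ Nat.hyperfilter_le_atTop
    rw [Metric.tendsto_atTop]
    intro δ hδ
    obtain ⟨K0, N0, h0⟩ := hD (k + 1) (δ / 4) (by positivity)
    refine ⟨max (max K0 N0) 8, fun j hj => ?_⟩
    have hj1 : K0 ≤ j := (le_max_left _ _).trans ((le_max_left _ _).trans hj)
    have hj2 : N0 ≤ j := (le_max_right _ _).trans ((le_max_left _ _).trans hj)
    have hj3 : 8 ≤ j := (le_max_right _ _).trans hj
    have h1 := h0 (N j) (K j) (by have := hN j; omega) (by have := hK j; omega) (hKN j) (B j)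
    have hlog2 : 2 ≤ Real.log (K j) := by
      have h2 : Real.exp 2 ≤ (K j : ℝ) := by
        have h3 : (11 : ℝ) ≤ K j := by
          have := hK j
          have h4 : 11 ≤ K j := by omega
          exact_mod_cast h4
        have h5 : Real.exp 2 = Real.exp 1 * Real.exp 1 := by
          rw [← Real.exp_add]
          norm_num
        have h6 := Real.exp_one_lt_d9
        have h7 := Real.exp_pos 1
        nlinarith
      rw [← Real.log_exp 2]
      exact Real.log_le_log (Real.exp_pos 2) h2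
    have hm2 : Real.log (K j) / 2 ≤ ∑ M ∈ Ioc (w.a j) (w.b j), 1 / (M : ℝ) := by
      have := e7_le_mass (N j) (K j) (hK1 j) (hKN j)
      show Real.log (K j) / 2 ≤ ∑ M ∈ Ioc (N j / K j) (N j), 1 / (M : ℝ)
      linarith
    have hm : 0 < ∑ M ∈ Ioc (w.a j) (w.b j), 1 / (M : ℝ) := mass_pos (w.lt j)
    rw [Real.dist_eq, sub_zero, abs_of_nonneg (hV0 j)]
    show _ / _ < δ
    rw [div_lt_iff₀ hm]
    have h2 : ∑ M ∈ Ioc (w.a j) (w.b j), (1 / (M : ℝ)) *
        |cpf f 0 k 1 j M - cpf f 1 k 1 j M| ≤ δ / 4 * Real.log (K j) := by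
      refine le_trans (le_of_eq ?_) h1
      refine Finset.sum_congr rfl fun M _ => ?_
      rw [hE0, hE1]
    have h3 : δ * (Real.log (K j) / 2) ≤ δ * ∑ M ∈ Ioc (w.a j) (w.b j), 1 / (M : ℝ) :=
      mul_le_mul_of_nonneg_left hm2 hδ.le
    have h4 : 0 < δ * Real.log (K j) := by positivity
    linarith
  -- the exceptional sets
  set Ej : ℕ → Finset ℕ := fun j =>
    (prY Y).filter (fun p => ε * Real.log (K j) < ioW (k + 1) p (N j) (K j) (B j)) with hEjdef
  have hEjC : ∀ j, 2 * C < ∑ p ∈ Ej j, 1 / (p : ℝ) := by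
    intro j
    by_contra hlt
    rw [not_lt] at hlt
    obtain ⟨p, hp, hpE, hpl⟩ := hB j (Ej j) (Finset.filter_subset _ _) hlt
    exact hpE (Finset.mem_filter.2 ⟨hp, hpl⟩)
  set E : Finset ℕ := (prY Y).filter (fun p => ∀ᶠ j in (hyperfilter ℕ : Filter ℕ), p ∈ Ej j)
    with hEdef
  have hEev : ∀ᶠ j in (hyperfilter ℕ : Filter ℕ), Ej j = E := by
    have h1 : ∀ᶠ j in (hyperfilter ℕ : Filter ℕ), ∀ p ∈ prY Y, (p ∈ Ej j ↔ p ∈ E) := by
      rw [Filter.eventually_all_finset]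
      intro p hp
      by_cases hpE : p ∈ E
      · have h2 := (Finset.mem_filter.1 hpE).2
        filter_upwards [h2] with j hj
        exact ⟨fun _ => hpE, fun _ => hj⟩
      · have h2 : ¬ ∀ᶠ j in (hyperfilter ℕ : Filter ℕ), p ∈ Ej j := fun h3 =>
          hpE (Finset.mem_filter.2 ⟨hp, h3⟩)
        have h3 := Ultrafilter.eventually_not.2 h2
        filter_upwards [h3] with j hj
        exact ⟨fun h4 => absurd h4 hj, fun h4 => absurd h4 hpE⟩
    filter_upwards [h1] with j hj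
    ext p
    by_cases hp : p ∈ prY Y
    · exact hj p hp
    · exact ⟨fun h2 => absurd (Finset.mem_filter.1 h2).1 hp,
        fun h2 => absurd (Finset.mem_filter.1 h2).1 hp⟩
  have hEC : 2 * C < ∑ p ∈ E, 1 / (p : ℝ) := by
    obtain ⟨j, hj⟩ := hEev.exists
    rw [← hj]
    exact hEjC j
  -- each exceptional prime has a large error term
  have hbig : ∀ p ∈ E, ε ^ 2 / 9 < ioe1 w f k p ∨ ε ^ 2 / 9 < ioe2 w f k p := by
    intro p hp
    have hpY := (Finset.mem_filter.1 hp).1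
    have hpev := (Finset.mem_filter.1 hp).2
    have hpp : p.Prime := (Finset.mem_filter.1 hpY).2
    have hTlim := io_lim w (fun j M => |cpf f 0 k p j M - cpf f 1 k 1 j M|) (fun j M => by
      rw [abs_abs]
      exact io_cpf_sub f hf _ _ _ _ _ _ _)
    have hlow : ∀ᶠ j in (hyperfilter ℕ : Filter ℕ), ε / 2 ≤
        (∑ M ∈ Ioc (w.a j) (w.b j), (1 / (M : ℝ)) * |cpf f 0 k p j M - cpf f 1 k 1 j M|) /
          (∑ M ∈ Ioc (w.a j) (w.b j), 1 / (M : ℝ)) + V j := by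
      filter_upwards [hpev] with j hj
      have hj2 := (Finset.mem_filter.1 hj).2
      have hm : 0 < ∑ M ∈ Ioc (w.a j) (w.b j), 1 / (M : ℝ) := mass_pos (w.lt j)
      have hlog1 : 1 ≤ Real.log (K j) := by
        have h1 : Real.exp 1 ≤ (K j : ℝ) := by
          have h2 : (3 : ℝ) ≤ K j := by
            have := hK j
            have h3 : 3 ≤ K j := by omega
            exact_mod_cast h3
          have := Real.exp_one_lt_d9
          linarith
        rw [← Real.log_exp 1]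
        exact Real.log_le_log (Real.exp_pos 1) h1
      have hm2 : ∑ M ∈ Ioc (w.a j) (w.b j), 1 / (M : ℝ) ≤ 2 * Real.log (K j) := by
        have := e7_mass_le (N j) (K j) (hK1 j) (hKN j)
        show ∑ M ∈ Ioc (N j / K j) (N j), 1 / (M : ℝ) ≤ 2 * Real.log (K j)
        linarith
      have h2 : ioW (k + 1) p (N j) (K j) (B j) ≤
          (∑ M ∈ Ioc (w.a j) (w.b j), (1 / (M : ℝ)) * |cpf f 0 k p j M - cpf f 1 k 1 j M|) +
          ∑ M ∈ Ioc (w.a j) (w.b j), (1 / (M : ℝ)) *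
            |cpf f 0 k 1 j M - cpf f 1 k 1 j M| := by
        unfold ioW
        rw [← Finset.sum_add_distrib]
        show ∑ M ∈ Ioc (w.a j) (w.b j), _ ≤ _
        refine Finset.sum_le_sum fun M _ => ?_
        rw [← mul_add]
        refine mul_le_mul_of_nonneg_left ?_ (by positivity)
        rw [← hEp, ← hE0, abs_sub_comm, show cpf f 0 k p j M - cpf f 0 k 1 j M =
          (cpf f 0 k p j M - cpf f 1 k 1 j M) - (cpf f 0 k 1 j M - cpf f 1 k 1 j M) by ring]
        exact abs_sub _ _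
      have h3 := lt_of_lt_of_le hj2 h2
      rw [hVdef]
      show ε / 2 ≤ _ / _ + _ / _
      rw [← add_div, le_div_iff₀ hm]
      have h6 : ε / 2 * (∑ M ∈ Ioc (w.a j) (w.b j), 1 / (M : ℝ)) ≤ ε * Real.log (K j) := by
        have h7 : ε / 2 * (∑ M ∈ Ioc (w.a j) (w.b j), 1 / (M : ℝ)) ≤
            ε / 2 * (2 * Real.log (K j)) :=
          mul_le_mul_of_nonneg_left hm2 (by positivity)
        linarith
      linarith
    have hfin := ge_of_tendsto (hTlim.add hVlim) hlow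
    rw [add_zero] at hfin
    have h1 := io_R_abs w (fun j M => cpf f 0 k p j M - cpf f 1 k 1 j M)
      (fun j M => io_cpf_sub f hf _ _ _ _ _ _ _)
    have h2 := sec_mom w f hf k p hpp (lim_scale hS w N K hw f hf k p hpp.one_lt.le)
    have h3 : ε ^ 2 / 4 ≤ ioe1 w f k p + ioe2 w f k p := by
      refine le_trans ?_ (h1.trans h2)
      have h4 : (ε / 2) ^ 2 ≤
          ((appμ w).R (fun s => |cpf f 0 k p s.1 s.2.1 - cpf f 1 k 1 s.1 s.2.1|)) ^ 2 :=
        pow_le_pow_left₀ (by positivity) hfin 2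
      refine le_trans (le_of_eq ?_) h4
      ring
    by_contra hno
    push Not at hno
    have h5 : 0 < ε ^ 2 := by positivity
    linarith [hno.1, hno.2]
  have hEprime : ∀ p ∈ E, p.Prime := fun p hp =>
    (Finset.mem_filter.1 (Finset.mem_filter.1 hp).1).2
  have h1 := io_ent1 w f hf k (ε ^ 2 / 9) C hC (E.filter (fun p => ε ^ 2 / 9 < ioe1 w f k p))
    (fun p hp => ⟨hEprime p (Finset.mem_filter.1 hp).1, (Finset.mem_filter.1 hp).2⟩)
  have h2 := io_ent2 w f hf k (ε ^ 2 / 9) C hC (E.filter (fun p => ε ^ 2 / 9 < ioe2 w f k p))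
    (fun p hp => ⟨hEprime p (Finset.mem_filter.1 hp).1, (Finset.mem_filter.1 hp).2⟩)
  clear_value E
  have h3 : ∑ p ∈ E, 1 / (p : ℝ) ≤
      ∑ p ∈ E.filter (fun p => ε ^ 2 / 9 < ioe1 w f k p), 1 / (p : ℝ) +
      ∑ p ∈ E.filter (fun p => ε ^ 2 / 9 < ioe2 w f k p), 1 / (p : ℝ) := by
    rw [Finset.sum_filter, Finset.sum_filter, ← Finset.sum_add_distrib]
    refine Finset.sum_le_sum fun p hp => ?_
    have h0 : 0 ≤ 1 / (p : ℝ) := by positivity
    rcases hbig p hp with h | h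
    · rw [if_pos h]
      split_ifs <;> linarith
    · rw [if_pos h]
      split_ifs <;> linarith
  linarith

end DG
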