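import Pool.Agent.Helper6.IS.Defs
import Pool.Agent.Helper11.QR.WCount

/-!
# ISO-6b: choice of the parameters, and generic steps

PROOF. `paramsG`: as AS-12 / FAR-2, `k (linG k t).card = t k^t` (so `(linG k t).card = t k^(t-1)`), `n = k^t` sites; the exponent
`(k^t + 1) (1 + log (K + 1))`, `log (K + 1) ≤ C (1 + log t)`, is eventually (in `t`) smaller than `ε₁² t k^(t-1) / 8`.
`greedyG`: choose `d 0, d 1, ... ∈ T` one after the other such that no nontrivial combination `∑ z_j d_j` with integers `|z_j| < k` vanishes: at each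
step at most `(2k)^(t+1)` values of `d j` are excluded (if `j` is the largest index with `z_j ≠ 0` then `d j` is determined by `z` and the
previous ones; `T` does not contain `0`).
-/

set_option autoImplicit false

namespace FR

open Finset Helper13.Om Helper11.QR AS

private lemma i6_linG (k t : ℕ) [NeZero k] : t * k ^ t ≤ (linG k t).card * k := by
  classical
  have h1 : (Finset.univ : Finset (Fin t × (Fin t → Fin k))).card = t * k ^ t := by
    rw [Finset.card_univ, Fintype.card_prod, Fintype.card_fin, Fintype.card_fun, Fintype.card_fin,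
      Fintype.card_fin]
  have h2 : (linG k t ×ˢ (Finset.univ : Finset (Fin k))).card = (linG k t).card * k := by
    rw [Finset.card_product, Finset.card_univ, Fintype.card_fin]
  rw [← h1, ← h2]
  refine Finset.card_le_card_of_injOn (fun e => ((e.1, Function.update e.2 e.1 0), e.2 e.1))
    (fun e _ => ?_) ?_
  · rw [Finset.mem_coe, Finset.mem_product]
    refine ⟨?_, Finset.mem_univ _⟩
    unfold linG
    rw [Finset.mem_filter]
    exact ⟨Finset.mem_univ _, Function.update_self _ _ _⟩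
  · rintro ⟨j, x⟩ _ ⟨j', x'⟩ _ h
    simp only [Prod.mk.injEq] at h
    obtain ⟨⟨h3, h4⟩, h5⟩ := h
    subst h3
    have h6 : x = x' := by
      funext i
      by_cases hi : i = j
      · rw [hi]
        exact h5
      · have h7 := congrFun h4 i
        rwa [Function.update_of_ne hi, Function.update_of_ne hi] at h7
    rw [h6]

private lemma i6_Wn (ι : Type) [Fintype ι] [DecidableEq ι] (n : ℕ) (hn : Fintype.card ι = n)
    (S : ℕ) : (Wn ι S).card ≤ (WW n S).card := by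
  have e : ι ≃ Fin n := Fintype.equivFinOfCardEq hn
  refine Finset.card_le_card_of_injOn (fun w => Fin.cons 0 (fun j => w (e.symm j)))
    (fun w hw => ?_) ?_
  · have hw' : w ∈ Wn ι S := hw
    unfold Wn at hw'
    rw [Finset.mem_filter] at hw'
    refine Finset.mem_coe.2 ((mem_WW n S _).2 ?_)
    rw [Fin.sum_univ_succ]
    simp only [Fin.cons_zero, Fin.cons_succ, zero_add]
    rw [Equiv.sum_comp e.symm w]
    exact hw'.2
  · intro w _ w' _ h
    funext i
    have h1 := congrFun h (Fin.succ (e i))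
    simp only [Fin.cons_succ, Equiv.symm_apply_apply] at h1
    exact h1

private lemma i6_Cp (q : ℕ) (hq1 : (1 : ℝ) ≤ q) :
    (CpN (q + 1) : ℝ) ≤ 10 ^ 6 * 9 * (q : ℝ) ^ 2 := by
  have e0 : (CpN (q + 1) : ℝ) = 10 ^ 6 * ((q : ℝ) + 2) ^ 2 := by
    unfold CpN
    push_cast
    ring
  have e : (10 : ℝ) ^ 6 * 9 * (q : ℝ) ^ 2 = 10 ^ 6 * (3 * q) ^ 2 := by
    ring
  rw [e0, e]
  refine mul_le_mul_of_nonneg_left (pow_le_pow_left₀ (by positivity) ?_ 2) (by positivity)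
  linarith

private lemma i6_fin (κ B L ε₁ s P E l m : ℝ) (hs1 : 1 ≤ s) (hP : 1 ≤ P) (hL0 : 0 ≤ L)
    (hsR : B + L ≤ ε₁ ^ 2 / 2 * κ * s) (hedge : κ * (s ^ 2 * P) ≤ E) (h5 : l - m ≤ L) :
    B * (s * P) + l + -(ε₁ ^ 2 / 2 * E) ≤ m := by
  have hs0 : 0 ≤ s * P := by positivity
  have hsP : 1 ≤ s * P := one_le_mul_of_one_le_of_one_le hs1 hP
  have h2 : ε₁ ^ 2 / 2 * (κ * (s ^ 2 * P)) ≤ ε₁ ^ 2 / 2 * E :=
    mul_le_mul_of_nonneg_left hedge (by positivity)
  have h3 : (B + L) * (s * P) ≤ ε₁ ^ 2 / 2 * κ * s * (s * P) :=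
    mul_le_mul_of_nonneg_right hsR hs0
  have h4 : L ≤ L * (s * P) := le_mul_of_one_le_right hL0 hsP
  have h6 : ε₁ ^ 2 / 2 * κ * s * (s * P) = ε₁ ^ 2 / 2 * (κ * (s ^ 2 * P)) := by ring
  have h7 : (B + L) * (s * P) = B * (s * P) + L * (s * P) := by ring
  linarith

theorem paramsG (k : ℕ) [NeZero k] (ε₁ : ℝ) (hε : 0 < ε₁) : ∃ t u K : ℕ, 1 ≤ t ∧ 1 ≤ u ∧ 1 ≤ K ∧
    (K0 0 u : ℝ) / K ≤ ε₁ ∧ 2 * (CpN (k ^ t + 1) : ℝ) / u ≤ ε₁ ∧
    ((Wn (Fin t → Fin k) (K * k ^ t)).card : ℝ) *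
      (4 * Real.exp (-(ε₁ ^ 2 / 2 * (linG k t).card))) ≤ ε₁ := by
  have hkpos : 1 ≤ k := Nat.one_le_iff_ne_zero.2 (NeZero.ne k)
  have hk0 : (0 : ℝ) < k := by exact_mod_cast hkpos
  obtain ⟨U, hU⟩ : ∃ U : ℝ, U = 2 * (10 ^ 6 * 9) / ε₁ + 2 := ⟨_, rfl⟩
  have hU0 : 0 < U := by rw [hU]; positivity
  obtain ⟨a, ha⟩ : ∃ a : ℕ, a = ⌈U⌉₊ := ⟨_, rfl⟩
  have hUa : U ≤ a := by rw [ha]; exact Nat.le_ceil U
  obtain ⟨A, hA⟩ : ∃ A : ℝ, A = 8 * ((a : ℝ) + 2 * k + 8) / ε₁ + 3 := ⟨_, rfl⟩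
  have hA0 : 0 < A := by rw [hA]; positivity
  obtain ⟨B, hB⟩ : ∃ B : ℝ, B = 2 * (3 + |Real.log A|) := ⟨_, rfl⟩
  have hB0 : 0 ≤ B := by rw [hB]; positivity
  obtain ⟨L, hL⟩ : ∃ L : ℝ, L = Real.log 4 + |Real.log ε₁| := ⟨_, rfl⟩
  have hL0 : 0 ≤ L := by
    rw [hL]
    have : 0 ≤ Real.log 4 := Real.log_nonneg (by norm_num)
    positivity
  obtain ⟨κ, hκ⟩ : ∃ κ : ℝ, κ = 1 / (2 * k) := ⟨_, rfl⟩
  have hκ0 : 0 < κ := by rw [hκ]; positivity
  obtain ⟨s₀, hs₀⟩ := exists_nat_ge ((B + L) / (ε₁ ^ 2 / 2 * κ))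
  obtain ⟨s, hs⟩ : ∃ s : ℕ, s = s₀ + 2 := ⟨_, rfl⟩
  have hs2 : 2 ≤ s := by omega
  have hsR : (B + L) ≤ ε₁ ^ 2 / 2 * κ * s := by
    have h1 : B + L ≤ s₀ * (ε₁ ^ 2 / 2 * κ) := (div_le_iff₀ (by positivity)).1 hs₀
    have h2 : (s₀ : ℝ) ≤ s := by
      rw [hs]
      push_cast
      linarith
    have h3 : (s₀ : ℝ) * (ε₁ ^ 2 / 2 * κ) ≤ s * (ε₁ ^ 2 / 2 * κ) :=
      mul_le_mul_of_nonneg_right h2 (by positivity)
    linarith
  have hs2r : (2 : ℝ) ≤ s := by exact_mod_cast hs2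
  have hs1 : (1 : ℝ) ≤ s := by linarith
  -- `t + 1 = s ^ 2`
  obtain ⟨t, ht⟩ : ∃ t : ℕ, t + 1 = s ^ 2 := ⟨s ^ 2 - 1, by
    have : 1 ≤ s ^ 2 := Nat.one_le_pow _ _ (by omega)
    omega⟩
  have ht1 : 1 ≤ t := by
    have : 2 ^ 2 ≤ s ^ 2 := Nat.pow_le_pow_left hs2 2
    omega
  have hts : (t : ℝ) + 1 = (s : ℝ) ^ 2 := by exact_mod_cast ht
  have ht0 : (0 : ℝ) ≤ t := Nat.cast_nonneg t
  obtain ⟨q, hq⟩ : ∃ q : ℕ, q = k ^ t := ⟨_, rfl⟩
  have hqpos : 1 ≤ q := by
    rw [hq]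
    exact Nat.one_le_pow _ _ hkpos
  have hq1 : (1 : ℝ) ≤ q := by exact_mod_cast hqpos
  have hqq : (1 : ℝ) ≤ (q : ℝ) ^ 2 := by nlinarith
  obtain ⟨u, hu⟩ : ∃ u : ℕ, u = ⌈2 * (CpN (q + 1) : ℝ) / ε₁⌉₊ + 1 := ⟨_, rfl⟩
  have hCp : (CpN (q + 1) : ℝ) ≤ 10 ^ 6 * 9 * (q : ℝ) ^ 2 := i6_Cp q hq1
  have hu1 : 2 * (CpN (q + 1) : ℝ) / ε₁ ≤ u := by
    rw [hu]
    push_cast
    have := Nat.le_ceil (2 * (CpN (q + 1) : ℝ) / ε₁)
    linarith
  have hu2 : (u : ℝ) ≤ U * (q : ℝ) ^ 2 := by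
    have h1 : (⌈2 * (CpN (q + 1) : ℝ) / ε₁⌉₊ : ℝ) <
        2 * (CpN (q + 1) : ℝ) / ε₁ + 1 := Nat.ceil_lt_add_one (by positivity)
    have h2 : 2 * (CpN (q + 1) : ℝ) / ε₁ ≤
        2 * (10 ^ 6 * 9) / ε₁ * (q : ℝ) ^ 2 := by
      rw [div_mul_eq_mul_div]
      refine div_le_div_of_nonneg_right ?_ hε.le
      linarith
    rw [hu, hU]
    push_cast
    rw [add_mul]
    linarith
  have hulog : Nat.log 2 u ≤ a + 2 * (k * t) := by
    have h1 : u ≤ 2 ^ (a + 2 * (k * t)) := by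
      have h2 : (u : ℝ) ≤ ((a * q ^ 2 : ℕ) : ℝ) := by
        push_cast
        exact hu2.trans (mul_le_mul_of_nonneg_right hUa (by positivity))
      have h3 : u ≤ a * q ^ 2 := by exact_mod_cast h2
      have h4 : a ≤ 2 ^ a := Nat.lt_two_pow_self.le
      have h5 : q ≤ 2 ^ (k * t) := by
        rw [hq, pow_mul]
        exact Nat.pow_le_pow_left Nat.lt_two_pow_self.le t
      calc u ≤ a * q ^ 2 := h3
        _ ≤ 2 ^ a * (2 ^ (k * t)) ^ 2 := Nat.mul_le_mul h4 (Nat.pow_le_pow_left h5 2)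
        _ = 2 ^ (a + 2 * (k * t)) := by
          rw [← pow_mul, ← pow_add]
          congr 1
          ring
    calc Nat.log 2 u ≤ Nat.log 2 (2 ^ (a + 2 * (k * t))) := Nat.log_mono_right h1
      _ = a + 2 * (k * t) := Nat.log_pow (by norm_num) _
  obtain ⟨K, hK⟩ : ∃ K : ℕ, K = ⌈(K0 0 u : ℝ) / ε₁⌉₊ + 1 := ⟨_, rfl⟩
  have hK0 : (K0 0 u : ℝ) ≤ 8 * ((a : ℝ) + 2 * k + 8) * (t + 1) := by
    unfold K0
    have h2 : Nat.log 2 (Nat.log 2 0 + 1) = 0 := by simp
    rw [h2]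
    push_cast
    have h3 : (Nat.log 2 u : ℝ) ≤ a + 2 * (k * t) := by exact_mod_cast hulog
    have h4 : (0 : ℝ) ≤ a := Nat.cast_nonneg a
    nlinarith [mul_nonneg h4 ht0, mul_nonneg hk0.le ht0]
  have hK1 : (K0 0 u : ℝ) / ε₁ ≤ K := by
    rw [hK]
    push_cast
    have := Nat.le_ceil ((K0 0 u : ℝ) / ε₁)
    linarith
  have hK2 : (K : ℝ) + 1 ≤ A * (t + 1) := by
    have h1 : (⌈(K0 0 u : ℝ) / ε₁⌉₊ : ℝ) < (K0 0 u : ℝ) / ε₁ + 1 :=
      Nat.ceil_lt_add_one (by positivity)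
    have h2 : (K0 0 u : ℝ) / ε₁ ≤ 8 * ((a : ℝ) + 2 * k + 8) / ε₁ * (t + 1) := by
      rw [div_mul_eq_mul_div]
      exact div_le_div_of_nonneg_right hK0 hε.le
    rw [hK, hA]
    push_cast
    rw [add_mul]
    linarith
  have hupos : 1 ≤ u := by omega
  have hKpos : 1 ≤ K := by omega
  have hu0 : (0 : ℝ) < u := by exact_mod_cast hupos
  have hKp0 : (0 : ℝ) < K := by exact_mod_cast hKpos
  refine ⟨t, u, K, ht1, hupos, hKpos, ?_, ?_, ?_⟩
  · rw [div_le_iff₀ hKp0]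
    rw [div_le_iff₀ hε] at hK1
    linarith
  · rw [div_le_iff₀ hu0, ← hq]
    rw [div_le_iff₀ hε] at hu1
    linarith
  · rw [← hq]
    have hcard : Fintype.card (Fin t → Fin k) = q := by
      rw [Fintype.card_fun, Fintype.card_fin, Fintype.card_fin, hq]
    have h1 : ((Wn (Fin t → Fin k) (K * q)).card : ℝ) ≤
        Real.exp (((q : ℝ) + 1) * (1 + Real.log (K + 1))) := by
      refine le_trans ?_ (wCount q K)
      exact_mod_cast i6_Wn _ _ hcard _
    have hlog : Real.log (K + 1) ≤ |Real.log A| + 2 * s := by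
      have h2 : Real.log ((K : ℝ) + 1) ≤ Real.log (A * ((t : ℝ) + 1)) :=
        Real.log_le_log (by positivity) hK2
      have h3 : Real.log (A * ((t : ℝ) + 1)) = Real.log A + 2 * Real.log s := by
        rw [Real.log_mul hA0.ne' (by positivity), hts, Real.log_pow]
        push_cast
        ring
      have h4 : Real.log (s : ℝ) ≤ s := (Real.log_le_sub_one_of_pos (by positivity)).trans
        (by linarith)
      rw [h3] at h2
      linarith [le_abs_self (Real.log A)]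
    have hexp : ((q : ℝ) + 1) * (1 + Real.log (K + 1)) ≤ B * ((s : ℝ) * q) := by
      have h2 : (q : ℝ) + 1 ≤ 2 * q := by linarith
      have h3 : 1 + Real.log (K + 1) ≤ (3 + |Real.log A|) * s := by
        have : |Real.log A| ≤ |Real.log A| * s := le_mul_of_one_le_right (abs_nonneg _) hs1
        nlinarith
      have h4 : 0 ≤ 1 + Real.log ((K : ℝ) + 1) := by
        have : 0 ≤ Real.log ((K : ℝ) + 1) := Real.log_nonneg (by linarith)
        linarith
      calc ((q : ℝ) + 1) * (1 + Real.log (K + 1)) ≤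
            (2 * q) * ((3 + |Real.log A|) * s) :=
            mul_le_mul h2 h3 h4 (by positivity)
        _ = B * ((s : ℝ) * q) := by rw [hB]; ring
    have hedge : κ * ((s : ℝ) ^ 2 * (q : ℝ)) ≤ ((linG k t).card : ℝ) := by
      have h2 := i6_linG k t
      rw [← hq] at h2
      have h3 : (t : ℝ) * q ≤ ((linG k t).card : ℝ) * k := by exact_mod_cast h2
      have h5 : (s : ℝ) ^ 2 / 2 ≤ t := by
        have : (4 : ℝ) ≤ (s : ℝ) ^ 2 := by nlinarith
        linarith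
      have h6 : (s : ℝ) ^ 2 / 2 * q ≤ t * q := mul_le_mul_of_nonneg_right h5 (by linarith)
      have h7 : κ * ((s : ℝ) ^ 2 * (q : ℝ)) = ((s : ℝ) ^ 2 / 2 * q) / k := by
        rw [hκ]
        field_simp
      rw [h7, div_le_iff₀ hk0]
      linarith
    have hfin : B * ((s : ℝ) * q) + Real.log 4 + -(ε₁ ^ 2 / 2 * (linG k t).card) ≤
        Real.log ε₁ := by
      refine i6_fin κ B L ε₁ s q _ _ _ hs1 hq1 hL0 hsR hedge ?_
      rw [hL]
      linarith [neg_abs_le (Real.log ε₁)]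
    calc ((Wn (Fin t → Fin k) (K * q)).card : ℝ) *
          (4 * Real.exp (-(ε₁ ^ 2 / 2 * (linG k t).card))) ≤
          Real.exp (B * ((s : ℝ) * q)) * (4 * Real.exp (-(ε₁ ^ 2 / 2 * (linG k t).card))) :=
          mul_le_mul_of_nonneg_right (h1.trans (Real.exp_le_exp.2 hexp)) (by positivity)
      _ = Real.exp (B * ((s : ℝ) * q) + Real.log 4 + -(ε₁ ^ 2 / 2 * (linG k t).card)) := by
          rw [Real.exp_add, Real.exp_add, Real.exp_log (by norm_num : (0 : ℝ) < 4)]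
          ring
      _ ≤ Real.exp (Real.log ε₁) := Real.exp_le_exp.2 hfin
      _ = ε₁ := Real.exp_log hε

private theorem posG_snoc {k t : ℕ} (d : Fin t → ℕ) (e : ℕ) (v : Fin (t + 1) → Fin k) :
    posG (Fin.snoc d e : Fin (t + 1) → ℕ) v =
      posG d (fun j => v j.castSucc) + (v (Fin.last t) : ℕ) * e := by
  unfold posG
  rw [Fin.sum_univ_castSucc]
  congr 1
  · refine Finset.sum_congr rfl fun j _ => ?_
    rw [Fin.snoc_castSucc]
  · rw [Fin.snoc_last]

private theorem greedyG_aux (k : ℕ) [NeZero k] (T : Finset ℕ) :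
    ∀ t : ℕ, k ^ t * k ^ t * k < T.card → ∃ d : Fin t → ℕ, (∀ j, d j ∈ T) ∧
      Function.Injective (posG (k := k) d) := by
  have hkpos : 1 ≤ k := Nat.one_le_iff_ne_zero.2 (NeZero.ne k)
  intro t
  induction t with
  | zero =>
    intro _
    exact ⟨fun j => j.elim0, fun j => j.elim0, fun v w _ => Subsingleton.elim v w⟩
  | succ t ih =>
    intro hcard
    have hlt : k ^ t * k ^ t * k < T.card := by
      refine lt_of_le_of_lt (Nat.mul_le_mul_right _ ?_) hcard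
      have h : k ^ t ≤ k ^ (t + 1) := Nat.pow_le_pow_right hkpos (Nat.le_succ t)
      exact Nat.mul_le_mul h h
    obtain ⟨d, hd, hinj⟩ := ih hlt
    have hS : ((univ : Finset (((Fin t → Fin k) × (Fin t → Fin k)) × Fin k)).image
          (fun e => (posG d e.1.1 - posG d e.1.2) / (e.2 : ℕ))).card < T.card := by
      refine lt_of_le_of_lt Finset.card_image_le (lt_of_eq_of_lt ?_ hlt)
      rw [Finset.card_univ]
      simp only [Fintype.card_prod, Fintype.card_fin, Fintype.card_fun]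
    obtain ⟨e, heT, heS⟩ := Finset.exists_mem_notMem_of_card_lt_card hS
    have hbad : ∀ (v w : Fin t → Fin k) (m : ℕ), 0 < m → m < k →
        posG d v + m * e ≠ posG d w := by
      intro v w m hm0 hm hvw
      refine heS (Finset.mem_image.2 ⟨((w, v), ⟨m, hm⟩), Finset.mem_univ _, ?_⟩)
      show (posG d w - posG d v) / m = e
      have h1 : posG d w - posG d v = m * e := by omega
      rw [h1, Nat.mul_div_cancel_left _ hm0]
    refine ⟨Fin.snoc d e, fun j => ?_, ?_⟩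
    · refine Fin.lastCases ?_ (fun j => ?_) j
      · rw [Fin.snoc_last]
        exact heT
      · rw [Fin.snoc_castSucc]
        exact hd j
    · intro v w hvw
      rw [posG_snoc, posG_snoc] at hvw
      have hv := (v (Fin.last t)).2
      have hw := (w (Fin.last t)).2
      rcases lt_trichotomy ((v (Fin.last t)) : ℕ) ((w (Fin.last t)) : ℕ) with h | h | h
      · exfalso
        refine hbad (fun j => w j.castSucc) (fun j => v j.castSucc)
          ((w (Fin.last t) : ℕ) - (v (Fin.last t) : ℕ)) (by omega) (by omega) ?_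
        have h1 : (w (Fin.last t) : ℕ) * e = (v (Fin.last t) : ℕ) * e +
            ((w (Fin.last t) : ℕ) - (v (Fin.last t) : ℕ)) * e := by
          rw [← Nat.add_mul]
          congr 1
          omega
        omega
      · rw [h] at hvw
        have h1 := hinj (Nat.add_right_cancel hvw)
        funext i
        refine Fin.lastCases (Fin.ext h) (fun j => ?_) i
        exact congrFun h1 j
      · exfalso
        refine hbad (fun j => v j.castSucc) (fun j => w j.castSucc)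
          ((v (Fin.last t) : ℕ) - (w (Fin.last t) : ℕ)) (by omega) (by omega) ?_
        have h1 : (v (Fin.last t) : ℕ) * e = (w (Fin.last t) : ℕ) * e +
            ((v (Fin.last t) : ℕ) - (w (Fin.last t) : ℕ)) * e := by
          rw [← Nat.add_mul]
          congr 1
          omega
        omega

theorem greedyG (k t : ℕ) [NeZero k] : ∃ B : ℕ, ∀ T : Finset ℕ, (∀ m ∈ T, 1 ≤ m) → B ≤ T.card →
    ∃ d : Fin t → ℕ, (∀ j, d j ∈ T) ∧ Function.Injective (posG (k := k) d) := by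
  exact ⟨k ^ t * k ^ t * k + 1, fun T _ hB => greedyG_aux k T t (by omega)⟩

end FR
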