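import Pool.Agent.Helper6.IS.I6a
import Pool.Agent.Helper6.IS.I6b

/-!
# ISO-6d: a cut small function has small correlations along all but boundedly many steps, at every scale

PROOF. As AS-13 / FAR-4. `k ≥ 1`. Parameters `t, u, K` from `paramsG k ε₁`, `ε₁ = ε / 32`, `E = (linG k t).card`, `B` from `greedyG`. For bad steps
`d j` with generic grid: signs `s j`, `R' j = s j * R (d j)`; for the line `(j, x)`, `v = posG d x` (`x j = 0`): the average over `m ≤ N` of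
`R' j (i ↦ Ω(m + v + i d j))` is within `2 v / N` of `|..| ≥ ε`, `v + i d j = posG d (update x j i)`. `siteBound` with `ι = Fin t → Fin k`
(card `k^t`), `τ = posG d` (injective, `≤ k t H`), and `tailG`.
-/

set_option autoImplicit false

namespace FR

open Finset Helper13.Om Helper11.QR AS

/-- the grid sum -/
private noncomputable def h45ZG {k t : ℕ} [NeZero k] (R : Fin t → (Fin k → ℕ) → ℝ)
    (ℓ : (Fin t → Fin k) → ℕ) : ℝ :=
  ∑ e ∈ linG k t, R e.1 (fun i => ℓ (Function.update e.2 e.1 i))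

private lemma h45zg_abs {k t : ℕ} [NeZero k] (R : Fin t → (Fin k → ℕ) → ℝ)
    (hR : ∀ j y, |R j y| ≤ 1) (ℓ : (Fin t → Fin k) → ℕ) : |h45ZG R ℓ| ≤ (linG k t).card := by
  unfold h45ZG
  refine (Finset.abs_sum_le_sum_abs _ _).trans ?_
  refine (Finset.sum_le_sum fun e _ => hR _ _).trans (le_of_eq ?_)
  simp

private lemma h45zg_mean {k t N : ℕ} [NeZero k] (hN : 1 ≤ N) (R : Fin t → (Fin k → ℕ) → ℝ)
    (hR : ∀ j y, |R j y| ≤ 1) (q : (Fin t → Fin k) → ℕ) (T : ℝ) (hT : 0 ≤ T) :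
    1 / (N : ℝ) * ∑ m ∈ Finset.Icc 1 N,
      h45ZG R (fun v => ArithmeticFunction.cardFactors (m + q v)) ≤
      T + (linG k t).card * (1 / (N : ℝ) * ∑ m ∈ Finset.Icc 1 N,
        (fun ℓ : (Fin t → Fin k) → ℕ => if T ≤ |h45ZG R ℓ| then (1 : ℝ) else 0)
          (fun v => ArithmeticFunction.cardFactors (m + q v))) := by
  have hNr : (0 : ℝ) < N := by exact_mod_cast hN
  have h1 : ∑ m ∈ Finset.Icc 1 N,
      h45ZG R (fun v => ArithmeticFunction.cardFactors (m + q v)) ≤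
      ∑ m ∈ Finset.Icc 1 N, (T + (linG k t).card *
      (fun ℓ : (Fin t → Fin k) → ℕ => if T ≤ |h45ZG R ℓ| then (1 : ℝ) else 0)
      (fun v => ArithmeticFunction.cardFactors (m + q v))) := by
    refine Finset.sum_le_sum fun m _ => ?_
    simp only
    split_ifs with h2
    · rw [mul_one]
      exact (le_abs_self _).trans ((h45zg_abs R hR _).trans (by linarith))
    · rw [mul_zero, add_zero]
      exact (le_abs_self _).trans (not_le.1 h2).le
  refine (mul_le_mul_of_nonneg_left h1 (by positivity)).trans (le_of_eq ?_)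
  rw [Finset.sum_add_distrib, ← Finset.mul_sum, Finset.sum_const, Nat.card_Icc,
    Nat.add_sub_cancel, nsmul_eq_mul]
  field_simp

private lemma h45_pos {k t : ℕ} [NeZero k] (d : Fin t → ℕ) (x : Fin t → Fin k) (j : Fin t)
    (hj : x j = 0) (i : Fin k) :
    posG d (Function.update x j i) = posG d x + (i : ℕ) * d j := by
  unfold posG
  have h1 : ∀ l : Fin t, ((Function.update x j i l : Fin k) : ℕ) * d l =
      (x l : ℕ) * d l + (if l = j then (i : ℕ) * d j else 0) := by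
    intro l
    by_cases hl : l = j
    · subst hl
      rw [Function.update_self, hj, if_pos rfl]
      simp
    · rw [Function.update_of_ne hl, if_neg hl, add_zero]
  rw [Finset.sum_congr rfl fun l _ => h1 l, Finset.sum_add_distrib]
  simp

/-- the average over one line -/
private lemma h45_line {k t N : ℕ} [NeZero k] (hN : 1 ≤ N) (d : Fin t → ℕ)
    (F : (Fin k → ℕ) → ℝ) (hF : ∀ y, |F y| ≤ 1) (x : Fin t → Fin k) (j : Fin t)
    (hj : x j = 0) :
    1 / (N : ℝ) * ∑ n ∈ Finset.Icc 1 N,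
        F (fun i => ArithmeticFunction.cardFactors (n + i * d j)) -
      2 * ((posG d x : ℕ) : ℝ) / N ≤
      1 / (N : ℝ) * ∑ m ∈ Finset.Icc 1 N,
        F (fun i => ArithmeticFunction.cardFactors (m + posG d (Function.update x j i))) := by
  have hNr : (0 : ℝ) < N := by exact_mod_cast hN
  have h1 := sum_shift_le (fun n => F (fun i : Fin k =>
    ArithmeticFunction.cardFactors (n + i * d j))) (fun m => hF _) N (posG d x)
  have h2 : ∀ m : ℕ, F (fun i => ArithmeticFunction.cardFactors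
      (m + posG d (Function.update x j i))) =
      F (fun i : Fin k => ArithmeticFunction.cardFactors (m + posG d x + i * d j)) := by
    intro m
    have h3 : ∀ i : Fin k, m + posG d (Function.update x j i) = m + posG d x + i * d j := by
      intro i
      rw [h45_pos d x j hj i, add_assoc]
    simp only [h3]
  simp only [h2]
  have h5 := (abs_le.1 h1).1
  have h6 : 1 / (N : ℝ) * (∑ n ∈ Finset.Icc 1 N,
      F (fun i : Fin k => ArithmeticFunction.cardFactors (n + i * d j)) -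
        2 * ((posG d x : ℕ) : ℝ)) ≤
      1 / (N : ℝ) * ∑ m ∈ Finset.Icc 1 N,
        F (fun i : Fin k => ArithmeticFunction.cardFactors (m + posG d x + i * d j)) := by
    refine mul_le_mul_of_nonneg_left ?_ (by positivity)
    linarith
  refine le_trans (le_of_eq ?_) h6
  ring

theorem fewSteps (k : ℕ) (hk : 1 ≤ k) (ε : ℝ) (hε : 0 < ε) : ∃ δ : ℝ, 0 < δ ∧ ∃ B : ℕ,
    ∀ H : ℕ, ∃ N0 : ℕ, ∀ N : ℕ, N0 ≤ N →
    ∀ R : ℕ → (Fin k → ℕ) → ℝ, (∀ m ℓ, |R m ℓ| ≤ 1) → (∀ m, CutLe k N δ (R m)) →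
      ((Icc 1 H).filter (fun m => ε ≤ |1 / (N : ℝ) * ∑ n ∈ Icc 1 N,
        R m (fun i => ArithmeticFunction.cardFactors (n + i * m))|)).card ≤ B := by
  classical
  have : NeZero k := ⟨by omega⟩
  have hkr : (0 : ℝ) < k := by exact_mod_cast hk
  obtain ⟨ε₁, hε₁⟩ : ∃ ε₁ : ℝ, ε₁ = ε / 32 := ⟨_, rfl⟩
  have hε₁0 : 0 < ε₁ := by rw [hε₁]; positivity
  obtain ⟨t, u, K, ht, hu, hK, hp1, hp2, hp3⟩ := paramsG k ε₁ hε₁0
  obtain ⟨M, hM⟩ : ∃ M : ℕ, M = (linG k t).card := ⟨_, rfl⟩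
  have hM1 : 1 ≤ M := by
    rw [hM, Nat.one_le_iff_ne_zero, Finset.card_ne_zero]
    refine ⟨(⟨0, by omega⟩, fun _ => 0), ?_⟩
    unfold linG
    simp
  have hMr : (1 : ℝ) ≤ M := by exact_mod_cast hM1
  obtain ⟨n, hn⟩ : ∃ n : ℕ, n = k ^ t := ⟨_, rfl⟩
  have hcard : Fintype.card (Fin t → Fin k) = n := by
    rw [hn]
    simp
  have hn1 : 1 ≤ n := by
    rw [hn]
    exact Nat.pos_of_ne_zero (by positivity)
  obtain ⟨δ, hδ⟩ : ∃ δ : ℝ, δ = 1 / (2 * M * Real.exp (ε₁ * M)) := ⟨_, rfl⟩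
  have hδ0 : 0 < δ := by rw [hδ]; positivity
  have hδ1 : (M : ℝ) * (δ + δ) * Real.exp (ε₁ * M) = 1 := by
    rw [hδ]
    field_simp
    norm_num
  obtain ⟨B, hB⟩ := greedyG k t
  refine ⟨δ, hδ0, B, ?_⟩
  intro H
  obtain ⟨h, hh1, hh2, hh3⟩ : ∃ h : ℕ, n + 2 ≤ h ∧ t * (k * H) ≤ h ∧
      4 * ((n + 1 : ℕ) : ℝ) ^ 2 / h ≤ ε₁ := by
    obtain ⟨h0, hh0⟩ := exists_nat_ge (4 * ((n + 1 : ℕ) : ℝ) ^ 2 / ε₁)
    refine ⟨h0 + n + 2 + t * (k * H), by omega, by omega, ?_⟩
    have h1 : (h0 : ℝ) ≤ ((h0 + n + 2 + t * (k * H) : ℕ) : ℝ) := by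
      exact_mod_cast (by omega : h0 ≤ h0 + n + 2 + t * (k * H))
    have h2 := hh0.trans h1
    have h3 : (0 : ℝ) < ((h0 + n + 2 + t * (k * H) : ℕ) : ℝ) := by
      exact_mod_cast (by omega : 0 < h0 + n + 2 + t * (k * H))
    rw [div_le_iff₀ hε₁0] at h2
    rw [div_le_iff₀ h3]
    linarith
  obtain ⟨N1, hN1⟩ := siteBound (Fin t → Fin k) (by rw [hcard]; exact hn1)
    u K h (t * (k * H)) hu hK (by rw [hcard]; exact hh1) hh2
  obtain ⟨N2, hN2⟩ := lawClose h u 1 (h + K * n) hu le_rfl (δ / k) (by positivity)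
  obtain ⟨N3, hN3⟩ := exists_nat_ge (4 * ((t * (k * H) : ℕ) : ℝ) / ε)
  refine ⟨N1 + N2 + N3 + 1, ?_⟩
  intro N hN R hR hcut
  have hN1' : 1 ≤ N := by omega
  have hNr : (0 : ℝ) < N := by exact_mod_cast hN1'
  obtain ⟨L, hL⟩ : ∃ L : ℕ, L = (PP h (Nat.log 2 N / u)).card := ⟨_, rfl⟩
  have hLL : (PP h (Nat.log 2 N / u)).card ≤ L + 1 := by omega
  obtain ⟨T, hT⟩ : ∃ T : ℝ, T = ε₁ * M := ⟨_, rfl⟩
  have hT0 : 0 ≤ T := by rw [hT]; positivity
  obtain ⟨J, hJ⟩ : ∃ J : ℕ → ((Fin k → ℕ) → ℝ) → ℝ, J = fun m F => 1 / (N : ℝ) *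
    ∑ n ∈ Finset.Icc 1 N, F (fun i => ArithmeticFunction.cardFactors (n + i * m)) := ⟨_, rfl⟩
  have hfil : ((Icc 1 H).filter (fun m => ε ≤ |1 / (N : ℝ) * ∑ n ∈ Icc 1 N,
        R m (fun i => ArithmeticFunction.cardFactors (n + i * m))|)) =
      (Icc 1 H).filter (fun m => ε ≤ |J m (R m)|) := by
    rw [hJ]
  rw [hfil]
  by_contra hcon
  rw [not_le] at hcon
  obtain ⟨d, hd, hinj⟩ := hB _ (by
    intro m hm
    exact (Finset.mem_Icc.1 (Finset.mem_filter.1 hm).1).1) hcon.le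
  have hdH : ∀ j, d j ≤ H := fun j => (Finset.mem_Icc.1 (Finset.mem_filter.1 (hd j)).1).2
  have hbig : ∀ j, ε ≤ |J (d j) (R (d j))| := fun j => (Finset.mem_filter.1 (hd j)).2
  have hle : ∀ v : Fin t → Fin k, posG d v ≤ t * (k * H) := by
    intro v
    unfold posG
    calc ∑ j, (v j : ℕ) * d j ≤ ∑ _j : Fin t, k * H :=
          Finset.sum_le_sum fun j _ => Nat.mul_le_mul (v j).isLt.le (hdH j)
      _ = t * (k * H) := by simp
  -- signs
  obtain ⟨s, hs⟩ : ∃ s : Fin t → ℝ, ∀ j, |s j| = 1 ∧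
      s j * J (d j) (R (d j)) = |J (d j) (R (d j))| := by
    refine ⟨fun j => if 0 ≤ J (d j) (R (d j)) then 1 else -1, fun j => ?_⟩
    by_cases hJ0 : 0 ≤ J (d j) (R (d j))
    · simp only [if_pos hJ0]
      refine ⟨by norm_num, ?_⟩
      rw [one_mul, abs_of_nonneg hJ0]
    · simp only [if_neg hJ0]
      refine ⟨by norm_num, ?_⟩
      rw [abs_of_neg (not_le.1 hJ0)]
      ring
  obtain ⟨R', hR'⟩ : ∃ R' : Fin t → (Fin k → ℕ) → ℝ,
      R' = fun j y => s j * R (d j) y := ⟨_, rfl⟩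
  have hR1 : ∀ j y, |R' j y| ≤ 1 := by
    intro j y
    rw [hR', abs_mul, (hs j).1, one_mul]
    exact hR _ _
  have hcut' : ∀ j, CutLe k N δ (R' j) := by
    intro j f hf
    have h1 := hcut (d j) f hf
    have h2 : Ep k N (fun ℓ => R' j ℓ * ∏ i, f i (ℓ i)) =
        s j * Ep k N (fun ℓ => R (d j) ℓ * ∏ i, f i (ℓ i)) := by
      rw [hR']
      unfold Ep
      simp only [mul_assoc]
      rw [← Finset.mul_sum]
      ring
    rw [h2, abs_mul, (hs j).1, one_mul]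
    exact h1
  have hJm : ∀ j, J (d j) (R' j) = |J (d j) (R (d j))| := by
    intro j
    rw [← (hs j).2, hR', hJ]
    simp only
    rw [← Finset.mul_sum]
    ring
  -- lower bound
  have hlow : (M : ℝ) * (ε / 2) ≤ 1 / (N : ℝ) * ∑ m ∈ Finset.Icc 1 N,
      h45ZG R' (fun v => ArithmeticFunction.cardFactors (m + posG d v)) := by
    unfold h45ZG
    rw [Finset.sum_comm, Finset.mul_sum, hM, ← nsmul_eq_mul, ← Finset.sum_const]
    refine Finset.sum_le_sum fun e he => ?_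
    have hj : e.2 e.1 = 0 := by
      unfold linG at he
      exact (Finset.mem_filter.1 he).2
    refine le_trans ?_ (h45_line hN1' d (R' e.1) (hR1 e.1) e.2 e.1 hj)
    have hJe : 1 / (N : ℝ) * ∑ n ∈ Finset.Icc 1 N,
        R' e.1 (fun i => ArithmeticFunction.cardFactors (n + i * d e.1)) =
        J (d e.1) (R' e.1) := by
      rw [hJ]
    rw [hJe, hJm]
    have h1 := hbig e.1
    have h2 : 2 * ((posG d e.2 : ℕ) : ℝ) / N ≤ ε / 2 := by
      rw [div_le_iff₀ hNr]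
      have h3 : (N3 : ℝ) ≤ N := by exact_mod_cast (by omega : N3 ≤ N)
      have h4 := hN3.trans h3
      rw [div_le_iff₀ hε] at h4
      have h5 : ((posG d e.2 : ℕ) : ℝ) ≤ ((t * (k * H) : ℕ) : ℝ) := by exact_mod_cast hle e.2
      linarith
    linarith
  -- upper bound
  have hup := h45zg_mean hN1' R' hR1 (posG d) T hT0
  have hprob := hN1 N (by omega) L hLL (posG d) hinj hle
    (fun ℓ => if T ≤ |h45ZG R' ℓ| then (1 : ℝ) else 0)
    (fun ℓ => if ∃ w ∈ Wn (Fin t → Fin k) (K * n), T ≤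
      |h45ZG R' (fun v => ℓ v + w v)| then (1 : ℝ) else 0)
    (fun ℓ => by split_ifs <;> norm_num)
    (fun ℓ => by split_ifs <;> norm_num)
    (fun ℓ w hw => by
      rw [hcard] at hw
      by_cases h4 : T ≤ |h45ZG R' (fun i => ℓ i + w i)|
      · rw [if_pos h4, if_pos ⟨w, hw, h4⟩]
      · rw [if_neg h4]
        split_ifs <;> norm_num)
  rw [hcard] at hprob
  have hmod : ∀ a₀ : ℕ, EE (fun _ : Fin t → Fin k =>
      sg (PP h (Nat.log 2 N / u)) L)
      (fun ℓ => (fun ℓ : (Fin t → Fin k) → ℕ =>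
        if ∃ w ∈ Wn (Fin t → Fin k) (K * n), T ≤
        |h45ZG R' (fun v => ℓ v + w v)| then (1 : ℝ) else 0)
        (fun i => (ℓ i : ℕ) + sm h (a₀ + posG d i))) ≤ ε₁ := by
    intro a₀
    have h1 := tailG k t L N h a₀ (K * n) (h + K * n) hN1' (PP h (Nat.log 2 N / u))
      (fun p hp => ((mem_PP _ _ _).1 hp).2.1) hLL R' hR1 δ (δ / k) hδ0.le (by positivity)
      hcut' (by
        intro b hb b' hb' f hf
        have h2 := hN2 N (by omega) 1 le_rfl le_rfl b hb b' hb' f hf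
        rw [Nat.div_one] at h2
        exact h2) le_rfl (posG d) T ε₁ hε₁0.le
    refine (le_of_eq ?_).trans (h1.trans ?_)
    · rfl
    · rw [← hM]
      have h3 : (k : ℝ) * (δ / k) = δ := by
        field_simp
      rw [h3, hδ1, hT]
      have h4 : (1 : ℝ) ≤ Real.exp (ε₁ ^ 2 / 2 * M) := Real.one_le_exp (by positivity)
      have h5 : 2 * Real.exp (-(ε₁ * (ε₁ * M))) * (Real.exp (ε₁ ^ 2 / 2 * M) + 1) ≤
          4 * Real.exp (-(ε₁ ^ 2 / 2 * M)) := by
        have h6 : Real.exp (-(ε₁ * (ε₁ * M))) * Real.exp (ε₁ ^ 2 / 2 * M) =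
            Real.exp (-(ε₁ ^ 2 / 2 * M)) := by
          rw [← Real.exp_add]
          congr 1
          ring
        have h7 : Real.exp (-(ε₁ * (ε₁ * M))) * 1 ≤
            Real.exp (-(ε₁ * (ε₁ * M))) * Real.exp (ε₁ ^ 2 / 2 * M) :=
          mul_le_mul_of_nonneg_left h4 (Real.exp_pos _).le
        nlinarith
      refine (mul_le_mul_of_nonneg_left h5 (Nat.cast_nonneg _)).trans ?_
      rw [← hn, ← hM] at hp3
      exact hp3
  have hmodavg : 1 / (h.factorial : ℝ) * ∑ a₀ ∈ Finset.range h.factorial,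
      EE (fun _ : Fin t → Fin k =>
      sg (PP h (Nat.log 2 N / u)) L)
      (fun ℓ => (fun ℓ : (Fin t → Fin k) → ℕ =>
        if ∃ w ∈ Wn (Fin t → Fin k) (K * n), T ≤
        |h45ZG R' (fun v => ℓ v + w v)| then (1 : ℝ) else 0)
        (fun i => (ℓ i : ℕ) + sm h (a₀ + posG d i))) ≤ ε₁ := by
    have h5 : (0 : ℝ) < h.factorial := by exact_mod_cast Nat.factorial_pos h
    refine (mul_le_mul_of_nonneg_left (Finset.sum_le_sum fun a₀ _ => hmod a₀)
      (by positivity)).trans (le_of_eq ?_)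
    rw [Finset.sum_const, Finset.card_range, nsmul_eq_mul]
    field_simp
  rw [← hn] at hp2
  have hp : 1 / (N : ℝ) * ∑ m ∈ Finset.Icc 1 N,
        (fun ℓ : (Fin t → Fin k) → ℕ => if T ≤ |h45ZG R' ℓ| then (1 : ℝ) else 0)
          (fun v => ArithmeticFunction.cardFactors (m + posG d v)) ≤ 4 * ε₁ := by
    refine hprob.trans ?_
    linarith
  rw [← hM] at hup
  have h6 := mul_le_mul_of_nonneg_left hp (by positivity : (0 : ℝ) ≤ M)
  have h7 : (M : ℝ) * (ε / 2) ≤ M * (5 * ε₁) := by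
    refine hlow.trans (hup.trans ?_)
    linarith [hT]
  have h8 := le_of_mul_le_mul_left h7 (by linarith)
  rw [hε₁] at h8
  linarith

end FR
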