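import Pool.Agent.Helper6.IS.JDefs
import Pool.Agent.Helper6.IS.I6d
import Pool.Agent.Helper6.DG.F1Goal

/-!
# ISO-11: from product sets to all bounded functions, strong form

PROOF. As I7All.lean. `F = S + r`, `S` a combination (coefficients bounded by `1`, as in I7All) of at most `C₀ = C₀(k, δ)` boxes. Exceptional set `E = E_1 ∪ .. ∪ E_J ∪ E'`:
`E_i` from `IsoProdC k` with `ε / (8 (C₀ + 1))` for the box `i` (each `∑ 1/p ≤ C₁`), and `E'` = the primes `p ≤ Y` for which the window sum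
`∑_{M ∈ Ioc (N/K) N} (1/M) |Ecp k p M r|` is `> (ε / 4) log K`. `fewSteps k (ε/64)` with `H = Y` for `R m = r / 2`: for every scale `M ≤ N` with `M ≥ N0`,
`log M ≥ η log N` at most `B` steps `m ≤ Y` have `|Ecp k m M r| > ε / 32`; summing over `p ∈ prY Y` the quantity
`∑_M (1/M) 1[|Ecp k p M r| > ε / 32]` is at most `B (log K + 1)`; so (each `p ∈ E'` contributes at least `(ε / 16) log K`, for `K` large; the scales with `log M < η log N` contribute
at most `4 η log K + 4` or so for each `p`, as in I7All) `|E'| ≤ 32 B / ε`, and `∑_{p ∈ E'} 1/p ≤ |E'|`. Step `1` (`Ec k M r`): `coreW` as in I7All.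
The constant is `C₀ C₁ + 32 B / ε + 1`, independent of `Y`.
-/

set_option autoImplicit false

namespace DG

open Finset Filter Topology

private lemma iso11_biUnion (J : ℕ) (E : Fin J → Finset ℕ) :
    ∑ p ∈ Finset.univ.biUnion E, 1 / (p : ℝ) ≤ ∑ j : Fin J, ∑ p ∈ E j, 1 / (p : ℝ) := by
  classical
  have key : ∀ s : Finset (Fin J), ∑ p ∈ s.biUnion E, 1 / (p : ℝ) ≤
      ∑ j ∈ s, ∑ p ∈ E j, 1 / (p : ℝ) := by
    intro s
    induction s using Finset.induction_on with
    | empty => simp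
    | insert a s ha ih =>
      rw [Finset.biUnion_insert, Finset.sum_insert ha]
      have := Finset.sum_union_inter (s₁ := E a) (s₂ := s.biUnion E)
        (f := fun p : ℕ => 1 / (p : ℝ))
      have h0 : 0 ≤ ∑ p ∈ E a ∩ s.biUnion E, 1 / (p : ℝ) :=
        Finset.sum_nonneg fun p _ => by positivity
      linarith
  exact key Finset.univ

private lemma iso11_sub (k p M : ℕ) (F G : (Fin k → ℕ) → ℝ) :
    Ecp k p M (fun l => F l - G l) = Ecp k p M F - Ecp k p M G := by
  unfold Ecp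
  rw [Finset.sum_sub_distrib, mul_sub]

private lemma iso11_smul (k p M : ℕ) (c : ℝ) (F : (Fin k → ℕ) → ℝ) :
    Ecp k p M (fun l => c * F l) = c * Ecp k p M F := by
  unfold Ecp
  rw [← Finset.mul_sum]
  ring

private lemma iso11_fsum (k p M J : ℕ) (F : Fin J → (Fin k → ℕ) → ℝ) :
    Ecp k p M (fun l => ∑ j, F j l) = ∑ j, Ecp k p M (F j) := by
  unfold Ecp
  rw [Finset.sum_comm, Finset.mul_sum]

private lemma iso11_abs (k p M : ℕ) (F : (Fin k → ℕ) → ℝ) (c : ℝ) (hc : 0 ≤ c)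
    (hF : ∀ l, |F l| ≤ c) : |Ecp k p M F| ≤ c := by
  unfold Ecp
  rcases Nat.eq_zero_or_pos M with h | h
  · subst h
    simpa using hc
  · have hM : (0 : ℝ) < M := by exact_mod_cast h
    rw [abs_mul, abs_of_pos (by positivity)]
    have h1 : |∑ n ∈ Icc 1 M, F (fun i => ArithmeticFunction.cardFactors (n + i * p))| ≤ M * c := by
      refine (Finset.abs_sum_le_sum_abs _ _).trans ?_
      refine (Finset.sum_le_sum fun n _ => hF _).trans ?_
      simp
    calc 1 / (M : ℝ) * _ ≤ 1 / (M : ℝ) * (M * c) := mul_le_mul_of_nonneg_left h1 (by positivity)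
      _ = c := by field_simp

theorem isoAllC_of (k : ℕ) (hP : IsoProdC k) : IsoAllC k := by
  classical
  rcases Nat.eq_zero_or_pos k with hk0 | hk
  · -- `k = 0`
    subst hk0
    intro ε hε
    refine ⟨0, fun Y => ⟨1, 1, fun N K _ hK _ F _ => ⟨∅, Finset.empty_subset _, by simp,
      fun p _ _ => ?_⟩⟩⟩
    have h1 : ∀ p M : ℕ, Ec 0 M F - Ecp 0 p M F = 0 := by
      intro p M
      unfold Ec Ecp
      rw [sub_eq_zero]
      congr 1
      refine Finset.sum_congr rfl fun n _ => ?_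
      exact congrArg F (Subsingleton.elim _ _)
    simp only [h1, abs_zero, mul_zero, Finset.sum_const_zero]
    have h2 : 0 ≤ Real.log K := Real.log_natCast_nonneg K
    positivity
  intro ε hε
  obtain ⟨δ₁, hδ₁, Ka, Na, hcore⟩ := Helper11.QR.coreW k hk (ε / 16) (by positivity)
  obtain ⟨δ₂, hδ₂, B, hfew⟩ := FR.fewSteps k hk (ε / 64) (by positivity)
  set δ : ℝ := min δ₁ δ₂ with hδdef
  have hδ : 0 < δ := lt_min hδ₁ hδ₂
  set τ : ℝ := δ / 2 with hτ
  have hτ0 : 0 < τ := by positivity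
  obtain ⟨C, hC⟩ := Helper11.QR.regBox k δ hδ
  set η : ℝ := min (ε / 64) (1 / 2) with hη
  have hη0 : 0 < η := lt_min (by positivity) (by norm_num)
  have hη1 : η ≤ ε / 64 := min_le_left _ _
  have hη2 : η ≤ 1 / 2 := min_le_right _ _
  obtain ⟨Nb, hcut⟩ := Helper11.QR.cutLog k η τ hη0 hτ0
  obtain ⟨C₁, hbox0⟩ := hP (ε / (8 * (C + 1))) (by positivity)
  refine ⟨C * |C₁| + 64 * B / ε, fun Y => ?_⟩
  obtain ⟨Kc, Nc, hbox⟩ := hbox0 Y
  obtain ⟨Nd, hfewY⟩ := hfew Y
  obtain ⟨Ne, hNe⟩ : ∃ Ne : ℕ, Real.exp (Real.log (Nd + 1) / η) ≤ Ne := exists_nat_ge _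
  obtain ⟨Kd, hKd⟩ : ∃ Kd : ℕ, Real.exp (64 / ε + 2) ≤ Kd := exists_nat_ge _
  refine ⟨max (max Ka Kc) (max Kd 1), max (max Na Nb) (max Nc (max Ne 1)), ?_⟩
  intro N K hN hK hKN F hF
  have hNa : Na ≤ N := (le_max_left _ _).trans ((le_max_left _ _).trans hN)
  have hNb : Nb ≤ N := (le_max_right _ _).trans ((le_max_left _ _).trans hN)
  have hNc : Nc ≤ N := (le_max_left _ _).trans ((le_max_right _ _).trans hN)
  have hNe' : Ne ≤ N := (le_max_left _ _).trans ((le_max_right _ _).trans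
    ((le_max_right _ _).trans hN))
  have hN1 : 1 ≤ N := (le_max_right _ _).trans ((le_max_right _ _).trans
    ((le_max_right _ _).trans hN))
  have hKa : Ka ≤ K := (le_max_left _ _).trans ((le_max_left _ _).trans hK)
  have hKc : Kc ≤ K := (le_max_right _ _).trans ((le_max_left _ _).trans hK)
  have hKd' : Kd ≤ K := (le_max_left _ _).trans ((le_max_right _ _).trans hK)
  have hK1 : 1 ≤ K := (le_max_right _ _).trans ((le_max_right _ _).trans hK)
  have hKr : (0 : ℝ) < K := by exact_mod_cast hK1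
  have hNr : (0 : ℝ) < N := by exact_mod_cast hN1
  set LK : ℝ := Real.log K with hLK
  have hlogK : 64 / ε + 2 ≤ LK := by
    rw [hLK, Real.le_log_iff_exp_le hKr]
    exact hKd.trans (by exact_mod_cast hKd')
  have hlogK2 : 2 ≤ LK := by
    have : 0 ≤ 64 / ε := by positivity
    linarith
  have hlogKε : 64 ≤ ε * LK := by
    have h1 : 64 / ε ≤ LK := by linarith
    rw [div_le_iff₀ hε] at h1
    linarith
  set W : Finset ℕ := Finset.Ioc (N / K) N with hW
  set Pr : Finset ℕ := prY Y with hPr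
  have hharm : ∑ M ∈ W, (1 / (M : ℝ)) ≤ LK + 2 := Helper11.QR.harm_window N K hK1 hKN
  -- the law
  obtain ⟨J, c, A, hJ, hc, hS, hcutF⟩ := hC (N + k + 1) (Helper11.QR.pL N)
    (fun t => Helper11.QR.pL_nonneg N t) (Helper11.QR.pL_sum N _ hN1 (by omega)) F hF
  set S : (Fin k → ℕ) → ℝ := fun ℓ => ∑ j, c j * (if ∀ i, ℓ i ∈ A j i then (1 : ℝ) else 0)
    with hSdef
  set r : (Fin k → ℕ) → ℝ := fun ℓ => F ℓ - S ℓ with hr
  have hcutr : ∀ f : Fin k → ℕ → ℝ, (∀ i t, |f i t| ≤ 1) →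
      |Helper11.QR.EpL k N (fun ℓ => r ℓ * ∏ i, f i (ℓ i))| ≤ δ := hcutF
  have hr2 : ∀ ℓ, |r ℓ| ≤ 2 := by
    intro ℓ
    have h1 : |S ℓ| ≤ 1 := hS ℓ
    have h2 := abs_sub (F ℓ) (S ℓ)
    have h3 := hF ℓ
    show |F ℓ - S ℓ| ≤ 2
    linarith
  have hhr : ∀ ℓ, |1 / 2 * r ℓ| ≤ 1 := by
    intro ℓ
    rw [abs_mul, abs_of_pos (by norm_num : (0 : ℝ) < 1 / 2)]
    linarith [hr2 ℓ]
  have hcutM : ∀ M : ℕ, M ≤ N → η * Real.log N ≤ Real.log M →
      Helper11.QR.CutLe k M δ (fun ℓ => 1 / 2 * r ℓ) := by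
    intro M hMN hM f hf
    have hprod : ∀ ℓ : Fin k → ℕ, |∏ i, f i (ℓ i)| ≤ 1 := by
      intro ℓ
      rw [Finset.abs_prod]
      exact Finset.prod_le_one (fun i _ => abs_nonneg _) fun i _ => hf i (ℓ i)
    have h2 := hcut N hNb M hMN hM (fun ℓ => 1 / 2 * r ℓ * ∏ i, f i (ℓ i)) (fun ℓ => by
      rw [abs_mul]
      exact mul_le_one₀ (hhr ℓ) (abs_nonneg _) (hprod ℓ))
    have h3 : Helper11.QR.EpL k N (fun ℓ => 1 / 2 * r ℓ * ∏ i, f i (ℓ i)) =
        1 / 2 * Helper11.QR.EpL k N (fun ℓ => r ℓ * ∏ i, f i (ℓ i)) := by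
      unfold Helper11.QR.EpL
      rw [Finset.mul_sum]
      refine Finset.sum_congr rfl fun ℓ _ => ?_
      ring
    rw [h3] at h2
    have h4 := hcutr f hf
    have h5 := abs_le.1 h2
    have h6 := abs_le.1 h4
    rw [abs_le]
    constructor <;> linarith [h5.1, h5.2, h6.1, h6.2]
  set Wl : Finset ℕ := W.filter (fun M : ℕ => η * Real.log N ≤ Real.log M) with hWl
  have hWlW : Wl ⊆ W := Finset.filter_subset _ _
  have hharml : ∑ M ∈ Wl, (1 / (M : ℝ)) ≤ 2 * LK := by
    have h1 : ∑ M ∈ Wl, (1 / (M : ℝ)) ≤ ∑ M ∈ W, (1 / (M : ℝ)) :=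
      Finset.sum_le_sum_of_subset_of_nonneg hWlW fun M _ _ => by positivity
    linarith
  -- step `1`
  have hrem1 : ∑ M ∈ Wl, (1 / (M : ℝ)) * |Ec k M r| ≤ ε / 8 * LK := by
    have h1 := hcore N K hNa hKa hKN (fun M ℓ => if η * Real.log N ≤ Real.log M then
      1 / 2 * r ℓ else 0) (fun M ℓ => by
        by_cases h : η * Real.log N ≤ Real.log M
        · simp only [if_pos h]
          exact hhr ℓ
        · simp only [if_neg h]
          rw [abs_zero]
          exact zero_le_one) (fun M hM => by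
        intro f hf
        by_cases h : η * Real.log N ≤ Real.log M
        · simp only [if_pos h]
          exact (hcutM M (Finset.mem_Ioc.1 hM).2 h f hf).trans (min_le_left _ _)
        · simp only [if_neg h]
          have h0 : Helper13.Om.Ep k M (fun ℓ => 0 * ∏ i, f i (ℓ i)) = 0 := by
            unfold Helper13.Om.Ep
            simp
          rw [h0, abs_zero]
          exact hδ₁.le)
    have h2 : ∑ M ∈ Wl, (1 / (M : ℝ)) * (1 / 2 * |Ec k M r|) ≤ ε / 16 * LK := by
      refine le_trans ?_ h1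
      rw [hWl, Finset.sum_filter]
      refine Finset.sum_le_sum fun M _ => ?_
      by_cases h : η * Real.log N ≤ Real.log M
      · simp only [if_pos h]
        have h3 : Helper13.Om.Em k M (fun ℓ => 1 / 2 * r ℓ) = 1 / 2 * Ec k M r :=
          Helper11.QR.Em_smul' k M (1 / 2) r
        rw [h3, abs_mul, abs_of_pos (by norm_num : (0 : ℝ) < 1 / 2)]
      · simp only [if_neg h]
        positivity
    have h3 : ∑ M ∈ Wl, (1 / (M : ℝ)) * (1 / 2 * |Ec k M r|) =
        1 / 2 * ∑ M ∈ Wl, (1 / (M : ℝ)) * |Ec k M r| := by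
      rw [Finset.mul_sum]
      refine Finset.sum_congr rfl fun M _ => ?_
      ring
    rw [h3] at h2
    linarith
  -- steps `p`: the bad steps at the scale `M`
  set Bad : ℕ → Finset ℕ := fun M => (Icc 1 Y).filter (fun m => ε / 64 ≤
    |1 / (M : ℝ) * ∑ n ∈ Icc 1 M,
      (fun (_ : ℕ) (ℓ : Fin k → ℕ) => 1 / 2 * r ℓ) m
        (fun i => ArithmeticFunction.cardFactors (n + i * m))|) with hBad
  have hBadcard : ∀ M ∈ Wl, (Bad M).card ≤ B := by
    intro M hM
    rw [hWl, Finset.mem_filter] at hM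
    have hMW := Finset.mem_Ioc.1 hM.1
    have hM0 : (0 : ℝ) < M := by
      have : 0 < M := lt_of_le_of_lt (Nat.zero_le _) hMW.1
      exact_mod_cast this
    have hNdM : Nd ≤ M := by
      have h3 : Real.log (Nd + 1) / η ≤ Real.log N := by
        rw [Real.le_log_iff_exp_le hNr]
        exact hNe.trans (by exact_mod_cast hNe')
      rw [div_le_iff₀ hη0] at h3
      have h4 : Real.log ((Nd : ℝ) + 1) ≤ Real.log M := by linarith [hM.2]
      have h5 : (Nd : ℝ) + 1 ≤ M := (Real.log_le_log_iff (by positivity) hM0).1 h4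
      have h6 : (Nd : ℝ) ≤ M := by linarith
      exact_mod_cast h6
    exact hfewY M hNdM (fun _ ℓ => 1 / 2 * r ℓ) (fun _ ℓ => hhr ℓ)
      (fun _ f hf => (hcutM M hMW.2 hM.2 f hf).trans (min_le_right _ _))
  set b : ℕ → ℝ := fun p => ∑ M ∈ Wl, (1 / (M : ℝ)) * (if p ∈ Bad M then 1 else 0) with hb
  have hb0 : ∀ p, 0 ≤ b p := fun p => Finset.sum_nonneg fun M _ => by positivity
  have hbsum : ∑ p ∈ Pr, b p ≤ 2 * B * LK := by
    rw [hb, Finset.sum_comm]
    have h1 : ∀ M ∈ Wl, ∑ p ∈ Pr, (1 / (M : ℝ)) * (if p ∈ Bad M then (1 : ℝ) else 0) ≤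
        (1 / (M : ℝ)) * B := by
      intro M hM
      rw [← Finset.mul_sum]
      refine mul_le_mul_of_nonneg_left ?_ (by positivity)
      rw [← Finset.sum_filter, Finset.sum_const, nsmul_eq_mul, mul_one]
      have h2 : (Pr.filter (fun p => p ∈ Bad M)).card ≤ (Bad M).card :=
        Finset.card_le_card fun p hp => (Finset.mem_filter.1 hp).2
      exact_mod_cast h2.trans (hBadcard M hM)
    refine (Finset.sum_le_sum h1).trans ?_
    rw [← Finset.sum_mul]
    have h2 : (∑ M ∈ Wl, (1 / (M : ℝ))) * (B : ℝ) ≤ 2 * LK * B :=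
      mul_le_mul_of_nonneg_right hharml (by positivity)
    linarith
  have hstep : ∀ p ∈ Pr, ∑ M ∈ Wl, (1 / (M : ℝ)) * |Ecp k p M r| ≤
      ε / 16 * LK + 2 * b p := by
    intro p hp
    have hp' := Finset.mem_filter.1 hp
    have h4 : ∀ M ∈ Wl, (1 / (M : ℝ)) * |Ecp k p M r| ≤
        (1 / (M : ℝ)) * (ε / 32) + 2 * ((1 / (M : ℝ)) * (if p ∈ Bad M then 1 else 0)) := by
      intro M _
      have h5 : Ecp k p M (fun ℓ => 1 / 2 * r ℓ) = 1 / 2 * Ecp k p M r := iso11_smul k p M _ r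
      have hM0 : (0 : ℝ) ≤ 1 / (M : ℝ) := by positivity
      by_cases hbad : p ∈ Bad M
      · rw [if_pos hbad]
        have h6 := iso11_abs k p M r 2 (by norm_num) hr2
        have h8 : (1 / (M : ℝ)) * |Ecp k p M r| ≤ (1 / (M : ℝ)) * 2 :=
          mul_le_mul_of_nonneg_left h6 hM0
        have h9 : 0 ≤ (1 / (M : ℝ)) * (ε / 32) := by positivity
        linarith
      · rw [if_neg hbad, mul_zero, mul_zero, add_zero]
        refine mul_le_mul_of_nonneg_left ?_ hM0
        have h6 : |Ecp k p M (fun ℓ => 1 / 2 * r ℓ)| < ε / 64 := by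
          by_contra hcon
          rw [not_lt] at hcon
          exact hbad (Finset.mem_filter.2 ⟨hp'.1, hcon⟩)
        rw [h5, abs_mul, abs_of_pos (by norm_num : (0 : ℝ) < 1 / 2)] at h6
        linarith
    refine (Finset.sum_le_sum h4).trans ?_
    rw [Finset.sum_add_distrib, ← Finset.sum_mul, ← Finset.mul_sum]
    have h5 : (∑ M ∈ Wl, (1 / (M : ℝ))) * (ε / 32) ≤ 2 * LK * (ε / 32) :=
      mul_le_mul_of_nonneg_right hharml (by positivity)
    have h6 : ∑ M ∈ Wl, (1 / (M : ℝ)) * (if p ∈ Bad M then (1 : ℝ) else 0) = b p := rfl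
    rw [h6]
    linarith
  -- the exceptional sets
  have hboxE := fun j : Fin J => hbox N K hNc hKc hKN (A j)
  choose EB hEB1 hEB2 hEB3 using hboxE
  set E' : Finset ℕ := Pr.filter (fun p => ε / 32 * LK < b p) with hE'
  have hE'card : (E'.card : ℝ) ≤ 64 * B / ε := by
    have h1 : (E'.card : ℝ) * (ε / 32 * LK) ≤ ∑ p ∈ Pr, b p := by
      calc (E'.card : ℝ) * (ε / 32 * LK) = ∑ _p ∈ E', ε / 32 * LK := by
            rw [Finset.sum_const, nsmul_eq_mul]
        _ ≤ ∑ p ∈ E', b p :=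
            Finset.sum_le_sum fun p hp => (Finset.mem_filter.1 hp).2.le
        _ ≤ ∑ p ∈ Pr, b p :=
            Finset.sum_le_sum_of_subset_of_nonneg (Finset.filter_subset _ _) fun p _ _ => hb0 p
    have h2 : (E'.card : ℝ) * (ε / 32 * LK) ≤ 2 * B * LK := h1.trans hbsum
    have hLK0 : 0 < LK := by linarith
    have h3 : (E'.card : ℝ) * ε * LK ≤ 64 * B * LK := by nlinarith
    rw [le_div_iff₀ hε]
    exact le_of_mul_le_mul_right h3 hLK0
  refine ⟨(Finset.univ.biUnion EB) ∪ E', ?_, ?_, ?_⟩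
  · refine Finset.union_subset ?_ (Finset.filter_subset _ _)
    intro p hp
    obtain ⟨j, _, hj⟩ := Finset.mem_biUnion.1 hp
    exact hEB1 j hj
  · have hpos : ∀ p ∈ Pr, (0 : ℝ) ≤ 1 / (p : ℝ) := fun p _ => by positivity
    have h1 : ∑ p ∈ (Finset.univ.biUnion EB) ∪ E', 1 / (p : ℝ) ≤
        ∑ p ∈ Finset.univ.biUnion EB, 1 / (p : ℝ) + ∑ p ∈ E', 1 / (p : ℝ) := by
      have := Finset.sum_union_inter (s₁ := Finset.univ.biUnion EB) (s₂ := E')
        (f := fun p : ℕ => 1 / (p : ℝ))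
      have h0 : 0 ≤ ∑ p ∈ (Finset.univ.biUnion EB) ∩ E', 1 / (p : ℝ) :=
        Finset.sum_nonneg fun p _ => by positivity
      linarith
    have h2 : ∑ p ∈ Finset.univ.biUnion EB, 1 / (p : ℝ) ≤ C * |C₁| := by
      have h3 : ∑ p ∈ Finset.univ.biUnion EB, 1 / (p : ℝ) ≤
          ∑ j : Fin J, ∑ p ∈ EB j, 1 / (p : ℝ) :=
        iso11_biUnion J EB
      refine h3.trans ?_
      calc ∑ j : Fin J, ∑ p ∈ EB j, 1 / (p : ℝ) ≤ ∑ _j : Fin J, |C₁| :=
            Finset.sum_le_sum fun j _ => (hEB2 j).trans (le_abs_self _)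
        _ = J * |C₁| := by simp
        _ ≤ C * |C₁| := by
            refine mul_le_mul_of_nonneg_right ?_ (abs_nonneg _)
            exact_mod_cast hJ
    have h4 : ∑ p ∈ E', 1 / (p : ℝ) ≤ 64 * B / ε := by
      refine le_trans ?_ hE'card
      calc ∑ p ∈ E', 1 / (p : ℝ) ≤ ∑ _p ∈ E', (1 : ℝ) := by
            refine Finset.sum_le_sum fun p hp => ?_
            have hp' := Finset.mem_filter.1 (Finset.mem_filter.1 hp).1
            have hp1 : (1 : ℝ) ≤ p := by exact_mod_cast (Finset.mem_Icc.1 hp'.1).1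
            rw [div_le_one (by linarith)]
            exact hp1
        _ = E'.card := by simp
    linarith
  intro p hp hpE
  rw [Finset.mem_union, not_or] at hpE
  have hpEB : ∀ j : Fin J, p ∉ EB j := fun j hj =>
    hpE.1 (Finset.mem_biUnion.2 ⟨j, Finset.mem_univ j, hj⟩)
  have hbp : b p ≤ ε / 32 * LK := by
    by_contra hcon
    rw [not_le] at hcon
    exact hpE.2 (Finset.mem_filter.2 ⟨hp, hcon⟩)
  have hT3 : ∑ M ∈ Wl, (1 / (M : ℝ)) * |Ecp k p M r| ≤ ε / 8 * LK := by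
    have := hstep p hp
    linarith
  -- the boxes
  have hT1 : ∑ M ∈ Wl, (1 / (M : ℝ)) * |Ec k M S - Ecp k p M S| ≤ ε / 8 * LK := by
    have h1 : ∀ M ∈ W, (1 / (M : ℝ)) * |Ec k M S - Ecp k p M S| ≤
        ∑ j, (1 / (M : ℝ)) *
        |Ec k M (fun ℓ => if ∀ i, ℓ i ∈ A j i then (1 : ℝ) else 0) -
          Ecp k p M (fun ℓ => if ∀ i, ℓ i ∈ A j i then (1 : ℝ) else 0)| := by
      intro M _
      rw [← Finset.mul_sum]
      refine mul_le_mul_of_nonneg_left ?_ (by positivity)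
      have e1 : Ec k M S = ∑ j, c j * Ec k M (fun ℓ => if ∀ i, ℓ i ∈ A j i then (1 : ℝ)
          else 0) := by
        have h3 := Helper11.QR.Em_fsum k M J
          (fun j ℓ => c j * (if ∀ i, ℓ i ∈ A j i then (1 : ℝ) else 0))
        refine Eq.trans h3 ?_
        refine Finset.sum_congr rfl fun j _ => ?_
        exact Helper11.QR.Em_smul' k M (c j) (fun ℓ => if ∀ i, ℓ i ∈ A j i then (1 : ℝ) else 0)
      have e2 : Ecp k p M S = ∑ j, c j * Ecp k p M (fun ℓ => if ∀ i, ℓ i ∈ A j i then (1 : ℝ)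
          else 0) := by
        rw [hSdef, iso11_fsum k p M J
          (fun j ℓ => c j * (if ∀ i, ℓ i ∈ A j i then (1 : ℝ) else 0))]
        refine Finset.sum_congr rfl fun j _ => ?_
        rw [iso11_smul]
      rw [e1, e2, ← Finset.sum_sub_distrib]
      refine (Finset.abs_sum_le_sum_abs _ _).trans ?_
      refine Finset.sum_le_sum fun j _ => ?_
      rw [← mul_sub, abs_mul]
      have h3 := mul_le_mul_of_nonneg_right (hc j) (abs_nonneg
        (Ec k M (fun ℓ => if ∀ i, ℓ i ∈ A j i then (1 : ℝ) else 0) -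
          Ecp k p M (fun ℓ => if ∀ i, ℓ i ∈ A j i then (1 : ℝ) else 0)))
      rw [one_mul] at h3
      exact h3
    calc ∑ M ∈ Wl, (1 / (M : ℝ)) * |Ec k M S - Ecp k p M S|
        ≤ ∑ M ∈ W, (1 / (M : ℝ)) * |Ec k M S - Ecp k p M S| :=
          Finset.sum_le_sum_of_subset_of_nonneg hWlW fun M _ _ => by positivity
      _ ≤ ∑ M ∈ W, ∑ j, (1 / (M : ℝ)) *
          |Ec k M (fun ℓ => if ∀ i, ℓ i ∈ A j i then (1 : ℝ) else 0) -
            Ecp k p M (fun ℓ => if ∀ i, ℓ i ∈ A j i then (1 : ℝ) else 0)| :=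
          Finset.sum_le_sum fun M hM => h1 M hM
      _ = ∑ j : Fin J, ∑ M ∈ W, (1 / (M : ℝ)) *
          |Ec k M (fun ℓ => if ∀ i, ℓ i ∈ A j i then (1 : ℝ) else 0) -
            Ecp k p M (fun ℓ => if ∀ i, ℓ i ∈ A j i then (1 : ℝ) else 0)| := Finset.sum_comm
      _ ≤ ∑ _j : Fin J, ε / (8 * (C + 1)) * LK :=
          Finset.sum_le_sum fun j _ => hEB3 j p hp (hpEB j)
      _ ≤ ε / 8 * LK := by
          rw [Finset.sum_const, Finset.card_univ, Fintype.card_fin, nsmul_eq_mul]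
          have h3 : (J : ℝ) ≤ C + 1 := by
            have : (J : ℝ) ≤ C := by exact_mod_cast hJ
            linarith
          have h4 : 0 ≤ ε / (8 * ((C : ℝ) + 1)) * LK := by positivity
          refine (mul_le_mul_of_nonneg_right h3 h4).trans (le_of_eq ?_)
          field_simp
  -- the small scales
  have hsmall1 : ∑ M ∈ W.filter (fun M : ℕ => ¬ η * Real.log N ≤ Real.log M),
      (1 / (M : ℝ)) * 2 ≤ 2 + ε / 16 * LK := by
    rcases Finset.eq_empty_or_nonempty
      (W.filter (fun M : ℕ => ¬ η * Real.log N ≤ Real.log M)) with hemp | ⟨M0, hM0⟩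
    · rw [hemp, Finset.sum_empty]
      positivity
    · rw [Finset.mem_filter, not_le] at hM0
      have hM0W := Finset.mem_Ioc.1 hM0.1
      have hM0pos : (0 : ℝ) < M0 := by
        have : 0 < M0 := lt_of_le_of_lt (Nat.zero_le _) hM0W.1
        exact_mod_cast this
      have h1 : (N : ℝ) < M0 * K := by
        have := (Nat.div_lt_iff_lt_mul hK1).1 hM0W.1
        exact_mod_cast this
      have h2 : Real.log N ≤ Real.log M0 + LK := by
        rw [hLK, ← Real.log_mul hM0pos.ne' hKr.ne']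
        exact Real.log_le_log hNr h1.le
      have hlogN : 0 ≤ Real.log N := Real.log_nonneg (by exact_mod_cast hN1)
      have h3 : Real.log N ≤ 2 * LK := by
        have h4 : η * Real.log N ≤ 1 / 2 * Real.log N := mul_le_mul_of_nonneg_right hη2 hlogN
        linarith [hM0.2]
      calc ∑ M ∈ W.filter (fun M : ℕ => ¬ η * Real.log N ≤ Real.log M), (1 / (M : ℝ)) * 2
          ≤ ∑ M ∈ (Finset.Icc 1 N).filter (fun M : ℕ => ¬ η * Real.log N ≤ Real.log M),
            (1 / (M : ℝ)) * 2 := by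
            apply Finset.sum_le_sum_of_subset_of_nonneg
            · intro M hM
              rw [Finset.mem_filter] at hM ⊢
              have h5 := Finset.mem_Ioc.1 hM.1
              refine ⟨Finset.mem_Icc.2 ⟨?_, h5.2⟩, hM.2⟩
              exact Nat.succ_le_of_lt (lt_of_le_of_lt (Nat.zero_le _) h5.1)
            · intro M _ _
              positivity
        _ = 2 * ∑ M ∈ (Finset.Icc 1 N).filter (fun M : ℕ => ¬ η * Real.log N ≤ Real.log M),
            (1 / (M : ℝ)) := by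
            rw [← Finset.sum_mul, mul_comm]
        _ ≤ 2 * (1 + η * Real.log N) :=
            mul_le_mul_of_nonneg_left (F1.small_scales N hN1 η hη0) (by norm_num)
        _ ≤ 2 + ε / 16 * LK := by
            have h6 : η * Real.log N ≤ ε / 64 * (2 * LK) :=
              mul_le_mul hη1 h3 hlogN (by positivity)
            linarith
  have hsmall : ∑ M ∈ W.filter (fun M : ℕ => ¬ η * Real.log N ≤ Real.log M),
        (1 / (M : ℝ)) * |Ec k M F - Ecp k p M F| ≤ ε / 8 * LK := by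
    have htriv : ∀ M : ℕ, |Ec k M F - Ecp k p M F| ≤ 2 := by
      intro M
      have h2 : |Ec k M F| ≤ 1 := Helper11.QR.Em_abs_le_of k M F hF
      have h3 := iso11_abs k p M F 1 zero_le_one hF
      have := abs_sub (Ec k M F) (Ecp k p M F)
      linarith
    have h1 : ∑ M ∈ W.filter (fun M : ℕ => ¬ η * Real.log N ≤ Real.log M),
        (1 / (M : ℝ)) * |Ec k M F - Ecp k p M F| ≤
        ∑ M ∈ W.filter (fun M : ℕ => ¬ η * Real.log N ≤ Real.log M), (1 / (M : ℝ)) * 2 :=
      Finset.sum_le_sum fun M _ => mul_le_mul_of_nonneg_left (htriv M) (by positivity)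
    linarith
  -- assembly
  have hsplit : ∀ M : ℕ, |Ec k M F - Ecp k p M F| ≤
      |Ec k M S - Ecp k p M S| + |Ec k M r| + |Ecp k p M r| := by
    intro M
    have e1 : Ec k M r = Ec k M F - Ec k M S := Helper11.QR.Em_sub' k M F S
    have e2 : Ecp k p M r = Ecp k p M F - Ecp k p M S := iso11_sub k p M F S
    have e3 : Ec k M F - Ecp k p M F =
        (Ec k M S - Ecp k p M S) + Ec k M r - Ecp k p M r := by
      rw [e1, e2]
      ring
    rw [e3]
    have h2 := abs_sub ((Ec k M S - Ecp k p M S) + Ec k M r) (Ecp k p M r)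
    have h3 := abs_add_le (Ec k M S - Ecp k p M S) (Ec k M r)
    linarith
  have hlarge : ∑ M ∈ Wl, (1 / (M : ℝ)) *
      |Ec k M F - Ecp k p M F| ≤ ε / 8 * LK + ε / 8 * LK + ε / 8 * LK := by
    refine le_trans ?_ (add_le_add (add_le_add hT1 hrem1) hT3)
    rw [← Finset.sum_add_distrib, ← Finset.sum_add_distrib]
    refine Finset.sum_le_sum fun M _ => ?_
    rw [← mul_add, ← mul_add]
    exact mul_le_mul_of_nonneg_left (hsplit M) (by positivity)
  have hfin : ∑ M ∈ W, (1 / (M : ℝ)) * |Ec k M F - Ecp k p M F| =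
      ∑ M ∈ Wl, (1 / (M : ℝ)) * |Ec k M F - Ecp k p M F| +
      ∑ M ∈ W.filter (fun M : ℕ => ¬ η * Real.log N ≤ Real.log M),
          (1 / (M : ℝ)) * |Ec k M F - Ecp k p M F| := by
    rw [hWl, Finset.sum_filter_add_sum_filter_not]
  rw [hfin]
  have hLK0 : 0 ≤ ε * LK := by linarith
  linarith

end DG
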