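import Pool.Agent.Helper6.IS.Defs

/-!
# ISO-8: the final form

PROOF. `r` = identity or reversal. From `IsoAll k` for `F` in the window `(N/K, N]` and for `F' = F ∘ move` in the window of `N' = t N`, `K' = t K` (`N'/K' = N/K`, the sum over `M` of
the terms at `t M` is at most `t` times the sum over `M' ∈ Ioc (N'/K') N'`), with a small `ε'` in place of `ε`, and Markov: let `E` be the set of the primes `p ≤ Y` for which
`∑_{M ∈ Ioc (N/K) N} (1/M) |Ec k M F - Ecp k p M F| > (ε/4) log K` or `∑_{M ∈ Ioc (N/K) N} (1/M) |Ec k (t M) F' - Ecp k p (t M) F'| > (ε/4) log K`;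
`∑_{p ∈ E} 1/p ≤ ε log log Y`. Then for `m, m' ∈ {1} ∪ primes`, not in `E`: `|Ecp m M F - Ecp m' (tM) F'| ≤ |Ecp m M F - Ec M F| + |Ec M F - Ec (tM) F'| + |Ec (t M) F' - Ecp m' (t M) F'|`
(`Ecp k 1 M F = Ec k M F`), the middle term by `SymGoal k s t` (reversal) or `SymGoal k 0 1` and `SymGoal k s t` (identity), as in the hand-in Symmetries. `log K' ≤ 2 log K` for `K ≥ t`.
-/

set_option autoImplicit false

namespace DG

open Finset Filter Topology

/-- `s` is added to all entries; the order of the entries is reversed if `rev = true`. -/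
def mov {k : ℕ} (rev : Bool) (s : ℕ) (l : Fin k → ℕ) : Fin k → ℕ :=
  fun i => (if rev then l (Fin.rev i) else l i) + s

private lemma iso8_mid (k s t : ℕ) (rev : Bool) (ht : 1 ≤ t)
    (hS : ∀ s t : ℕ, 1 ≤ t → SymGoal k s t) (ε : ℝ) (hε : 0 < ε) :
    ∃ K0 N0 : ℕ, ∀ N K : ℕ, N0 ≤ N → K0 ≤ K → K ≤ N →
      ∀ F : (Fin k → ℕ) → ℝ, (∀ l, |F l| ≤ 1) →
      ∑ M ∈ Ioc (N / K) N, (1 / (M : ℝ)) *
        |Ec k M F - Ec k (t * M) (fun l => F (mov rev s l))| ≤ ε * Real.log K := by
  cases rev with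
  | true =>
    obtain ⟨K0, N0, h⟩ := hS s t ht ε hε
    exact ⟨K0, N0, fun N K hN hK hKN F hF => h N K hN hK hKN F hF⟩
  | false =>
    obtain ⟨Ka, Na, ha⟩ := hS 0 1 le_rfl (ε / 2) (by positivity)
    obtain ⟨Kb, Nb, hb⟩ := hS s t ht (ε / 2) (by positivity)
    refine ⟨max Ka Kb, max Na Nb, fun N K hN hK hKN F hF => ?_⟩
    have h1 := ha N K ((le_max_left _ _).trans hN) ((le_max_left _ _).trans hK) hKN F hF
    have h2 := hb N K ((le_max_right _ _).trans hN) ((le_max_right _ _).trans hK) hKN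
      (fun l => F (fun i => l (Fin.rev i))) (fun l => hF _)
    have h3 : ∀ M : ℕ, |Ec k M F - Ec k (t * M) (fun l => F (mov false s l))| ≤
        |Ec k M F - Ec k (1 * M) (fun l => F (fun i => l (Fin.rev i) + 0))| +
        |Ec k M (fun l => F (fun i => l (Fin.rev i))) - Ec k (t * M) (fun l =>
          (fun l : Fin k → ℕ => F (fun i => l (Fin.rev i))) (fun i => l (Fin.rev i) + s))| := by
      intro M
      have e1 : Ec k (1 * M) (fun l => F (fun i => l (Fin.rev i) + 0)) =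
          Ec k M (fun l => F (fun i => l (Fin.rev i))) := by
        rw [one_mul]
        rfl
      have e2 : Ec k (t * M) (fun l =>
          (fun l : Fin k → ℕ => F (fun i => l (Fin.rev i))) (fun i => l (Fin.rev i) + s)) =
          Ec k (t * M) (fun l => F (mov false s l)) := by
        have e3 : (fun l : Fin k → ℕ =>
            (fun l : Fin k → ℕ => F (fun i => l (Fin.rev i))) (fun i => l (Fin.rev i) + s)) =
            fun l => F (mov false s l) := by
          funext l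
          show F (fun i => l (Fin.rev (Fin.rev i)) + s) = F (mov false s l)
          simp only [Fin.rev_rev]
          rfl
        rw [e3]
      rw [e1, e2]
      exact abs_sub_le _ _ _
    calc ∑ M ∈ Ioc (N / K) N, (1 / (M : ℝ)) *
          |Ec k M F - Ec k (t * M) (fun l => F (mov false s l))|
        ≤ ∑ M ∈ Ioc (N / K) N, ((1 / (M : ℝ)) *
          |Ec k M F - Ec k (1 * M) (fun l => F (fun i => l (Fin.rev i) + 0))| +
          (1 / (M : ℝ)) * |Ec k M (fun l => F (fun i => l (Fin.rev i))) - Ec k (t * M) (fun l =>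
            (fun l : Fin k → ℕ => F (fun i => l (Fin.rev i))) (fun i => l (Fin.rev i) + s))|) := by
          refine Finset.sum_le_sum fun M _ => ?_
          rw [← mul_add]
          exact mul_le_mul_of_nonneg_left (h3 M) (by positivity)
      _ ≤ ε / 2 * Real.log K + ε / 2 * Real.log K := by
          rw [Finset.sum_add_distrib]
          exact add_le_add h1 h2
      _ = ε * Real.log K := by ring

private lemma iso8_scale (t N K : ℕ) (ht : 1 ≤ t) (g : ℕ → ℝ) (hg : ∀ M, 0 ≤ g M) :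
    ∑ M ∈ Ioc (N / K) N, (1 / (M : ℝ)) * g (t * M) ≤
      t * ∑ M ∈ Ioc ((t * N) / (t * K)) (t * N), (1 / (M : ℝ)) * g M := by
  classical
  have ht0 : (0 : ℝ) < t := by exact_mod_cast ht
  rw [Nat.mul_div_mul_left N K ht]
  have h1 : ∑ M ∈ Ioc (N / K) N, (1 / (M : ℝ)) * g (t * M) =
      t * ∑ M ∈ (Ioc (N / K) N).image (fun M => t * M), (1 / (M : ℝ)) * g M := by
    rw [Finset.sum_image (fun a _ b _ h => Nat.eq_of_mul_eq_mul_left ht h), Finset.mul_sum]
    refine Finset.sum_congr rfl fun M hM => ?_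
    have hM0 : (0 : ℝ) < M := by
      have : 0 < M := lt_of_le_of_lt (Nat.zero_le _) (Finset.mem_Ioc.1 hM).1
      exact_mod_cast this
    push_cast
    field_simp
  rw [h1]
  refine mul_le_mul_of_nonneg_left ?_ ht0.le
  refine Finset.sum_le_sum_of_subset_of_nonneg ?_ fun M _ _ => mul_nonneg (by positivity) (hg M)
  intro x hx
  obtain ⟨M, hM, rfl⟩ := Finset.mem_image.1 hx
  have h2 := Finset.mem_Ioc.1 hM
  refine Finset.mem_Ioc.2 ⟨lt_of_lt_of_le h2.1 (Nat.le_mul_of_pos_left M ht), ?_⟩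
  exact Nat.mul_le_mul_left t h2.2

private lemma iso8_one (k M : ℕ) (F : (Fin k → ℕ) → ℝ) : Ecp k 1 M F = Ec k M F := by
  unfold Ecp Ec
  simp only [mul_one]

theorem isoFinal (k s t : ℕ) (rev : Bool) (ht : 1 ≤ t) (hI : IsoAll k)
    (hS : ∀ s t : ℕ, 1 ≤ t → SymGoal k s t) (ε : ℝ) (hε : 0 < ε) :
    ∃ Y0 : ℕ, ∀ Y : ℕ, Y0 ≤ Y → ∃ K0 N0 : ℕ, ∀ N K : ℕ, N0 ≤ N → K0 ≤ K → K ≤ N →
      ∀ F : (Fin k → ℕ) → ℝ, (∀ l, |F l| ≤ 1) →
        ∃ E : Finset ℕ, E ⊆ prY Y ∧ ∑ p ∈ E, 1 / (p : ℝ) ≤ ε * Real.log (Real.log Y) ∧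
          ∀ m m' : ℕ, m ≤ Y → m' ≤ Y → (m = 1 ∨ m.Prime) → (m' = 1 ∨ m'.Prime) →
            m ∉ E → m' ∉ E →
            ∑ M ∈ Ioc (N / K) N, (1 / (M : ℝ)) *
              |Ecp k m M F - Ecp k m' (t * M) (fun l => F (mov rev s l))| ≤
              ε * Real.log K := by
  classical
  have ht0 : (0 : ℝ) < t := by exact_mod_cast ht
  obtain ⟨Ya, hYa⟩ := hI (ε ^ 2 / 8) (by positivity)
  obtain ⟨Yb, hYb⟩ := hI (ε ^ 2 / (16 * t)) (by positivity)
  obtain ⟨Km, Nm, hmid⟩ := iso8_mid k s t rev ht hS (ε / 2) (by positivity)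
  obtain ⟨Yc, hYc⟩ : ∃ Y0 : ℕ, ∀ Y : ℕ, Y0 ≤ Y → 0 ≤ Real.log (Real.log Y) := by
    have h := (Real.tendsto_log_atTop.comp (Real.tendsto_log_atTop.comp
      (tendsto_natCast_atTop_atTop (R := ℝ)))).eventually_ge_atTop 0
    exact eventually_atTop.1 h
  refine ⟨max Ya (max Yb Yc), fun Y hY => ?_⟩
  obtain ⟨Ka, Na, ha⟩ := hYa Y ((le_max_left _ _).trans hY)
  obtain ⟨Kb, Nb, hb⟩ := hYb Y ((le_max_left _ _).trans ((le_max_right _ _).trans hY))
  have hLL0 := hYc Y ((le_max_right _ _).trans ((le_max_right _ _).trans hY))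
  refine ⟨max (max Ka Kb) (max Km (max t 2)), max (max Na Nb) Nm, ?_⟩
  intro N K hN hK hKN F hF
  have hNa : Na ≤ N := (le_max_left _ _).trans ((le_max_left _ _).trans hN)
  have hNb : Nb ≤ N := (le_max_right _ _).trans ((le_max_left _ _).trans hN)
  have hNm : Nm ≤ N := (le_max_right _ _).trans hN
  have hKa : Ka ≤ K := (le_max_left _ _).trans ((le_max_left _ _).trans hK)
  have hKb : Kb ≤ K := (le_max_right _ _).trans ((le_max_left _ _).trans hK)
  have hKm : Km ≤ K := (le_max_left _ _).trans ((le_max_right _ _).trans hK)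
  have hKt : t ≤ K := (le_max_left _ _).trans ((le_max_right _ _).trans
    ((le_max_right _ _).trans hK))
  have hK2 : 2 ≤ K := (le_max_right _ _).trans ((le_max_right _ _).trans
    ((le_max_right _ _).trans hK))
  have hKr : (0 : ℝ) < K := by
    have : 0 < K := by omega
    exact_mod_cast this
  have hLK : 0 < Real.log K := Real.log_pos (by exact_mod_cast hK2)
  have hlogtK : Real.log ((t * K : ℕ) : ℝ) ≤ 2 * Real.log K := by
    push_cast
    rw [Real.log_mul ht0.ne' hKr.ne']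
    have : Real.log t ≤ Real.log K := Real.log_le_log ht0 (by exact_mod_cast hKt)
    linarith
  set G : (Fin k → ℕ) → ℝ := fun l => F (mov rev s l) with hG
  have hGb : ∀ l, |G l| ≤ 1 := fun l => hF _
  set T1 : ℕ → ℝ := fun p => ∑ M ∈ Ioc (N / K) N, (1 / (M : ℝ)) * |Ec k M F - Ecp k p M F|
    with hT1
  set T2 : ℕ → ℝ := fun p => ∑ M ∈ Ioc (N / K) N, (1 / (M : ℝ)) *
    |Ec k (t * M) G - Ecp k p (t * M) G| with hT2
  have hT10 : ∀ p, 0 ≤ T1 p := fun p => Finset.sum_nonneg fun M _ => by positivity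
  have hT20 : ∀ p, 0 ≤ T2 p := fun p => Finset.sum_nonneg fun M _ => by positivity
  have hs1 : ∑ p ∈ prY Y, (1 / (p : ℝ)) * T1 p ≤
      ε ^ 2 / 8 * Real.log (Real.log Y) * Real.log K := ha N K hNa hKa hKN F hF
  have hs2 : ∑ p ∈ prY Y, (1 / (p : ℝ)) * T2 p ≤
      ε ^ 2 / 8 * Real.log (Real.log Y) * Real.log K := by
    have h1 := hb (t * N) (t * K) (hNb.trans (Nat.le_mul_of_pos_left N ht))
      (hKb.trans (Nat.le_mul_of_pos_left K ht)) (Nat.mul_le_mul_left t hKN) G hGb
    have h2 : ∀ p, T2 p ≤ t * ∑ M ∈ Ioc ((t * N) / (t * K)) (t * N), (1 / (M : ℝ)) *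
        |Ec k M G - Ecp k p M G| := fun p =>
      iso8_scale t N K ht (fun M => |Ec k M G - Ecp k p M G|) fun M => abs_nonneg _
    calc ∑ p ∈ prY Y, (1 / (p : ℝ)) * T2 p
        ≤ ∑ p ∈ prY Y, (1 / (p : ℝ)) * (t * ∑ M ∈ Ioc ((t * N) / (t * K)) (t * N),
          (1 / (M : ℝ)) * |Ec k M G - Ecp k p M G|) :=
          Finset.sum_le_sum fun p _ => mul_le_mul_of_nonneg_left (h2 p) (by positivity)
      _ = t * ∑ p ∈ prY Y, (1 / (p : ℝ)) * ∑ M ∈ Ioc ((t * N) / (t * K)) (t * N),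
          (1 / (M : ℝ)) * |Ec k M G - Ecp k p M G| := by
          rw [Finset.mul_sum]
          refine Finset.sum_congr rfl fun p _ => ?_
          ring
      _ ≤ t * (ε ^ 2 / (16 * t) * Real.log (Real.log Y) * Real.log ((t * K : ℕ) : ℝ)) :=
          mul_le_mul_of_nonneg_left h1 ht0.le
      _ ≤ t * (ε ^ 2 / (16 * t) * Real.log (Real.log Y) * (2 * Real.log K)) := by
          refine mul_le_mul_of_nonneg_left ?_ ht0.le
          exact mul_le_mul_of_nonneg_left hlogtK (by positivity)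
      _ = ε ^ 2 / 8 * Real.log (Real.log Y) * Real.log K := by
          field_simp
          ring
  have hm := hmid N K hNm hKm hKN F hF
  refine ⟨(prY Y).filter (fun p => ε / 4 * Real.log K < T1 p ∨ ε / 4 * Real.log K < T2 p),
    Finset.filter_subset _ _, ?_, ?_⟩
  · set E : Finset ℕ := (prY Y).filter
      (fun p => ε / 4 * Real.log K < T1 p ∨ ε / 4 * Real.log K < T2 p) with hE
    have h1 : (∑ p ∈ E, 1 / (p : ℝ)) * (ε / 4 * Real.log K) ≤
        (ε * Real.log (Real.log Y)) * (ε / 4 * Real.log K) := by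
      calc (∑ p ∈ E, 1 / (p : ℝ)) * (ε / 4 * Real.log K)
          = ∑ p ∈ E, 1 / (p : ℝ) * (ε / 4 * Real.log K) := by rw [Finset.sum_mul]
        _ ≤ ∑ p ∈ E, 1 / (p : ℝ) * (T1 p + T2 p) := by
            refine Finset.sum_le_sum fun p hp => mul_le_mul_of_nonneg_left ?_ (by positivity)
            rcases (Finset.mem_filter.1 hp).2 with h | h
            · linarith [hT20 p]
            · linarith [hT10 p]
        _ ≤ ∑ p ∈ prY Y, 1 / (p : ℝ) * (T1 p + T2 p) :=
            Finset.sum_le_sum_of_subset_of_nonneg (Finset.filter_subset _ _) fun p _ _ =>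
              mul_nonneg (by positivity) (add_nonneg (hT10 p) (hT20 p))
        _ = ∑ p ∈ prY Y, (1 / (p : ℝ)) * T1 p + ∑ p ∈ prY Y, (1 / (p : ℝ)) * T2 p := by
            rw [← Finset.sum_add_distrib]
            refine Finset.sum_congr rfl fun p _ => ?_
            ring
        _ ≤ _ := by
            refine (add_le_add hs1 hs2).trans (le_of_eq ?_)
            ring
    exact le_of_mul_le_mul_right h1 (by positivity)
  · intro m m' hmY hmY' hm1 hm1' hmE hmE'
    have hA : ∑ M ∈ Ioc (N / K) N, (1 / (M : ℝ)) * |Ecp k m M F - Ec k M F| ≤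
        ε / 4 * Real.log K := by
      rcases hm1 with h | h
      · subst h
        simp only [iso8_one, sub_self, abs_zero, mul_zero, Finset.sum_const_zero]
        positivity
      · have hmp : m ∈ prY Y := Finset.mem_filter.2 ⟨Finset.mem_Icc.2 ⟨h.pos, hmY⟩, h⟩
        by_contra hcon
        rw [not_le] at hcon
        refine hmE (Finset.mem_filter.2 ⟨hmp, Or.inl ?_⟩)
        refine hcon.trans_le (le_of_eq ?_)
        refine Finset.sum_congr rfl fun M _ => ?_
        rw [abs_sub_comm]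
    have hB : ∑ M ∈ Ioc (N / K) N, (1 / (M : ℝ)) * |Ec k (t * M) G - Ecp k m' (t * M) G| ≤
        ε / 4 * Real.log K := by
      rcases hm1' with h | h
      · subst h
        simp only [iso8_one, sub_self, abs_zero, mul_zero, Finset.sum_const_zero]
        positivity
      · have hmp : m' ∈ prY Y := Finset.mem_filter.2 ⟨Finset.mem_Icc.2 ⟨h.pos, hmY'⟩, h⟩
        by_contra hcon
        rw [not_le] at hcon
        exact hmE' (Finset.mem_filter.2 ⟨hmp, Or.inr hcon⟩)
    have hC : ∀ M : ℕ, |Ecp k m M F - Ecp k m' (t * M) G| ≤ |Ecp k m M F - Ec k M F| +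
        |Ec k M F - Ec k (t * M) G| + |Ec k (t * M) G - Ecp k m' (t * M) G| := by
      intro M
      have h1 := abs_sub_le (Ecp k m M F) (Ec k M F) (Ecp k m' (t * M) G)
      have h2 := abs_sub_le (Ec k M F) (Ec k (t * M) G) (Ecp k m' (t * M) G)
      linarith
    calc ∑ M ∈ Ioc (N / K) N, (1 / (M : ℝ)) * |Ecp k m M F - Ecp k m' (t * M) G|
        ≤ ∑ M ∈ Ioc (N / K) N, ((1 / (M : ℝ)) * |Ecp k m M F - Ec k M F| +
          (1 / (M : ℝ)) * |Ec k M F - Ec k (t * M) G| +
          (1 / (M : ℝ)) * |Ec k (t * M) G - Ecp k m' (t * M) G|) := by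
          refine Finset.sum_le_sum fun M _ => ?_
          rw [← mul_add, ← mul_add]
          exact mul_le_mul_of_nonneg_left (hC M) (by positivity)
      _ = ∑ M ∈ Ioc (N / K) N, (1 / (M : ℝ)) * |Ecp k m M F - Ec k M F| +
          ∑ M ∈ Ioc (N / K) N, (1 / (M : ℝ)) * |Ec k M F - Ec k (t * M) G| +
          ∑ M ∈ Ioc (N / K) N, (1 / (M : ℝ)) * |Ec k (t * M) G - Ecp k m' (t * M) G| := by
          rw [Finset.sum_add_distrib, Finset.sum_add_distrib]
      _ ≤ ε / 4 * Real.log K + ε / 2 * Real.log K + ε / 4 * Real.log K :=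
          add_le_add (add_le_add hA hm) hB
      _ = ε * Real.log K := by ring

end DG
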