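import Pool.Agent.Helper6.IS.JDefs
import Pool.Agent.Helper6.IS.I8Fin

/-!
# ISO-12: the final form, strong

PROOF. As I8Fin.lean (`isoFinal`), simpler: `E = E_1 ∪ E_2` with `E_1` from `IsoAllC k` for `F`, window `(N/K, N]`, `E_2` from `IsoAllC k` for `F' = F ∘ mov` and the window of
`N' = t N`, `K' = t K` (`iso8_scale`; `log K' ≤ 2 log K` for `K ≥ t`), with a small multiple of `ε / t`; middle term as in `iso8_mid`. `C = C_1 + C_2`.
-/

set_option autoImplicit false

namespace DG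

open Finset Filter Topology

private lemma isoC8_mid (k s t : ℕ) (rev : Bool) (ht : 1 ≤ t)
    (hS : ∀ s t : ℕ, 1 ≤ t → SymGoal k s t) (ε : ℝ) (hε : 0 < ε) :
    ∃ K0 N0 : ℕ, ∀ N K : ℕ, N0 ≤ N → K0 ≤ K → K ≤ N →
      ∀ F : (Fin k → ℕ) → ℝ, (∀ l, |F l| ≤ 1) →
      ∑ M ∈ Ioc (N / K) N, (1 / (M : ℝ)) *
        |Ec k M F - Ec k (t * M) (fun l => F (mov rev s l))| ≤ ε * Real.log K := by
  cases rev with
  | true =>
    obtain ⟨K0, N0, h⟩ := hS s t ht ε hε
    exact ⟨K0, N0, fun N K hN hK hKN F hF => h N K hN hK hKN F hF⟩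
  | false =>
    obtain ⟨Ka, Na, ha⟩ := hS 0 1 le_rfl (ε / 2) (by positivity)
    obtain ⟨Kb, Nb, hb⟩ := hS s t ht (ε / 2) (by positivity)
    refine ⟨max Ka Kb, max Na Nb, fun N K hN hK hKN F hF => ?_⟩
    have h1 := ha N K ((le_max_left _ _).trans hN) ((le_max_left _ _).trans hK) hKN F hF
    have h2 := hb N K ((le_max_right _ _).trans hN) ((le_max_right _ _).trans hK) hKN
      (fun l => F (fun i => l (Fin.rev i))) (fun l => hF _)
    have h3 : ∀ M : ℕ, |Ec k M F - Ec k (t * M) (fun l => F (mov false s l))| ≤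
        |Ec k M F - Ec k (1 * M) (fun l => F (fun i => l (Fin.rev i) + 0))| +
        |Ec k M (fun l => F (fun i => l (Fin.rev i))) - Ec k (t * M) (fun l =>
          (fun l : Fin k → ℕ => F (fun i => l (Fin.rev i))) (fun i => l (Fin.rev i) + s))| := by
      intro M
      have e1 : Ec k (1 * M) (fun l => F (fun i => l (Fin.rev i) + 0)) =
          Ec k M (fun l => F (fun i => l (Fin.rev i))) := by
        rw [one_mul]
        rfl
      have e2 : Ec k (t * M) (fun l =>
          (fun l : Fin k → ℕ => F (fun i => l (Fin.rev i))) (fun i => l (Fin.rev i) + s)) =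
          Ec k (t * M) (fun l => F (mov false s l)) := by
        have e3 : (fun l : Fin k → ℕ =>
            (fun l : Fin k → ℕ => F (fun i => l (Fin.rev i))) (fun i => l (Fin.rev i) + s)) =
            fun l => F (mov false s l) := by
          funext l
          show F (fun i => l (Fin.rev (Fin.rev i)) + s) = F (mov false s l)
          simp only [Fin.rev_rev]
          rfl
        rw [e3]
      rw [e1, e2]
      exact abs_sub_le _ _ _
    calc ∑ M ∈ Ioc (N / K) N, (1 / (M : ℝ)) *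
          |Ec k M F - Ec k (t * M) (fun l => F (mov false s l))|
        ≤ ∑ M ∈ Ioc (N / K) N, ((1 / (M : ℝ)) *
          |Ec k M F - Ec k (1 * M) (fun l => F (fun i => l (Fin.rev i) + 0))| +
          (1 / (M : ℝ)) * |Ec k M (fun l => F (fun i => l (Fin.rev i))) - Ec k (t * M) (fun l =>
            (fun l : Fin k → ℕ => F (fun i => l (Fin.rev i))) (fun i => l (Fin.rev i) + s))|) := by
          refine Finset.sum_le_sum fun M _ => ?_
          rw [← mul_add]
          exact mul_le_mul_of_nonneg_left (h3 M) (by positivity)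
      _ ≤ ε / 2 * Real.log K + ε / 2 * Real.log K := by
          rw [Finset.sum_add_distrib]
          exact add_le_add h1 h2
      _ = ε * Real.log K := by ring

private lemma isoC8_scale (t N K : ℕ) (ht : 1 ≤ t) (g : ℕ → ℝ) (hg : ∀ M, 0 ≤ g M) :
    ∑ M ∈ Ioc (N / K) N, (1 / (M : ℝ)) * g (t * M) ≤
      t * ∑ M ∈ Ioc ((t * N) / (t * K)) (t * N), (1 / (M : ℝ)) * g M := by
  classical
  have ht0 : (0 : ℝ) < t := by exact_mod_cast ht
  rw [Nat.mul_div_mul_left N K ht]
  have h1 : ∑ M ∈ Ioc (N / K) N, (1 / (M : ℝ)) * g (t * M) =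
      t * ∑ M ∈ (Ioc (N / K) N).image (fun M => t * M), (1 / (M : ℝ)) * g M := by
    rw [Finset.sum_image (fun a _ b _ h => Nat.eq_of_mul_eq_mul_left ht h), Finset.mul_sum]
    refine Finset.sum_congr rfl fun M hM => ?_
    have hM0 : (0 : ℝ) < M := by
      have : 0 < M := lt_of_le_of_lt (Nat.zero_le _) (Finset.mem_Ioc.1 hM).1
      exact_mod_cast this
    push_cast
    field_simp
  rw [h1]
  refine mul_le_mul_of_nonneg_left ?_ ht0.le
  refine Finset.sum_le_sum_of_subset_of_nonneg ?_ fun M _ _ => mul_nonneg (by positivity) (hg M)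
  intro x hx
  obtain ⟨M, hM, rfl⟩ := Finset.mem_image.1 hx
  have h2 := Finset.mem_Ioc.1 hM
  refine Finset.mem_Ioc.2 ⟨lt_of_lt_of_le h2.1 (Nat.le_mul_of_pos_left M ht), ?_⟩
  exact Nat.mul_le_mul_left t h2.2

private lemma isoC8_one (k M : ℕ) (F : (Fin k → ℕ) → ℝ) : Ecp k 1 M F = Ec k M F := by
  unfold Ecp Ec
  simp only [mul_one]

theorem isoFinalC (k s t : ℕ) (rev : Bool) (ht : 1 ≤ t) (hI : IsoAllC k)
    (hS : ∀ s t : ℕ, 1 ≤ t → SymGoal k s t) (ε : ℝ) (hε : 0 < ε) :
    ∃ C : ℝ, ∀ Y : ℕ, ∃ K0 N0 : ℕ, ∀ N K : ℕ, N0 ≤ N → K0 ≤ K → K ≤ N →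
      ∀ F : (Fin k → ℕ) → ℝ, (∀ l, |F l| ≤ 1) →
        ∃ E : Finset ℕ, E ⊆ prY Y ∧ ∑ p ∈ E, 1 / (p : ℝ) ≤ C ∧
          ∀ m m' : ℕ, m ≤ Y → m' ≤ Y → (m = 1 ∨ m.Prime) → (m' = 1 ∨ m'.Prime) →
            m ∉ E → m' ∉ E →
            ∑ M ∈ Ioc (N / K) N, (1 / (M : ℝ)) *
              |Ecp k m M F - Ecp k m' (t * M) (fun l => F (mov rev s l))| ≤
              ε * Real.log K := by
  classical
  have ht0 : (0 : ℝ) < t := by exact_mod_cast ht
  obtain ⟨Ca, hCa⟩ := hI (ε / 4) (by positivity)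
  obtain ⟨Cb, hCb⟩ := hI (ε / (8 * t)) (by positivity)
  obtain ⟨Km, Nm, hmid⟩ := isoC8_mid k s t rev ht hS (ε / 2) (by positivity)
  refine ⟨Ca + Cb, fun Y => ?_⟩
  obtain ⟨Ka, Na, ha⟩ := hCa Y
  obtain ⟨Kb, Nb, hb⟩ := hCb Y
  refine ⟨max (max Ka Kb) (max Km (max t 2)), max (max Na Nb) Nm, ?_⟩
  intro N K hN hK hKN F hF
  have hNa : Na ≤ N := (le_max_left _ _).trans ((le_max_left _ _).trans hN)
  have hNb : Nb ≤ N := (le_max_right _ _).trans ((le_max_left _ _).trans hN)
  have hNm : Nm ≤ N := (le_max_right _ _).trans hN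
  have hKa : Ka ≤ K := (le_max_left _ _).trans ((le_max_left _ _).trans hK)
  have hKb : Kb ≤ K := (le_max_right _ _).trans ((le_max_left _ _).trans hK)
  have hKm : Km ≤ K := (le_max_left _ _).trans ((le_max_right _ _).trans hK)
  have hKt : t ≤ K := (le_max_left _ _).trans ((le_max_right _ _).trans
    ((le_max_right _ _).trans hK))
  have hK2 : 2 ≤ K := (le_max_right _ _).trans ((le_max_right _ _).trans
    ((le_max_right _ _).trans hK))
  have hKr : (0 : ℝ) < K := by
    have : 0 < K := by omega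
    exact_mod_cast this
  have hLK : 0 < Real.log K := Real.log_pos (by exact_mod_cast hK2)
  have hlogtK : Real.log ((t * K : ℕ) : ℝ) ≤ 2 * Real.log K := by
    push_cast
    rw [Real.log_mul ht0.ne' hKr.ne']
    have : Real.log t ≤ Real.log K := Real.log_le_log ht0 (by exact_mod_cast hKt)
    linarith
  set G : (Fin k → ℕ) → ℝ := fun l => F (mov rev s l) with hG
  have hGb : ∀ l, |G l| ≤ 1 := fun l => hF _
  obtain ⟨E1, hE1s, hE1c, hE1⟩ := ha N K hNa hKa hKN F hF
  obtain ⟨E2, hE2s, hE2c, hE2⟩ := hb (t * N) (t * K) (hNb.trans (Nat.le_mul_of_pos_left N ht))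
      (hKb.trans (Nat.le_mul_of_pos_left K ht)) (Nat.mul_le_mul_left t hKN) G hGb
  have hm := hmid N K hNm hKm hKN F hF
  refine ⟨E1 ∪ E2, Finset.union_subset hE1s hE2s, ?_, ?_⟩
  · have h1 : ∑ p ∈ E1 ∪ E2, 1 / (p : ℝ) ≤ ∑ p ∈ E1, 1 / (p : ℝ) + ∑ p ∈ E2, 1 / (p : ℝ) := by
      rw [← Finset.sum_union_inter]
      exact le_add_of_nonneg_right (Finset.sum_nonneg fun p _ => by positivity)
    linarith
  · intro m m' hmY hmY' hm1 hm1' hmE hmE'
    have hA : ∑ M ∈ Ioc (N / K) N, (1 / (M : ℝ)) * |Ecp k m M F - Ec k M F| ≤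
        ε / 4 * Real.log K := by
      rcases hm1 with h | h
      · subst h
        simp only [isoC8_one, sub_self, abs_zero, mul_zero, Finset.sum_const_zero]
        positivity
      · have hmp : m ∈ prY Y := Finset.mem_filter.2 ⟨Finset.mem_Icc.2 ⟨h.pos, hmY⟩, h⟩
        have h2 := hE1 m hmp (fun h3 => hmE (Finset.mem_union_left _ h3))
        refine le_trans (le_of_eq ?_) h2
        refine Finset.sum_congr rfl fun M _ => ?_
        rw [abs_sub_comm]
    have hB : ∑ M ∈ Ioc (N / K) N, (1 / (M : ℝ)) * |Ec k (t * M) G - Ecp k m' (t * M) G| ≤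
        ε / 4 * Real.log K := by
      rcases hm1' with h | h
      · subst h
        simp only [isoC8_one, sub_self, abs_zero, mul_zero, Finset.sum_const_zero]
        positivity
      · have hmp : m' ∈ prY Y := Finset.mem_filter.2 ⟨Finset.mem_Icc.2 ⟨h.pos, hmY'⟩, h⟩
        have h2 := hE2 m' hmp (fun h3 => hmE' (Finset.mem_union_right _ h3))
        calc ∑ M ∈ Ioc (N / K) N, (1 / (M : ℝ)) * |Ec k (t * M) G - Ecp k m' (t * M) G|
            ≤ t * ∑ M ∈ Ioc ((t * N) / (t * K)) (t * N), (1 / (M : ℝ)) *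
              |Ec k M G - Ecp k m' M G| :=
              isoC8_scale t N K ht (fun M => |Ec k M G - Ecp k m' M G|) fun M => abs_nonneg _
          _ ≤ t * (ε / (8 * t) * Real.log ((t * K : ℕ) : ℝ)) :=
              mul_le_mul_of_nonneg_left h2 ht0.le
          _ ≤ t * (ε / (8 * t) * (2 * Real.log K)) := by
              refine mul_le_mul_of_nonneg_left ?_ ht0.le
              exact mul_le_mul_of_nonneg_left hlogtK (by positivity)
          _ = ε / 4 * Real.log K := by
              field_simp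
              ring
    have hC : ∀ M : ℕ, |Ecp k m M F - Ecp k m' (t * M) G| ≤ |Ecp k m M F - Ec k M F| +
        |Ec k M F - Ec k (t * M) G| + |Ec k (t * M) G - Ecp k m' (t * M) G| := by
      intro M
      have h1 := abs_sub_le (Ecp k m M F) (Ec k M F) (Ecp k m' (t * M) G)
      have h2 := abs_sub_le (Ec k M F) (Ec k (t * M) G) (Ecp k m' (t * M) G)
      linarith
    calc ∑ M ∈ Ioc (N / K) N, (1 / (M : ℝ)) * |Ecp k m M F - Ecp k m' (t * M) G|
        ≤ ∑ M ∈ Ioc (N / K) N, ((1 / (M : ℝ)) * |Ecp k m M F - Ec k M F| +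
          (1 / (M : ℝ)) * |Ec k M F - Ec k (t * M) G| +
          (1 / (M : ℝ)) * |Ec k (t * M) G - Ecp k m' (t * M) G|) := by
          refine Finset.sum_le_sum fun M _ => ?_
          rw [← mul_add, ← mul_add]
          exact mul_le_mul_of_nonneg_left (hC M) (by positivity)
      _ = ∑ M ∈ Ioc (N / K) N, (1 / (M : ℝ)) * |Ecp k m M F - Ec k M F| +
          ∑ M ∈ Ioc (N / K) N, (1 / (M : ℝ)) * |Ec k M F - Ec k (t * M) G| +
          ∑ M ∈ Ioc (N / K) N, (1 / (M : ℝ)) * |Ec k (t * M) G - Ecp k m' (t * M) G| := by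
          rw [Finset.sum_add_distrib, Finset.sum_add_distrib]
      _ ≤ ε / 4 * Real.log K + ε / 2 * Real.log K + ε / 4 * Real.log K :=
          add_le_add (add_le_add hA hm) hB
      _ = ε * Real.log K := by ring

end DG
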