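import Pool.Agent.Helper6.DG.FinalS
import Pool.Agent.Helper6.IS.J1Ent
import Pool.Agent.Helper6.IS.J5Prod
import Pool.Agent.Helper6.IS.J7All
import Pool.Agent.Helper6.IS.J8Fin

/-!
# Project ISO: assembly
-/

set_option autoImplicit false

namespace DG

open Finset Filter Topology

theorem isoProdC_holds (k : ℕ) : IsoProdC k :=
  isoProdC entS prod_holds (fun k t ht => symGoal_holds k 0 t ht) k

theorem isoAllC_holds (k : ℕ) : IsoAllC k := isoAllC_of k (isoProdC_holds k)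

theorem iso_holds (k s t : ℕ) (rev : Bool) (ht : 1 ≤ t) (ε : ℝ) (hε : 0 < ε) :
    ∃ C : ℝ, ∀ Y : ℕ, ∃ K0 N0 : ℕ, ∀ N K : ℕ, N0 ≤ N → K0 ≤ K → K ≤ N →
      ∀ F : (Fin k → ℕ) → ℝ, (∀ l, |F l| ≤ 1) →
        ∃ E : Finset ℕ, E ⊆ prY Y ∧ ∑ p ∈ E, 1 / (p : ℝ) ≤ C ∧
          ∀ m m' : ℕ, m ≤ Y → m' ≤ Y → (m = 1 ∨ m.Prime) → (m' = 1 ∨ m'.Prime) →
            m ∉ E → m' ∉ E →
            ∑ M ∈ Ioc (N / K) N, (1 / (M : ℝ)) *
              |Ecp k m M F - Ecp k m' (t * M) (fun l => F (mov rev s l))| ≤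
              ε * Real.log K :=
  isoFinalC k s t rev ht (isoAllC_holds k) (fun s t ht => symGoal_holds k s t ht) ε hε

end DG
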