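import Pool.Agent.Helper6.IS.Defs
import Pool.Agent.Helper31.DG.Main

/-!
# ISO-1: the improved entropy decrement with a uniform constant

PROOF. As Helper31/DG/Decr.lean, Main.lean (`bool_sf`, `real_bd`, `ent_thm`), step `a = 1`. Let `Q j = ∏_{p prime, 1 < p ≤ 2^j} p`
(`Q (j+1) = Q j * MP (2^j)`, coprime), `w_j` the word of length `L_j = (2k+1) 2^j` (letters `lett k f`),
`g j = (ent (w_j, res (Q j)) - log (Q j)) / L_j` (conditional entropy of the word given the residue mod `Q j`; `ent (res (Q j)) = log (Q j)`,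
`ent_res`). Put `I_j = ent (w_j, res (Q j)) + log (MP (2^j)) - ent (w_j, res (Q j), res (MP (2^j)))`.
* step: `g (j+1) ≤ g j - I_j / L_j`. The word `w_{j+1}` is `(w_j, w_j ∘ T^{L_j})`; `ent (w_{j+1}, res Q_{j+1}) ≤
 ent (w_j, res Q_{j+1}) + ent (w_j ∘ T^{L_j}, res Q_{j+1}) - log Q_{j+1}` (`submod`), the second one equals the first one
 (`ent_shift`, and the residue at `T^{L_j} x` is a bijective function of the residue at `x`: `res_shift`, `ent_factor`), so
 `g (j+1) ≤ (ent (w_j, res Q_{j+1}) - log Q_{j+1}) / L_j`, and `res Q_{j+1}` is equivalent to `(res (Q j), res (MP (2^j)))` (CRT: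
 `ent_factor` both ways), `log Q_{j+1} = log Q_j + log MP`. (`word_step`/`word_chain` with `m = 2`, `M = Q_{j+1}` gives this inequality directly.)
* `g 0 ≤ ent (w_0) / (2k+1) ≤ (k+1) log 2` (`ent_word_le`, `ent_pair_le`), `g ≥ 0`. So `∑_j I_j / L_j ≤ (k+1) log 2`, all terms `≥ 0`.
* `point` gives, at a scale with a bad invariant set, `ε² D / 16 ≤ ent w + log MP - ent (w, res MP) ≤ I_j` (the last step is `submod`
 with the middle variable `w`: mutual information with `res MP` increases when `res (Q j)` is added to `w`), exactly as in `bool_sf`; so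
 `2 κ / j ≤ I_j / L_j` for `j ≥ j1` with `κ, j1` depending on `k, ε` only (Chebyshev). Hence `∑_{j ∈ B, j ≥ j1} 1 / j ≤ (k+1) log 2 / (2 κ)`,
 and the `j < j1` contribute at most `j1`.
* from sets to complex weights: `real_bd` as in `ent_thm` (with `ε / 12`).
-/

set_option autoImplicit false

namespace DGE

open Finset DG MRP

/-- The product of the primes up to `2^j`. -/
private def PQ (j : ℕ) : ℕ := ∏ p ∈ (Ioc 0 (2 ^ j)).filter Nat.Prime, p

private theorem PQ_ne (j : ℕ) : PQ j ≠ 0 :=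
  Finset.prod_ne_zero_iff.2 fun _ hp => (Finset.mem_filter.1 hp).2.ne_zero

private instance instPQ (j : ℕ) : NeZero (PQ j) := ⟨PQ_ne j⟩

private theorem PQ_succ (j : ℕ) : PQ (j + 1) = PQ j * MP (2 ^ j) := by
  unfold PQ MP dyP
  rw [← Finset.prod_union]
  · congr 1
    ext p
    simp only [Finset.mem_filter, Finset.mem_Ioc, Finset.mem_union, pow_succ']
    have h : 0 < 2 ^ j := by positivity
    constructor
    · rintro ⟨⟨h1, h2⟩, h3⟩
      by_cases h4 : p ≤ 2 ^ j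
      · exact Or.inl ⟨⟨h1, h4⟩, h3⟩
      · exact Or.inr ⟨⟨not_le.1 h4, h2⟩, h3⟩
    · rintro (⟨⟨h1, h2⟩, h3⟩ | ⟨⟨h1, h2⟩, h3⟩)
      · exact ⟨⟨h1, by omega⟩, h3⟩
      · exact ⟨⟨by omega, h2⟩, h3⟩
  · rw [Finset.disjoint_left]
    intro p hp hp2
    have h1 := (Finset.mem_Ioc.1 (Finset.mem_filter.1 hp).1).2
    have h2 := (Finset.mem_Ioc.1 (Finset.mem_filter.1 hp2).1).1
    omega

private theorem PQ_cop (j : ℕ) : Nat.Coprime (PQ j) (MP (2 ^ j)) := by
  unfold PQ MP dyP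
  refine Nat.Coprime.prod_left fun p hp => Nat.Coprime.prod_right fun q hq => ?_
  have h1 := Finset.mem_filter.1 hp
  have h2 := Finset.mem_filter.1 hq
  rw [Nat.coprime_primes h1.2 h2.2]
  have h3 := (Finset.mem_Ioc.1 h1.1).2
  have h4 := (Finset.mem_Ioc.1 h2.1).1
  omega

private theorem res_eq_iff {S : Type} (pos : S → ℤ) (M : ℕ) [NeZero M] (x x' : S) :
    res pos M x = res pos M x' ↔ pos x ≡ pos x' [ZMOD (M : ℤ)] := by
  have h0 : (0 : ℤ) < M := by exact_mod_cast NeZero.pos M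
  have e1 := Int.emod_nonneg (pos x) h0.ne'
  have e2 := Int.emod_nonneg (pos x') h0.ne'
  rw [Fin.ext_iff]
  simp only [res]
  unfold Int.ModEq
  omega

private theorem res_mul {S : Type} (pos : S → ℤ) (M N K : ℕ) [NeZero M] [NeZero N] [NeZero K]
    (hK : K = M * N) (hc : Nat.Coprime M N) (x x' : S) (h1 : res pos M x = res pos M x')
    (h2 : res pos N x = res pos N x') : res pos K x = res pos K x' := by
  rw [res_eq_iff] at h1 h2 ⊢
  rw [hK]
  push_cast
  exact (Int.modEq_and_modEq_iff_modEq_mul (by simpa using hc)).1 ⟨h1, h2⟩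

private theorem word_chain2 (X : Sys) {A β : Type} [Fintype A] [DecidableEq A] [Nonempty A]
    [Fintype β] [DecidableEq β] [Nonempty β] (c : X.S → A) (y : X.S → β) (a m L : ℕ)
    (hy : ∀ (n : ℤ) (x x' : X.S), y ((X.T ^ n) x) = y ((X.T ^ n) x') → y x = y x') :
    ent X.μ (fun x => (word X c a (m * L) x, y x)) ≤
      ent X.μ y + m * (ent X.μ (fun x => (word X c a L x, y x)) - ent X.μ y) := by
  have h1 : ent X.μ (fun x => (word X c a (m * L) x, y x)) ≤
      ent X.μ (fun x => ((fun i : Fin m =>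
        word X c a L ((X.T ^ ((a : ℤ) * (((i : ℕ) : ℤ) * L))) x)), y x)) := by
    refine ent_factor X.μ _ _ ?_
    intro x x' h
    have ha := congrArg Prod.fst h
    have hb := congrArg Prod.snd h
    simp only at ha hb
    refine Prod.ext (funext fun j => ?_) hb
    have hj := j.2
    have hL : 0 < L := by
      rcases Nat.eq_zero_or_pos L with h0 | h0
      · have : m * L = 0 := by rw [h0, Nat.mul_zero]
        omega
      · exact h0
    have hi : (j : ℕ) / L < m := Nat.div_lt_of_lt_mul (lt_of_lt_of_eq hj (Nat.mul_comm m L))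
    have hr : (j : ℕ) % L < L := Nat.mod_lt _ hL
    have h1 := congrFun (congrFun ha ⟨(j : ℕ) / L, hi⟩) ⟨(j : ℕ) % L, hr⟩
    simp only [word] at h1 ⊢
    have h2 : ∀ z : X.S, (X.T ^ ((a : ℤ) * (((j : ℕ) % L : ℕ) : ℤ)))
        ((X.T ^ ((a : ℤ) * ((((j : ℕ) / L : ℕ) : ℤ) * L))) z) =
        (X.T ^ ((a : ℤ) * ((j : ℕ) : ℤ))) z := by
      intro z
      rw [← Equiv.Perm.mul_apply, ← zpow_add]
      congr 2
      have h3 := Nat.div_add_mod' (j : ℕ) L
      have h4 : (((j : ℕ) / L : ℕ) : ℤ) * L + (((j : ℕ) % L : ℕ) : ℤ) = ((j : ℕ) : ℤ) := by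
        exact_mod_cast h3
      rw [← mul_add, add_comm, h4]
    rw [h2, h2] at h1
    exact h1
  have h2 := chain X.μ (fun i x => word X c a L ((X.T ^ ((a : ℤ) * ((i : ℤ) * L))) x)) y m
  have h3 : ∀ i ∈ range m,
      ent X.μ (fun x => (word X c a L ((X.T ^ ((a : ℤ) * ((i : ℤ) * L))) x), y x)) - ent X.μ y ≤
        ent X.μ (fun x => (word X c a L x, y x)) - ent X.μ y := by
    intro i _
    have h4 : ent X.μ (fun x => (word X c a L ((X.T ^ ((a : ℤ) * ((i : ℤ) * L))) x), y x)) ≤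
        ent X.μ (fun x => (word X c a L ((X.T ^ ((a : ℤ) * ((i : ℤ) * L))) x),
          y ((X.T ^ ((a : ℤ) * ((i : ℤ) * L))) x))) := by
      refine ent_factor X.μ _ _ ?_
      intro x x' h
      have h5 := congrArg Prod.fst h
      have h6 := congrArg Prod.snd h
      simp only at h5 h6
      exact Prod.ext h5 (hy _ _ _ h6)
    rw [ent_shift X (fun x => (word X c a L x, y x))] at h4
    linarith
  have h4 := Finset.sum_le_sum h3
  rw [Finset.sum_const, card_range, nsmul_eq_mul] at h4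
  linarith

/-- Normalised conditional entropy at the scale `2^j`. -/
private noncomputable def GG (X : Sys) (pos : X.S → ℤ) (k : ℕ) (f : ℕ → X.S → ℝ) (j : ℕ) : ℝ :=
  (ent X.μ (fun x => (word X (lett k f) 1 ((2 * k + 1) * 2 ^ j) x, res pos (PQ j) x)) -
    Real.log (PQ j)) / ((2 * (k : ℝ) + 1) * 2 ^ j)

/-- The mutual information of the word and the residue. -/
private noncomputable def II (X : Sys) (pos : X.S → ℤ) (k : ℕ) (f : ℕ → X.S → ℝ) (j : ℕ) : ℝ :=
  ent X.μ (word X (lett k f) 1 ((2 * k + 1) * 2 ^ j)) + Real.log (MP (2 ^ j)) -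
    ent X.μ (fun x => (word X (lett k f) 1 ((2 * k + 1) * 2 ^ j) x, res pos (MP (2 ^ j)) x))

private theorem II_nonneg (X : Sys) (pos : X.S → ℤ) (hpos : ∀ x, pos (X.T x) = pos x + 1) (k : ℕ)
    (f : ℕ → X.S → ℝ) (j : ℕ) : 0 ≤ II X pos k f j := by
  have h := ent_pair_le X.μ (word X (lett k f) 1 ((2 * k + 1) * 2 ^ j)) (res pos (MP (2 ^ j)))
  rw [ent_res X pos hpos] at h
  unfold II
  linarith

private theorem GG_nonneg (X : Sys) (pos : X.S → ℤ) (hpos : ∀ x, pos (X.T x) = pos x + 1) (k : ℕ)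
    (f : ℕ → X.S → ℝ) (j : ℕ) : 0 ≤ GG X pos k f j := by
  refine div_nonneg ?_ (by positivity)
  have h : ent X.μ (res pos (PQ j)) ≤
      ent X.μ (fun x => (word X (lett k f) 1 ((2 * k + 1) * 2 ^ j) x, res pos (PQ j) x)) :=
    ent_factor X.μ _ _ fun x x' h => congrArg Prod.snd h
  rw [ent_res X pos hpos] at h
  linarith

private theorem GG_zero (X : Sys) (pos : X.S → ℤ) (hpos : ∀ x, pos (X.T x) = pos x + 1) (k : ℕ)
    (f : ℕ → X.S → ℝ) : GG X pos k f 0 ≤ Real.log (Fintype.card (Fin (k + 1) → Bool)) := by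
  have h := ent_pair_le X.μ (word X (lett k f) 1 ((2 * k + 1) * 2 ^ 0)) (res pos (PQ 0))
  rw [ent_res X pos hpos] at h
  have h2 := ent_word_le X (lett k f) 1 ((2 * k + 1) * 2 ^ 0)
  unfold GG
  rw [div_le_iff₀ (by positivity)]
  have h3 : (((2 * k + 1) * 2 ^ 0 : ℕ) : ℝ) = (2 * (k : ℝ) + 1) * 2 ^ 0 := by
    push_cast
    ring
  rw [h3] at h2
  linarith

private theorem GG_step (X : Sys) (pos : X.S → ℤ) (hpos : ∀ x, pos (X.T x) = pos x + 1) (k : ℕ)
    (f : ℕ → X.S → ℝ) (j : ℕ) :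
    II X pos k f j / ((2 * (k : ℝ) + 1) * 2 ^ j) ≤ GG X pos k f j - GG X pos k f (j + 1) := by
  have h1 := word_chain2 X (lett k f) (res pos (PQ (j + 1))) 1 2 ((2 * k + 1) * 2 ^ j)
    (fun n x x' => res_shift X pos hpos (PQ (j + 1)) n x x')
  rw [ent_res X pos hpos] at h1
  have e : 2 * ((2 * k + 1) * 2 ^ j) = (2 * k + 1) * 2 ^ (j + 1) := by ring
  rw [e] at h1
  have h2 : ent X.μ (fun x => (word X (lett k f) 1 ((2 * k + 1) * 2 ^ j) x,
      res pos (PQ (j + 1)) x)) ≤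
      ent X.μ (fun x => (res pos (PQ j) x, res pos (MP (2 ^ j)) x,
        word X (lett k f) 1 ((2 * k + 1) * 2 ^ j) x)) := by
    refine ent_factor X.μ _ _ fun x x' h => ?_
    have ha := congrArg Prod.fst h
    have hb := congrArg (fun z => z.2.1) h
    have hc := congrArg (fun z => z.2.2) h
    simp only at ha hb hc
    exact Prod.ext hc (res_mul pos (PQ j) (MP (2 ^ j)) (PQ (j + 1)) (PQ_succ j) (PQ_cop j) x x'
      ha hb)
  have h3 := submod X.μ (res pos (PQ j)) (res pos (MP (2 ^ j)))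
    (word X (lett k f) 1 ((2 * k + 1) * 2 ^ j))
  have h4 : ent X.μ (fun x => (res pos (PQ j) x, word X (lett k f) 1 ((2 * k + 1) * 2 ^ j) x)) ≤
      ent X.μ (fun x => (word X (lett k f) 1 ((2 * k + 1) * 2 ^ j) x, res pos (PQ j) x)) :=
    ent_factor X.μ _ _ fun x x' h => Prod.ext (congrArg Prod.snd h) (congrArg Prod.fst h)
  have h5 : ent X.μ (fun x => (res pos (MP (2 ^ j)) x,
      word X (lett k f) 1 ((2 * k + 1) * 2 ^ j) x)) ≤
      ent X.μ (fun x => (word X (lett k f) 1 ((2 * k + 1) * 2 ^ j) x,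
        res pos (MP (2 ^ j)) x)) :=
    ent_factor X.μ _ _ fun x x' h => Prod.ext (congrArg Prod.snd h) (congrArg Prod.fst h)
  have hlog : Real.log (PQ (j + 1)) = Real.log (PQ j) + Real.log (MP (2 ^ j)) := by
    rw [PQ_succ]
    push_cast
    rw [Real.log_mul (by exact_mod_cast PQ_ne j) (by exact_mod_cast MP_ne (2 ^ j))]
  unfold II GG
  set E0 := ent X.μ (word X (lett k f) 1 ((2 * k + 1) * 2 ^ j))
  set E1 := ent X.μ (fun x => (word X (lett k f) 1 ((2 * k + 1) * 2 ^ j) x, res pos (PQ j) x))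
  set E2 := ent X.μ (fun x => (word X (lett k f) 1 ((2 * k + 1) * 2 ^ j) x,
    res pos (MP (2 ^ j)) x))
  set E3 := ent X.μ (fun x => (word X (lett k f) 1 ((2 * k + 1) * 2 ^ (j + 1)) x,
    res pos (PQ (j + 1)) x))
  set E4 := ent X.μ (fun x => (word X (lett k f) 1 ((2 * k + 1) * 2 ^ j) x,
      res pos (PQ (j + 1)) x))
  have hd : (0 : ℝ) < (2 * (k : ℝ) + 1) * 2 ^ j := by positivity
  have hd2 : (2 * (k : ℝ) + 1) * 2 ^ (j + 1) = 2 * ((2 * (k : ℝ) + 1) * 2 ^ j) := by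
    rw [pow_succ]; ring
  rw [hd2, ← sub_nonneg]
  have h6 : (E1 - Real.log (PQ j)) / ((2 * (k : ℝ) + 1) * 2 ^ j) -
      (E3 - Real.log (PQ (j + 1))) / (2 * ((2 * (k : ℝ) + 1) * 2 ^ j)) -
      (E0 + Real.log (MP (2 ^ j)) - E2) / ((2 * (k : ℝ) + 1) * 2 ^ j) =
      (2 * (E1 - Real.log (PQ j)) - (E3 - Real.log (PQ (j + 1))) -
        2 * (E0 + Real.log (MP (2 ^ j)) - E2)) / (2 * ((2 * (k : ℝ) + 1) * 2 ^ j)) := by
    field_simp
  rw [h6]
  refine div_nonneg ?_ (by positivity)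
  push_cast at h1
  rw [hlog] at h1 ⊢
  linarith

private theorem two_pow_ge' (j : ℕ) (hj : 4 ≤ j) : j ^ 2 ≤ 2 ^ j := by
  induction j, hj using Nat.le_induction with
  | base => norm_num
  | succ n hn ih =>
    have h1 : 2 ^ (n + 1) = 2 * 2 ^ n := by ring
    rw [h1]
    nlinarith

/-- The boolean statement with uniform constants. -/
private theorem bool_low (k : ℕ) (ε : ℝ) (hε : 0 < ε) : ∃ (κ : ℝ) (j1 : ℕ), 0 < κ ∧ 4 ≤ j1 ∧
    ∀ (X : Sys) (pos : X.S → ℤ), (∀ x, pos (X.T x) = pos x + 1) →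
    ∀ f : ℕ → X.S → ℝ, (∀ i x, f i x = 0 ∨ f i x = 1) → ∀ j : ℕ, j1 ≤ j →
    (∃ J : X.S → Bool, (∀ x, J (X.T x) = J x) ∧
      ε < (1 / ((dyP (2 ^ j)).card : ℝ)) * ∑ p ∈ dyP (2 ^ j),
        |X.μ.R (fun x => (if J x = true then (1 : ℝ) else 0) * Psi X pos k f 1 p x)|) →
    2 * κ / j ≤ II X pos k f j / ((2 * (k : ℝ) + 1) * 2 ^ j) := by
  obtain ⟨c0, hc0, Pstar, hP3, hcheb⟩ := MRA.cheb
  have hlog2 : 0 < Real.log 2 := Real.log_pos (by norm_num)
  set κ : ℝ := ε ^ 2 * c0 / (32 * (2 * k + 1) * Real.log 2) with hκ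
  have hκ0 : 0 < κ := by positivity
  obtain ⟨N0, hN0⟩ := exists_nat_ge (16 * Real.log 2 ^ 2 / (ε ^ 2 * c0))
  refine ⟨κ, max (max 4 N0) Pstar, hκ0, le_trans (le_max_left _ _) (le_max_left _ _), ?_⟩
  intro X pos hpos f hf j hjj hJex
  obtain ⟨J, hJ, hbad⟩ := hJex
  have h4 : 4 ≤ j := le_trans (le_trans (le_max_left _ _) (le_max_left _ _)) hjj
  have hN : N0 ≤ j := le_trans (le_trans (le_max_right _ _) (le_max_left _ _)) hjj
  have hPj : Pstar ≤ j := le_trans (le_max_right _ _) hjj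
  have hj2 : j < 2 ^ j := Nat.lt_two_pow_self
  have hj0 : 0 < j := by omega
  have hjpos : (0 : ℝ) < j := by exact_mod_cast hj0
  set D : ℝ := ((dyP (2 ^ j)).card : ℝ) with hD
  have hch := hcheb (2 ^ j) (by omega)
  have hlogj : Real.log ((2 ^ j : ℕ) : ℝ) = j * Real.log 2 := by
    push_cast
    rw [Real.log_pow]
  rw [hlogj] at hch
  push_cast at hch
  have hDlow : c0 * 2 ^ j / (j * Real.log 2) ≤ D := hch
  have hDpos : 0 < D := lt_of_lt_of_le (by positivity) hDlow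
  have hD16 : Real.log 2 ≤ ε ^ 2 * D / 16 := by
    have h5 : (j : ℝ) ^ 2 ≤ 2 ^ j := by exact_mod_cast two_pow_ge' j h4
    have h6 : c0 * j / Real.log 2 ≤ D := by
      refine le_trans ?_ hDlow
      rw [div_le_div_iff₀ hlog2 (by positivity)]
      have : c0 * ((j : ℝ) ^ 2) * Real.log 2 ≤ c0 * 2 ^ j * Real.log 2 := by gcongr
      nlinarith
    have h7 : 16 * Real.log 2 ^ 2 / (ε ^ 2 * c0) ≤ j := hN0.trans (by exact_mod_cast hN)
    rw [div_le_iff₀ (by positivity)] at h7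
    rw [div_le_iff₀ hlog2] at h6
    rw [le_div_iff₀ (by norm_num)]
    have h8 : 16 * Real.log 2 ^ 2 ≤ ε ^ 2 * D * Real.log 2 := by
      calc 16 * Real.log 2 ^ 2 ≤ j * (ε ^ 2 * c0) := h7
        _ = ε ^ 2 * (c0 * j) := by ring
        _ ≤ ε ^ 2 * (D * Real.log 2) := by gcongr
        _ = ε ^ 2 * D * Real.log 2 := by ring
    nlinarith
  have hnd : ∀ p ∈ dyP (2 ^ j), ¬ p ∣ 1 := by
    intro p hp hpa
    exact (Finset.mem_filter.1 hp).2.one_lt.ne' (Nat.dvd_one.1 hpa)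
  have hpt := point X pos hpos k f hf 1 (2 ^ j) hnd J hJ (ε / 4 * D) (by positivity)
  have hIdef : II X pos k f j =
      ent X.μ (word X (lett k f) 1 ((2 * k + 1) * 2 ^ j)) + Real.log (MP (2 ^ j)) -
      ent X.μ (fun x => (word X (lett k f) 1 ((2 * k + 1) * 2 ^ j) x,
        res pos (MP (2 ^ j)) x)) := rfl
  rw [← hIdef] at hpt
  set I : ℝ := II X pos k f j with hI
  have h5 : ε / 4 * D * ε ≤ ε / 4 * D * ((1 / D) * ∑ p ∈ dyP (2 ^ j),
      |X.μ.R (fun x => (if J x = true then (1 : ℝ) else 0) * Psi X pos k f 1 p x)|) :=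
    mul_le_mul_of_nonneg_left hbad.le (by positivity)
  have h6 : 2 * (ε / 4 * D) ^ 2 / D = ε ^ 2 * D / 8 := by
    field_simp
    ring
  rw [h6] at hpt
  have h7 : ε ^ 2 * D / 16 ≤ I := by
    have : ε / 4 * D * ε = ε ^ 2 * D / 4 := by ring
    linarith
  rw [le_div_iff₀ (by positivity)]
  calc 2 * κ / j * ((2 * (k : ℝ) + 1) * 2 ^ j)
      = ε ^ 2 / 16 * (c0 * 2 ^ j / (j * Real.log 2)) := by
        rw [hκ]; field_simp; ring
    _ ≤ ε ^ 2 / 16 * D := mul_le_mul_of_nonneg_left hDlow (by positivity)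
    _ ≤ I := by linarith

/-- From invariant sets to invariant complex weights. -/
private theorem exists_J (X : Sys) (pos : X.S → ℤ) (hpos : ∀ x, pos (X.T x) = pos x + 1) (k : ℕ)
    (f : ℕ → X.S → ℝ) (hf : ∀ i x, f i x = 0 ∨ f i x = 1) (ε : ℝ) (hε : 0 < ε) (j : ℕ)
    (C : X.S → ℂ) (hC : ∀ x, ‖C x‖ ≤ 1) (hCT : TInv X C)
    (hbad : ε < (1 / ((dy j).card : ℝ)) * ∑ p ∈ dy j, ‖X.μ.E (fun x => C x *
      ((if (p : ℤ) ∣ pos x then (p : ℂ) else 0) - 1) *
        ∏ i ∈ range (k + 1), ((f i ((X.T ^ ((i : ℤ) * p)) x) : ℝ) : ℂ))‖) :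
    ∃ J : X.S → Bool, (∀ x, J (X.T x) = J x) ∧
      ε / 12 < (1 / ((dyP (2 ^ j)).card : ℝ)) * ∑ p ∈ dyP (2 ^ j),
        |X.μ.R (fun x => (if J x = true then (1 : ℝ) else 0) * Psi X pos k f 1 p x)| := by
  by_contra hno
  push Not at hno
  apply absurd hbad
  rw [not_lt]
  obtain ⟨m, hm⟩ := exists_nat_ge (8 / ε)
  have hm1 : 1 ≤ m + 1 := Nat.succ_le_succ (Nat.zero_le m)
  have hmr : (0 : ℝ) < ((m + 1 : ℕ) : ℝ) := by positivity
  have hdy : dy j = dyP (2 ^ j) := by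
    unfold dy dyP
    rw [pow_succ']
  rw [hdy]
  have hre := real_bd X pos hpos k f hf 1 j (ε / 12) (m + 1) hm1 hno (fun x => (C x).re)
    (fun x => by rw [hCT x]) (fun x => (abs_le.1 ((Complex.abs_re_le_norm _).trans (hC x))).1)
    (fun x => (abs_le.1 ((Complex.abs_re_le_norm _).trans (hC x))).2)
  have him := real_bd X pos hpos k f hf 1 j (ε / 12) (m + 1) hm1 hno (fun x => (C x).im)
    (fun x => by rw [hCT x]) (fun x => (abs_le.1 ((Complex.abs_im_le_norm _).trans (hC x))).1)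
    (fun x => (abs_le.1 ((Complex.abs_im_le_norm _).trans (hC x))).2)
  have hp : ∀ p ∈ dyP (2 ^ j), ‖X.μ.E (fun x => C x *
      ((if (p : ℤ) ∣ pos x then (p : ℂ) else 0) - 1) *
        ∏ i ∈ range (k + 1), ((f i ((X.T ^ ((i : ℤ) * p)) x) : ℝ) : ℂ))‖ ≤
      |X.μ.R (fun x => (C x).re * Psi X pos k f 1 p x)| +
        |X.μ.R (fun x => (C x).im * Psi X pos k f 1 p x)| := by
    intro p _
    have e1 : (fun x => C x * ((if (p : ℤ) ∣ pos x then (p : ℂ) else 0) - 1) *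
        ∏ i ∈ range (k + 1), ((f i ((X.T ^ ((i : ℤ) * p)) x) : ℝ) : ℂ)) =
        fun x => C x * ((Psi X pos k f 1 p x : ℝ) : ℂ) := by
      funext x
      unfold Psi
      rw [mul_assoc]
      congr 1
      push_cast
      congr 1
      · congr 1
        split_ifs <;> simp
      · refine Finset.prod_congr rfl fun i _ => ?_
        rw [one_mul]
    rw [e1]
    have hbd : Bd (fun x => C x * ((Psi X pos k f 1 p x : ℝ) : ℂ)) :=
      Bd.mul ⟨1, hC⟩ (Bd.ofReal_of_bdd (Psi_abs X pos k f hf 1 p))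
    have e2 : (X.μ.E (fun x => C x * ((Psi X pos k f 1 p x : ℝ) : ℂ))).re =
        X.μ.R (fun x => (C x).re * Psi X pos k f 1 p x) := by
      rw [X.μ.re_E _ hbd]
      congr 1
      funext x
      rw [Complex.re_mul_ofReal]
    have e3 : (X.μ.E (fun x => C x * ((Psi X pos k f 1 p x : ℝ) : ℂ))).im =
        X.μ.R (fun x => (C x).im * Psi X pos k f 1 p x) := by
      rw [X.μ.im_E _ hbd]
      congr 1
      funext x
      rw [Complex.im_mul_ofReal]
    rw [← e2, ← e3]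
    exact Complex.norm_le_abs_re_add_abs_im _
  have hsum := Finset.sum_le_sum hp
  rw [Finset.sum_add_distrib] at hsum
  have hD0 : (0 : ℝ) ≤ 1 / ((dyP (2 ^ j)).card : ℝ) := by positivity
  have hfin := mul_le_mul_of_nonneg_left hsum hD0
  rw [mul_add] at hfin
  have h2m : 2 / (((m + 1 : ℕ)) : ℝ) ≤ ε / 4 := by
    rw [div_le_div_iff₀ hmr (by norm_num)]
    have : 8 / ε ≤ ((m + 1 : ℕ) : ℝ) := by
      push_cast
      linarith
    rw [div_le_iff₀ hε] at this
    linarith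
  linarith

private theorem main (k : ℕ) (ε : ℝ) (hε : 0 < ε) : ∃ C : ℝ, ∀ (X : Sys) (pos : X.S → ℤ),
    (∀ x, pos (X.T x) = pos x + 1) → ∀ f : ℕ → X.S → ℝ, (∀ i x, f i x = 0 ∨ f i x = 1) →
    ∀ B : Finset ℕ, (∀ j ∈ B, ∃ Cw : X.S → ℂ, (∀ x, ‖Cw x‖ ≤ 1) ∧ TInv X Cw ∧
      ε < (1 / ((dy j).card : ℝ)) * ∑ p ∈ dy j, ‖X.μ.E (fun x => Cw x *
        ((if (p : ℤ) ∣ pos x then (p : ℂ) else 0) - 1) *
          ∏ i ∈ range (k + 1), ((f i ((X.T ^ ((i : ℤ) * p)) x) : ℝ) : ℂ))‖) →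
    ∑ j ∈ B, 1 / ((j : ℝ) + 1) ≤ C := by
  classical
  obtain ⟨κ, j1, hκ, hj1, hlow⟩ := bool_low k (ε / 12) (by positivity)
  refine ⟨j1 + Real.log (Fintype.card (Fin (k + 1) → Bool)) / (2 * κ), ?_⟩
  intro X pos hpos f hf B hB
  rw [← Finset.sum_filter_add_sum_filter_not B (fun j => j < j1)]
  refine add_le_add ?_ ?_
  · have h1 : ∑ j ∈ B.filter (fun j => j < j1), 1 / ((j : ℝ) + 1) ≤
        ∑ j ∈ range j1, (1 : ℝ) := by
      refine (Finset.sum_le_sum_of_subset_of_nonneg (t := range j1) ?_ ?_).trans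
        (Finset.sum_le_sum fun j _ => ?_)
      · intro j hj
        exact Finset.mem_range.2 (Finset.mem_filter.1 hj).2
      · intro j _ _
        positivity
      · rw [div_le_one (by positivity)]
        linarith [(Nat.cast_nonneg j : (0 : ℝ) ≤ j)]
    simpa using h1
  · have hanti : ∀ j, 0 ≤ GG X pos k f j - GG X pos k f (j + 1) := fun j =>
      le_trans (div_nonneg (II_nonneg X pos hpos k f j) (by positivity)) (GG_step X pos hpos k f j)
    have h2 : ∀ j ∈ B.filter (fun j => ¬ j < j1), 1 / ((j : ℝ) + 1) ≤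
        (GG X pos k f j - GG X pos k f (j + 1)) / (2 * κ) := by
      intro j hj
      obtain ⟨hjB, hjj⟩ := Finset.mem_filter.1 hj
      obtain ⟨Cw, hC, hCT, hbad⟩ := hB j hjB
      have h3 := hlow X pos hpos f hf j (not_lt.1 hjj)
        (exists_J X pos hpos k f hf ε hε j Cw hC hCT hbad)
      have h4 := h3.trans (GG_step X pos hpos k f j)
      have hj0 : (0 : ℝ) < j := by
        have : 0 < j := by omega
        exact_mod_cast this
      rw [le_div_iff₀ (by positivity)]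
      refine le_trans ?_ h4
      rw [one_div, inv_mul_le_iff₀ (by positivity)]
      have h5 : 2 * κ = j * (2 * κ / j) := by field_simp
      have h6 : 0 ≤ 2 * κ / j := by positivity
      nlinarith
    refine (Finset.sum_le_sum h2).trans ?_
    rw [← Finset.sum_div]
    refine div_le_div_of_nonneg_right ?_ (by positivity)
    obtain ⟨N, hN⟩ : ∃ N, B.filter (fun j => ¬ j < j1) ⊆ range N := by
      refine ⟨B.sup id + 1, fun j hj => ?_⟩
      have := Finset.le_sup (f := id) (Finset.mem_filter.1 hj).1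
      rw [Finset.mem_range]
      exact Nat.lt_succ_of_le this
    refine (Finset.sum_le_sum_of_subset_of_nonneg hN (fun j _ _ => hanti j)).trans ?_
    rw [Finset.sum_range_sub']
    have h7 := GG_nonneg X pos hpos k f N
    have h8 := GG_zero X pos hpos k f
    linarith

end DGE

namespace DG

open Finset Filter Topology

theorem entP : EntP := fun k ε hε => DGE.main k ε hε

end DG
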