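import Pool.Agent.Helper6.IS.Defs

/-!
# ISO-2: the product system

PROOF. Copy of Helper6/DG/AppSys.lean. `wmean2_E` is the formula for the window mean. `wmean2_shift`: for `‖F‖ ≤ C` the window means of
`F ∘ shT2` and `F` differ by at most `8 C / mass` (for fixed `M` the two sums over `(n, n')` have symmetric difference of at most
`4 M` terms: weight `1 / M^3`, so at most `4 C / M^2` per `M`; `sum_inv_sq_le`). `app2 w` is the system. `app2_prod`: the window means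
agree: `(1/M^2) ∑_{n,n'} u v = (1/M) ∑_n u * V` with `V = (1/M) ∑_{n'} v`, limits by `ulim_tendsto` for `appμ2` and `app_tendsto`.
`shT2_zpow` as `shT_zpow`.
-/

set_option autoImplicit false

namespace DG

open Finset Filter Topology

theorem wset2_sumC (a b : ℕ) (f : ℕ → ℕ × ℕ → ℂ) :
    ∑ p ∈ wset2 a b, f p.1 p.2 = ∑ M ∈ Ioc a b, ∑ q ∈ Icc 1 M ×ˢ Icc 1 M, f M q :=
  Finset.sum_sigma _ _ _

theorem wmean2_E (w : Win) (j : ℕ) (F : ℕ × ℕ × ℤ × ℤ → ℂ) :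
    (wmean2 w j).E F = (∑ M ∈ Ioc (w.a j) (w.b j), (1 / (M : ℂ)) *
      ((1 / (M : ℂ)) * ∑ n ∈ Icc 1 M, ((1 / (M : ℂ)) * ∑ n' ∈ Icc 1 M,
        F (j, M, (n : ℤ), (n' : ℤ))))) /
        ((∑ M ∈ Ioc (w.a j) (w.b j), 1 / (M : ℝ) : ℝ) : ℂ) := by
  unfold wmean2
  rw [Mean.fin_E, wset2_mass]
  congr 1
  rw [wset2_sumC (w.a j) (w.b j) (fun M q => ((1 / (M : ℝ) ^ 3 : ℝ) : ℂ) *
    F (j, M, (q.1 : ℤ), (q.2 : ℤ)))]
  refine Finset.sum_congr rfl fun M _ => ?_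
  rw [Finset.sum_product, Finset.mul_sum, Finset.mul_sum]
  refine Finset.sum_congr rfl fun n _ => ?_
  rw [Finset.mul_sum, Finset.mul_sum, Finset.mul_sum]
  refine Finset.sum_congr rfl fun n' _ => ?_
  push_cast
  ring

theorem shT2_apply (j M : ℕ) (x y : ℤ) : shT2 (j, M, x, y) = (j, M, x + 1, y + 1) := rfl

private theorem tele_int (G : ℤ → ℂ) (K : ℕ) :
    ∑ n ∈ Icc 1 K, (G ((n : ℤ) + 1) - G (n : ℤ)) = G ((K : ℤ) + 1) - G 1 := by
  induction K with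
  | zero => simp
  | succ K ih =>
    rw [Finset.sum_Icc_succ_top (by omega), ih]
    push_cast
    ring

private theorem tele_norm (G : ℤ → ℂ) {C : ℝ} (hG : ∀ x, ‖G x‖ ≤ C) (K : ℕ) :
    ‖∑ n ∈ Icc 1 K, (G ((n : ℤ) + 1) - G (n : ℤ))‖ ≤ 2 * C := by
  rw [tele_int]
  refine (norm_sub_le _ _).trans ?_
  have := hG ((K : ℤ) + 1)
  have := hG 1
  linarith

theorem wmean2_shift (w : Win) (j : ℕ) (F : ℕ × ℕ × ℤ × ℤ → ℂ) {C : ℝ} (hC : ∀ x, ‖F x‖ ≤ C) :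
    ‖(wmean2 w j).E (fun x => F (shT2 x)) - (wmean2 w j).E F‖ ≤
      8 * C / ∑ M ∈ Ioc (w.a j) (w.b j), 1 / (M : ℝ) := by
  have hC0 : 0 ≤ C := (norm_nonneg _).trans (hC (0, 0, 0, 0))
  have hm := mass_pos (w.lt j)
  rw [wmean2_E, wmean2_E, ← sub_div, norm_div, Complex.norm_real, Real.norm_of_nonneg hm.le]
  refine div_le_div_of_nonneg_right ?_ hm.le
  rw [← Finset.sum_sub_distrib]
  have h1 : ∀ M ∈ Ioc (w.a j) (w.b j),
      ‖(1 / (M : ℂ)) * ((1 / (M : ℂ)) * ∑ n ∈ Icc 1 M, ((1 / (M : ℂ)) * ∑ n' ∈ Icc 1 M,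
          F (shT2 (j, M, (n : ℤ), (n' : ℤ))))) -
        (1 / (M : ℂ)) * ((1 / (M : ℂ)) * ∑ n ∈ Icc 1 M, ((1 / (M : ℂ)) * ∑ n' ∈ Icc 1 M,
          F (j, M, (n : ℤ), (n' : ℤ))))‖ ≤ 4 * C * (1 / (M : ℝ) ^ 2) := by
    intro M hM
    have hM0 : (0 : ℝ) < M := by
      have h2 : 0 < M := lt_of_le_of_lt (Nat.zero_le _) (Finset.mem_Ioc.1 hM).1
      exact_mod_cast h2
    rw [← mul_sub, ← mul_sub, ← Finset.mul_sum, ← Finset.mul_sum, ← mul_sub,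
      ← Finset.sum_sub_distrib]
    have h2 : ∑ n ∈ Icc 1 M, (∑ n' ∈ Icc 1 M, F (shT2 (j, M, (n : ℤ), (n' : ℤ))) -
          ∑ n' ∈ Icc 1 M, F (j, M, (n : ℤ), (n' : ℤ))) =
        ∑ n ∈ Icc 1 M, ∑ n' ∈ Icc 1 M, (F (j, M, (n : ℤ) + 1, (n' : ℤ) + 1) -
          F (j, M, (n : ℤ) + 1, (n' : ℤ))) +
        ∑ n' ∈ Icc 1 M, ∑ n ∈ Icc 1 M, (F (j, M, (n : ℤ) + 1, (n' : ℤ)) -
          F (j, M, (n : ℤ), (n' : ℤ))) := by
      rw [Finset.sum_comm (s := Icc 1 M) (t := Icc 1 M) (f := fun n' n =>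
        (F (j, M, ((n : ℕ) : ℤ) + 1, ((n' : ℕ) : ℤ)) - F (j, M, (n : ℤ), (n' : ℤ)))),
        ← Finset.sum_add_distrib]
      refine Finset.sum_congr rfl fun n _ => ?_
      rw [← Finset.sum_sub_distrib, ← Finset.sum_add_distrib]
      refine Finset.sum_congr rfl fun n' _ => ?_
      rw [shT2_apply]
      ring
    have h3 : ‖∑ n ∈ Icc 1 M, ∑ n' ∈ Icc 1 M, (F (j, M, (n : ℤ) + 1, (n' : ℤ) + 1) -
          F (j, M, (n : ℤ) + 1, (n' : ℤ)))‖ ≤ M * (2 * C) := by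
      refine (norm_sum_le _ _).trans ?_
      refine (Finset.sum_le_card_nsmul (Icc 1 M) _ (2 * C) fun (n : ℕ) _ =>
        tele_norm (fun y => F (j, M, (n : ℤ) + 1, y)) (fun y => hC _) M).trans ?_
      rw [Nat.card_Icc, Nat.add_sub_cancel, nsmul_eq_mul]
    have h4 : ‖∑ n' ∈ Icc 1 M, ∑ n ∈ Icc 1 M, (F (j, M, (n : ℤ) + 1, (n' : ℤ)) -
          F (j, M, (n : ℤ), (n' : ℤ)))‖ ≤ M * (2 * C) := by
      refine (norm_sum_le _ _).trans ?_
      refine (Finset.sum_le_card_nsmul (Icc 1 M) _ (2 * C) fun (n' : ℕ) _ =>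
        tele_norm (fun y => F (j, M, y, (n' : ℤ))) (fun y => hC _) M).trans ?_
      rw [Nat.card_Icc, Nat.add_sub_cancel, nsmul_eq_mul]
    rw [h2, norm_mul, norm_mul, norm_mul, norm_div, norm_one, Complex.norm_natCast]
    have h5 := (norm_add_le (∑ n ∈ Icc 1 M, ∑ n' ∈ Icc 1 M,
      (F (j, M, (n : ℤ) + 1, (n' : ℤ) + 1) - F (j, M, (n : ℤ) + 1, (n' : ℤ))))
      (∑ n' ∈ Icc 1 M, ∑ n ∈ Icc 1 M, (F (j, M, (n : ℤ) + 1, (n' : ℤ)) -
          F (j, M, (n : ℤ), (n' : ℤ))))).trans (add_le_add h3 h4)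
    refine (mul_le_mul_of_nonneg_left (mul_le_mul_of_nonneg_left
      (mul_le_mul_of_nonneg_left h5 (by positivity)) (by positivity)) (by positivity)).trans ?_
    have h6 : 1 / (M : ℝ) * (1 / (M : ℝ) * (1 / (M : ℝ) * (M * (2 * C) + M * (2 * C)))) =
        4 * C * (1 / (M : ℝ) ^ 2) := by
      field_simp
      ring
    exact h6.le
  refine (norm_sum_le_of_le _ h1).trans ?_
  rw [← Finset.mul_sum]
  have := sum_inv_sq_le (w.a j) (w.b j)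
  nlinarith

theorem app2_tendsto (w : Win) (F : ℕ × ℕ × ℤ × ℤ → ℂ) (hF : Bd F) :
    Tendsto (fun j => (wmean2 w j).E F) (hyperfilter ℕ : Filter ℕ) (𝓝 ((appμ2 w).E F)) :=
  ulim_tendsto _ _ F hF

theorem app2_inv (w : Win) (F : ℕ × ℕ × ℤ × ℤ → ℂ) (hF : Bd F) :
    (appμ2 w).E (fun x => F (shT2 x)) = (appμ2 w).E F := by
  obtain ⟨C, hC⟩ := hF
  have h1 := (app2_tendsto w (fun x => F (shT2 x)) ⟨C, fun x => hC _⟩).sub
    (app2_tendsto w F ⟨C, hC⟩)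
  have h2 : Tendsto (fun j => (wmean2 w j).E (fun x => F (shT2 x)) - (wmean2 w j).E F)
      (hyperfilter ℕ : Filter ℕ) (𝓝 0) := by
    have h3 : Tendsto (fun j => 8 * C / ∑ M ∈ Ioc (w.a j) (w.b j), 1 / (M : ℝ)) atTop (𝓝 0) :=
      Tendsto.div_atTop tendsto_const_nhds w.div
    have h4 := squeeze_zero_norm (fun j => wmean2_shift w j F hC) h3
    exact h4.mono_left Nat.hyperfilter_le_atTop
  exact sub_eq_zero.1 (tendsto_nhds_unique h1 h2)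

/-- The product system of the application. -/
noncomputable def app2 (w : Win) : Sys where
  S := ℕ × ℕ × ℤ × ℤ
  T := shT2
  μ := appμ2 w
  inv := app2_inv w

private theorem shT2_pow (m j M : ℕ) (x y : ℤ) :
    (shT2 ^ (m : ℤ)) (j, M, x, y) = (j, M, x + m, y + m) := by
  induction m generalizing x y with
  | zero => simp
  | succ m ihm =>
    push_cast
    rw [zpow_add_one, Equiv.Perm.mul_apply, shT2_apply, ihm]
    simp only [Prod.mk.injEq, true_and]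
    constructor <;> ring

theorem shT2_zpow (n : ℤ) (j M : ℕ) (x y : ℤ) : (shT2 ^ n) (j, M, x, y) = (j, M, x + n, y + n) := by
  obtain ⟨m, rfl | rfl⟩ := Int.eq_nat_or_neg n
  · exact shT2_pow m j M x y
  · rw [zpow_neg, Equiv.Perm.inv_eq_iff_eq, shT2_pow]
    simp only [Prod.mk.injEq, true_and]
    constructor <;> ring

theorem app2_prod (w : Win) (u v : ℕ × ℕ × ℤ → ℂ) (hu : Bd u) (hv : Bd v) :
    (appμ2 w).E (fun s => u (s.1, s.2.1, s.2.2.1) * v (s.1, s.2.1, s.2.2.2)) =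
      (appμ w).E (fun s => u s * ((1 / (s.2.1 : ℂ)) * ∑ n' ∈ Icc 1 s.2.1, v (s.1, s.2.1, (n' : ℤ)))) := by
  obtain ⟨C, hC⟩ := hu
  obtain ⟨D, hD⟩ := hv
  have hC0 : 0 ≤ C := (norm_nonneg _).trans (hC (0, 0, 0))
  have hD0 : 0 ≤ D := (norm_nonneg _).trans (hD (0, 0, 0))
  have hB1 : Bd (fun s : ℕ × ℕ × ℤ × ℤ => u (s.1, s.2.1, s.2.2.1) * v (s.1, s.2.1, s.2.2.2)) := by
    refine ⟨C * D, fun s => ?_⟩
    rw [norm_mul]
    exact mul_le_mul (hC _) (hD _) (norm_nonneg _) hC0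
  have hB2 : Bd (fun s : ℕ × ℕ × ℤ => u s * ((1 / (s.2.1 : ℂ)) *
      ∑ n' ∈ Icc 1 s.2.1, v (s.1, s.2.1, (n' : ℤ)))) := by
    refine ⟨C * D, fun s => ?_⟩
    rw [norm_mul]
    refine mul_le_mul (hC _) ?_ (norm_nonneg _) hC0
    rw [norm_mul, norm_div, norm_one, Complex.norm_natCast]
    have h1 : ‖∑ n' ∈ Icc 1 s.2.1, v (s.1, s.2.1, (n' : ℤ))‖ ≤ s.2.1 * D := by
      refine (norm_sum_le _ _).trans ?_
      refine (Finset.sum_le_card_nsmul _ _ D fun n _ => hD _).trans ?_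
      rw [Nat.card_Icc, Nat.add_sub_cancel, nsmul_eq_mul]
    rcases Nat.eq_zero_or_pos s.2.1 with h0 | h0
    · rw [h0]
      simp only [Nat.cast_zero, div_zero, zero_mul]
      exact hD0
    · have h0r : (0 : ℝ) < s.2.1 := by exact_mod_cast h0
      calc 1 / (s.2.1 : ℝ) * ‖∑ n' ∈ Icc 1 s.2.1, v (s.1, s.2.1, (n' : ℤ))‖
          ≤ 1 / (s.2.1 : ℝ) * (s.2.1 * D) := mul_le_mul_of_nonneg_left h1 (by positivity)
        _ = D := by field_simp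
  have h1 := app2_tendsto w _ hB1
  have h2 := app_tendsto w _ hB2
  have h3 : (fun j => (wmean2 w j).E (fun s : ℕ × ℕ × ℤ × ℤ =>
      u (s.1, s.2.1, s.2.2.1) * v (s.1, s.2.1, s.2.2.2))) =
      (fun j => (wmean w j).E (fun s : ℕ × ℕ × ℤ => u s * ((1 / (s.2.1 : ℂ)) *
      ∑ n' ∈ Icc 1 s.2.1, v (s.1, s.2.1, (n' : ℤ))))) := by
    funext j
    rw [wmean2_E, wmean_E]
    congr 1
    refine Finset.sum_congr rfl fun M _ => ?_
    congr 2
    refine Finset.sum_congr rfl fun n _ => ?_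
    dsimp only
    rw [← Finset.mul_sum]
    ring
  rw [h3] at h1
  exact tendsto_nhds_unique h1 h2

end DG
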