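import Pool.Agent.Helper6.IS.I2App
import Pool.Agent.Helper6.DG.N1Chain

/-!
# ISO-3: the second moment in the limit

Notation: `cp j M = E_{n ≤ M} ∏_{i ≤ k} f j i (Ω(n + i p))`, `cq j M = E_{n ≤ M} ∏_{i ≤ k} f j i (Ω(n + i) + 1)`.
PROOF. All means below are means of functions of `(j, M)` in `appμ w`; averaging over `n` in the window means (`wmean_E`,
`app_eq_of_close`) replaces `patf f 0 k p` by `cp` and `patf f 1 k 1` by `cq`.
* `E[cp²] = E2[patf f 0 k p (n) * patf f 0 k p (n')]` (`app2_prod`) `= E2[(p 1[p ∣ n]) patf patf'] - e2`, and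
 `E2[(p 1[p ∣ n]) patf (n) patf (n')] = E[(p 1[p ∣ n]) patf f 0 k p * cp]` (`app2_prod`) `= E[cq (M / p) * cp (M)]`: for each `M`,
 `(1/M) ∑_{n ≤ M} p 1[p ∣ n] ∏ f j i (Ω(n + i p)) = (p / M) ∑_{n ≤ M / p} ∏ f j i (Ω(n + i) + 1)`, which is within `p / M` of `cq j (M / p)`.
* `E[cq (M/p) cp] = E[cq cp]` by `hsc` (`|cp| ≤ 1`), and `E[cq cp] = E[cq * patf f 0 k p] = E[cq * (p 1[p ∣ n]) patf f 0 k p] - e1
 = E[cq (M) cq (M / p)] - e1 = E[cq²] - e1` (again `hsc`).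
So `E[(cp - cq)²] = E[cp²] - 2 E[cq cp] + E[cq²] = (E[cq cp] - e2) - 2 E[cq cp] + E[cq²] = e1 - e2`.
-/

set_option autoImplicit false

namespace DG

open Finset Filter Topology

/-- `E_{n ≤ M} ∏_{i ≤ k} f j i (Ω(n + i p) + r)` -/
noncomputable def cpf (f : ℕ → ℕ → ℕ → ℝ) (r k p j M : ℕ) : ℝ :=
  (1 / (M : ℝ)) * ∑ n ∈ Icc 1 M, ∏ i ∈ range (k + 1),
    f j i (ArithmeticFunction.cardFactors (n + i * p) + r)

private theorem h86_norm {f : ℕ → ℕ → ℕ → ℝ} (hf : ∀ j i x, f j i x = 0 ∨ f j i x = 1)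
    (r k : ℕ) (a : ℤ) (s : ℕ × ℕ × ℤ) : ‖patf f r k a s‖ ≤ 1 := by
  unfold patf
  apply prod_norm_le_one
  intro i _
  rcases hf s.1 i (OmZ (s.2.2 + (i : ℤ) * a) + r) with h | h <;> rw [h] <;> simp

private theorem h86_cpf (f : ℕ → ℕ → ℕ → ℝ) (r k p j M : ℕ) :
    ((cpf f r k p j M : ℝ) : ℂ) =
      (1 / (M : ℂ)) * ∑ n ∈ Icc 1 M, patf f r k (p : ℤ) (j, M, (n : ℤ)) := by
  unfold cpf patf
  push_cast
  refine congrArg _ (Finset.sum_congr rfl fun n _ => Finset.prod_congr rfl fun i _ => ?_)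
  have h : OmZ ((n : ℤ) + (i : ℤ) * (p : ℤ)) = ArithmeticFunction.cardFactors (n + i * p) := rfl
  rw [h]

private theorem h86_cpf01 {f : ℕ → ℕ → ℕ → ℝ} (hf : ∀ j i x, f j i x = 0 ∨ f j i x = 1)
    (r k p j M : ℕ) : 0 ≤ cpf f r k p j M ∧ cpf f r k p j M ≤ 1 := by
  have h0 : ∀ n : ℕ, 0 ≤ ∏ i ∈ range (k + 1),
      f j i (ArithmeticFunction.cardFactors (n + i * p) + r) ∧ ∏ i ∈ range (k + 1),
      f j i (ArithmeticFunction.cardFactors (n + i * p) + r) ≤ 1 := by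
    intro n
    constructor
    · refine Finset.prod_nonneg fun i _ => ?_
      rcases hf j i (ArithmeticFunction.cardFactors (n + i * p) + r) with h | h <;> rw [h] <;>
        norm_num
    · refine Finset.prod_le_one (fun i _ => ?_) fun i _ => ?_
      · rcases hf j i (ArithmeticFunction.cardFactors (n + i * p) + r) with h | h <;> rw [h] <;>
          norm_num
      · rcases hf j i (ArithmeticFunction.cardFactors (n + i * p) + r) with h | h <;> rw [h] <;>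
          norm_num
  unfold cpf
  constructor
  · have := Finset.sum_nonneg fun n (_ : n ∈ Icc 1 M) => (h0 n).1
    positivity
  · have h1 := Finset.sum_le_sum fun n (_ : n ∈ Icc 1 M) => (h0 n).2
    rw [Finset.sum_const, Nat.card_Icc, Nat.add_sub_cancel, nsmul_eq_mul, mul_one] at h1
    rcases Nat.eq_zero_or_pos M with rfl | hM
    · simp
    · have hMr : (0 : ℝ) < M := by exact_mod_cast hM
      rw [one_div, inv_mul_le_iff₀ hMr, mul_one]
      exact h1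

private theorem h86_cpfn {f : ℕ → ℕ → ℕ → ℝ} (hf : ∀ j i x, f j i x = 0 ∨ f j i x = 1)
    (r k p j M : ℕ) : ‖((cpf f r k p j M : ℝ) : ℂ)‖ ≤ 1 := by
  rw [Complex.norm_real, Real.norm_of_nonneg (h86_cpf01 hf r k p j M).1]
  exact (h86_cpf01 hf r k p j M).2

/-- Averaging over the position. -/
private theorem h86_avg (w : Win) (c : ℕ → ℕ → ℂ) (g : ℕ → ℤ → ℂ) {A B : ℝ}
    (hc : ∀ j M, ‖c j M‖ ≤ A) (hg : ∀ j n, ‖g j n‖ ≤ B) :
    (appμ w).E (fun s => c s.1 s.2.1 * g s.1 s.2.2) =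
      (appμ w).E (fun s => c s.1 s.2.1 *
        ((1 / (s.2.1 : ℂ)) * ∑ n ∈ Icc 1 s.2.1, g s.1 (n : ℤ))) := by
  have hA : 0 ≤ A := (norm_nonneg _).trans (hc 0 0)
  have hB : 0 ≤ B := (norm_nonneg _).trans (hg 0 0)
  have hav : ∀ j M : ℕ, ‖(1 / (M : ℂ)) * ∑ n ∈ Icc 1 M, g j (n : ℤ)‖ ≤ B := by
    intro j M
    rw [norm_mul, norm_div, norm_one, Complex.norm_natCast]
    have h1 := norm_sum_le_of_le (Icc 1 M) fun n _ => hg j (n : ℤ)
    rw [Finset.sum_const, Nat.card_Icc, Nat.add_sub_cancel, nsmul_eq_mul] at h1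
    rcases Nat.eq_zero_or_pos M with rfl | hM
    · simpa using hB
    · have hMr : (0 : ℝ) < M := by exact_mod_cast hM
      rw [one_div, inv_mul_le_iff₀ hMr]
      exact h1
  refine app_eq_of_close w _ _ ⟨A * B, fun s => ?_⟩ ⟨A * B, fun s => ?_⟩ 0 fun j => ?_
  · rw [norm_mul]
    exact mul_le_mul (hc _ _) (hg _ _) (norm_nonneg _) hA
  · rw [norm_mul]
    exact mul_le_mul (hc _ _) (hav _ _) (norm_nonneg _) hA
  · have h1 : (wmean w j).E (fun s => c s.1 s.2.1 * g s.1 s.2.2) =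
        (wmean w j).E (fun s => c s.1 s.2.1 *
          ((1 / (s.2.1 : ℂ)) * ∑ n ∈ Icc 1 s.2.1, g s.1 (n : ℤ))) := by
      rw [wmean_E, wmean_E]
      congr 1
      refine Finset.sum_congr rfl fun M hM => ?_
      congr 1
      have hM0 : (M : ℂ) ≠ 0 := by
        have := (Finset.mem_Ioc.1 hM).1
        have h2 : M ≠ 0 := by omega
        exact_mod_cast h2
      simp only
      rw [Finset.sum_const, Nat.card_Icc, Nat.add_sub_cancel, nsmul_eq_mul, ← Finset.mul_sum]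
      field_simp
    rw [h1, sub_self, norm_zero, zero_div]

private theorem h86_OmZ (p : ℕ) (hp : p.Prime) (m : ℤ) (hm : 1 ≤ m) :
    OmZ ((p : ℤ) * m) = OmZ m + 1 := by
  obtain ⟨m', rfl⟩ := Int.eq_ofNat_of_zero_le (by omega : 0 ≤ m)
  have hm' : m' ≠ 0 := by omega
  unfold OmZ
  rw [← Nat.cast_mul, Int.toNat_natCast, Int.toNat_natCast,
    ArithmeticFunction.cardFactors_mul hp.ne_zero hm', ArithmeticFunction.cardFactors_apply_prime hp]
  ring

private theorem h86_step (f : ℕ → ℕ → ℕ → ℝ) (k p : ℕ) (hp : p.Prime) (j M M' : ℕ) (n : ℤ)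
    (hn : 1 ≤ n) :
    patf f 1 k 1 (j, M, n) = patf f 0 k (p : ℤ) (j, M', (p : ℤ) * n) := by
  unfold patf
  apply Finset.prod_congr rfl
  intro i _
  have h1 : (p : ℤ) * n + (i : ℤ) * (p : ℤ) = (p : ℤ) * (n + (i : ℤ) * 1) := by ring
  have h2 : 1 ≤ n + (i : ℤ) * 1 := by
    have : 0 ≤ (i : ℤ) * 1 := by positivity
    omega
  simp only
  rw [h1, h86_OmZ p hp _ h2, add_zero]

/-- The sum over the multiples of `p`. -/
private theorem h86_mult (p M : ℕ) (hp : 0 < p) (g : ℤ → ℂ) :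
    ∑ n ∈ Icc 1 M, (if (p : ℤ) ∣ (n : ℤ) then (p : ℂ) else 0) * g (n : ℤ) =
      (p : ℂ) * ∑ m ∈ Icc 1 (M / p), g ((p : ℤ) * (m : ℤ)) := by
  have h1 : (Icc 1 M).filter (fun n => p ∣ n) = (Icc 1 (M / p)).image (fun m => p * m) := by
    ext n
    rw [Finset.mem_filter, Finset.mem_image, Finset.mem_Icc]
    constructor
    · rintro ⟨⟨h1, h2⟩, m, rfl⟩
      refine ⟨m, Finset.mem_Icc.2 ⟨?_, ?_⟩, rfl⟩
      · rcases Nat.eq_zero_or_pos m with rfl | h
        · simp at h1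
        · exact h
      · rw [Nat.le_div_iff_mul_le hp, mul_comm]
        exact h2
    · rintro ⟨m, hm, rfl⟩
      rw [Finset.mem_Icc, Nat.le_div_iff_mul_le hp, mul_comm m p] at hm
      exact ⟨⟨Nat.mul_pos hp hm.1, hm.2⟩, dvd_mul_right _ _⟩
  have h2 : ∑ n ∈ Icc 1 M, (if (p : ℤ) ∣ (n : ℤ) then (p : ℂ) else 0) * g (n : ℤ) =
      ∑ n ∈ (Icc 1 M).filter (fun n => p ∣ n), (p : ℂ) * g (n : ℤ) := by
    rw [Finset.sum_filter]
    refine Finset.sum_congr rfl fun n _ => ?_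
    by_cases hd : p ∣ n
    · rw [if_pos hd, if_pos (Int.natCast_dvd_natCast.2 hd)]
    · rw [if_neg hd, if_neg fun h => hd (Int.natCast_dvd_natCast.1 h), zero_mul]
  rw [h2, h1, Finset.sum_image fun a _ b _ h => Nat.eq_of_mul_eq_mul_left hp h, Finset.mul_sum]
  refine Finset.sum_congr rfl fun m _ => ?_
  push_cast
  rfl

/-- The mean over the multiples of `p` is close to the mean at the scale `M / p`. -/
private theorem h86_scale {f : ℕ → ℕ → ℕ → ℝ} (hf : ∀ j i x, f j i x = 0 ∨ f j i x = 1)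
    (k p : ℕ) (hp : p.Prime) (j M : ℕ) (hM : 1 ≤ M) :
    ‖(1 / (M : ℂ)) * ∑ n ∈ Icc 1 M, (if (p : ℤ) ∣ (n : ℤ) then (p : ℂ) else 0) *
        patf f 0 k (p : ℤ) (j, 0, (n : ℤ)) - ((cpf f 1 k 1 j (M / p) : ℝ) : ℂ)‖ ≤ p / M := by
  have hMr : (0 : ℝ) < M := by exact_mod_cast hM
  have hpr : (0 : ℝ) < p := by exact_mod_cast hp.pos
  rw [h86_mult p M hp.pos (fun n => patf f 0 k (p : ℤ) (j, 0, n)), h86_cpf]
  have h1 : ∑ m ∈ Icc 1 (M / p), patf f 0 k (p : ℤ) (j, 0, (p : ℤ) * (m : ℤ)) =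
      ∑ m ∈ Icc 1 (M / p), patf f 1 k ((1 : ℕ) : ℤ) (j, M / p, (m : ℤ)) := by
    refine Finset.sum_congr rfl fun m hm => ?_
    have hm1 := (Finset.mem_Icc.1 hm).1
    rw [Nat.cast_one, h86_step f k p hp j (M / p) 0 (m : ℤ) (by exact_mod_cast hm1)]
  rw [h1]
  set S := ∑ m ∈ Icc 1 (M / p), patf f 1 k ((1 : ℕ) : ℤ) (j, M / p, (m : ℤ)) with hS
  set x := M / p with hx
  have hSn : ‖S‖ ≤ x := by
    have h2 := norm_sum_le_of_le (Icc 1 x) fun m _ =>
      h86_norm hf 1 k ((1 : ℕ) : ℤ) (j, x, (m : ℤ))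
    rw [Finset.sum_const, Nat.card_Icc, Nat.add_sub_cancel, nsmul_eq_mul, mul_one] at h2
    exact h2
  rcases Nat.eq_zero_or_pos x with h0 | h0
  · have hS0 : S = 0 := by
      rw [hS, h0]
      simp
    rw [hS0, mul_zero, mul_zero, mul_zero, sub_zero, norm_zero]
    positivity
  · have hxr : (0 : ℝ) < x := by exact_mod_cast h0
    have h3 : x * p ≤ M := Nat.div_mul_le_self M p
    have h4 : M < (x + 1) * p := by
      rw [hx, mul_comm]
      exact Nat.lt_mul_div_succ M hp.pos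
    have h3r : (x : ℝ) * p ≤ M := by exact_mod_cast h3
    have h4r : (M : ℝ) < ((x : ℝ) + 1) * p := by exact_mod_cast h4
    have h5 : (1 / (M : ℂ)) * ((p : ℂ) * S) - 1 / (x : ℂ) * S =
        (((p : ℝ) / M - 1 / x : ℝ) : ℂ) * S := by
      push_cast
      ring
    rw [h5, norm_mul, Complex.norm_real, Real.norm_eq_abs]
    have h6 : |(p : ℝ) / M - 1 / x| ≤ (p : ℝ) / (M * x) := by
      rw [abs_le]
      constructor
      · rw [neg_le_sub_iff_le_add, div_add_div _ _ hMr.ne' (by positivity),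
          div_le_div_iff₀ hxr (by positivity)]
        have h7 : (M : ℝ) ≤ x * p + p := by linarith
        nlinarith [mul_pos hMr hxr]
      · have h7 : (p : ℝ) / M ≤ 1 / x := by
          rw [div_le_div_iff₀ hMr hxr, one_mul, mul_comm]
          exact h3r
        have h8 : 0 ≤ (p : ℝ) / (M * x) := by positivity
        linarith
    calc |(p : ℝ) / M - 1 / x| * ‖S‖ ≤ (p : ℝ) / (M * x) * x :=
          mul_le_mul h6 hSn (norm_nonneg _) (by positivity)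
      _ = p / M := by field_simp

theorem sec_mom (w : Win) (f : ℕ → ℕ → ℕ → ℝ) (hf : ∀ j i x, f j i x = 0 ∨ f j i x = 1)
    (k p : ℕ) (hp : p.Prime)
    (hsc : (appμ w).R (fun s => |cpf f 1 k 1 s.1 (s.2.1 / p) - cpf f 1 k 1 s.1 s.2.1|) = 0) :
    (appμ w).R (fun s => (cpf f 0 k p s.1 s.2.1 - cpf f 1 k 1 s.1 s.2.1) ^ 2) ≤
      ‖(appμ w).E (fun s => ((cpf f 1 k 1 s.1 s.2.1 : ℝ) : ℂ) *
        ((if (p : ℤ) ∣ s.2.2 then (p : ℂ) else 0) - 1) * patf f 0 k (p : ℤ) s)‖ +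
      ‖(appμ2 w).E (fun s => ((if (p : ℤ) ∣ s.2.2.1 then (p : ℂ) else 0) - 1) *
        (patf f 0 k (p : ℤ) (s.1, s.2.1, s.2.2.1) *
          patf f 0 k (p : ℤ) (s.1, s.2.1, s.2.2.2)))‖ := by
  set cp : ℕ → ℕ → ℂ := fun j M => ((cpf f 0 k p j M : ℝ) : ℂ) with hcp
  set cq : ℕ → ℕ → ℂ := fun j M => ((cpf f 1 k 1 j M : ℝ) : ℂ) with hcq
  set P : ℕ → ℤ → ℂ := fun j n => patf f 0 k (p : ℤ) (j, 0, n) with hP
  set D : ℤ → ℂ := fun n => if (p : ℤ) ∣ n then (p : ℂ) else 0 with hD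
  have ncp : ∀ j M, ‖cp j M‖ ≤ 1 := fun j M => h86_cpfn hf 0 k p j M
  have ncq : ∀ j M, ‖cq j M‖ ≤ 1 := fun j M => h86_cpfn hf 1 k 1 j M
  have nP : ∀ j n, ‖P j n‖ ≤ 1 := fun j n => h86_norm hf 0 k _ _
  have nD : ∀ n, ‖D n‖ ≤ p := by
    intro n
    simp only [hD]
    split_ifs
    · rw [Complex.norm_natCast]
    · rw [norm_zero]; positivity
  have nDP : ∀ (j : ℕ) (n : ℤ), ‖D n * P j n‖ ≤ p := by
    intro j n
    rw [norm_mul]
    calc ‖D n‖ * ‖P j n‖ ≤ (p : ℝ) * 1 := mul_le_mul (nD n) (nP j n) (norm_nonneg _) (by positivity)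
      _ = p := mul_one _
  have hpat : ∀ s : ℕ × ℕ × ℤ, patf f 0 k (p : ℤ) s = P s.1 s.2.2 := fun s => rfl
  -- the scales `M` and `M / p` agree
  have hscale : ∀ (G : ℕ × ℕ × ℤ → ℂ) (C : ℝ), (∀ s, ‖G s‖ ≤ C) →
      (appμ w).E (fun s => cq s.1 (s.2.1 / p) * G s) = (appμ w).E (fun s => cq s.1 s.2.1 * G s) := by
    intro G C hG
    have hC : 0 ≤ C := (norm_nonneg _).trans (hG (0, 0, 0))
    have h1 : (appμ w).E (fun s => (cq s.1 (s.2.1 / p) - cq s.1 s.2.1) * G s) = 0 := by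
      rw [← norm_le_zero_iff]
      have h2 : ∀ s : ℕ × ℕ × ℤ, ‖(cq s.1 (s.2.1 / p) - cq s.1 s.2.1) * G s‖ ≤
          C * |cpf f 1 k 1 s.1 (s.2.1 / p) - cpf f 1 k 1 s.1 s.2.1| := by
        intro s
        rw [norm_mul, mul_comm]
        simp only [hcq]
        rw [← Complex.ofReal_sub, Complex.norm_real, Real.norm_eq_abs]
        exact mul_le_mul_of_nonneg_right (hG s) (abs_nonneg _)
      have h3 : ∀ s : ℕ × ℕ × ℤ,
          |cpf f 1 k 1 s.1 (s.2.1 / p) - cpf f 1 k 1 s.1 s.2.1| ≤ 1 := by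
        intro s
        have h4 := h86_cpf01 hf 1 k 1 s.1 (s.2.1 / p)
        have h5 := h86_cpf01 hf 1 k 1 s.1 s.2.1
        rw [abs_le]
        constructor <;> linarith
      have h6 : ∀ s : ℕ × ℕ × ℤ, ‖(cq s.1 (s.2.1 / p) - cq s.1 s.2.1) * G s‖ ≤ C := fun s =>
        (h2 s).trans ((mul_le_mul_of_nonneg_left (h3 s) hC).trans (by rw [mul_one]))
      refine ((appμ w).norm_E_le_R_norm _ ⟨C, h6⟩).trans ?_
      refine ((appμ w).R_mono _ (fun s =>
        C * |cpf f 1 k 1 s.1 (s.2.1 / p) - cpf f 1 k 1 s.1 s.2.1|) h2 (C := C)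
        (fun s => by rw [abs_of_nonneg (norm_nonneg _)]; exact h6 s) (fun s => ?_)).trans ?_
      · rw [abs_of_nonneg (mul_nonneg hC (abs_nonneg _))]
        exact (mul_le_mul_of_nonneg_left (h3 s) hC).trans (by rw [mul_one])
      · rw [(appμ w).R_const_mul, hsc, mul_zero]
    have h7 : (appμ w).E (fun s => (cq s.1 (s.2.1 / p) - cq s.1 s.2.1) * G s) =
        (appμ w).E (fun s => cq s.1 (s.2.1 / p) * G s) -
          (appμ w).E (fun s => cq s.1 s.2.1 * G s) := by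
      rw [← Mean.E_sub]
      congr 1
      funext s
      ring
    rw [h7] at h1
    exact sub_eq_zero.1 h1
  -- averages of the patterns
  have hav0 : ∀ (c : ℕ → ℕ → ℂ), (∀ j M, ‖c j M‖ ≤ 1) →
      (appμ w).E (fun s => c s.1 s.2.1 * P s.1 s.2.2) =
        (appμ w).E (fun s => c s.1 s.2.1 * cp s.1 s.2.1) := by
    intro c hc
    rw [h86_avg w c P hc nP]
    congr 1
    funext s
    congr 1
    simp only [hcp]
    rw [h86_cpf]
    rfl
  have hav1 : ∀ (c : ℕ → ℕ → ℂ), (∀ j M, ‖c j M‖ ≤ 1) →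
      (appμ w).E (fun s => c s.1 s.2.1 * patf f 1 k 1 (s.1, 0, s.2.2)) =
        (appμ w).E (fun s => c s.1 s.2.1 * cq s.1 s.2.1) := by
    intro c hc
    rw [h86_avg w c (fun j n => patf f 1 k 1 (j, 0, n)) hc (fun j n => h86_norm hf 1 k _ _)]
    congr 1
    funext s
    congr 1
    simp only [hcq]
    rw [h86_cpf]
    rfl
  -- first identity
  have hE1 : (appμ w).E (fun s => cq s.1 s.2.1 * cq s.1 s.2.1) =
      (appμ w).E (fun s => cq s.1 s.2.1 * (D s.2.2 * P s.1 s.2.2)) := by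
    rw [← hav1 cq ncq]
    have h1 : (appμ w).E (fun s => cq s.1 s.2.1 * patf f 1 k 1 (s.1, 0, s.2.2)) =
        (appμ w).E (fun s => cq s.1 s.2.1 * P s.1 ((p : ℤ) * s.2.2)) := by
      apply app_congr
      · exact Bd.mul ⟨1, fun s => ncq _ _⟩ ⟨1, fun s => h86_norm hf _ k _ _⟩
      · exact Bd.mul ⟨1, fun s => ncq _ _⟩ ⟨1, fun s => nP _ _⟩
      · intro j M n _ hn
        simp only
        rw [h86_step f k p hp j 0 0 n hn]
    have h2 := app_dil w p hp.one_le cq P ncq nP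
    rw [h1, h2]
    exact hscale (fun s => D s.2.2 * P s.1 s.2.2) p fun s => nDP _ _
  -- second identity
  have hE2 : (appμ w).E (fun s => cp s.1 s.2.1 * (D s.2.2 * P s.1 s.2.2)) =
      (appμ w).E (fun s => cq s.1 s.2.1 * cp s.1 s.2.1) := by
    rw [h86_avg w cp (fun j n => D n * P j n) ncp nDP]
    rw [← hscale (fun s => cp s.1 s.2.1) 1 fun s => ncp _ _]
    have hmean : ∀ j M : ℕ, 1 ≤ M → ‖(1 / (M : ℂ)) * ∑ n ∈ Icc 1 M, D (n : ℤ) * P j (n : ℤ) -
        cq j (M / p)‖ ≤ p / M := fun j M hM => h86_scale hf k p hp j M hM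
    have hmb : ∀ j M : ℕ, ‖(1 / (M : ℂ)) * ∑ n ∈ Icc 1 M, D (n : ℤ) * P j (n : ℤ)‖ ≤ p := by
      intro j M
      rw [norm_mul, norm_div, norm_one, Complex.norm_natCast]
      have h1 := norm_sum_le_of_le (Icc 1 M) fun n _ => nDP j (n : ℤ)
      rw [Finset.sum_const, Nat.card_Icc, Nat.add_sub_cancel, nsmul_eq_mul] at h1
      rcases Nat.eq_zero_or_pos M with rfl | hM
      · simp
      · have hMr : (0 : ℝ) < M := by exact_mod_cast hM
        rw [one_div, inv_mul_le_iff₀ hMr]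
        exact h1
    refine app_eq_of_close w _ _ ⟨p, fun s => ?_⟩ ⟨1, fun s => ?_⟩ (2 * p) fun j => ?_
    · rw [norm_mul]
      calc _ ≤ (1 : ℝ) * p := mul_le_mul (ncp _ _) (hmb _ _) (norm_nonneg _) (by norm_num)
        _ = p := one_mul _
    · rw [norm_mul]
      exact mul_le_one₀ (ncq _ _) (norm_nonneg _) (ncp _ _)
    · have hm := mass_pos (w.lt j)
      rw [wmean_E, wmean_E, ← sub_div, norm_div, Complex.norm_real, Real.norm_of_nonneg hm.le]
      refine div_le_div_of_nonneg_right ?_ hm.le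
      rw [← Finset.sum_sub_distrib]
      have h1 : ∀ M ∈ Ioc (w.a j) (w.b j),
          ‖(1 / (M : ℂ)) * ((1 / (M : ℂ)) * ∑ n ∈ Icc 1 M, (cp j M *
              ((1 / (M : ℂ)) * ∑ n ∈ Icc 1 M, D (n : ℤ) * P j (n : ℤ)))) -
            (1 / (M : ℂ)) * ((1 / (M : ℂ)) * ∑ n ∈ Icc 1 M, cq j (M / p) * cp j M)‖ ≤
            p * (1 / (M : ℝ) ^ 2) := by
        intro M hM
        have hM1 : 1 ≤ M := by
          have := (Finset.mem_Ioc.1 hM).1
          omega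
        have hMr : (0 : ℝ) < M := by exact_mod_cast hM1
        have hM0 : (M : ℂ) ≠ 0 := by exact_mod_cast (by omega : M ≠ 0)
        rw [Finset.sum_const, Finset.sum_const, Nat.card_Icc, Nat.add_sub_cancel, nsmul_eq_mul,
          nsmul_eq_mul]
        have h2 : (1 / (M : ℂ)) * ((1 / (M : ℂ)) * ((M : ℂ) * (cp j M *
              ((1 / (M : ℂ)) * ∑ n ∈ Icc 1 M, D (n : ℤ) * P j (n : ℤ))))) -
            (1 / (M : ℂ)) * ((1 / (M : ℂ)) * ((M : ℂ) * (cq j (M / p) * cp j M))) =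
            (1 / (M : ℂ)) * (cp j M * ((1 / (M : ℂ)) * ∑ n ∈ Icc 1 M, D (n : ℤ) * P j (n : ℤ) -
              cq j (M / p))) := by
          field_simp
        rw [h2, norm_mul, norm_mul, norm_div, norm_one, Complex.norm_natCast]
        calc 1 / (M : ℝ) * (‖cp j M‖ * _) ≤ 1 / (M : ℝ) * (1 * (p / M)) := by
              refine mul_le_mul_of_nonneg_left ?_ (by positivity)
              exact mul_le_mul (ncp _ _) (hmean j M hM1) (norm_nonneg _) (by norm_num)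
          _ = p * (1 / (M : ℝ) ^ 2) := by
              field_simp
      refine (norm_sum_le_of_le _ h1).trans ?_
      rw [← Finset.mul_sum]
      have h3 := sum_inv_sq_le (w.a j) (w.b j)
      have hpr : (0 : ℝ) ≤ p := by positivity
      calc (p : ℝ) * _ ≤ p * 2 := mul_le_mul_of_nonneg_left h3 hpr
        _ = 2 * p := mul_comm _ _
  -- the two error terms
  have he1 : (appμ w).E (fun s => ((cpf f 1 k 1 s.1 s.2.1 : ℝ) : ℂ) *
        ((if (p : ℤ) ∣ s.2.2 then (p : ℂ) else 0) - 1) * patf f 0 k (p : ℤ) s) =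
      (appμ w).E (fun s => cq s.1 s.2.1 * cq s.1 s.2.1) -
        (appμ w).E (fun s => cq s.1 s.2.1 * cp s.1 s.2.1) := by
    rw [hE1, ← hav0 cq ncq, ← Mean.E_sub]
    congr 1
    funext s
    simp only [hcq, hD, hP]
    rw [hpat s]
    ring
  have he2 : (appμ2 w).E (fun s => ((if (p : ℤ) ∣ s.2.2.1 then (p : ℂ) else 0) - 1) *
        (patf f 0 k (p : ℤ) (s.1, s.2.1, s.2.2.1) *
          patf f 0 k (p : ℤ) (s.1, s.2.1, s.2.2.2))) =
      (appμ w).E (fun s => cq s.1 s.2.1 * cp s.1 s.2.1) -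
        (appμ w).E (fun s => cp s.1 s.2.1 * cp s.1 s.2.1) := by
    have hvm : ∀ s : ℕ × ℕ × ℤ, (1 / (s.2.1 : ℂ)) * ∑ n' ∈ Icc 1 s.2.1,
        patf f 0 k (p : ℤ) (s.1, s.2.1, (n' : ℤ)) = cp s.1 s.2.1 := by
      intro s
      simp only [hcp]
      rw [h86_cpf]
    have h1 := app2_prod w (fun s => D s.2.2 * patf f 0 k (p : ℤ) s) (patf f 0 k (p : ℤ))
      ⟨p, fun s => nDP s.1 s.2.2⟩ ⟨1, fun s => h86_norm hf 0 k _ _⟩
    have h2 := app2_prod w (patf f 0 k (p : ℤ)) (patf f 0 k (p : ℤ))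
      ⟨1, fun s => h86_norm hf 0 k _ _⟩ ⟨1, fun s => h86_norm hf 0 k _ _⟩
    simp only [hvm] at h1 h2
    have h3 : (appμ w).E (fun s => D s.2.2 * patf f 0 k (p : ℤ) s * cp s.1 s.2.1) =
        (appμ w).E (fun s => cq s.1 s.2.1 * cp s.1 s.2.1) := by
      rw [← hE2]
      congr 1
      funext s
      rw [hpat s]
      ring
    have h4 : (appμ w).E (fun s => patf f 0 k (p : ℤ) s * cp s.1 s.2.1) =
        (appμ w).E (fun s => cp s.1 s.2.1 * cp s.1 s.2.1) := by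
      rw [← hav0 cp ncp]
      congr 1
      funext s
      rw [hpat s]
      ring
    rw [h3] at h1
    rw [h4] at h2
    rw [← h1, ← h2, ← Mean.E_sub]
    congr 1
    funext s
    simp only [hD]
    ring
  -- conclusion
  have hfin : (((appμ w).R (fun s => (cpf f 0 k p s.1 s.2.1 - cpf f 1 k 1 s.1 s.2.1) ^ 2) : ℝ) : ℂ) =
      ((appμ w).E (fun s => cq s.1 s.2.1 * cq s.1 s.2.1) -
        (appμ w).E (fun s => cq s.1 s.2.1 * cp s.1 s.2.1)) -
      ((appμ w).E (fun s => cq s.1 s.2.1 * cp s.1 s.2.1) -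
        (appμ w).E (fun s => cp s.1 s.2.1 * cp s.1 s.2.1)) := by
    rw [← (appμ w).E_ofReal _ (C := 1) fun s => ?_]
    · rw [← Mean.E_sub, ← Mean.E_sub, ← Mean.E_sub]
      congr 1
      funext s
      simp only [hcp, hcq]
      push_cast
      ring
    · have h4 := h86_cpf01 hf 0 k p s.1 s.2.1
      have h5 := h86_cpf01 hf 1 k 1 s.1 s.2.1
      rw [abs_of_nonneg (sq_nonneg _)]
      have h6 : |cpf f 0 k p s.1 s.2.1 - cpf f 1 k 1 s.1 s.2.1| ≤ 1 := by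
        rw [abs_le]
        constructor <;> linarith
      rw [← sq_abs]
      exact pow_le_one₀ (abs_nonneg _) h6
  rw [he1, he2]
  have h0 : (appμ w).R (fun s => (cpf f 0 k p s.1 s.2.1 - cpf f 1 k 1 s.1 s.2.1) ^ 2) ≤
      ‖(((appμ w).R (fun s => (cpf f 0 k p s.1 s.2.1 - cpf f 1 k 1 s.1 s.2.1) ^ 2) : ℝ) : ℂ)‖ := by
    rw [Complex.norm_real]
    exact Real.le_norm_self _
  refine h0.trans ?_
  rw [hfin]
  exact norm_sub_le _ _

end DG
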