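import Pool.Agent.Helper6.IS.I1Ent
import Pool.Agent.Helper6.IS.I4Scale
import Pool.Agent.Helper6.DG.E5Chain

/-!
# ISO-5: product sets

PROOF. `k = 0`: both means are `1` (`M ≥ 1`). Let `k + 1` be the number of coordinates. Fix `ε`; `ε' > 0` small; `C₁` from `entP k ε'`. Choose `Y0`
so large that for `Y ≥ Y0`: `C₂ (C₁ + 1) + C₂ √ε' log log Y ≤ (ε / 16) log log Y` (`C₂` absolute, from `Σ_{p ∈ dy j} 1/p ≤ 4 / j`, `dy_card` in E5Chain is
private, copy it; `∑_{1 ≤ j ≤ log₂ Y} 1/j ≤ 2 + log log Y + ..`). Fix `Y ≥ Y0` and suppose the claim fails: for every `j` there are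
`N_j, K_j ≥ j + 3 + ..`, `A_j` with sum `> ε log log Y log K_j`. `w` as in `prodSt` (E7Prod), `f j i x = 1[x ∈ A_j i]` (`0` for `i > k`).
* for each prime `p ≤ Y`: by `hD` (`ProdSt (k+1)`, diagonal invariance of product sets) `(1/mass) ∑ (1/M) |Ec 1_A - cpf f 1 k 1| → 0` along the windows
 (`cpf f 1 k 1 j M = Ec (k+1) M (l ↦ 1[∀ i, l i + 1 ∈ A_j i])`), and `Ecp (k+1) p M 1_A = cpf f 0 k p j M`. Since `prY Y` is finite,
 `∑_{p ≤ Y} (1/p) R |cpf f 0 k p - cpf f 1 k 1| ≥ (ε / 3) log log Y` (mass `≤ log K + 1`, `app_tendsto`; a limit along the hyperfilter).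
* `R |x| ≤ (R x²)^(1/2)` (`Mean.cs`/`sq_norm_E_le`), and `sec_mom` with `lim_scale`: `R (cp - cq)² ≤ e1_p + e2_p`. `entP` for the system `app w`
 (weight `Cw = cpf f 1 k 1`, functions `f s.1 i (OmZ s.2.2)`) and for `app2 w` (weight `1`, position `s.2.2.1`, functions
 `f s.1 i (OmZ s.2.2.1) * f s.1 i (OmZ s.2.2.2)`, values `0, 1`): the scales `j` for which `avg_{p ∈ dy j} e1_p > ε'` or `avg e2_p > ε'` satisfy
 `∑ 1/(j+1) ≤ C₁` each. Sum over `p ∈ dy j` (every prime `p ≤ Y` is in `dy j` for some `j ≤ log₂ Y`): bad `j`: `R |.| ≤ 1`; good `j`: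
 `∑_{p ∈ dy j} (1/p) (e1_p + e2_p)^(1/2) ≤ 2^(-j) |dy j| (2 ε')^(1/2)` by Cauchy-Schwarz.
-/

set_option autoImplicit false

namespace DG

open Finset Filter Topology

/-! ### the dyadic sets of primes -/

private theorem io_pow_not_prime {l : ℕ} (hl : 2 ≤ l) : ¬ (2 ^ l).Prime :=
  Nat.Prime.not_prime_pow hl

private theorem io_dy_card (l : ℕ) (hl : 1 ≤ l) : ((dy l).card : ℝ) ≤ 4 * 2 ^ l / l := by
  have h := Helper13.Om.shell_card (dy l) (fun q hq => (Finset.mem_filter.1 hq).2) l hl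
  have h1 : (dy l).filter (fun q => Nat.log 2 q = l) = dy l := by
    rw [Finset.filter_eq_self]
    intro q hq
    unfold dy at hq
    rw [Finset.mem_filter, Finset.mem_Ioc] at hq
    obtain ⟨⟨h2, h3⟩, h4⟩ := hq
    have h5 : q ≠ 2 ^ (l + 1) := by
      intro h6
      rw [h6] at h4
      exact io_pow_not_prime (by omega) h4
    have h6 : q < 2 ^ (l + 1) := lt_of_le_of_ne h3 h5
    exact (Nat.log_eq_iff (Or.inl (by omega))).2 ⟨h2.le, h6⟩
  rwa [h1] at h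

private theorem io_dy_card' (j : ℕ) : ((dy j).card : ℝ) / 2 ^ j ≤ 8 / ((j : ℝ) + 1) := by
  rcases Nat.eq_zero_or_pos j with rfl | hj
  · have h1 : (dy 0).card ≤ 1 := by
      unfold dy
      refine (Finset.card_filter_le _ _).trans ?_
      simp
    have h2 : ((dy 0).card : ℝ) ≤ 1 := by exact_mod_cast h1
    simp only [pow_zero, div_one, Nat.cast_zero, zero_add]
    linarith
  · have hjr : (1 : ℝ) ≤ j := by exact_mod_cast hj
    have hp : (0 : ℝ) < 2 ^ j := by positivity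
    rw [div_le_div_iff₀ hp (by linarith)]
    have h1 := io_dy_card j hj
    have h2 : ((dy j).card : ℝ) * (j + 1) ≤ 4 * 2 ^ j / j * (j + 1) :=
      mul_le_mul_of_nonneg_right h1 (by linarith)
    refine h2.trans ?_
    rw [div_mul_eq_mul_div, div_le_iff₀ (by linarith)]
    nlinarith

private theorem io_dy_inv {j p : ℕ} (hp : p ∈ dy j) : 1 / (p : ℝ) ≤ 1 / 2 ^ j := by
  unfold dy at hp
  rw [Finset.mem_filter, Finset.mem_Ioc] at hp
  apply one_div_le_one_div_of_le (by positivity)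
  exact_mod_cast hp.1.1.le

/-- sum over the primes `p ≤ Y` by dyadic sets -/
private theorem io_cover (Y : ℕ) (g : ℕ → ℝ) (hg : ∀ p, 0 ≤ g p) :
    ∑ p ∈ prY Y, g p ≤ ∑ j ∈ range (Nat.log 2 Y + 1), ∑ p ∈ dy j, g p := by
  have h1 : ∀ p ∈ prY Y, ∃ j ∈ range (Nat.log 2 Y + 1), p ∈ dy j := by
    intro p hp
    unfold prY at hp
    rw [Finset.mem_filter, Finset.mem_Icc] at hp
    obtain ⟨⟨_, h2⟩, h3⟩ := hp
    have h4 := h3.two_le
    refine ⟨Nat.log 2 (p - 1), ?_, ?_⟩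
    · rw [Finset.mem_range]
      have := Nat.log_mono_right (b := 2) (show p - 1 ≤ Y by omega)
      omega
    · unfold dy
      rw [Finset.mem_filter, Finset.mem_Ioc]
      have h5 := Nat.pow_log_le_self 2 (show p - 1 ≠ 0 by omega)
      have h6 := Nat.lt_pow_succ_log_self (b := 2) one_lt_two (p - 1)
      refine ⟨⟨by omega, ?_⟩, h3⟩
      have : (Nat.log 2 (p - 1)).succ = Nat.log 2 (p - 1) + 1 := rfl
      omega
  classical
  calc ∑ p ∈ prY Y, g p
      ≤ ∑ p ∈ prY Y, ∑ j ∈ range (Nat.log 2 Y + 1), (if p ∈ dy j then g p else 0) := by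
        refine Finset.sum_le_sum fun p hp => ?_
        obtain ⟨j, hj, hpj⟩ := h1 p hp
        have h2 := Finset.single_le_sum (f := fun j => if p ∈ dy j then g p else 0)
          (fun i _ => by
            show 0 ≤ (if p ∈ dy i then g p else 0)
            split_ifs
            · exact hg p
            · exact le_rfl) hj
        simp only [if_pos hpj] at h2
        exact h2
    _ = ∑ j ∈ range (Nat.log 2 Y + 1), ∑ p ∈ prY Y, (if p ∈ dy j then g p else 0) :=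
        Finset.sum_comm
    _ ≤ _ := by
        refine Finset.sum_le_sum fun j _ => ?_
        rw [← Finset.sum_filter]
        refine Finset.sum_le_sum_of_subset_of_nonneg ?_ fun p _ _ => hg p
        intro p hp
        exact (Finset.mem_filter.1 hp).2

private theorem io_harm (Y : ℕ) (hY : 3 ≤ Y) :
    ∑ j ∈ range (Nat.log 2 Y + 1), 1 / ((j : ℝ) + 1) ≤ 3 + Real.log (Real.log Y) := by
  have h1 : ∑ j ∈ range (Nat.log 2 Y + 1), 1 / ((j : ℝ) + 1) ≤
      1 + Real.log ((Nat.log 2 Y + 1 : ℕ) : ℝ) := by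
    have h2 := harmonic_le_one_add_log (Nat.log 2 Y + 1)
    have h3 : ((harmonic (Nat.log 2 Y + 1) : ℚ) : ℝ) =
        ∑ j ∈ range (Nat.log 2 Y + 1), 1 / ((j : ℝ) + 1) := by
      unfold harmonic
      push_cast
      refine Finset.sum_congr rfl fun j _ => ?_
      rw [one_div]
    rwa [h3] at h2
  have hYr : (3 : ℝ) ≤ Y := by exact_mod_cast hY
  have hl1 : 1 ≤ Real.log Y := by
    have := Real.exp_one_lt_d9
    rw [← Real.log_exp 1]
    exact Real.log_le_log (Real.exp_pos 1) (by linarith)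
  have h2 : (Nat.log 2 Y : ℝ) ≤ 2 * Real.log Y := by
    have h3 : 2 ^ Nat.log 2 Y ≤ Y := Nat.pow_log_le_self 2 (by omega)
    have h4 : ((2 : ℝ) ^ Nat.log 2 Y) ≤ Y := by exact_mod_cast h3
    have h5 := Real.log_le_log (by positivity) h4
    rw [Real.log_pow] at h5
    have h6 : (1 : ℝ) / 2 ≤ Real.log 2 := by
      have := Real.log_two_gt_d9
      linarith
    have h7 : (0 : ℝ) ≤ (Nat.log 2 Y : ℝ) := Nat.cast_nonneg _
    nlinarith
  have h3 : Real.log ((Nat.log 2 Y + 1 : ℕ) : ℝ) ≤ Real.log (3 * Real.log Y) := by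
    apply Real.log_le_log (by positivity)
    push_cast
    linarith
  rw [Real.log_mul (by norm_num) (by linarith)] at h3
  have h4 : Real.log 3 ≤ 2 := by
    have := Real.log_le_sub_one_of_pos (show (0 : ℝ) < 3 by norm_num)
    linarith
  linarith

/-- the summation over all dyadic scales -/
private theorem io_sum (Y : ℕ) (hY : 3 ≤ Y) (e1 e2 x : ℕ → ℝ) (hx0 : ∀ p, 0 ≤ x p) (hx1 : ∀ p, x p ≤ 1)
    (hx : ∀ p, p.Prime → x p ^ 2 ≤ e1 p + e2 p) (ε C : ℝ) (hε : 0 < ε)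
    (h1 : ∑ j ∈ (range (Nat.log 2 Y + 1)).filter
      (fun j => ε < (1 / ((dy j).card : ℝ)) * ∑ p ∈ dy j, e1 p), 1 / ((j : ℝ) + 1) ≤ C)
    (h2 : ∑ j ∈ (range (Nat.log 2 Y + 1)).filter
      (fun j => ε < (1 / ((dy j).card : ℝ)) * ∑ p ∈ dy j, e2 p), 1 / ((j : ℝ) + 1) ≤ C) :
    ∑ p ∈ prY Y, (1 / (p : ℝ)) * x p ≤
      8 * Real.sqrt (2 * ε) * (3 + Real.log (Real.log Y)) + 16 * C := by
  classical
  refine (io_cover Y (fun p => (1 / (p : ℝ)) * x p) (fun p => mul_nonneg (by positivity)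
    (hx0 p))).trans ?_
  have hkey : ∀ j ∈ range (Nat.log 2 Y + 1), ∑ p ∈ dy j, (1 / (p : ℝ)) * x p ≤
      8 * Real.sqrt (2 * ε) * (1 / ((j : ℝ) + 1)) +
      (8 * (if ε < (1 / ((dy j).card : ℝ)) * ∑ p ∈ dy j, e1 p then 1 / ((j : ℝ) + 1) else 0) +
      8 * (if ε < (1 / ((dy j).card : ℝ)) * ∑ p ∈ dy j, e2 p then 1 / ((j : ℝ) + 1) else 0)) := by
    intro j _
    have hj0 : (0 : ℝ) < (j : ℝ) + 1 := by positivity
    have hs0 := Real.sqrt_nonneg (2 * ε)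
    have ha : ∑ p ∈ dy j, (1 / (p : ℝ)) * x p ≤ 1 / 2 ^ j * ∑ p ∈ dy j, x p := by
      rw [Finset.mul_sum]
      exact Finset.sum_le_sum fun p hp => mul_le_mul_of_nonneg_right (io_dy_inv hp) (hx0 p)
    have hi1 : 0 ≤ (if ε < (1 / ((dy j).card : ℝ)) * ∑ p ∈ dy j, e1 p then
        1 / ((j : ℝ) + 1) else 0) := by
      split_ifs
      · positivity
      · exact le_rfl
    have hi2 : 0 ≤ (if ε < (1 / ((dy j).card : ℝ)) * ∑ p ∈ dy j, e2 p then
        1 / ((j : ℝ) + 1) else 0) := by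
      split_ifs
      · positivity
      · exact le_rfl
    have hsp : 0 ≤ 8 * Real.sqrt (2 * ε) * (1 / ((j : ℝ) + 1)) := by positivity
    have htriv : ∑ p ∈ dy j, (1 / (p : ℝ)) * x p ≤ 8 * (1 / ((j : ℝ) + 1)) := by
      refine ha.trans ?_
      have hb : ∑ p ∈ dy j, x p ≤ (dy j).card := by
        refine (Finset.sum_le_sum fun p _ => hx1 p).trans ?_
        simp
      have hc := io_dy_card' j
      calc 1 / 2 ^ j * ∑ p ∈ dy j, x p ≤ 1 / 2 ^ j * (dy j).card :=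
            mul_le_mul_of_nonneg_left hb (by positivity)
        _ = ((dy j).card : ℝ) / 2 ^ j := by ring
        _ ≤ 8 / ((j : ℝ) + 1) := hc
        _ = 8 * (1 / ((j : ℝ) + 1)) := by ring
    by_cases hb1 : ε < (1 / ((dy j).card : ℝ)) * ∑ p ∈ dy j, e1 p
    · rw [if_pos hb1]
      linarith
    by_cases hb2 : ε < (1 / ((dy j).card : ℝ)) * ∑ p ∈ dy j, e2 p
    · rw [if_pos hb2]
      linarith
    rw [if_neg hb1, if_neg hb2]
    rw [not_lt] at hb1 hb2
    rcases (dy j).eq_empty_or_nonempty with he | hne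
    · rw [he]
      simp only [Finset.sum_empty]
      linarith
    have hcd : (0 : ℝ) < (dy j).card := by exact_mod_cast hne.card_pos
    have hsq : (∑ p ∈ dy j, x p) ^ 2 ≤ ((dy j).card * Real.sqrt (2 * ε)) ^ 2 := by
      have h3 := sq_sum_le_card_mul_sum_sq (s := dy j) (f := x)
      have h4 : ∑ p ∈ dy j, x p ^ 2 ≤ ∑ p ∈ dy j, e1 p + ∑ p ∈ dy j, e2 p := by
        rw [← Finset.sum_add_distrib]
        refine Finset.sum_le_sum fun p hp => hx p ?_
        unfold dy at hp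
        exact (Finset.mem_filter.1 hp).2
      have h5 : ∑ p ∈ dy j, e1 p ≤ (dy j).card * ε := by
        rw [one_div, inv_mul_le_iff₀ hcd] at hb1
        exact hb1
      have h6 : ∑ p ∈ dy j, e2 p ≤ (dy j).card * ε := by
        rw [one_div, inv_mul_le_iff₀ hcd] at hb2
        exact hb2
      rw [mul_pow, Real.sq_sqrt (by positivity)]
      have h7 : (((dy j).card : ℕ) : ℝ) * ∑ p ∈ dy j, x p ^ 2 ≤
          (dy j).card * ((dy j).card * ε + (dy j).card * ε) :=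
        mul_le_mul_of_nonneg_left (by linarith) hcd.le
      nlinarith
    have hle : ∑ p ∈ dy j, x p ≤ (dy j).card * Real.sqrt (2 * ε) :=
      (pow_le_pow_iff_left₀ (Finset.sum_nonneg fun p _ => hx0 p) (by positivity) two_ne_zero).1 hsq
    have hc := io_dy_card' j
    calc ∑ p ∈ dy j, (1 / (p : ℝ)) * x p ≤ 1 / 2 ^ j * ∑ p ∈ dy j, x p := ha
      _ ≤ 1 / 2 ^ j * ((dy j).card * Real.sqrt (2 * ε)) :=
          mul_le_mul_of_nonneg_left hle (by positivity)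
      _ = ((dy j).card : ℝ) / 2 ^ j * Real.sqrt (2 * ε) := by ring
      _ ≤ 8 / ((j : ℝ) + 1) * Real.sqrt (2 * ε) := mul_le_mul_of_nonneg_right hc hs0
      _ = _ := by ring
  refine (Finset.sum_le_sum hkey).trans ?_
  rw [Finset.sum_add_distrib, Finset.sum_add_distrib, ← Finset.mul_sum, ← Finset.mul_sum,
    ← Finset.mul_sum, ← Finset.sum_filter, ← Finset.sum_filter]
  have h3 := io_harm Y hY
  have h4 : 8 * Real.sqrt (2 * ε) * ∑ j ∈ range (Nat.log 2 Y + 1), 1 / ((j : ℝ) + 1) ≤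
      8 * Real.sqrt (2 * ε) * (3 + Real.log (Real.log Y)) :=
    mul_le_mul_of_nonneg_left h3 (by positivity)
  linarith


/-! ### means of functions of the window and the scale -/

private theorem io_cpf_nonneg (f : ℕ → ℕ → ℕ → ℝ) (hf : ∀ j i x, f j i x = 0 ∨ f j i x = 1)
    (r k p j M : ℕ) : 0 ≤ cpf f r k p j M := by
  unfold cpf
  refine mul_nonneg (by positivity) (Finset.sum_nonneg fun n _ => Finset.prod_nonneg fun i _ => ?_)
  rcases hf j i (ArithmeticFunction.cardFactors (n + i * p) + r) with h | h <;> rw [h]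
  norm_num

private theorem io_cpf_le (f : ℕ → ℕ → ℕ → ℝ) (hf : ∀ j i x, f j i x = 0 ∨ f j i x = 1)
    (r k p j M : ℕ) : cpf f r k p j M ≤ 1 := by
  unfold cpf
  have h1 : ∑ n ∈ Icc 1 M, ∏ i ∈ range (k + 1),
      f j i (ArithmeticFunction.cardFactors (n + i * p) + r) ≤ M := by
    have h2 : ∑ n ∈ Icc 1 M, ∏ i ∈ range (k + 1),
        f j i (ArithmeticFunction.cardFactors (n + i * p) + r) ≤ ∑ n ∈ Icc 1 M, (1 : ℝ) := by
      refine Finset.sum_le_sum fun n _ => Finset.prod_le_one (fun i _ => ?_) (fun i _ => ?_)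
      · rcases hf j i (ArithmeticFunction.cardFactors (n + i * p) + r) with h | h <;> rw [h]
        norm_num
      · rcases hf j i (ArithmeticFunction.cardFactors (n + i * p) + r) with h | h <;> rw [h]
        norm_num
    refine h2.trans ?_
    simp
  rcases Nat.eq_zero_or_pos M with rfl | hM
  · simp
  · have hM0 : (0 : ℝ) < M := by exact_mod_cast hM
    rw [one_div, inv_mul_le_iff₀ hM0, mul_one]
    exact h1

private theorem io_cpf_sub (f : ℕ → ℕ → ℕ → ℝ) (hf : ∀ j i x, f j i x = 0 ∨ f j i x = 1)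
    (r k p r' p' j M : ℕ) : |cpf f r k p j M - cpf f r' k p' j M| ≤ 1 := by
  have h1 := io_cpf_nonneg f hf r k p j M
  have h2 := io_cpf_nonneg f hf r' k p' j M
  have h3 := io_cpf_le f hf r k p j M
  have h4 := io_cpf_le f hf r' k p' j M
  rw [abs_le]
  constructor <;> linarith

private theorem io_lim (w : Win) (u : ℕ → ℕ → ℝ) (hu : ∀ j M, |u j M| ≤ 1) :
    Tendsto (fun j => (∑ M ∈ Ioc (w.a j) (w.b j), (1 / (M : ℝ)) * u j M) /
      ∑ M ∈ Ioc (w.a j) (w.b j), 1 / (M : ℝ)) (hyperfilter ℕ : Filter ℕ)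
      (𝓝 ((appμ w).R (fun s => u s.1 s.2.1))) := by
  have hB : Bd (fun s : ℕ × ℕ × ℤ => ((u s.1 s.2.1 : ℝ) : ℂ)) := by
    refine ⟨1, fun s => ?_⟩
    rw [Complex.norm_real, Real.norm_eq_abs]
    exact hu _ _
  have h4 := app_tendsto w _ hB
  have h5 := (Complex.continuous_re.tendsto _).comp h4
  refine h5.congr fun j => ?_
  simp only [Function.comp_apply]
  have h6 : (wmean w j).E (fun s => ((u s.1 s.2.1 : ℝ) : ℂ)) =
      (((∑ M ∈ Ioc (w.a j) (w.b j), (1 / (M : ℝ)) * u j M) /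
        ∑ M ∈ Ioc (w.a j) (w.b j), 1 / (M : ℝ) : ℝ) : ℂ) := by
    rw [wmean_E, Complex.ofReal_div]
    congr 1
    rw [Complex.ofReal_sum]
    refine Finset.sum_congr rfl fun M hM => ?_
    have hM0 : 0 < M := lt_of_le_of_lt (Nat.zero_le _) (Finset.mem_Ioc.1 hM).1
    have hMc : (M : ℂ) ≠ 0 := by exact_mod_cast hM0.ne'
    have h2 : ∑ n ∈ Icc 1 M, ((u j M : ℝ) : ℂ) = (M : ℂ) * ((u j M : ℝ) : ℂ) := by
      rw [Finset.sum_const, Nat.card_Icc, Nat.add_sub_cancel, nsmul_eq_mul]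
    change 1 / (M : ℂ) * (1 / (M : ℂ) * ∑ n ∈ Icc 1 M, ((u j M : ℝ) : ℂ)) = _
    rw [h2]
    push_cast
    field_simp
  rw [h6, Complex.ofReal_re]

private theorem io_R_abs (w : Win) (u : ℕ → ℕ → ℝ) (hu : ∀ j M, |u j M| ≤ 1) :
    (appμ w).R (fun s => |u s.1 s.2.1|) ^ 2 ≤ (appμ w).R (fun s => (u s.1 s.2.1) ^ 2) := by
  have hB : Bd (fun s : ℕ × ℕ × ℤ => ((|u s.1 s.2.1| : ℝ) : ℂ)) := by
    refine ⟨1, fun s => ?_⟩
    rw [Complex.norm_real, Real.norm_eq_abs, abs_abs]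
    exact hu _ _
  have h1 := (appμ w).sq_norm_E_le _ hB
  have h2 : (appμ w).N2 (fun s : ℕ × ℕ × ℤ => ((|u s.1 s.2.1| : ℝ) : ℂ)) =
      (appμ w).R (fun s => (u s.1 s.2.1) ^ 2) := by
    unfold Mean.N2
    congr 1
    funext s
    rw [Complex.norm_real, Real.norm_eq_abs, abs_abs, sq_abs]
  rw [h2] at h1
  refine le_trans ?_ h1
  have h3 : 0 ≤ (appμ w).R (fun s => |u s.1 s.2.1|) :=
    (appμ w).R_nonneg _ (fun s => abs_nonneg _) (C := 1) (fun s => hu _ _)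
  have h4 : (appμ w).R (fun s => |u s.1 s.2.1|) ≤
      ‖(appμ w).E (fun s : ℕ × ℕ × ℤ => ((|u s.1 s.2.1| : ℝ) : ℂ))‖ := Complex.re_le_norm _
  exact pow_le_pow_left₀ h3 h4 2

/-- first error term -/
private noncomputable def ioe1 (w : Win) (f : ℕ → ℕ → ℕ → ℝ) (k p : ℕ) : ℝ :=
  ‖(appμ w).E (fun s => ((cpf f 1 k 1 s.1 s.2.1 : ℝ) : ℂ) *
    ((if (p : ℤ) ∣ s.2.2 then (p : ℂ) else 0) - 1) * patf f 0 k (p : ℤ) s)‖

/-- second error term -/
private noncomputable def ioe2 (w : Win) (f : ℕ → ℕ → ℕ → ℝ) (k p : ℕ) : ℝ :=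
  ‖(appμ2 w).E (fun s => ((if (p : ℤ) ∣ s.2.2.1 then (p : ℂ) else 0) - 1) *
    (patf f 0 k (p : ℤ) (s.1, s.2.1, s.2.2.1) * patf f 0 k (p : ℤ) (s.1, s.2.1, s.2.2.2)))‖

private theorem io_bad1 (w : Win) (f : ℕ → ℕ → ℕ → ℝ)
    (hf : ∀ j i x, f j i x = 0 ∨ f j i x = 1) (k : ℕ) (ε C : ℝ)
    (hC : ∀ (X : Sys) (pos : X.S → ℤ),
      (∀ x, pos (X.T x) = pos x + 1) → ∀ f : ℕ → X.S → ℝ, (∀ i x, f i x = 0 ∨ f i x = 1) →
      ∀ B : Finset ℕ, (∀ j ∈ B, ∃ Cw : X.S → ℂ, (∀ x, ‖Cw x‖ ≤ 1) ∧ TInv X Cw ∧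
        ε < (1 / ((dy j).card : ℝ)) * ∑ p ∈ dy j, ‖X.μ.E (fun x => Cw x *
          ((if (p : ℤ) ∣ pos x then (p : ℂ) else 0) - 1) *
            ∏ i ∈ range (k + 1), ((f i ((X.T ^ ((i : ℤ) * p)) x) : ℝ) : ℂ))‖) →
      ∑ j ∈ B, 1 / ((j : ℝ) + 1) ≤ C) (J : ℕ) :
    ∑ j ∈ (range J).filter
      (fun j => ε < (1 / ((dy j).card : ℝ)) * ∑ p ∈ dy j, ioe1 w f k p), 1 / ((j : ℝ) + 1) ≤ C := by
  refine hC (app w) (fun s => s.2.2) (fun _ => rfl) (fun i s => f s.1 i (OmZ s.2.2))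
    (fun i s => hf _ _ _) _ fun j hj => ?_
  refine ⟨fun s => ((cpf f 1 k 1 s.1 s.2.1 : ℝ) : ℂ), fun s => ?_, fun _ => rfl, ?_⟩
  · rw [Complex.norm_real, Real.norm_eq_abs, abs_of_nonneg (io_cpf_nonneg f hf _ _ _ _ _)]
    exact io_cpf_le f hf _ _ _ _ _
  · refine lt_of_lt_of_eq (Finset.mem_filter.1 hj).2 ?_
    congr 1
    refine Finset.sum_congr rfl fun p _ => ?_
    unfold ioe1
    have h1 : (fun s : ℕ × ℕ × ℤ => ((cpf f 1 k 1 s.1 s.2.1 : ℝ) : ℂ) *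
        ((if (p : ℤ) ∣ s.2.2 then (p : ℂ) else 0) - 1) * patf f 0 k (p : ℤ) s) =
        (fun x : (app w).S => (fun s : (app w).S => ((cpf f 1 k 1 s.1 s.2.1 : ℝ) : ℂ)) x *
          ((if (p : ℤ) ∣ (fun s : (app w).S => s.2.2) x then (p : ℂ) else 0) - 1) *
            ∏ i ∈ range (k + 1), (((fun (i : ℕ) (s : (app w).S) => f s.1 i (OmZ s.2.2)) i
              (((app w).T ^ ((i : ℤ) * p)) x) : ℝ) : ℂ)) := by
      funext s
      obtain ⟨j, M, n⟩ := s
      have h2 : (∏ i ∈ range (k + 1), (((fun (i : ℕ) (s : (app w).S) => f s.1 i (OmZ s.2.2)) i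
              (((app w).T ^ ((i : ℤ) * p)) (j, M, n)) : ℝ) : ℂ)) =
          patf f 0 k (p : ℤ) (j, M, n) := by
        unfold patf
        refine Finset.prod_congr rfl fun i _ => ?_
        have h3 : ((app w).T ^ ((i : ℤ) * p)) (j, M, n) = (j, M, n + (i : ℤ) * p) :=
          shT_zpow _ j M n
        rw [h3]
        rfl
      rw [h2]
    rw [h1]
    rfl

private theorem io_bad2 (w : Win) (f : ℕ → ℕ → ℕ → ℝ)
    (hf : ∀ j i x, f j i x = 0 ∨ f j i x = 1) (k : ℕ) (ε C : ℝ)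
    (hC : ∀ (X : Sys) (pos : X.S → ℤ),
      (∀ x, pos (X.T x) = pos x + 1) → ∀ f : ℕ → X.S → ℝ, (∀ i x, f i x = 0 ∨ f i x = 1) →
      ∀ B : Finset ℕ, (∀ j ∈ B, ∃ Cw : X.S → ℂ, (∀ x, ‖Cw x‖ ≤ 1) ∧ TInv X Cw ∧
        ε < (1 / ((dy j).card : ℝ)) * ∑ p ∈ dy j, ‖X.μ.E (fun x => Cw x *
          ((if (p : ℤ) ∣ pos x then (p : ℂ) else 0) - 1) *
            ∏ i ∈ range (k + 1), ((f i ((X.T ^ ((i : ℤ) * p)) x) : ℝ) : ℂ))‖) →
      ∑ j ∈ B, 1 / ((j : ℝ) + 1) ≤ C) (J : ℕ) :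
    ∑ j ∈ (range J).filter
      (fun j => ε < (1 / ((dy j).card : ℝ)) * ∑ p ∈ dy j, ioe2 w f k p), 1 / ((j : ℝ) + 1) ≤ C := by
  refine hC (app2 w) (fun s => s.2.2.1) (fun _ => rfl)
    (fun i s => f s.1 i (OmZ s.2.2.1) * f s.1 i (OmZ s.2.2.2))
    (fun i s => ?_) _ fun j hj => ?_
  · rcases hf s.1 i (OmZ s.2.2.1) with h | h <;> rcases hf s.1 i (OmZ s.2.2.2) with h' | h' <;>
      simp [h, h']
  refine ⟨fun _ => 1, fun s => by rw [norm_one], fun _ => rfl, ?_⟩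
  refine lt_of_lt_of_eq (Finset.mem_filter.1 hj).2 ?_
  congr 1
  refine Finset.sum_congr rfl fun p _ => ?_
  unfold ioe2
  have h1 : (fun s : ℕ × ℕ × ℤ × ℤ => ((if (p : ℤ) ∣ s.2.2.1 then (p : ℂ) else 0) - 1) *
      (patf f 0 k (p : ℤ) (s.1, s.2.1, s.2.2.1) * patf f 0 k (p : ℤ) (s.1, s.2.1, s.2.2.2))) =
      (fun x : (app2 w).S => (fun _ : (app2 w).S => (1 : ℂ)) x *
        ((if (p : ℤ) ∣ (fun s : (app2 w).S => s.2.2.1) x then (p : ℂ) else 0) - 1) *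
          ∏ i ∈ range (k + 1), (((fun (i : ℕ) (s : (app2 w).S) =>
            f s.1 i (OmZ s.2.2.1) * f s.1 i (OmZ s.2.2.2)) i
            (((app2 w).T ^ ((i : ℤ) * p)) x) : ℝ) : ℂ)) := by
    funext s
    obtain ⟨j, M, n, n'⟩ := s
    have h2 : (∏ i ∈ range (k + 1), (((fun (i : ℕ) (s : (app2 w).S) =>
            f s.1 i (OmZ s.2.2.1) * f s.1 i (OmZ s.2.2.2)) i
            (((app2 w).T ^ ((i : ℤ) * p)) (j, M, n, n')) : ℝ) : ℂ)) =
        patf f 0 k (p : ℤ) (j, M, n) * patf f 0 k (p : ℤ) (j, M, n') := by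
      unfold patf
      rw [← Finset.prod_mul_distrib]
      refine Finset.prod_congr rfl fun i _ => ?_
      have h3 : ((app2 w).T ^ ((i : ℤ) * p)) (j, M, n, n') =
          (j, M, n + (i : ℤ) * p, n' + (i : ℤ) * p) := shT2_zpow _ j M n n'
      rw [h3, ← Complex.ofReal_mul]
      rfl
    rw [h2]
    show _ = 1 * _ * _
    rw [one_mul]
  rw [h1]
  rfl

private theorem io_upper (hS : ∀ k t : ℕ, 1 ≤ t → SymGoal k 0 t) (w : Win) (N K : ℕ → ℕ)
    (hw : ∀ j, w.a j = N j / K j ∧ w.b j = N j ∧ K j ≤ N j ∧ j ≤ K j ∧ 1 ≤ K j)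
    (f : ℕ → ℕ → ℕ → ℝ) (hf : ∀ j i x, f j i x = 0 ∨ f j i x = 1) (k : ℕ)
    (Y : ℕ) (hY : 3 ≤ Y) (ε C : ℝ) (hε : 0 < ε)
    (hC : ∀ (X : Sys) (pos : X.S → ℤ),
      (∀ x, pos (X.T x) = pos x + 1) → ∀ f : ℕ → X.S → ℝ, (∀ i x, f i x = 0 ∨ f i x = 1) →
      ∀ B : Finset ℕ, (∀ j ∈ B, ∃ Cw : X.S → ℂ, (∀ x, ‖Cw x‖ ≤ 1) ∧ TInv X Cw ∧
        ε < (1 / ((dy j).card : ℝ)) * ∑ p ∈ dy j, ‖X.μ.E (fun x => Cw x *
          ((if (p : ℤ) ∣ pos x then (p : ℂ) else 0) - 1) *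
            ∏ i ∈ range (k + 1), ((f i ((X.T ^ ((i : ℤ) * p)) x) : ℝ) : ℂ))‖) →
      ∑ j ∈ B, 1 / ((j : ℝ) + 1) ≤ C) :
    ∑ p ∈ prY Y, (1 / (p : ℝ)) *
      (appμ w).R (fun s => |cpf f 0 k p s.1 s.2.1 - cpf f 1 k 1 s.1 s.2.1|) ≤
      8 * Real.sqrt (2 * ε) * (3 + Real.log (Real.log Y)) + 16 * C := by
  refine io_sum Y hY (ioe1 w f k) (ioe2 w f k)
    (fun p => (appμ w).R (fun s => |cpf f 0 k p s.1 s.2.1 - cpf f 1 k 1 s.1 s.2.1|))
    (fun p => (appμ w).R_nonneg _ (fun s => abs_nonneg _) (C := 1)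
      (fun s => io_cpf_sub f hf _ _ _ _ _ _ _))
    (fun p => (appμ w).R_le_of_le _ (fun s => io_cpf_sub f hf _ _ _ _ _ _ _) (C := 1)
      (fun s => by rw [abs_abs]; exact io_cpf_sub f hf _ _ _ _ _ _ _))
    (fun p hp => ?_) ε C hε (io_bad1 w f hf k ε C hC _) (io_bad2 w f hf k ε C hC _)
  have h1 := io_R_abs w (fun j M => cpf f 0 k p j M - cpf f 1 k 1 j M)
    (fun j M => io_cpf_sub f hf _ _ _ _ _ _ _)
  refine h1.trans ?_
  exact sec_mom w f hf k p hp (lim_scale hS w N K hw f hf k p hp.one_lt.le)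

private theorem io_cpf_eq (f : ℕ → ℕ → ℕ → ℝ) (k j : ℕ) (B : Fin (k + 1) → Finset ℕ)
    (hf : ∀ (i : Fin (k + 1)) (x : ℕ), f j i x = if x ∈ B i then 1 else 0) (r p M : ℕ) :
    cpf f r k p j M = (1 / (M : ℝ)) * ∑ n ∈ Icc 1 M,
      (if ∀ i : Fin (k + 1), ArithmeticFunction.cardFactors (n + i * p) + r ∈ B i then
        (1 : ℝ) else 0) := by
  unfold cpf
  congr 1
  refine Finset.sum_congr rfl fun n _ => ?_
  rw [Finset.prod_range]
  simp only [hf]
  rw [Finset.prod_ite_zero]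
  simp

private theorem io_zero (ε : ℝ) (hε : 0 < ε) : ∃ Y0 : ℕ, ∀ Y : ℕ, Y0 ≤ Y → ∃ K0 N0 : ℕ,
    ∀ N K : ℕ, N0 ≤ N → K0 ≤ K → K ≤ N → ∀ A : Fin 0 → Finset ℕ,
    ∑ p ∈ prY Y, (1 / (p : ℝ)) * ∑ M ∈ Ioc (N / K) N, (1 / (M : ℝ)) *
      |Ec 0 M (fun l => if ∀ i, l i ∈ A i then 1 else 0) -
        Ecp 0 p M (fun l => if ∀ i, l i ∈ A i then 1 else 0)| ≤
      ε * Real.log (Real.log Y) * Real.log K := by
  refine ⟨3, fun Y hY => ⟨1, 1, fun N K _ hK _ A => ?_⟩⟩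
  have hYr : (3 : ℝ) ≤ Y := by exact_mod_cast hY
  have hl1 : 1 ≤ Real.log Y := by
    have := Real.exp_one_lt_d9
    rw [← Real.log_exp 1]
    exact Real.log_le_log (Real.exp_pos 1) (by linarith)
  have hl2 : 0 ≤ Real.log (Real.log Y) := Real.log_nonneg hl1
  have h1 : 0 ≤ Real.log K := Real.log_nonneg (by exact_mod_cast hK)
  have h2 : ∀ p ∈ prY Y, (1 / (p : ℝ)) * ∑ M ∈ Ioc (N / K) N, (1 / (M : ℝ)) *
      |Ec 0 M (fun l => if ∀ i, l i ∈ A i then 1 else 0) -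
        Ecp 0 p M (fun l => if ∀ i, l i ∈ A i then 1 else 0)| = 0 := by
    intro p _
    have h3 : ∀ M ∈ Ioc (N / K) N, (1 / (M : ℝ)) *
        |Ec 0 M (fun l => if ∀ i, l i ∈ A i then 1 else 0) -
          Ecp 0 p M (fun l => if ∀ i, l i ∈ A i then 1 else 0)| = 0 := by
      intro M _
      have h4 : Ec 0 M (fun l => if ∀ i, l i ∈ A i then 1 else 0) =
          Ecp 0 p M (fun l => if ∀ i, l i ∈ A i then 1 else 0) := by
        unfold Ec Ecp
        simp only [IsEmpty.forall_iff, if_true]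
      rw [h4, sub_self, abs_zero, mul_zero]
    rw [Finset.sum_congr rfl h3, Finset.sum_const_zero, mul_zero]
  rw [Finset.sum_congr rfl h2, Finset.sum_const_zero]
  positivity

theorem isoProd (hD : ∀ k, ProdSt k) (hS : ∀ k t : ℕ, 1 ≤ t → SymGoal k 0 t) (k : ℕ) :
    IsoProd k := by
  rcases k with _ | k
  · intro ε hε
    exact io_zero ε hε
  intro ε hε
  set ε' : ℝ := (ε / 64) ^ 2 / 2 with hε'def
  have hε' : 0 < ε' := by positivity
  have hsqrt : Real.sqrt (2 * ε') = ε / 64 := by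
    have : 2 * ε' = (ε / 64) ^ 2 := by
      rw [hε'def]
      ring
    rw [this, Real.sqrt_sq (by positivity)]
  obtain ⟨C, hC⟩ := entP k ε' hε'
  have hC0 : 0 ≤ |C| := abs_nonneg C
  have hLt : Tendsto (fun Y : ℕ => Real.log (Real.log (Y : ℝ))) atTop atTop :=
    Real.tendsto_log_atTop.comp (Real.tendsto_log_atTop.comp tendsto_natCast_atTop_atTop)
  obtain ⟨Y1, hY1⟩ := eventually_atTop.1 (hLt.eventually (eventually_ge_atTop (4 + 128 * |C| / ε)))
  refine ⟨max Y1 3, fun Y hY => ?_⟩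
  have hY3 : 3 ≤ Y := (le_max_right _ _).trans hY
  set L : ℝ := Real.log (Real.log (Y : ℝ)) with hLdef
  have hL : 4 + 128 * |C| / ε ≤ L := hY1 Y ((le_max_left _ _).trans hY)
  have hL0 : 0 < L := by
    have : 0 ≤ 128 * |C| / ε := by positivity
    linarith
  by_contra hcon
  push Not at hcon
  choose N K hN hK hKN B hB using fun j : ℕ => hcon (j + 3) (j + 3)
  have hK1 : ∀ j, 1 ≤ K j := fun j => by have := hK j; omega
  have hlogK : ∀ j : ℕ, Real.log ((j : ℝ) + 3) ≤ Real.log (K j) := by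
    intro j
    refine Real.log_le_log (by positivity) ?_
    exact_mod_cast hK j
  let w : Win :=
    { a := fun j => N j / K j
      b := N
      lt := fun j => Nat.div_lt_self (by have := hN j; omega) (by have := hK j; omega)
      div := by
        refine tendsto_atTop_mono (fun j => e7_le_mass (N j) (K j) (hK1 j) (hKN j)) ?_
        have h1 : Tendsto (fun j : ℕ => Real.log ((j : ℝ) + 3) - 1) atTop atTop := by
          refine tendsto_atTop_add_const_right _ _ ?_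
          exact Real.tendsto_log_atTop.comp
            (tendsto_atTop_add_const_right _ _ tendsto_natCast_atTop_atTop)
        refine tendsto_atTop_mono (fun j => ?_) h1
        have h2 := hlogK j
        linarith }
  have hw : ∀ j, w.a j = N j / K j ∧ w.b j = N j ∧ K j ≤ N j ∧ j ≤ K j ∧ 1 ≤ K j := fun j =>
    ⟨rfl, rfl, hKN j, by have := hK j; omega, hK1 j⟩
  let f : ℕ → ℕ → ℕ → ℝ := fun j i x =>
    if h : i < k + 1 then (if x ∈ B j ⟨i, h⟩ then 1 else 0) else 0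
  have hf : ∀ j i x, f j i x = 0 ∨ f j i x = 1 := by
    intro j i x
    simp only [f]
    split_ifs
    · exact Or.inr rfl
    · exact Or.inl rfl
    · exact Or.inl rfl
  have hfB : ∀ j (i : Fin (k + 1)) (x : ℕ), f j i x = if x ∈ B j i then 1 else 0 := by
    intro j i x
    simp only [f, i.2, dif_pos, Fin.eta]
  have hE : ∀ j r p M, cpf f r k p j M = (1 / (M : ℝ)) * ∑ n ∈ Icc 1 M,
      (if ∀ i : Fin (k + 1), ArithmeticFunction.cardFactors (n + i * p) + r ∈ B j i then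
        (1 : ℝ) else 0) := fun j r p M => io_cpf_eq f k j (B j) (hfB j) r p M
  have hEp : ∀ j p M, cpf f 0 k p j M =
      Ecp (k + 1) p M (fun l => if ∀ i, l i ∈ B j i then 1 else 0) := by
    intro j p M
    rw [hE]
    rfl
  have hE0 : ∀ j M, cpf f 0 k 1 j M =
      Ec (k + 1) M (fun l => if ∀ i, l i ∈ B j i then 1 else 0) := by
    intro j M
    rw [hE]
    unfold Ec
    simp only [mul_one, add_zero]
  have hE1 : ∀ j M, cpf f 1 k 1 j M =
      Ec (k + 1) M (fun l => if ∀ i, l i + 1 ∈ B j i then 1 else 0) := by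
    intro j M
    rw [hE]
    unfold Ec
    simp only [mul_one]
  -- upper bound
  have hup := io_upper hS w N K hw f hf k Y hY3 ε' |C| hε'
    (fun X pos hp g hg Bs hBs => (hC X pos hp g hg Bs hBs).trans (le_abs_self C))
  rw [hsqrt] at hup
  -- the sum in the window
  have hTlim : Tendsto (fun j => ∑ p ∈ prY Y, (1 / (p : ℝ)) *
      ((∑ M ∈ Ioc (w.a j) (w.b j), (1 / (M : ℝ)) * |cpf f 0 k p j M - cpf f 1 k 1 j M|) /
        ∑ M ∈ Ioc (w.a j) (w.b j), 1 / (M : ℝ))) (hyperfilter ℕ : Filter ℕ)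
      (𝓝 (∑ p ∈ prY Y, (1 / (p : ℝ)) *
        (appμ w).R (fun s => |cpf f 0 k p s.1 s.2.1 - cpf f 1 k 1 s.1 s.2.1|))) := by
    refine tendsto_finsetSum _ fun p _ => ?_
    exact (io_lim w (fun j M => |cpf f 0 k p j M - cpf f 1 k 1 j M|) (fun j M => by
      rw [abs_abs]
      exact io_cpf_sub f hf _ _ _ _ _ _ _)).const_mul _
  set V : ℕ → ℝ := fun j =>
    (∑ M ∈ Ioc (w.a j) (w.b j), (1 / (M : ℝ)) * |cpf f 0 k 1 j M - cpf f 1 k 1 j M|) /
      ∑ M ∈ Ioc (w.a j) (w.b j), 1 / (M : ℝ) with hVdef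
  have hV0 : ∀ j, 0 ≤ V j := fun j =>
    div_nonneg (Finset.sum_nonneg fun M _ => mul_nonneg (by positivity) (abs_nonneg _))
      (Finset.sum_nonneg fun M _ => by positivity)
  have hVlim : Tendsto V (hyperfilter ℕ : Filter ℕ) (𝓝 0) := by
    refine Tendsto.mono_left ?_ Nat.hyperfilter_le_atTop
    rw [Metric.tendsto_atTop]
    intro δ hδ
    obtain ⟨K0, N0, h0⟩ := hD (k + 1) (δ / 4) (by positivity)
    refine ⟨max (max K0 N0) 8, fun j hj => ?_⟩
    have hj1 : K0 ≤ j := (le_max_left _ _).trans ((le_max_left _ _).trans hj)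
    have hj2 : N0 ≤ j := (le_max_right _ _).trans ((le_max_left _ _).trans hj)
    have hj3 : 8 ≤ j := (le_max_right _ _).trans hj
    have h1 := h0 (N j) (K j) (by have := hN j; omega) (by have := hK j; omega) (hKN j) (B j)
    have hlog2 : 2 ≤ Real.log (K j) := by
      have h2 : Real.exp 2 ≤ (K j : ℝ) := by
        have h3 : (11 : ℝ) ≤ K j := by
          have := hK j
          have h4 : 11 ≤ K j := by omega
          exact_mod_cast h4
        have h5 : Real.exp 2 = Real.exp 1 * Real.exp 1 := by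
          rw [← Real.exp_add]
          norm_num
        have h6 := Real.exp_one_lt_d9
        have h7 := Real.exp_pos 1
        nlinarith
      rw [← Real.log_exp 2]
      exact Real.log_le_log (Real.exp_pos 2) h2
    have hm2 : Real.log (K j) / 2 ≤ ∑ M ∈ Ioc (w.a j) (w.b j), 1 / (M : ℝ) := by
      have := e7_le_mass (N j) (K j) (hK1 j) (hKN j)
      show Real.log (K j) / 2 ≤ ∑ M ∈ Ioc (N j / K j) (N j), 1 / (M : ℝ)
      linarith
    have hm : 0 < ∑ M ∈ Ioc (w.a j) (w.b j), 1 / (M : ℝ) := mass_pos (w.lt j)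
    rw [Real.dist_eq, sub_zero, abs_of_nonneg (hV0 j)]
    show _ / _ < δ
    rw [div_lt_iff₀ hm]
    have h2 : ∑ M ∈ Ioc (w.a j) (w.b j), (1 / (M : ℝ)) *
        |cpf f 0 k 1 j M - cpf f 1 k 1 j M| ≤ δ / 4 * Real.log (K j) := by
      refine le_trans (le_of_eq ?_) h1
      refine Finset.sum_congr rfl fun M _ => ?_
      rw [hE0, hE1]
    have h3 : δ * (Real.log (K j) / 2) ≤ δ * ∑ M ∈ Ioc (w.a j) (w.b j), 1 / (M : ℝ) :=
      mul_le_mul_of_nonneg_left hm2 hδ.le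
    have h4 : 0 < δ * Real.log (K j) := by positivity
    linarith
  set S : ℝ := ∑ p ∈ prY Y, 1 / (p : ℝ) with hSdef
  have hlow : ∀ j, ε / 2 * L - S * V j ≤ ∑ p ∈ prY Y, (1 / (p : ℝ)) *
      ((∑ M ∈ Ioc (w.a j) (w.b j), (1 / (M : ℝ)) * |cpf f 0 k p j M - cpf f 1 k 1 j M|) /
        ∑ M ∈ Ioc (w.a j) (w.b j), 1 / (M : ℝ)) := by
    intro j
    have hm : 0 < ∑ M ∈ Ioc (w.a j) (w.b j), 1 / (M : ℝ) := mass_pos (w.lt j)
    have hlog1 : 1 ≤ Real.log (K j) := by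
      have h1 : Real.exp 1 ≤ (K j : ℝ) := by
        have h2 : (3 : ℝ) ≤ K j := by
          have := hK j
          have h3 : 3 ≤ K j := by omega
          exact_mod_cast h3
        have := Real.exp_one_lt_d9
        linarith
      rw [← Real.log_exp 1]
      exact Real.log_le_log (Real.exp_pos 1) h1
    have hm2 : ∑ M ∈ Ioc (w.a j) (w.b j), 1 / (M : ℝ) ≤ 2 * Real.log (K j) := by
      have := e7_mass_le (N j) (K j) (hK1 j) (hKN j)
      show ∑ M ∈ Ioc (N j / K j) (N j), 1 / (M : ℝ) ≤ 2 * Real.log (K j)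
      linarith
    have h1 := hB j
    have h2 : ∑ p ∈ prY Y, (1 / (p : ℝ)) * ∑ M ∈ Ioc (N j / K j) (N j), (1 / (M : ℝ)) *
        |Ec (k + 1) M (fun l => if ∀ i, l i ∈ B j i then 1 else 0) -
          Ecp (k + 1) p M (fun l => if ∀ i, l i ∈ B j i then 1 else 0)| ≤
        ∑ p ∈ prY Y, (1 / (p : ℝ)) *
          (∑ M ∈ Ioc (w.a j) (w.b j), (1 / (M : ℝ)) * |cpf f 0 k p j M - cpf f 1 k 1 j M|) +
        S * ∑ M ∈ Ioc (w.a j) (w.b j), (1 / (M : ℝ)) *
          |cpf f 0 k 1 j M - cpf f 1 k 1 j M| := by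
      rw [hSdef, Finset.sum_mul, ← Finset.sum_add_distrib]
      refine Finset.sum_le_sum fun p _ => ?_
      rw [← mul_add, ← Finset.sum_add_distrib]
      refine mul_le_mul_of_nonneg_left ?_ (by positivity)
      show ∑ M ∈ Ioc (w.a j) (w.b j), _ ≤ _
      refine Finset.sum_le_sum fun M _ => ?_
      rw [← mul_add]
      refine mul_le_mul_of_nonneg_left ?_ (by positivity)
      rw [← hEp, ← hE0, abs_sub_comm, show cpf f 0 k p j M - cpf f 0 k 1 j M =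
        (cpf f 0 k p j M - cpf f 1 k 1 j M) - (cpf f 0 k 1 j M - cpf f 1 k 1 j M) by ring]
      exact abs_sub _ _
    have h3 := lt_of_lt_of_le h1 h2
    set m := ∑ M ∈ Ioc (w.a j) (w.b j), 1 / (M : ℝ) with hmdef
    have h4 : ∑ p ∈ prY Y, (1 / (p : ℝ)) *
        ((∑ M ∈ Ioc (w.a j) (w.b j), (1 / (M : ℝ)) * |cpf f 0 k p j M - cpf f 1 k 1 j M|) / m) =
        (∑ p ∈ prY Y, (1 / (p : ℝ)) *
          (∑ M ∈ Ioc (w.a j) (w.b j), (1 / (M : ℝ)) *
            |cpf f 0 k p j M - cpf f 1 k 1 j M|)) / m := by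
      rw [Finset.sum_div]
      exact Finset.sum_congr rfl fun p _ => (mul_div_assoc _ _ _).symm
    rw [h4, le_div_iff₀ hm]
    have h5 : S * V j * m = S * ∑ M ∈ Ioc (w.a j) (w.b j), (1 / (M : ℝ)) *
          |cpf f 0 k 1 j M - cpf f 1 k 1 j M| := by
      show S * (_ / m) * m = _
      rw [mul_assoc, div_mul_cancel₀ _ hm.ne']
    have h6 : ε / 2 * L * m ≤ ε * L * Real.log (K j) := by
      have h7 : ε / 2 * L * m ≤ ε / 2 * L * (2 * Real.log (K j)) :=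
        mul_le_mul_of_nonneg_left hm2 (by positivity)
      linarith
    rw [sub_mul, h5]
    linarith
  have hlim2 : Tendsto (fun j => ε / 2 * L - S * V j) (hyperfilter ℕ : Filter ℕ)
      (𝓝 (ε / 2 * L - S * 0)) := tendsto_const_nhds.sub (hVlim.const_mul S)
  have hfin := le_of_tendsto_of_tendsto' hlim2 hTlim hlow
  rw [mul_zero, sub_zero] at hfin
  have h1 := hfin.trans hup
  have h2 : 128 * |C| / ε ≤ L - 4 := by linarith
  rw [div_le_iff₀ hε] at h2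
  nlinarith

end DG
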