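import Pool.Agent.Helper6.IS.Defs
import Pool.Agent.Helper11.QR.Hybrid
import Pool.Agent.Helper11.QR.Tail

/-!
# ISO-6a: tail bound for the grid sum in the model

PROOF. As QR-09 `edgeCut`, QR `modelTail` (Helper11/QR/EdgeCut.lean, ModelTail.lean) or FAR-1, one site per vertex. Union bound over
`w ∈ Wn`. For each `w` use `tail` (Helper11/QR/Tail.lean) with `V = Fin t → Fin k`, `Y = Fin (L + 2)`, `ρ v = sg P L`, index set `linG k t`,
`A e = image over i of Function.update e.2 e.1 i` (a line; two different lines share at most one vertex),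
`φ e z = R e.1 (fun i => z (update e.2 e.1 i) + sm h (a₀ + q (update ..)) + w (update ..))`. Cut condition: `i ↦ update e.2 e.1 i` is injective, so
the marginal is the product law on `Fin k` (`ec_marginal` in EdgeCut is private, copy it) and `hybrid` (Helper11/QR/Hybrid, `D = 0`) compares with
`Ep k N` (`CutLe k N δ (R j)`), error `k τ`.
-/

set_option autoImplicit false

namespace FR

open Finset Helper13.Om Helper11.QR AS

/-- the marginal on an injective family of coordinates -/
private lemma i6_marginal {V K Y : Type} [Fintype V] [DecidableEq V] [Fintype K] [DecidableEq K]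
    [Fintype Y] [DecidableEq Y] (ρ : V → Y → ℝ) (h1 : ∀ v, ∑ y, ρ v y = 1) (ι : K → V)
    (hι : Function.Injective ι) (G : (K → Y) → ℝ) :
    EE ρ (fun y => G (fun i => y (ι i))) = EE (fun i => ρ (ι i)) G := by
  classical
  unfold EE
  rw [← Finset.sum_fiberwise (Finset.univ : Finset (V → Y)) (fun y => fun i => y (ι i))]
  refine Finset.sum_congr rfl fun z _ => ?_
  have e1 : ∑ y ∈ (Finset.univ : Finset (V → Y)).filter (fun y => (fun i => y (ι i)) = z),
      (∏ v, ρ v (y v)) * G (fun i => y (ι i)) =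
      (∑ y ∈ (Finset.univ : Finset (V → Y)).filter (fun y => (fun i => y (ι i)) = z),
        ∏ v, ρ v (y v)) * G z := by
    rw [Finset.sum_mul]
    refine Finset.sum_congr rfl fun y hy => ?_
    rw [(Finset.mem_filter.1 hy).2]
  rw [e1]
  congr 1
  set t : V → Finset Y := fun v => if h : ∃ i, ι i = v then {z (Classical.choose h)} else
    Finset.univ with ht
  have ht1 : ∀ i, t (ι i) = {z i} := by
    intro i
    have h : ∃ j, ι j = ι i := ⟨i, rfl⟩
    simp only [ht]
    rw [dif_pos h, hι (Classical.choose_spec h)]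
  have e2 : (Finset.univ : Finset (V → Y)).filter (fun y => (fun i => y (ι i)) = z) =
      Fintype.piFinset t := by
    ext y
    simp only [Finset.mem_filter, Finset.mem_univ, true_and, Fintype.mem_piFinset]
    constructor
    · intro h v
      by_cases hv : ∃ i, ι i = v
      · obtain ⟨i, rfl⟩ := hv
        rw [ht1, Finset.mem_singleton]
        exact congrFun h i
      · simp only [ht]
        rw [dif_neg hv]
        exact Finset.mem_univ _
    · intro h
      funext i
      have := h (ι i)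
      rwa [ht1, Finset.mem_singleton] at this
  rw [e2, ← Finset.prod_univ_sum]
  have e3 : ∀ v, ∑ s ∈ t v, ρ v s = if h : ∃ i, ι i = v then ρ v (z (Classical.choose h)) else 1 := by
    intro v
    by_cases hv : ∃ i, ι i = v
    · simp only [ht]
      rw [dif_pos hv, dif_pos hv, Finset.sum_singleton]
    · simp only [ht]
      rw [dif_neg hv, dif_neg hv, h1]
  rw [Finset.prod_congr rfl fun v _ => e3 v]
  rw [← Finset.prod_subset (Finset.subset_univ (Finset.univ.image ι))]
  · rw [Finset.prod_image fun i _ j _ h => hι h]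
    refine Finset.prod_congr rfl fun i _ => ?_
    have h : ∃ j, ι j = ι i := ⟨i, rfl⟩
    rw [dif_pos h, hι (Classical.choose_spec h)]
  · intro v _ hv
    rw [dif_neg]
    rintro ⟨i, rfl⟩
    exact hv (Finset.mem_image_of_mem _ (Finset.mem_univ i))

private lemma i6_sm_le (h x : ℕ) : sm h x ≤ h := by
  unfold sm
  have h1 : ((Finset.range (h + 1)).filter (fun p => p.Prime ∧ p ∣ x)) ⊆ Finset.Icc 1 h := by
    intro p hp
    rw [Finset.mem_filter, Finset.mem_range] at hp
    rw [Finset.mem_Icc]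
    exact ⟨hp.2.1.one_lt.le, by omega⟩
  have h2 := Finset.card_le_card h1
  rwa [Nat.card_Icc, Nat.add_sub_cancel] at h2

private lemma i6_inj {k t : ℕ} (e : Fin t × (Fin t → Fin k)) :
    Function.Injective (fun i : Fin k => Function.update e.2 e.1 i) := by
  intro i j hij
  have h := congrFun hij e.1
  simpa using h

private lemma i6_inter {k t : ℕ} [NeZero k] (e e' : Fin t × (Fin t → Fin k)) (he : e.2 e.1 = 0)
    (he' : e'.2 e'.1 = 0) (hne : e ≠ e') :
    ((univ.image (fun i : Fin k => Function.update e.2 e.1 i)) ∩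
      (univ.image (fun i : Fin k => Function.update e'.2 e'.1 i))).card ≤ 1 := by
  rw [Finset.card_le_one]
  intro u hu v hv
  simp only [Finset.mem_inter, Finset.mem_image, Finset.mem_univ, true_and] at hu hv
  obtain ⟨⟨i, hi⟩, ⟨i', hi'⟩⟩ := hu
  obtain ⟨⟨m, hm⟩, ⟨m', hm'⟩⟩ := hv
  by_contra huv
  apply hne
  -- the two lines have the same direction
  have hdir : ∀ c, u c ≠ v c → c = e.1 := by
    intro c hc
    by_contra h
    apply hc
    rw [← hi, ← hm, Function.update_of_ne h, Function.update_of_ne h]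
  have hdir' : ∀ c, u c ≠ v c → c = e'.1 := by
    intro c hc
    by_contra h
    apply hc
    rw [← hi', ← hm', Function.update_of_ne h, Function.update_of_ne h]
  obtain ⟨c, hc⟩ : ∃ c, u c ≠ v c := Function.ne_iff.1 huv
  have h1 : e.1 = e'.1 := (hdir c hc).symm.trans (hdir' c hc)
  have h2 : e.2 = e'.2 := by
    have a1 : e.2 = Function.update u e.1 0 := by
      rw [← hi, Function.update_idem, ← he, Function.update_eq_self]
    have a2 : e'.2 = Function.update u e'.1 0 := by
      rw [← hi', Function.update_idem, ← he', Function.update_eq_self]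
    rw [a1, a2, h1]
  exact Prod.ext h1 h2

private lemma i6_edge {V : Type} [Fintype V] [DecidableEq V] (k L N B : ℕ) (hN : 1 ≤ N)
    (P : Finset ℕ) (hP : ∀ p ∈ P, p.Prime) (hL : P.card ≤ L + 1)
    (F : (Fin k → ℕ) → ℝ)
    (hF : ∀ ℓ, |F ℓ| ≤ 1) (δ τ : ℝ) (hcut : CutLe k N δ F)
    (hτ : ∀ b ≤ B, ∀ b' ≤ B, ∀ a : ℕ → ℝ, (∀ t, |a t| ≤ 1) →
      |Es P (fun t => a (t + b)) -
        1 / (N : ℝ) * ∑ n ∈ Finset.Icc 1 N, a (ArithmeticFunction.cardFactors n + b')| ≤ τ)
    (ι : Fin k → V) (hι : Function.Injective ι) (w : V → ℕ) (hw : ∀ v, w v ≤ B)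
    (f : V → Fin (L + 2) → ℝ) (hf : ∀ v t, |f v t| ≤ 1) :
    |EE (fun _ : V => sg P L) (fun y => F (fun i => (y (ι i) : ℕ) + w (ι i)) *
        ∏ v ∈ Finset.univ.image ι, f v (y v))| ≤ δ + k * τ := by
  classical
  set g : Fin k → ℕ → ℝ := fun i t =>
    if h : w (ι i) ≤ t ∧ t - w (ι i) < L + 2 then f (ι i) ⟨t - w (ι i), h.2⟩ else 0 with hg
  have hg1 : ∀ i t, |g i t| ≤ 1 := by
    intro i t
    simp only [hg]
    split_ifs
    · exact hf _ _
    · simp
  set Ψ : (Fin k → ℕ) → ℝ := fun ℓ => F ℓ * ∏ i, g i (ℓ i) with hΨ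
  have hprod : ∀ ℓ : Fin k → ℕ, |∏ i, g i (ℓ i)| ≤ 1 := by
    intro ℓ
    rw [Finset.abs_prod]
    exact Finset.prod_le_one (fun i _ => abs_nonneg _) fun i _ => hg1 i _
  have hΨ1 : ∀ ℓ, |Ψ ℓ| ≤ 1 := by
    intro ℓ
    simp only [hΨ]
    rw [abs_mul]
    exact mul_le_one₀ (hF _) (abs_nonneg _) (hprod ℓ)
  have e1 : EE (fun _ : V => sg P L) (fun y => F (fun i => (y (ι i) : ℕ) + w (ι i)) *
        ∏ v ∈ Finset.univ.image ι, f v (y v)) =
      EE (fun _ : Fin k => sg P L) (fun y => Ψ (fun i => (y i : ℕ) + w (ι i))) := by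
    rw [← i6_marginal (fun _ : V => sg P L) (fun _ => sg_sum P L) ι hι
      (fun y => Ψ (fun i => (y i : ℕ) + w (ι i)))]
    congr 1
    funext y
    simp only [hΨ]
    congr 1
    rw [Finset.prod_image fun i _ j _ h => hι h]
    refine Finset.prod_congr rfl fun i _ => ?_
    simp only [hg]
    have h : w (ι i) ≤ (y (ι i) : ℕ) + w (ι i) ∧ (y (ι i) : ℕ) + w (ι i) - w (ι i) < L + 2 :=
      ⟨Nat.le_add_left _ _, by rw [Nat.add_sub_cancel]; exact (y (ι i)).2⟩
    rw [dif_pos h]
    congr 1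
    exact Fin.ext (Nat.add_sub_cancel _ _).symm
  have e2 : |EE (fun _ : Fin k => sg P L) (fun y => Ψ (fun i => (y i : ℕ) + w (ι i))) -
      Ep k N Ψ| ≤ k * τ := by
    have h := hybrid k N L hN P hP hL B τ hτ (fun i => w (ι i)) (fun i => hw _) 0 (Nat.zero_le _)
      Ψ hΨ1
    simpa using h
  have e4 : |Ep k N Ψ| ≤ δ := hcut g hg1
  rw [e1]
  have e6 := abs_sub_abs_le_abs_sub (EE (fun _ : Fin k => sg P L)
    (fun y => Ψ (fun i => (y i : ℕ) + w (ι i)))) (Ep k N Ψ)
  linarith

theorem tailG (k t L N h a₀ S B : ℕ) [NeZero k] (hN : 1 ≤ N) (P : Finset ℕ)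
    (hP : ∀ p ∈ P, p.Prime) (hL : P.card ≤ L + 1) (R : Fin t → (Fin k → ℕ) → ℝ)
    (hR : ∀ j y, |R j y| ≤ 1) (δ τ : ℝ) (hδ : 0 ≤ δ) (hτ0 : 0 ≤ τ)
    (hcut : ∀ j, CutLe k N δ (R j))
    (hτ : ∀ b ≤ B, ∀ b' ≤ B, ∀ a : ℕ → ℝ, (∀ t, |a t| ≤ 1) →
      |Es P (fun t => a (t + b)) -
        1 / (N : ℝ) * ∑ n ∈ Finset.Icc 1 N, a (ArithmeticFunction.cardFactors n + b')| ≤ τ)
    (hB : h + S ≤ B) (q : (Fin t → Fin k) → ℕ) (T x : ℝ) (hx : 0 ≤ x) :
    EE (fun _ : Fin t → Fin k => sg P L) (fun ℓ =>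
        if ∃ w ∈ Wn (Fin t → Fin k) S, T ≤
          |∑ e ∈ linG k t, R e.1 (fun i => (ℓ (Function.update e.2 e.1 i) : ℕ) +
              sm h (a₀ + q (Function.update e.2 e.1 i)) + w (Function.update e.2 e.1 i))|
          then (1 : ℝ) else 0) ≤
      ((Wn (Fin t → Fin k) S).card : ℝ) * (2 * Real.exp (-(x * T)) *
        (Real.exp (x ^ 2 / 2 * (linG k t).card) +
          (linG k t).card * (δ + k * τ) * Real.exp (x * (linG k t).card))) := by
  classical
  have h0 : ∀ (v : Fin t → Fin k) z, 0 ≤ (fun _ : Fin t → Fin k => sg P L) v z :=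
    fun v z => sg_nonneg P hP L z
  have h1 : ∀ v : Fin t → Fin k, ∑ z, (fun _ : Fin t → Fin k => sg P L) v z = 1 :=
    fun v => sg_sum P L
  have hpt : ∀ ℓ : (Fin t → Fin k) → Fin (L + 2),
      (if ∃ w ∈ Wn (Fin t → Fin k) S, T ≤
          |∑ e ∈ linG k t, R e.1 (fun i => (ℓ (Function.update e.2 e.1 i) : ℕ) +
              sm h (a₀ + q (Function.update e.2 e.1 i)) + w (Function.update e.2 e.1 i))|
          then (1 : ℝ) else 0) ≤
      ∑ w ∈ Wn (Fin t → Fin k) S, (if T ≤
          |∑ e ∈ linG k t, R e.1 (fun i => (ℓ (Function.update e.2 e.1 i) : ℕ) +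
              sm h (a₀ + q (Function.update e.2 e.1 i)) + w (Function.update e.2 e.1 i))|
          then (1 : ℝ) else 0) := by
    intro ℓ
    have hnn : ∀ w ∈ Wn (Fin t → Fin k) S, (0 : ℝ) ≤ (if T ≤
          |∑ e ∈ linG k t, R e.1 (fun i => (ℓ (Function.update e.2 e.1 i) : ℕ) +
              sm h (a₀ + q (Function.update e.2 e.1 i)) + w (Function.update e.2 e.1 i))|
          then (1 : ℝ) else 0) := by
      intro w _
      split_ifs <;> norm_num
    split_ifs with hex
    · obtain ⟨w, hw, hT⟩ := hex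
      have := Finset.single_le_sum hnn hw
      rw [if_pos hT] at this
      exact this
    · exact Finset.sum_nonneg hnn
  refine (EE_mono _ h0 _ _ hpt).trans ?_
  rw [EE_sum]
  refine (Finset.sum_le_card_nsmul _ _ _ ?_).trans (le_of_eq (nsmul_eq_mul _ _))
  intro w hw
  have hwB : ∀ v, w v ≤ S := by
    intro v
    unfold Wn at hw
    have h2 : w v ≤ ∑ v, w v :=
      Finset.single_le_sum (fun _ _ => Nat.zero_le _) (Finset.mem_univ v)
    exact h2.trans (Finset.mem_filter.mp hw).2
  have hmem : ∀ e ∈ linG k t, e.2 e.1 = 0 := by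
    intro e he
    unfold linG at he
    exact (Finset.mem_filter.mp he).2
  refine tail _ h0 h1 (linG k t)
    (fun e => univ.image (fun i : Fin k => Function.update e.2 e.1 i))
    (fun e ℓ => R e.1 (fun i => (ℓ (Function.update e.2 e.1 i) : ℕ) +
              sm h (a₀ + q (Function.update e.2 e.1 i)) + w (Function.update e.2 e.1 i)))
    (fun e _ z => hR _ _) ?_ ?_ (δ + k * τ) (by positivity) ?_ x hx T
  · intro e _ z z' hzz
    have e1 : ∀ i : Fin k, z (Function.update e.2 e.1 i) = z' (Function.update e.2 e.1 i) :=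
      fun i => hzz _ (Finset.mem_image_of_mem _ (Finset.mem_univ i))
    simp only [e1]
  · intro e he e' he' hne
    exact i6_inter e e' (hmem e he) (hmem e' he') hne
  · intro e he f hf
    have h3 := i6_edge (V := Fin t → Fin k) k L N B hN P hP hL (R e.1) (hR e.1) δ τ
      (hcut e.1) hτ (fun i => Function.update e.2 e.1 i) (i6_inj e)
      (fun v => sm h (a₀ + q v) + w v)
      (fun v => by
        have := i6_sm_le h (a₀ + q v)
        have := hwB v
        show sm h (a₀ + q v) + w v ≤ B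
        omega) f hf
    simp only [add_assoc] at h3 ⊢
    exact h3

end FR
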