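import Pool.Agent.Helper6.IS.I6d
import Pool.Agent.Helper6.DG.F1Goal
import Pool.Agent.Helper16.UB.Mert

/-!
# ISO-7: from product sets to all bounded functions

PROOF. As F1Goal.lean (`goal_of`) / GoalW. `k = 0` trivial. Weak regularity `regBox k δ` with respect to the logarithmic law `pL N`: `F = S + r`, `S` a combination of
at most `C` boxes, `r` cut small at all scales `M ≤ N`, `log M ≥ η log N` (`cutLog`). Boxes: `IsoProd k` with `ε / (4 (C + 1))`. Step `1`: `coreW` with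
`ε / 64` (then `∑_{p ≤ Y} 1/p ≤ 3 + 2 log log Y`, any bound `C log log Y` for `Y ≥ Y0`, e.g. from the dyadic blocks as in ISO-5). Steps `p`: `fewSteps k (ε/64)` with `H = Y` for
`R m = r / 2` (all `m`): for every such scale `M ≥ N0` all primes `p ≤ Y` but at most `B` satisfy `|Ecp k p M r| ≤ ε / 32`; so
`∑_{p ≤ Y} (1/p) |Ecp k p M r| ≤ (ε/32) ∑ 1/p + 2 B`, and `2 B ≤ (ε/32) log log Y` for `Y ≥ Y0`. Scales with `log M < η log N` as in `goal_of`
(`F1.small_scales`), multiplied by `∑ 1/p`.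
-/

set_option autoImplicit false

namespace DG

open Finset Filter Topology

private lemma iso7_ll (T : ℝ) : ∃ Y0 : ℕ, ∀ Y : ℕ, Y0 ≤ Y → T ≤ Real.log (Real.log Y) := by
  have h := (Real.tendsto_log_atTop.comp (Real.tendsto_log_atTop.comp
    (tendsto_natCast_atTop_atTop (R := ℝ)))).eventually_ge_atTop T
  exact eventually_atTop.1 h

private lemma iso7_W : ∃ C : ℝ, 1 ≤ C ∧ ∃ Y0 : ℕ, ∀ Y : ℕ, Y0 ≤ Y →
    1 ≤ Real.log (Real.log Y) ∧ ∑ p ∈ prY Y, 1 / (p : ℝ) ≤ C * Real.log (Real.log Y) := by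
  obtain ⟨C, hC⟩ := Pool.Agent.Helper16.UB.exists_W_le
  obtain ⟨Y0, hY0⟩ := iso7_ll 1
  refine ⟨1 + |C|, by linarith [abs_nonneg C], max Y0 2, fun Y hY => ?_⟩
  have h1 := hY0 Y ((le_max_left _ _).trans hY)
  refine ⟨h1, (hC Y ((le_max_right _ _).trans hY)).trans ?_⟩
  have h2 := le_abs_self C
  nlinarith [abs_nonneg C]

private lemma iso7_sub (k p M : ℕ) (F G : (Fin k → ℕ) → ℝ) :
    Ecp k p M (fun l => F l - G l) = Ecp k p M F - Ecp k p M G := by
  unfold Ecp
  rw [Finset.sum_sub_distrib, mul_sub]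

private lemma iso7_smul (k p M : ℕ) (c : ℝ) (F : (Fin k → ℕ) → ℝ) :
    Ecp k p M (fun l => c * F l) = c * Ecp k p M F := by
  unfold Ecp
  rw [← Finset.mul_sum]
  ring

private lemma iso7_fsum (k p M J : ℕ) (F : Fin J → (Fin k → ℕ) → ℝ) :
    Ecp k p M (fun l => ∑ j, F j l) = ∑ j, Ecp k p M (F j) := by
  unfold Ecp
  rw [Finset.sum_comm, Finset.mul_sum]

private lemma iso7_abs (k p M : ℕ) (F : (Fin k → ℕ) → ℝ) (c : ℝ) (hc : 0 ≤ c)
    (hF : ∀ l, |F l| ≤ c) : |Ecp k p M F| ≤ c := by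
  unfold Ecp
  rcases Nat.eq_zero_or_pos M with h | h
  · subst h
    simpa using hc
  · have hM : (0 : ℝ) < M := by exact_mod_cast h
    rw [abs_mul, abs_of_pos (by positivity)]
    have h1 : |∑ n ∈ Icc 1 M, F (fun i => ArithmeticFunction.cardFactors (n + i * p))| ≤ M * c := by
      refine (Finset.abs_sum_le_sum_abs _ _).trans ?_
      refine (Finset.sum_le_sum fun n _ => hF _).trans ?_
      simp
    calc 1 / (M : ℝ) * _ ≤ 1 / (M : ℝ) * (M * c) := mul_le_mul_of_nonneg_left h1 (by positivity)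
      _ = c := by field_simp

theorem isoAll_of (k : ℕ) (hP : IsoProd k) : IsoAll k := by
  classical
  rcases Nat.eq_zero_or_pos k with hk0 | hk
  · -- `k = 0`
    subst hk0
    intro ε hε
    obtain ⟨Y0, hY0⟩ := iso7_ll 0
    refine ⟨Y0, fun Y hY => ⟨1, 1, fun N K _ hK _ F _ => ?_⟩⟩
    have h1 : ∀ p M : ℕ, Ec 0 M F - Ecp 0 p M F = 0 := by
      intro p M
      unfold Ec Ecp
      rw [sub_eq_zero]
      congr 1
      refine Finset.sum_congr rfl fun n _ => ?_
      exact congrArg F (Subsingleton.elim _ _)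
    simp only [h1, abs_zero, mul_zero, Finset.sum_const_zero]
    have h2 : 0 ≤ Real.log K := Real.log_natCast_nonneg K
    have h3 := hY0 Y hY
    positivity
  intro ε hε
  obtain ⟨C₁, hC₁, Ya, hYa⟩ := iso7_W
  have hC₁0 : 0 < C₁ := by linarith
  obtain ⟨δ₁, hδ₁, Ka, Na, hcore⟩ := Helper11.QR.coreW k hk (ε / C₁ / 16) (by positivity)
  obtain ⟨δ₂, hδ₂, B, hfew⟩ := FR.fewSteps k hk (ε / (32 * C₁)) (by positivity)
  set δ : ℝ := min δ₁ δ₂ with hδdef
  have hδ : 0 < δ := lt_min hδ₁ hδ₂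
  set τ : ℝ := δ / 2 with hτ
  have hτ0 : 0 < τ := by positivity
  obtain ⟨C, hC⟩ := Helper11.QR.regBox k δ hδ
  set η : ℝ := min (ε / C₁ / 64) (1 / 2) with hη
  have hη0 : 0 < η := lt_min (by positivity) (by norm_num)
  have hη1 : η ≤ ε / C₁ / 64 := min_le_left _ _
  have hη2 : η ≤ 1 / 2 := min_le_right _ _
  obtain ⟨Nb, hcut⟩ := Helper11.QR.cutLog k η τ hη0 hτ0
  obtain ⟨Yb, hbox0⟩ := hP (ε / (8 * (C + 1))) (by positivity)
  obtain ⟨Yc, hYc⟩ := iso7_ll (32 * B / ε)
  refine ⟨max Ya (max Yb Yc), fun Y hY => ?_⟩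
  have hYa' : Ya ≤ Y := (le_max_left _ _).trans hY
  have hYb' : Yb ≤ Y := (le_max_left _ _).trans ((le_max_right _ _).trans hY)
  have hYc' : Yc ≤ Y := (le_max_right _ _).trans ((le_max_right _ _).trans hY)
  obtain ⟨Kc, Nc, hbox⟩ := hbox0 Y hYb'
  obtain ⟨Nd, hfewY⟩ := hfew Y
  obtain ⟨Ne, hNe⟩ : ∃ Ne : ℕ, Real.exp (Real.log (Nd + 1) / η) ≤ Ne := exists_nat_ge _
  obtain ⟨Kd, hKd⟩ : ∃ Kd : ℕ, Real.exp (64 * C₁ / ε + 2) ≤ Kd := exists_nat_ge _
  refine ⟨max (max Ka Kc) (max Kd 1), max (max Na Nb) (max Nc (max Ne 1)), ?_⟩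
  intro N K hN hK hKN F hF
  have hNa : Na ≤ N := (le_max_left _ _).trans ((le_max_left _ _).trans hN)
  have hNb : Nb ≤ N := (le_max_right _ _).trans ((le_max_left _ _).trans hN)
  have hNc : Nc ≤ N := (le_max_left _ _).trans ((le_max_right _ _).trans hN)
  have hNe' : Ne ≤ N := (le_max_left _ _).trans ((le_max_right _ _).trans
    ((le_max_right _ _).trans hN))
  have hN1 : 1 ≤ N := (le_max_right _ _).trans ((le_max_right _ _).trans
    ((le_max_right _ _).trans hN))
  have hKa : Ka ≤ K := (le_max_left _ _).trans ((le_max_left _ _).trans hK)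
  have hKc : Kc ≤ K := (le_max_right _ _).trans ((le_max_left _ _).trans hK)
  have hKd' : Kd ≤ K := (le_max_left _ _).trans ((le_max_right _ _).trans hK)
  have hK1 : 1 ≤ K := (le_max_right _ _).trans ((le_max_right _ _).trans hK)
  have hKr : (0 : ℝ) < K := by exact_mod_cast hK1
  have hNr : (0 : ℝ) < N := by exact_mod_cast hN1
  set LK : ℝ := Real.log K with hLK
  set LL : ℝ := Real.log (Real.log Y) with hLL
  obtain ⟨hLL1, hS1⟩ := hYa Y hYa'
  rw [← hLL] at hLL1 hS1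
  have hLL0 : 0 < LL := by linarith
  have hBLL : 2 * (B : ℝ) ≤ ε / 16 * LL := by
    have h1 := hYc Y hYc'
    rw [div_le_iff₀ hε, ← hLL] at h1
    linarith
  have hlogK : 64 * C₁ / ε + 2 ≤ LK := by
    rw [hLK, Real.le_log_iff_exp_le hKr]
    exact hKd.trans (by exact_mod_cast hKd')
  have hlogK2 : 2 ≤ LK := by
    have : 0 ≤ 64 * C₁ / ε := by positivity
    linarith
  have hlogKε : 64 * C₁ ≤ ε * LK := by
    have h1 : 64 * C₁ / ε ≤ LK := by linarith
    rw [div_le_iff₀ hε] at h1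
    linarith
  set W : Finset ℕ := Finset.Ioc (N / K) N with hW
  set Pr : Finset ℕ := prY Y with hPr
  set S1 : ℝ := ∑ p ∈ Pr, 1 / (p : ℝ) with hS1def
  have hS10 : 0 ≤ S1 := Finset.sum_nonneg fun p _ => by positivity
  -- the law
  obtain ⟨J, c, A, hJ, hc, hS, hcutF⟩ := hC (N + k + 1) (Helper11.QR.pL N)
    (fun t => Helper11.QR.pL_nonneg N t) (Helper11.QR.pL_sum N _ hN1 (by omega)) F hF
  set S : (Fin k → ℕ) → ℝ := fun ℓ => ∑ j, c j * (if ∀ i, ℓ i ∈ A j i then (1 : ℝ) else 0)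
    with hSdef
  set r : (Fin k → ℕ) → ℝ := fun ℓ => F ℓ - S ℓ with hr
  have hcutr : ∀ f : Fin k → ℕ → ℝ, (∀ i t, |f i t| ≤ 1) →
      |Helper11.QR.EpL k N (fun ℓ => r ℓ * ∏ i, f i (ℓ i))| ≤ δ := hcutF
  have hr2 : ∀ ℓ, |r ℓ| ≤ 2 := by
    intro ℓ
    have h1 : |S ℓ| ≤ 1 := hS ℓ
    have h2 := abs_sub (F ℓ) (S ℓ)
    have h3 := hF ℓ
    show |F ℓ - S ℓ| ≤ 2
    linarith
  have hhr : ∀ ℓ, |1 / 2 * r ℓ| ≤ 1 := by
    intro ℓ
    rw [abs_mul, abs_of_pos (by norm_num : (0 : ℝ) < 1 / 2)]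
    linarith [hr2 ℓ]
  have hcutM : ∀ M : ℕ, M ≤ N → η * Real.log N ≤ Real.log M →
      Helper11.QR.CutLe k M δ (fun ℓ => 1 / 2 * r ℓ) := by
    intro M hMN hM f hf
    have hprod : ∀ ℓ : Fin k → ℕ, |∏ i, f i (ℓ i)| ≤ 1 := by
      intro ℓ
      rw [Finset.abs_prod]
      exact Finset.prod_le_one (fun i _ => abs_nonneg _) fun i _ => hf i (ℓ i)
    have h2 := hcut N hNb M hMN hM (fun ℓ => 1 / 2 * r ℓ * ∏ i, f i (ℓ i)) (fun ℓ => by
      rw [abs_mul]
      exact mul_le_one₀ (hhr ℓ) (abs_nonneg _) (hprod ℓ))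
    have h3 : Helper11.QR.EpL k N (fun ℓ => 1 / 2 * r ℓ * ∏ i, f i (ℓ i)) =
        1 / 2 * Helper11.QR.EpL k N (fun ℓ => r ℓ * ∏ i, f i (ℓ i)) := by
      unfold Helper11.QR.EpL
      rw [Finset.mul_sum]
      refine Finset.sum_congr rfl fun ℓ _ => ?_
      ring
    rw [h3] at h2
    have h4 := hcutr f hf
    have h5 := abs_le.1 h2
    have h6 := abs_le.1 h4
    rw [abs_le]
    constructor <;> linarith [h5.1, h5.2, h6.1, h6.2]
  set Wl : Finset ℕ := W.filter (fun M : ℕ => η * Real.log N ≤ Real.log M) with hWl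
  have hWlW : Wl ⊆ W := Finset.filter_subset _ _
  -- step `1`
  have hrem1 : ∑ M ∈ Wl, (1 / (M : ℝ)) * |Ec k M r| ≤ ε / C₁ / 8 * LK := by
    have h1 := hcore N K hNa hKa hKN (fun M ℓ => if η * Real.log N ≤ Real.log M then
      1 / 2 * r ℓ else 0) (fun M ℓ => by
        by_cases h : η * Real.log N ≤ Real.log M
        · simp only [if_pos h]
          exact hhr ℓ
        · simp only [if_neg h]
          rw [abs_zero]
          exact zero_le_one) (fun M hM => by
        intro f hf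
        by_cases h : η * Real.log N ≤ Real.log M
        · simp only [if_pos h]
          exact (hcutM M (Finset.mem_Ioc.1 hM).2 h f hf).trans (min_le_left _ _)
        · simp only [if_neg h]
          have h0 : Helper13.Om.Ep k M (fun ℓ => 0 * ∏ i, f i (ℓ i)) = 0 := by
            unfold Helper13.Om.Ep
            simp
          rw [h0, abs_zero]
          exact hδ₁.le)
    have h2 : ∑ M ∈ Wl, (1 / (M : ℝ)) * (1 / 2 * |Ec k M r|) ≤ ε / C₁ / 16 * LK := by
      refine le_trans ?_ h1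
      rw [hWl, Finset.sum_filter]
      refine Finset.sum_le_sum fun M _ => ?_
      by_cases h : η * Real.log N ≤ Real.log M
      · simp only [if_pos h]
        have h3 : Helper13.Om.Em k M (fun ℓ => 1 / 2 * r ℓ) = 1 / 2 * Ec k M r :=
          Helper11.QR.Em_smul' k M (1 / 2) r
        rw [h3, abs_mul, abs_of_pos (by norm_num : (0 : ℝ) < 1 / 2)]
      · simp only [if_neg h]
        positivity
    have h3 : ∑ M ∈ Wl, (1 / (M : ℝ)) * (1 / 2 * |Ec k M r|) =
        1 / 2 * ∑ M ∈ Wl, (1 / (M : ℝ)) * |Ec k M r| := by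
      rw [Finset.mul_sum]
      refine Finset.sum_congr rfl fun M _ => ?_
      ring
    rw [h3] at h2
    linarith
  have hT2 : ∑ p ∈ Pr, (1 / (p : ℝ)) * ∑ M ∈ Wl, (1 / (M : ℝ)) * |Ec k M r| ≤
      ε / 8 * LL * LK := by
    rw [← Finset.sum_mul]
    have h1 : S1 * (∑ M ∈ Wl, (1 / (M : ℝ)) * |Ec k M r|) ≤ (C₁ * LL) * (ε / C₁ / 8 * LK) :=
      mul_le_mul hS1 hrem1 (Finset.sum_nonneg fun M _ => by positivity) (by positivity)
    refine h1.trans (le_of_eq ?_)
    field_simp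
  -- steps `p`
  have hT3 : ∑ p ∈ Pr, (1 / (p : ℝ)) * ∑ M ∈ Wl, (1 / (M : ℝ)) * |Ecp k p M r| ≤
      ε / 4 * LL * LK := by
    have h1 : ∑ p ∈ Pr, (1 / (p : ℝ)) * ∑ M ∈ Wl, (1 / (M : ℝ)) * |Ecp k p M r| =
        ∑ M ∈ Wl, (1 / (M : ℝ)) * ∑ p ∈ Pr, (1 / (p : ℝ)) * |Ecp k p M r| := by
      simp only [Finset.mul_sum]
      rw [Finset.sum_comm]
      refine Finset.sum_congr rfl fun M _ => Finset.sum_congr rfl fun p _ => ?_
      ring
    have h2 : ∀ M ∈ Wl, ∑ p ∈ Pr, (1 / (p : ℝ)) * |Ecp k p M r| ≤ ε / 8 * LL := by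
      intro M hM
      rw [hWl, Finset.mem_filter] at hM
      have hMW := Finset.mem_Ioc.1 hM.1
      have hM0 : (0 : ℝ) < M := by
        have : 0 < M := lt_of_le_of_lt (Nat.zero_le _) hMW.1
        exact_mod_cast this
      have hNdM : Nd ≤ M := by
        have h3 : Real.log (Nd + 1) / η ≤ Real.log N := by
          rw [Real.le_log_iff_exp_le hNr]
          exact hNe.trans (by exact_mod_cast hNe')
        rw [div_le_iff₀ hη0] at h3
        have h4 : Real.log ((Nd : ℝ) + 1) ≤ Real.log M := by linarith [hM.2]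
        have h5 : (Nd : ℝ) + 1 ≤ M := (Real.log_le_log_iff (by positivity) hM0).1 h4
        have h6 : (Nd : ℝ) ≤ M := by linarith
        exact_mod_cast h6
      have h3 := hfewY M hNdM (fun _ ℓ => 1 / 2 * r ℓ) (fun _ ℓ => hhr ℓ)
        (fun _ f hf => (hcutM M hMW.2 hM.2 f hf).trans (min_le_right _ _))
      set Bad : Finset ℕ := (Icc 1 Y).filter (fun m => ε / (32 * C₁) ≤
        |1 / (M : ℝ) * ∑ n ∈ Icc 1 M,
          (fun (_ : ℕ) (ℓ : Fin k → ℕ) => 1 / 2 * r ℓ) m
            (fun i => ArithmeticFunction.cardFactors (n + i * m))|) with hBad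
      have h4 : ∀ p ∈ Pr, (1 / (p : ℝ)) * |Ecp k p M r| ≤
          (1 / (p : ℝ)) * (ε / (16 * C₁)) + (if p ∈ Bad then 2 else 0) := by
        intro p hp
        have hp' := Finset.mem_filter.1 hp
        have hp1 : (1 : ℝ) ≤ p := by exact_mod_cast (Finset.mem_Icc.1 hp'.1).1
        have hp0 : (0 : ℝ) < p := by linarith
        have h5 : Ecp k p M (fun ℓ => 1 / 2 * r ℓ) = 1 / 2 * Ecp k p M r := iso7_smul k p M _ r
        by_cases hb : p ∈ Bad
        · rw [if_pos hb]
          have h6 := iso7_abs k p M r 2 (by norm_num) hr2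
          have h7 : 1 / (p : ℝ) ≤ 1 := by
            rw [div_le_one hp0]
            exact hp1
          have h8 : (1 / (p : ℝ)) * |Ecp k p M r| ≤ 1 * 2 :=
            mul_le_mul h7 h6 (abs_nonneg _) (by norm_num)
          have h9 : 0 ≤ (1 / (p : ℝ)) * (ε / (16 * C₁)) := by positivity
          linarith
        · rw [if_neg hb, add_zero]
          refine mul_le_mul_of_nonneg_left ?_ (by positivity)
          have h6 : |Ecp k p M (fun ℓ => 1 / 2 * r ℓ)| < ε / (32 * C₁) := by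
            by_contra hcon
            rw [not_lt] at hcon
            exact hb (Finset.mem_filter.2 ⟨hp'.1, hcon⟩)
          rw [h5, abs_mul, abs_of_pos (by norm_num : (0 : ℝ) < 1 / 2)] at h6
          have h7 : ε / (16 * C₁) = 2 * (ε / (32 * C₁)) := by
            field_simp
            norm_num
          rw [h7]
          linarith
      refine (Finset.sum_le_sum h4).trans ?_
      rw [Finset.sum_add_distrib, ← Finset.sum_mul, ← Finset.sum_filter, Finset.sum_const,
        nsmul_eq_mul]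
      have h5 : ((Pr.filter (fun p => p ∈ Bad)).card : ℝ) ≤ B := by
        have : (Pr.filter (fun p => p ∈ Bad)).card ≤ Bad.card :=
          Finset.card_le_card fun p hp => (Finset.mem_filter.1 hp).2
        exact_mod_cast this.trans h3
      have h6 : S1 * (ε / (16 * C₁)) ≤ ε / 16 * LL := by
        refine (mul_le_mul_of_nonneg_right hS1 (by positivity)).trans (le_of_eq ?_)
        field_simp
      linarith
    rw [h1]
    calc ∑ M ∈ Wl, (1 / (M : ℝ)) * ∑ p ∈ Pr, (1 / (p : ℝ)) * |Ecp k p M r|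
        ≤ ∑ M ∈ Wl, (1 / (M : ℝ)) * (ε / 8 * LL) :=
          Finset.sum_le_sum fun M hM => mul_le_mul_of_nonneg_left (h2 M hM) (by positivity)
      _ ≤ ∑ M ∈ W, (1 / (M : ℝ)) * (ε / 8 * LL) :=
          Finset.sum_le_sum_of_subset_of_nonneg hWlW fun M _ _ => by positivity
      _ = (∑ M ∈ W, (1 / (M : ℝ))) * (ε / 8 * LL) := by rw [← Finset.sum_mul]
      _ ≤ (LK + 2) * (ε / 8 * LL) :=
          mul_le_mul_of_nonneg_right (Helper11.QR.harm_window N K hK1 hKN) (by positivity)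
      _ ≤ ε / 4 * LL * LK := by
          have : 0 ≤ ε / 8 * LL := by positivity
          nlinarith
  -- the boxes
  have hT1 : ∑ p ∈ Pr, (1 / (p : ℝ)) * ∑ M ∈ Wl, (1 / (M : ℝ)) *
      |Ec k M S - Ecp k p M S| ≤ ε / 8 * LL * LK := by
    have h1 : ∀ p ∈ Pr, ∀ M ∈ W, (1 / (M : ℝ)) * |Ec k M S - Ecp k p M S| ≤
        ∑ j, (1 / (M : ℝ)) *
        |Ec k M (fun ℓ => if ∀ i, ℓ i ∈ A j i then (1 : ℝ) else 0) -
          Ecp k p M (fun ℓ => if ∀ i, ℓ i ∈ A j i then (1 : ℝ) else 0)| := by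
      intro p _ M _
      rw [← Finset.mul_sum]
      refine mul_le_mul_of_nonneg_left ?_ (by positivity)
      have e1 : Ec k M S = ∑ j, c j * Ec k M (fun ℓ => if ∀ i, ℓ i ∈ A j i then (1 : ℝ)
          else 0) := by
        have h3 := Helper11.QR.Em_fsum k M J
          (fun j ℓ => c j * (if ∀ i, ℓ i ∈ A j i then (1 : ℝ) else 0))
        refine Eq.trans h3 ?_
        refine Finset.sum_congr rfl fun j _ => ?_
        exact Helper11.QR.Em_smul' k M (c j) (fun ℓ => if ∀ i, ℓ i ∈ A j i then (1 : ℝ) else 0)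
      have e2 : Ecp k p M S = ∑ j, c j * Ecp k p M (fun ℓ => if ∀ i, ℓ i ∈ A j i then (1 : ℝ)
          else 0) := by
        rw [hSdef, iso7_fsum k p M J
          (fun j ℓ => c j * (if ∀ i, ℓ i ∈ A j i then (1 : ℝ) else 0))]
        refine Finset.sum_congr rfl fun j _ => ?_
        rw [iso7_smul]
      rw [e1, e2, ← Finset.sum_sub_distrib]
      refine (Finset.abs_sum_le_sum_abs _ _).trans ?_
      refine Finset.sum_le_sum fun j _ => ?_
      rw [← mul_sub, abs_mul]
      have h3 := mul_le_mul_of_nonneg_right (hc j) (abs_nonneg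
        (Ec k M (fun ℓ => if ∀ i, ℓ i ∈ A j i then (1 : ℝ) else 0) -
          Ecp k p M (fun ℓ => if ∀ i, ℓ i ∈ A j i then (1 : ℝ) else 0)))
      rw [one_mul] at h3
      exact h3
    calc ∑ p ∈ Pr, (1 / (p : ℝ)) * ∑ M ∈ Wl, (1 / (M : ℝ)) * |Ec k M S - Ecp k p M S|
        ≤ ∑ p ∈ Pr, (1 / (p : ℝ)) * ∑ M ∈ W, (1 / (M : ℝ)) * |Ec k M S - Ecp k p M S| := by
          refine Finset.sum_le_sum fun p _ => mul_le_mul_of_nonneg_left ?_ (by positivity)
          exact Finset.sum_le_sum_of_subset_of_nonneg hWlW fun M _ _ => by positivity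
      _ ≤ ∑ p ∈ Pr, (1 / (p : ℝ)) * ∑ M ∈ W, ∑ j, (1 / (M : ℝ)) *
          |Ec k M (fun ℓ => if ∀ i, ℓ i ∈ A j i then (1 : ℝ) else 0) -
            Ecp k p M (fun ℓ => if ∀ i, ℓ i ∈ A j i then (1 : ℝ) else 0)| := by
          refine Finset.sum_le_sum fun p hp => mul_le_mul_of_nonneg_left ?_ (by positivity)
          exact Finset.sum_le_sum fun M hM => h1 p hp M hM
      _ = ∑ j : Fin J, ∑ p ∈ Pr, (1 / (p : ℝ)) * ∑ M ∈ W, (1 / (M : ℝ)) *
          |Ec k M (fun ℓ => if ∀ i, ℓ i ∈ A j i then (1 : ℝ) else 0) -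
            Ecp k p M (fun ℓ => if ∀ i, ℓ i ∈ A j i then (1 : ℝ) else 0)| := by
          rw [Finset.sum_comm]
          refine Finset.sum_congr rfl fun p _ => ?_
          rw [← Finset.mul_sum, Finset.sum_comm]
      _ ≤ ∑ _j : Fin J, ε / (8 * (C + 1)) * LL * LK :=
          Finset.sum_le_sum fun j _ => hbox N K hNc hKc hKN (A j)
      _ ≤ ε / 8 * LL * LK := by
          rw [Finset.sum_const, Finset.card_univ, Fintype.card_fin, nsmul_eq_mul]
          have h3 : (J : ℝ) ≤ C + 1 := by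
            have : (J : ℝ) ≤ C := by exact_mod_cast hJ
            linarith
          have h4 : 0 ≤ ε / (8 * ((C : ℝ) + 1)) * LL * LK := by positivity
          refine (mul_le_mul_of_nonneg_right h3 h4).trans (le_of_eq ?_)
          field_simp
  -- the small scales
  have hsmall1 : ∑ M ∈ W.filter (fun M : ℕ => ¬ η * Real.log N ≤ Real.log M),
      (1 / (M : ℝ)) * 2 ≤ 2 + ε / C₁ / 16 * LK := by
    rcases Finset.eq_empty_or_nonempty
      (W.filter (fun M : ℕ => ¬ η * Real.log N ≤ Real.log M)) with hemp | ⟨M0, hM0⟩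
    · rw [hemp, Finset.sum_empty]
      positivity
    · rw [Finset.mem_filter, not_le] at hM0
      have hM0W := Finset.mem_Ioc.1 hM0.1
      have hM0pos : (0 : ℝ) < M0 := by
        have : 0 < M0 := lt_of_le_of_lt (Nat.zero_le _) hM0W.1
        exact_mod_cast this
      have h1 : (N : ℝ) < M0 * K := by
        have := (Nat.div_lt_iff_lt_mul hK1).1 hM0W.1
        exact_mod_cast this
      have h2 : Real.log N ≤ Real.log M0 + LK := by
        rw [hLK, ← Real.log_mul hM0pos.ne' hKr.ne']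
        exact Real.log_le_log hNr h1.le
      have hlogN : 0 ≤ Real.log N := Real.log_nonneg (by exact_mod_cast hN1)
      have h3 : Real.log N ≤ 2 * LK := by
        have h4 : η * Real.log N ≤ 1 / 2 * Real.log N := mul_le_mul_of_nonneg_right hη2 hlogN
        linarith [hM0.2]
      calc ∑ M ∈ W.filter (fun M : ℕ => ¬ η * Real.log N ≤ Real.log M), (1 / (M : ℝ)) * 2
          ≤ ∑ M ∈ (Finset.Icc 1 N).filter (fun M : ℕ => ¬ η * Real.log N ≤ Real.log M),
            (1 / (M : ℝ)) * 2 := by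
            apply Finset.sum_le_sum_of_subset_of_nonneg
            · intro M hM
              rw [Finset.mem_filter] at hM ⊢
              have h5 := Finset.mem_Ioc.1 hM.1
              refine ⟨Finset.mem_Icc.2 ⟨?_, h5.2⟩, hM.2⟩
              exact Nat.succ_le_of_lt (lt_of_le_of_lt (Nat.zero_le _) h5.1)
            · intro M _ _
              positivity
        _ = 2 * ∑ M ∈ (Finset.Icc 1 N).filter (fun M : ℕ => ¬ η * Real.log N ≤ Real.log M),
            (1 / (M : ℝ)) := by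
            rw [← Finset.sum_mul, mul_comm]
        _ ≤ 2 * (1 + η * Real.log N) :=
            mul_le_mul_of_nonneg_left (F1.small_scales N hN1 η hη0) (by norm_num)
        _ ≤ 2 + ε / C₁ / 16 * LK := by
            have h6 : η * Real.log N ≤ ε / C₁ / 64 * (2 * LK) :=
              mul_le_mul hη1 h3 hlogN (by positivity)
            linarith
  have hsmall : ∑ p ∈ Pr, (1 / (p : ℝ)) *
      ∑ M ∈ W.filter (fun M : ℕ => ¬ η * Real.log N ≤ Real.log M),
        (1 / (M : ℝ)) * |Ec k M F - Ecp k p M F| ≤ ε / 8 * LL * LK := by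
    have htriv : ∀ p M : ℕ, |Ec k M F - Ecp k p M F| ≤ 2 := by
      intro p M
      have h2 : |Ec k M F| ≤ 1 := Helper11.QR.Em_abs_le_of k M F hF
      have h3 := iso7_abs k p M F 1 zero_le_one hF
      have := abs_sub (Ec k M F) (Ecp k p M F)
      linarith
    calc ∑ p ∈ Pr, (1 / (p : ℝ)) *
          ∑ M ∈ W.filter (fun M : ℕ => ¬ η * Real.log N ≤ Real.log M),
            (1 / (M : ℝ)) * |Ec k M F - Ecp k p M F|
        ≤ ∑ p ∈ Pr, (1 / (p : ℝ)) * (2 + ε / C₁ / 16 * LK) := by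
          refine Finset.sum_le_sum fun p _ => mul_le_mul_of_nonneg_left ?_ (by positivity)
          refine le_trans ?_ hsmall1
          exact Finset.sum_le_sum fun M _ => mul_le_mul_of_nonneg_left (htriv p M)
            (by positivity)
      _ = S1 * (2 + ε / C₁ / 16 * LK) := by rw [← Finset.sum_mul]
      _ ≤ (C₁ * LL) * (2 + ε / C₁ / 16 * LK) :=
          mul_le_mul_of_nonneg_right hS1 (by positivity)
      _ = LL * (2 * C₁) + ε / 16 * LL * LK := by
          field_simp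
      _ ≤ LL * (ε / 32 * LK) + ε / 16 * LL * LK := by
          have h1 : LL * (2 * C₁) ≤ LL * (ε / 32 * LK) :=
            mul_le_mul_of_nonneg_left (by linarith) hLL0.le
          linarith
      _ ≤ ε / 8 * LL * LK := by
          have h1 : 0 ≤ ε * LL * LK := by positivity
          nlinarith
  -- assembly
  have hsplit : ∀ p M : ℕ, |Ec k M F - Ecp k p M F| ≤
      |Ec k M S - Ecp k p M S| + |Ec k M r| + |Ecp k p M r| := by
    intro p M
    have e1 : Ec k M r = Ec k M F - Ec k M S := Helper11.QR.Em_sub' k M F S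
    have e2 : Ecp k p M r = Ecp k p M F - Ecp k p M S := iso7_sub k p M F S
    have e3 : Ec k M F - Ecp k p M F =
        (Ec k M S - Ecp k p M S) + Ec k M r - Ecp k p M r := by
      rw [e1, e2]
      ring
    rw [e3]
    have h2 := abs_sub ((Ec k M S - Ecp k p M S) + Ec k M r) (Ecp k p M r)
    have h3 := abs_add_le (Ec k M S - Ecp k p M S) (Ec k M r)
    linarith
  have hlarge : ∑ p ∈ Pr, (1 / (p : ℝ)) * ∑ M ∈ Wl, (1 / (M : ℝ)) *
      |Ec k M F - Ecp k p M F| ≤ ε / 8 * LL * LK + ε / 8 * LL * LK + ε / 4 * LL * LK := by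
    refine le_trans ?_ (add_le_add (add_le_add hT1 hT2) hT3)
    rw [← Finset.sum_add_distrib, ← Finset.sum_add_distrib]
    refine Finset.sum_le_sum fun p _ => ?_
    rw [← mul_add, ← mul_add]
    refine mul_le_mul_of_nonneg_left ?_ (by positivity)
    rw [← Finset.sum_add_distrib, ← Finset.sum_add_distrib]
    refine Finset.sum_le_sum fun M _ => ?_
    rw [← mul_add, ← mul_add]
    exact mul_le_mul_of_nonneg_left (hsplit p M) (by positivity)
  have hfin : ∑ p ∈ Pr, (1 / (p : ℝ)) * ∑ M ∈ W, (1 / (M : ℝ)) * |Ec k M F - Ecp k p M F| =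
      ∑ p ∈ Pr, (1 / (p : ℝ)) * ∑ M ∈ Wl, (1 / (M : ℝ)) * |Ec k M F - Ecp k p M F| +
      ∑ p ∈ Pr, (1 / (p : ℝ)) *
        ∑ M ∈ W.filter (fun M : ℕ => ¬ η * Real.log N ≤ Real.log M),
          (1 / (M : ℝ)) * |Ec k M F - Ecp k p M F| := by
    rw [← Finset.sum_add_distrib]
    refine Finset.sum_congr rfl fun p _ => ?_
    rw [← mul_add, hWl, Finset.sum_filter_add_sum_filter_not]
  rw [hfin]
  have h1 : 0 ≤ ε * LL * LK := by positivity
  linarith

end DG
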