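import Pool.Agent.Helper6.IS.Defs

/-!
# Project ISO, strong form: the exceptional primes satisfy `∑ 1 / p ≤ C` with `C` independent of `Y`
-/

set_option autoImplicit false

namespace DG

open Finset Filter Topology

/-- Entropy decrement, sum over the bad primes: for one invariant weight the primes `p` with a mean larger
than `ε` satisfy `∑ 1 / p ≤ C`, with `C` depending on `k` and `ε` only. -/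
def EntS : Prop := ∀ (k : ℕ) (ε : ℝ), 0 < ε → ∃ C : ℝ, ∀ (X : Sys) (pos : X.S → ℤ),
  (∀ x, pos (X.T x) = pos x + 1) → ∀ f : ℕ → X.S → ℝ, (∀ i x, f i x = 0 ∨ f i x = 1) →
  ∀ Cw : X.S → ℂ, (∀ x, ‖Cw x‖ ≤ 1) → TInv X Cw →
  ∀ B : Finset ℕ, (∀ p ∈ B, p.Prime ∧ ε < ‖X.μ.E (fun x => Cw x *
      ((if (p : ℤ) ∣ pos x then (p : ℂ) else 0) - 1) *
        ∏ i ∈ range (k + 1), ((f i ((X.T ^ ((i : ℤ) * p)) x) : ℝ) : ℂ))‖) →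
  ∑ p ∈ B, 1 / (p : ℝ) ≤ C

/-- Product sets, strong form. -/
def IsoProdC (k : ℕ) : Prop := ∀ ε : ℝ, 0 < ε → ∃ C : ℝ, ∀ Y : ℕ, ∃ K0 N0 : ℕ,
  ∀ N K : ℕ, N0 ≤ N → K0 ≤ K → K ≤ N → ∀ A : Fin k → Finset ℕ,
    ∃ E : Finset ℕ, E ⊆ prY Y ∧ ∑ p ∈ E, 1 / (p : ℝ) ≤ C ∧ ∀ p ∈ prY Y, p ∉ E →
      ∑ M ∈ Ioc (N / K) N, (1 / (M : ℝ)) *
        |Ec k M (fun l => if ∀ i, l i ∈ A i then 1 else 0) -
          Ecp k p M (fun l => if ∀ i, l i ∈ A i then 1 else 0)| ≤ ε * Real.log K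

/-- All bounded functions, strong form. -/
def IsoAllC (k : ℕ) : Prop := ∀ ε : ℝ, 0 < ε → ∃ C : ℝ, ∀ Y : ℕ, ∃ K0 N0 : ℕ,
  ∀ N K : ℕ, N0 ≤ N → K0 ≤ K → K ≤ N → ∀ F : (Fin k → ℕ) → ℝ, (∀ l, |F l| ≤ 1) →
    ∃ E : Finset ℕ, E ⊆ prY Y ∧ ∑ p ∈ E, 1 / (p : ℝ) ≤ C ∧ ∀ p ∈ prY Y, p ∉ E →
      ∑ M ∈ Ioc (N / K) N, (1 / (M : ℝ)) * |Ec k M F - Ecp k p M F| ≤ ε * Real.log K

end DG
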